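import Pool.Agent.P.MP_038aca_al.Top.Flow

/-! The homology classes reached by moving a handle around. -/

namespace Pool.Agent.P.MP_038aca_al.Top

variable {J G : Type} [Group G]

/-- Labelled patterns all of whose diagrams with one crossing on `o` are realised in `S`. -/
structure Reach_St (p : Pr J) (S : Set G) (o : J) (W : List (J × Bool)) (τ : J → G) : Prop where
  pat : Pat W
  lab : IsLab p τ
  dg : ∀ x, Dg p W τ o x → x ∈ S

theorem Reach_St.rot {p : Pr J} {S : Set G} {o : J} {W W' : List (J × Bool)} {τ : J → G}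
    (h : Reach_St p S o W τ) (hr : W ~r W') : Reach_St p S o W' τ :=
  ⟨h.pat.rot hr, h.lab, fun x hx => h.dg x (hx.rot hr.symm)⟩

theorem Reach_St.move {p : Pr J} {S : Set G} {o : J} {M : Mv J} {τ : J → G}
    (h : Reach_St p S o (M.src p) τ) (hb : M.b ≠ o) (hb' : M.b ≠ p.σ o) :
    Reach_St p S o (M.tgt p) (M.lab p τ) :=
  ⟨Mv.pat_tgt h.pat, Mv.isLab_lab h.lab, fun x hx => h.dg x (hx.back h.pat h.lab hb hb')⟩

theorem Reach_inj (p : Pr J) {a b : J} (h : p.σ a = p.σ b) : a = b := by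
  rw [← p.σσ a, h, p.σσ]

theorem Reach_ne {p : Pr J} {o y : J} {f e : Bool} {Y : List (J × Bool)}
    (h : Pat ((y, f) :: (p.σ o, e) :: (p.σ y, !f) :: Y)) : y ≠ o ∧ y ≠ p.σ o ∧
      ∀ s ∈ Y, s.1 ≠ y ∧ s.1 ≠ p.σ o ∧ s.1 ≠ p.σ y := by
  have h1 := h.nodup
  simp only [List.map_cons, List.nodup_cons, List.mem_cons, List.mem_map, not_or,
    not_exists, not_and] at h1
  obtain ⟨⟨a1, -, a3⟩, ⟨b1, b2⟩, c1, -⟩ := h1
  exact ⟨fun e => b1 (by rw [e]), a1, fun s hs => ⟨a3 s hs, b2 s hs, c1 s hs⟩⟩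

theorem Reach_of (p : Pr J) (M : Mv J) (τ : J → G) (j : J) :
    Abelianization.of (M.lab p τ j) = Abelianization.of (τ j) *
      (Abelianization.of (M.u p τ j) * (Abelianization.of (M.u p τ (p.σ j)))⁻¹) := by
  rw [Mv.lab, map_mul, map_mul, map_inv, mul_comm (Abelianization.of (M.u p τ j)), mul_assoc]

theorem Reach_twist {p : Pr J} {S : Set G} {o y : J} {f e : Bool} {Za Zb : List (J × Bool)}
    {τ : J → G} (h : Reach_St p S o ((y, f) :: (p.σ o, e) :: (p.σ y, !f) :: (Za ++ Zb)) τ) :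
    ∃ τ' : J → G, Reach_St p S o ((y, f) :: (p.σ o, e) :: (p.σ y, !f) :: (Zb ++ Za)) τ' ∧
      τ' y = τ y ∧ (∀ j, ∃ b ∈ Subgroup.zpowers (Abelianization.of (τ y)),
        Abelianization.of (τ' j) = Abelianization.of (τ j) * b) ∧
      (Za = [] → Abelianization.of (τ' o) =
        Abelianization.of (τ o) * (Abelianization.of (τ y))⁻¹) := by
  obtain ⟨n1, n2, -⟩ := Reach_ne h.pat
  let M : Mv J := ⟨[(p.σ o, e)], Za, Zb, [], p.σ y, !f, f⟩
  have hs : M.src p = ((p.σ o, e) :: (p.σ y, !f) :: (Za ++ Zb)) ++ [(y, f)] := by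
    simp [M, Mv.src, Mv.L, Mv.R, p.σσ]
  have ht : M.tgt p = ((p.σ y, !f) :: (Zb ++ Za)) ++ [(y, f), (p.σ o, e)] := by
    simp [M, Mv.tgt, Mv.mid, p.σσ]
  have h1 : Reach_St p S o (M.src p) τ := by
    rw [hs]; exact h.rot (List.isRotated_append (l := [(y, f)]))
  have h2 := h1.move (fun e => n2 (by rw [← e, p.σσ])) fun e => n1 (Reach_inj p e)
  have hu : ∀ j, Abelianization.of (M.u p τ j) ∈ Subgroup.zpowers (Abelianization.of (τ y)) := by
    intro j
    rw [Mv.u]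
    split_ifs
    · rw [p.σσ]; exact Subgroup.mem_zpowers _
    · rw [map_one]; exact one_mem _
  refine ⟨M.lab p τ, ?_, ?_, fun j => ⟨_, mul_mem (hu j) (inv_mem (hu _)), Reach_of p M τ j⟩, ?_⟩
  · rw [ht] at h2
    exact h2.rot List.isRotated_append
  · have := (Mv.lab_b h1.pat τ).2
    rwa [p.σσ] at this
  · rintro rfl
    have e1 : M.u p τ o = 1 := by simp [M, Mv.u, (p.ne o).symm]
    have e2 : M.u p τ (p.σ o) = τ y := by simp [M, Mv.u, p.σσ]
    rw [Reach_of, e1, e2, map_one, one_mul]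

theorem Reach_twist2 {p : Pr J} {S : Set G} {o y : J} {f e : Bool} {Y : List (J × Bool)}
    {τ : J → G} (h : Reach_St p S o ((y, f) :: (p.σ o, e) :: (p.σ y, !f) :: Y) τ) :
    ∃ τ' : J → G, Reach_St p S o ((y, f) :: (p.σ o, e) :: (p.σ y, !f) :: Y) τ' ∧
      (∀ j, j ≠ o → j ≠ p.σ o → τ' j = τ j) ∧
      Abelianization.of (τ' o) = Abelianization.of (τ o) * Abelianization.of (τ y) := by
  obtain ⟨n1, n2, -⟩ := Reach_ne h.pat
  let M : Mv J := ⟨[], [(p.σ o, e)], [], Y, y, f, !f⟩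
  have hs : M.src p = (y, f) :: (p.σ o, e) :: (p.σ y, !f) :: Y := by
    simp [M, Mv.src, Mv.L, Mv.R]
  have ht : M.tgt p = (y, f) :: (p.σ o, e) :: (p.σ y, !f) :: Y := by
    simp [M, Mv.tgt, Mv.mid]
  have h2 := (hs ▸ h : Reach_St p S o (M.src p) τ).move n1 n2
  have hu : ∀ j, j ≠ p.σ o → M.u p τ j = 1 := fun j hj => by simp [M, Mv.u, hj]
  refine ⟨M.lab p τ, ht ▸ h2, fun j h1 h2 => ?_, ?_⟩
  · rw [Mv.lab, hu j h2, hu _ fun e => h1 (Reach_inj p e), one_mul, inv_one, mul_one]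
  · have e2 : M.u p τ (p.σ o) = τ (p.σ y) := by simp [M, Mv.u]
    rw [Reach_of, hu o (p.ne o).symm, e2, h.lab, map_one, one_mul, map_inv, inv_inv]

theorem Reach_slide {p : Pr J} {S : Set G} {o y z : J} {f e g g' : Bool}
    {R1 R2 : List (J × Bool)} {τ : J → G} (h : Reach_St p S o
      ((y, f) :: (p.σ o, e) :: (p.σ y, !f) :: (z, g) :: (R1 ++ (p.σ z, g') :: R2)) τ)
    (hz : z ≠ o) : ∃ (τ' : J → G) (y₂ : J) (f₂ e₂ : Bool) (Y₂ : List (J × Bool)),
      (y₂ = y ∨ y₂ = p.σ y) ∧ Reach_St p S o ((y₂, f₂) :: (p.σ o, e₂) :: (p.σ y₂, !f₂) :: Y₂) τ' ∧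
      (∀ j, j ≠ o → j ≠ p.σ o → Abelianization.of (τ' j) = Abelianization.of (τ j)) ∧
      Abelianization.of (τ' o) = Abelianization.of (τ o) * Abelianization.of (τ z) := by
  classical
  obtain ⟨n1, n2, n3⟩ := Reach_ne h.pat
  let M : Mv J := ⟨[(y, f), (p.σ o, e), (p.σ y, !f)], [], R1, R2, z, g, g'⟩
  have hs : M.src p =
      (y, f) :: (p.σ o, e) :: (p.σ y, !f) :: (z, g) :: (R1 ++ (p.σ z, g') :: R2) := by
    simp [M, Mv.src, Mv.L, Mv.R]
  have h2 := (hs ▸ h : Reach_St p S o (M.src p) τ).move hz (n3 (z, g) (by simp)).2.1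
  have hu : ∀ j, M.u p τ j = if j = y ∨ j = p.σ o ∨ j = p.σ y then τ (p.σ z) else 1 := by
    intro j
    simp [M, Mv.u]
  have a1 : ∀ j, j ≠ o → j ≠ p.σ o →
      Abelianization.of (M.lab p τ j) = Abelianization.of (τ j) := by
    intro j h1 h2
    have : M.u p τ (p.σ j) = M.u p τ j := by
      rw [hu, hu]
      refine if_congr ⟨?_, ?_⟩ rfl rfl
      · rintro (e | e | e)
        · exact Or.inr (Or.inr (by rw [← e, p.σσ]))
        · exact absurd (Reach_inj p e) h1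
        · exact Or.inl (Reach_inj p e)
      · rintro (e | e | e)
        · exact Or.inr (Or.inr (by rw [e]))
        · exact absurd e h2
        · exact Or.inl (by rw [e, p.σσ])
    rw [Reach_of, this, mul_inv_cancel, mul_one]
  have a2 : Abelianization.of (M.lab p τ o) =
      Abelianization.of (τ o) * Abelianization.of (τ z) := by
    rw [Reach_of, hu, hu, if_neg, if_pos (Or.inr (Or.inl rfl)), h.lab, map_one, one_mul, map_inv,
      inv_inv]
    rintro (e | e | e)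
    · exact n1 e.symm
    · exact p.ne o e.symm
    · exact n2 (by rw [e, p.σσ])
  by_cases hg : g' = g
  · have ht : M.tgt p = ((z, g) :: R1) ++
        ((p.σ y, f) :: (p.σ o, !e) :: (p.σ (p.σ y), !f) :: ((p.σ z, g') :: R2)) := by
      simp [M, Mv.tgt, Mv.mid, hg, inv, p.σσ]
    rw [ht] at h2
    exact ⟨_, p.σ y, f, !e, _, Or.inr rfl, h2.rot List.isRotated_append, a1, a2⟩
  · have ht : M.tgt p = ((z, g) :: (R1 ++ [(p.σ z, g')])) ++
        ((y, f) :: (p.σ o, e) :: (p.σ y, !f) :: R2) := by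
      simp [M, Mv.tgt, Mv.mid, hg]
    rw [ht] at h2
    exact ⟨_, y, f, e, _, Or.inl rfl, h2.rot List.isRotated_append, a1, a2⟩

theorem Reach_closure {A : Type} [CommGroup A] (R : A → Prop) (T : Set A)
    (h : ∀ t ∈ T, ∀ a, R a → R (a * t) ∧ R (a * t⁻¹)) {v : A} (hv : v ∈ Subgroup.closure T) :
    ∀ a, R a → R (a * v) ∧ R (a * v⁻¹) := by
  induction hv using Subgroup.closure_induction with
  | mem x hx => exact h x hx
  | one => intro a ha; simpa using ha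
  | mul x y _ _ hx hy =>
    intro a ha
    rw [mul_inv, ← mul_assoc, ← mul_assoc]
    exact ⟨(hy _ (hx a ha).1).1, (hy _ (hx a ha).2).2⟩
  | inv x _ hx =>
    intro a ha
    rw [inv_inv]
    exact (hx a ha).symm

/-- The classes that are reached. -/
def Reach_Inv (p : Pr J) (S : Set G) (o y : J) (τ : J → G) (a : Abelianization G) : Prop :=
  ∃ (τ' : J → G) (y₁ : J) (f e : Bool) (Y : List (J × Bool)), (y₁ = y ∨ y₁ = p.σ y) ∧
    Reach_St p S o ((y₁, f) :: (p.σ o, e) :: (p.σ y₁, !f) :: Y) τ' ∧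
    Abelianization.of (τ' y) = Abelianization.of (τ y) ∧
    (∀ j, j ≠ o → j ≠ p.σ o → ∃ b ∈ Subgroup.zpowers (Abelianization.of (τ y)),
      Abelianization.of (τ' j) = Abelianization.of (τ j) * b) ∧ Abelianization.of (τ' o) = a

theorem Reach_y {p : Pr J} {y y₁ : J} {τ τ' : J → G} (hy : y₁ = y ∨ y₁ = p.σ y)
    (hτ : IsLab p τ) (hτ' : IsLab p τ') (h : τ' y₁ = τ y₁) : τ' y = τ y := by
  rcases hy with rfl | rfl
  · exact h
  · rwa [hτ, hτ', inv_inj] at h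

theorem Reach_zp {p : Pr J} {y y₁ : J} {τ : J → G} (hy : y₁ = y ∨ y₁ = p.σ y) (hτ : IsLab p τ) :
    Subgroup.zpowers (Abelianization.of (τ y₁)) = Subgroup.zpowers (Abelianization.of (τ y)) := by
  rcases hy with rfl | rfl
  · rfl
  · rw [hτ, map_inv, Subgroup.zpowers_inv]

theorem Reach_Inv.twist {p : Pr J} {S : Set G} {o y : J} {τ : J → G} {a : Abelianization G}
    (h : Reach_Inv p S o y τ a) : Reach_Inv p S o y τ (a * Abelianization.of (τ y)) ∧
      Reach_Inv p S o y τ (a * (Abelianization.of (τ y))⁻¹) := by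
  obtain ⟨τ', y₁, f, e, Y, hy, hS, h1, h2, rfl⟩ := h
  obtain ⟨n1, n2, -⟩ := Reach_ne hS.pat
  have k1 : Reach_Inv p S o y τ (Abelianization.of (τ' o) * Abelianization.of (τ' y₁)) := by
    obtain ⟨τ'', hS', a1, a2⟩ := Reach_twist2 hS
    refine ⟨τ'', y₁, f, e, Y, hy, hS', ?_, fun j b1 b2 => ?_, a2⟩
    · rw [Reach_y hy hS.lab hS'.lab (a1 _ n1 n2), h1]
    · rw [a1 j b1 b2]; exact h2 j b1 b2
  have k2 : Reach_Inv p S o y τ (Abelianization.of (τ' o) * (Abelianization.of (τ' y₁))⁻¹) := by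
    obtain ⟨τ'', hS', a1, a2, a3⟩ := Reach_twist (Za := []) (Zb := Y) hS
    refine ⟨τ'', y₁, f, e, _, hy, hS', ?_, fun j b1 b2 => ?_, a3 rfl⟩
    · rw [Reach_y hy hS.lab hS'.lab a1, h1]
    · obtain ⟨b, hb, e1⟩ := a2 j
      obtain ⟨b', hb', e2⟩ := h2 j b1 b2
      rw [Reach_zp hy hS.lab, h1] at hb
      exact ⟨b' * b, mul_mem hb' hb, by rw [e1, e2, mul_assoc]⟩
  rcases hy with rfl | rfl
  · rw [h1] at k1 k2; exact ⟨k1, k2⟩
  · rw [hS.lab, map_inv, h1] at k1 k2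
    rw [inv_inv] at k2
    exact ⟨k2, k1⟩

theorem Reach_Inv.zp {p : Pr J} {S : Set G} {o y : J} {τ : J → G} {a b : Abelianization G}
    (h : Reach_Inv p S o y τ a) (hb : b ∈ Subgroup.zpowers (Abelianization.of (τ y))) :
    Reach_Inv p S o y τ (a * b) := by
  rw [Subgroup.zpowers_eq_closure] at hb
  refine (Reach_closure (Reach_Inv p S o y τ) _ ?_ hb a h).1
  rintro t rfl a ha
  exact ha.twist

theorem Reach_split {Y : List (J × Bool)} {z : J} (h : z ∈ Y.map Prod.fst) :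
    ∃ g A B, Y = A ++ (z, g) :: B := by
  obtain ⟨⟨z', g⟩, hs, rfl⟩ := List.mem_map.1 h
  obtain ⟨A, B, e⟩ := List.append_of_mem hs
  exact ⟨g, A, B, e⟩

theorem Reach_Inv.gen {p : Pr J} {S : Set G} {o y z : J} {τ : J → G} {a : Abelianization G}
    (hτ : IsLab p τ) (h : Reach_Inv p S o y τ a) (z1 : z ≠ o) (z2 : z ≠ p.σ o) :
    Reach_Inv p S o y τ (a * Abelianization.of (τ z)) := by
  by_cases hz : z = y ∨ z = p.σ y
  · exact h.zp (by rw [← Reach_zp hz hτ]; exact Subgroup.mem_zpowers _)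
  obtain ⟨τ', y₁, f, e, Y, hy, hS, h1, h2, rfl⟩ := h
  have z3 : z ≠ y₁ ∧ z ≠ p.σ y₁ := by
    rw [not_or] at hz
    rcases hy with rfl | rfl
    · exact hz
    · rw [p.σσ]; exact hz.symm
  have m1 : z ∈ Y.map Prod.fst := by
    simpa only [List.map_cons, List.mem_cons, z3.1, z3.2, z2, false_or] using hS.pat.all z
  obtain ⟨g, Za, Zb, rfl⟩ := Reach_split m1
  obtain ⟨τ₂, hS₂, a1, a2, -⟩ := Reach_twist hS
  rw [Reach_zp hy hS.lab, h1] at a2
  have m2 : p.σ z ∈ (Zb ++ Za).map Prod.fst := by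
    have c1 : p.σ z ≠ y₁ := fun e => z3.2 (by rw [← e, p.σσ])
    have c2 : p.σ z ≠ p.σ o := fun e => z1 (Reach_inj p e)
    have c3 : p.σ z ≠ p.σ y₁ := fun e => z3.1 (Reach_inj p e)
    simpa only [List.cons_append, List.map_cons, List.mem_cons, c1, c2, c3, p.ne z, false_or]
      using hS₂.pat.all (p.σ z)
  obtain ⟨g', R1, R2, hR⟩ := Reach_split m2
  rw [List.cons_append, hR] at hS₂
  obtain ⟨τ₃, y₂, f₂, e₂, Y₂, hy₂, hS₃, b1, b2⟩ := Reach_slide hS₂ z1
  obtain ⟨n1, n2, -⟩ := Reach_ne hS.pat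
  have ny : y ≠ o ∧ y ≠ p.σ o := by
    rcases hy with rfl | rfl
    · exact ⟨n1, n2⟩
    · exact ⟨fun e => n2 (by rw [e]), fun e => n1 (by rw [e, p.σσ])⟩
  have k : Reach_Inv p S o y τ (Abelianization.of (τ₃ o)) := by
    refine ⟨τ₃, y₂, f₂, e₂, Y₂, ?_, hS₃, ?_, fun j c1 c2 => ?_, rfl⟩
    · rcases hy₂ with rfl | rfl
      · exact hy
      · rcases hy with rfl | rfl
        · exact Or.inr rfl
        · exact Or.inl (p.σσ _)
    · rw [b1 y ny.1 ny.2, Reach_y hy hS.lab hS₂.lab a1, h1]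
    · obtain ⟨b, hb, e1⟩ := a2 j
      obtain ⟨b', hb', e2⟩ := h2 j c1 c2
      exact ⟨b' * b, mul_mem hb' hb, by rw [b1 j c1 c2, e1, e2, mul_assoc]⟩
  obtain ⟨c1, hc1, e1⟩ := a2 o
  obtain ⟨c2, hc2, e2⟩ := a2 z
  obtain ⟨c3, hc3, e3⟩ := h2 z z1 z2
  have := k.zp (inv_mem (mul_mem hc1 (mul_mem hc3 hc2)))
  rwa [b2, e1, e2, e3, mul_assoc (Abelianization.of (τ z)), mul_mul_mul_comm,
    mul_inv_cancel_right] at this

/-- If all diagrams with a single crossing on `o` are realised in `S`, and the partner of `o` is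
enclosed by an orientable pair `y, y'`, then `S` meets every homology class of the form
`τ o` times a product of other labels. -/
theorem reach {p : Pr J} {W Y : List (J × Bool)} {τ : J → G} {o y : J} {f e : Bool} {S : Set G}
    (hW : Pat W) (hτ : IsLab p τ) (hY : W ~r (y, f) :: (p.σ o, e) :: (p.σ y, !f) :: Y)
    (hS : ∀ x, Dg p W τ o x → x ∈ S) {v : Abelianization G}
    (hv : v ∈ Subgroup.closure {w | ∃ j, j ≠ o ∧ j ≠ p.σ o ∧ w = Abelianization.of (τ j)}) :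
    ∃ s ∈ S, Abelianization.of s = Abelianization.of (τ o) * v := by
  have h0 : Reach_Inv p S o y τ (Abelianization.of (τ o)) :=
    ⟨τ, y, f, e, Y, Or.inl rfl, (⟨hW, hτ, hS⟩ : Reach_St p S o W τ).rot hY, rfl,
      fun j _ _ => ⟨1, one_mem _, (mul_one _).symm⟩, rfl⟩
  have h1 := Reach_closure (Reach_Inv p S o y τ) _ (by
    rintro t ⟨j, j1, j2, rfl⟩ a ha
    refine ⟨ha.gen hτ j1 j2, ?_⟩
    rw [← map_inv, ← hτ]
    exact ha.gen hτ (fun e => j2 (by rw [← e, p.σσ])) fun e => j1 (Reach_inj p e)) hv _ h0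
  obtain ⟨τ', y₁, f', e', Y', -, hS', -, -, e1⟩ := h1.1
  exact ⟨τ' o, hS'.dg _ (dg_triv hS'.pat τ' o), e1⟩

end Pool.Agent.P.MP_038aca_al.Top
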