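import Pool.Agent.P.MP_038aca_al.Top.K0
import Pool.Agent.P.MP_038aca_al.Top.Reach

/-! Algebraic consequences for the standard pattern. -/

namespace Pool.Agent.P.MP_038aca_al.Top

open scoped Pointwise

variable {g k q : ℕ} {τ : J0 g k q → SurfaceGroup g k q}
  {v : J0 g k q × Bool → SurfaceGroup g k q}
  {κ : J0 g k q → Set (SurfaceGroup g k q) × Set (SurfaceGroup g k q)}

theorem Alg_comm {A : Type} [CommGroup A] (t : Gen g k q → A) :
    surfaceWord t = (∏ j, t (xE j) ^ 2) * ∏ l, t (xC l) := by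
  simp [surfaceWord, List.prod_ofFn]

theorem Alg_conj_inv {G : Type} [Group G] {a b : G} (h : IsConj a b) : IsConj a⁻¹ b⁻¹ := by
  obtain ⟨c, rfl⟩ := isConj_iff.1 h
  exact isConj_iff.2 ⟨c, by group⟩

theorem Alg_of_conj {G : Type} [Group G] {a b : G} (h : IsConj a b) :
    Abelianization.of a = Abelianization.of b :=
  isConj_iff_eq.1 (Abelianization.of.map_isConj h)

theorem genC_infinite (h : 2 ≤ 2 * g + 2 * k + q) (l : Fin q) :
    ¬ IsOfFinOrder (genC l : SurfaceGroup g k q) := by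
  have key : ∀ (H : Type) [Group H] [IsMulTorsionFree H] (t : Gen g k q → H),
      surfaceWord t = 1 → t (xC l) ≠ 1 → ¬ IsOfFinOrder (genC l : SurfaceGroup g k q) := by
    intro H _ _ t ht h1 hf
    have h2 := (homOf t ht).isOfFinOrder hf
    rw [show homOf t ht (genC l) = t (xC l) from homOf_gen _ _ _] at h2
    exact h1 h2.eq_one'
  by_cases hq : ∃ l' : Fin q, l' ≠ l
  · obtain ⟨l', hl⟩ := hq
    refine key (Multiplicative ℤ) (Sum.elim 1 (Sum.elim 1 (Sum.elim 1 fun m =>
      (if m = l then Multiplicative.ofAdd 1 else 1) *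
        (if m = l' then Multiplicative.ofAdd 1 else 1)⁻¹))) ?_ ?_
    · rw [Alg_comm]
      simp only [Sum.elim_inr, Finset.prod_mul_distrib, Finset.prod_inv_distrib]
      simp
    · simp [hl.symm]
  · rcases Nat.eq_zero_or_pos k with rfl | hk
    · have hq1 : q = 1 := by
        have h0 := l.2
        by_contra hn
        have h2 : 1 < q := by omega
        have : Nontrivial (Fin q) := Fin.nontrivial_iff_two_le.2 h2
        exact hq (exists_ne l)
      subst hq1
      obtain ⟨g, rfl⟩ : ∃ g', g = g' + 1 := ⟨g - 1, by omega⟩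
      refine key (FreeGroup Bool) (mkT (.of true) (.of false) (Sum.elim 1 (Sum.elim 1 (Sum.elim 1
        fun _ => (FreeGroup.of true * .of false * (.of true)⁻¹ * (.of false)⁻¹)⁻¹)))) ?_ ?_
      · rw [surfaceWord_mkT]
        simp [surfaceWord, mul_assoc]
      · change (FreeGroup.of true * .of false * (.of true)⁻¹ * (.of false)⁻¹)⁻¹ ≠ 1
        decide
    · refine key (Multiplicative ℤ) (Sum.elim 1 (Sum.elim 1 (Sum.elim
        (fun j => if j = ⟨0, hk⟩ then Multiplicative.ofAdd 1 else 1) fun m =>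
          if m = l then (Multiplicative.ofAdd 1 ^ 2)⁻¹ else 1))) ?_ ?_
      · rw [Alg_comm]
        simp
      · simp

theorem gen_ne_one (h : 2 ≤ 2 * g + 2 * k + q) (x : Gen g k q) : gen x ≠ 1 := by
  classical
  by_cases hx : ∃ l, x = xC l
  · obtain ⟨l, rfl⟩ := hx
    intro h1
    refine genC_infinite h l ?_
    rw [show (genC l : SurfaceGroup g k q) = 1 from h1]
    exact IsOfFinOrder.one
  · have ht : surfaceWord (fun y : Gen g k q =>
        if y = x then Multiplicative.ofAdd (1 : ZMod 2) else 1) = 1 := by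
      rw [Alg_comm, Finset.prod_eq_one, Finset.prod_eq_one, one_mul]
      · exact fun l _ => if_neg fun e => hx ⟨l, e.symm⟩
      · intro j _
        split_ifs
        · decide
        · exact one_pow 2
    intro h1
    have h2 := homOf_gen _ ht x
    rw [h1, map_one, if_pos rfl] at h2
    exact absurd h2 (by decide)

theorem Alg_conjD (h : Std g k q τ v κ) (l : Fin q) :
    IsConj (τ (.inr (.inr (.inr l)), true)) (gen (.inr (.inr (.inr l)))) := by
  rw [h.eqD]
  exact (isConj_iff.2 ⟨_, rfl⟩).symm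

theorem Std.ne_one (h : Std g k q τ v κ) (h2 : 2 ≤ 2 * g + 2 * k + q) (j : J0 g k q) :
    τ j ≠ 1 := by
  have key : ∀ x : Gen g k q, ∀ b, τ (x, b) ≠ 1 → ∀ b', τ (x, b') ≠ 1 := by
    intro x b hb b' e
    by_cases hbb : b' = b
    · exact hb (hbb ▸ e)
    · have := h.sec.lab (x, b')
      rw [e, inv_one] at this
      refine hb ?_
      rw [← this]
      cases b <;> cases b' <;> first | rfl | exact absurd rfl hbb
  have conj : ∀ {a : SurfaceGroup g k q} {y : Gen g k q}, IsConj a (gen y) → a ≠ 1 := by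
    rintro a y hc rfl
    exact gen_ne_one h2 y (isConj_one_right.1 hc)
  obtain ⟨i | i | i | i, b⟩ := j
  · exact key _ _ (conj (h.conjA i)) b
  · exact key _ _ (conj (h.conjB i)) b
  · exact key _ _ (conj (h.conjE i)) b
  · exact key _ _ (conj (Alg_conjD h i)) b

theorem Alg_ty0 {a : J0 g k q × Bool} {l : Fin q} (h : ty0 a = some l) :
    ∃ b, a = ((.inr (.inr (.inr l)), b), true) := by
  obtain ⟨⟨i | i | i | i, b⟩, _ | _⟩ := a <;> simp only [ty0, reduceCtorEq] at h
  obtain rfl := Option.some.inj h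
  exact ⟨b, rfl⟩

theorem Alg_fold {H X : Type} [Group H] [MulAction H X] {τ : J0 g k q → H}
    {κ : J0 g k q → X × X} (h : Sec (pr0 g k q) (W0 g k q) τ κ) (l : Fin q) (b : Bool) :
    vt κ ((.inr (.inr (.inr l)), b), true) = vt κ ((.inr (.inr (.inr l)), true), true) := by
  cases b
  · exact h.fold l
  · rfl

theorem Std.valid (h : Std g k q τ v κ) : Valid genC (pr0 g k q) (W0 g k q) τ κ := by
  refine ⟨pat_W0, h.sec, h.cl, fun a => ?_, fun l => ?_, fun τ' κ' hs hsub => ?_⟩
  · cases e : ty0 a with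
    | none => exact Or.inl ⟨_, h.vt_none a e⟩
    | some l => exact Or.inr ⟨l, _, h.vt_some a l e⟩
  · exact ⟨((.inr (.inr (.inr l)), true), true), _, h.vt_some _ l rfl⟩
  · obtain ⟨F, h₀, hF, -⟩ := h.univ _ τ' κ' hs fun a e => hsub ⟨_, h.vt_none a e⟩
    refine ⟨F, hF, fun a s hsa => ?_⟩
    cases e : ty0 a with
    | none =>
      rw [h.vt_none a e, Set.smul_set_singleton, Set.singleton_eq_singleton_iff, smul_eq_mul,
        mul_eq_right] at hsa
      rw [hsa, map_one, one_smul]
    | some l =>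
      obtain ⟨b, rfl⟩ := Alg_ty0 e
      rw [Alg_fold h.sec] at hsa
      rw [Alg_fold hs]
      rw [h.vt_some _ l rfl] at hsa
      have h1 : s * v ((.inr (.inr (.inr l)), true), true) ∈
          v ((.inr (.inr (.inr l)), true), true) •
            (Subgroup.zpowers (genC l : SurfaceGroup g k q) : Set (SurfaceGroup g k q)) := by
        rw [← hsa]
        exact ⟨_, ⟨1, one_mem _, mul_one _⟩, rfl⟩
      obtain ⟨_, ⟨n, rfl⟩, hn⟩ := h1
      have h2 : s = τ (.inr (.inr (.inr l)), true) ^ n := by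
        rw [h.eqD, conj_zpow]
        exact eq_mul_inv_of_mul_eq hn.symm
      have h3 : τ' (.inr (.inr (.inr l)), true) ∈ MulAction.stabilizer (SurfaceGroup g k q)
          (vt κ' ((.inr (.inr (.inr l)), true), true)) := by
        have h4 := hs.vt_eq (.inr (.inr (.inr l)), true) true
        rw [show (pr0 g k q).σ (.inr (.inr (.inr l)), true) = (.inr (.inr (.inr l)), false)
          from rfl, hs.fold] at h4
        exact h4.symm
      rw [h2, map_zpow, hF]
      exact zpow_mem h3 n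

theorem Peri.isPer {F : SurfaceGroup g k q ≃* SurfaceGroup g k q} (h : Peri genC F) :
    IsPer F := by
  have key : ∀ ψ : SurfaceGroup g k q ≃* SurfaceGroup g k q,
      (∀ l, ∃ l', IsConj (ψ (genC l)) (genC l') ∨ IsConj (ψ (genC l)) (genC l')⁻¹) →
      ∀ x ∈ peripheral g k q, ψ x ∈ peripheral g k q := by
    rintro ψ hψ x ⟨l, hx | hx⟩
    · obtain ⟨l', h' | h'⟩ := hψ l
      · exact ⟨l', Or.inl ((ψ.toMonoidHom.map_isConj hx).trans h')⟩
      · exact ⟨l', Or.inr ((ψ.toMonoidHom.map_isConj hx).trans h')⟩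
    · have h1 := ψ.toMonoidHom.map_isConj hx
      rw [map_inv] at h1
      obtain ⟨l', h' | h'⟩ := hψ l
      · exact ⟨l', Or.inr (h1.trans (Alg_conj_inv h'))⟩
      · exact ⟨l', Or.inl (h1.trans (by simpa using Alg_conj_inv h'))⟩
  apply Set.Subset.antisymm
  · rintro _ ⟨x, hx, rfl⟩
    exact key F h.1 x hx
  · exact fun x hx => ⟨F.symm x, key F.symm h.2 x hx, F.apply_symm_apply x⟩

/-- The classes of chord diagrams lie in finitely many orbits. -/
theorem Std.finite (h : Std g k q τ v κ) (h2 : 2 ≤ 2 * g + 2 * k + q) :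
    ∃ C : Set (SurfaceGroup g k q), C.Finite ∧ 1 ∈ orbitSet C ∧
      ∀ m x, Dg1 (pr0 g k q) (W0 g k q) τ m x → x ∈ orbitSet C := by
  obtain ⟨C, hC, hf⟩ := finite_orbits (genC_infinite h2) h.valid
  refine ⟨insert 1 C, hC.insert 1, subset_orbit (Set.mem_insert _ _), fun m x hx => ?_⟩
  obtain ⟨F, hF, y, hy, hc⟩ := hf m x hx
  obtain ⟨c, rfl⟩ := isConj_iff.1 hc
  exact orbit_map (isPer_conj c) (orbit_map hF.isPer (subset_orbit (Set.mem_insert_of_mem _ hy)))

/-- What the upper bound needs. -/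
structure Rich (g k q : ℕ) (S : Set (SurfaceGroup (g + 1) k q)) : Prop where
  conj : ∀ x ∈ S, ∀ h, h * x * h⁻¹ ∈ S
  clsA : ∀ x, nA g k q x = Multiplicative.ofAdd 1 →
    ∃ s ∈ S, Abelianization.of s = Abelianization.of x
  clsB : ∀ m : ℤ, ∃ s ∈ S,
    Abelianization.of s = Abelianization.of (a0 g k q * b0 g k q * a0 g k q ^ m)

theorem Alg_gen (K : Subgroup (Abelianization (SurfaceGroup (g + 1) k q)))
    (hb : Abelianization.of (b0 g k q) ∈ K) (hs : ∀ z, Abelianization.of (s0 z) ∈ K)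
    (y : SurfaceGroup (g + 1) k q) :
    Abelianization.of y * (Abelianization.of (a0 g k q) ^ (nA g k q y).toAdd)⁻¹ ∈ K := by
  have key : ∀ y, y ∈ K.comap (Abelianization.of *
      ((zpowersHom _ (Abelianization.of (a0 g k q))).comp (nA g k q))⁻¹) ↔
      Abelianization.of y * (Abelianization.of (a0 g k q) ^ (nA g k q y).toAdd)⁻¹ ∈ K :=
    fun _ => Iff.rfl
  refine (key y).1 (PresentedGroup.generated_by _ _ ?_ y)
  refine forall_gen_handle ((key (a0 g k q)).2 ?_) ((key (b0 g k q)).2 ?_)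
    fun z => (key (s0 z)).2 ?_
  · rw [nA_a, toAdd_ofAdd, zpow_one, mul_inv_cancel]
    exact one_mem _
  · rwa [nA_b, toAdd_one, zpow_zero, inv_one, mul_one]
  · rw [nA_s, toAdd_one, zpow_zero, inv_one, mul_one]
    exact hs z

theorem Alg_W0 (g k q : ℕ) : ∃ Y, W0 (g + 1) k q = ((.inl 0, false), true) ::
    ((.inr (.inl 0), false), true) :: ((.inl 0, true), false) :: ((.inr (.inl 0), true), false) ::
      Y := by
  unfold W0
  rw [List.ofFn_succ, List.flatten_cons]
  exact ⟨_, rfl⟩

theorem Std.rich {τ : J0 (g + 1) k q → SurfaceGroup (g + 1) k q}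
    {v : J0 (g + 1) k q × Bool → SurfaceGroup (g + 1) k q}
    {κ : J0 (g + 1) k q → Set (SurfaceGroup (g + 1) k q) × Set (SurfaceGroup (g + 1) k q)}
    (h : Std (g + 1) k q τ v κ) {S : Set (SurfaceGroup (g + 1) k q)}
    (hc : ∀ x ∈ S, ∀ h, h * x * h⁻¹ ∈ S) (hi : ∀ x ∈ S, x⁻¹ ∈ S)
    (hS : ∀ m x, Dg (pr0 (g + 1) k q) (W0 (g + 1) k q) τ m x → x ∈ S) : Rich g k q S := by
  obtain ⟨Y, hY⟩ := Alg_W0 g k q
  have lab := h.sec.lab
  refine ⟨hc, fun x hx => ?_, fun m => ?_⟩
  · have hr : W0 (g + 1) k q ~r ((.inl 0, false), true) ::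
        ((pr0 (g + 1) k q).σ (.inr (.inl 0), true), true) ::
        ((pr0 (g + 1) k q).σ (.inl 0, false), !true) :: ((.inr (.inl 0), true), false) :: Y := by
      rw [hY]
      exact List.IsRotated.refl _
    have ho : Abelianization.of (τ (.inr (.inl 0), true)) = (Abelianization.of (a0 g k q))⁻¹ := by
      rw [← Alg_of_conj (h.conjB 0), ← map_inv, ← lab]
      rfl
    have hK : ∀ y : SurfaceGroup (g + 1) k q,
        Abelianization.of y * (Abelianization.of (a0 g k q) ^ (nA g k q y).toAdd)⁻¹ ∈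
        Subgroup.closure {w | ∃ j, j ≠ (.inr (.inl 0), true) ∧
          j ≠ (pr0 (g + 1) k q).σ (.inr (.inl 0), true) ∧ w = Abelianization.of (τ j)} := by
      refine Alg_gen _ ?_ fun z => ?_
      · exact Subgroup.subset_closure ⟨(.inl 0, true), by simp, by simp [pr0],
          (Alg_of_conj (h.conjA 0)).symm⟩
      · refine Subgroup.subset_closure ?_
        obtain i | i | i | i := z
        · exact ⟨(.inr (.inl i.succ), false), by simp, by simp [pr0],
            (Alg_of_conj (h.conjB _)).symm⟩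
        · exact ⟨(.inl i.succ, true), by simp, by simp [pr0], (Alg_of_conj (h.conjA _)).symm⟩
        · exact ⟨(.inr (.inr (.inl i)), true), by simp, by simp [pr0],
            (Alg_of_conj (h.conjE _)).symm⟩
        · exact ⟨(.inr (.inr (.inr i)), true), by simp, by simp [pr0],
            (Alg_of_conj (Alg_conjD h _)).symm⟩
    obtain ⟨s, hs, e⟩ := reach pat_W0 lab hr (hS _) (inv_mem (hK x))
    refine ⟨s⁻¹, hi s hs, ?_⟩
    rw [map_inv, e, ho, hx, toAdd_ofAdd, zpow_one, ← mul_inv, inv_inv, mul_comm,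
      inv_mul_cancel_right]
  · have hr : W0 (g + 1) k q ~r ((.inr (.inl 0), false), true) ::
        ((pr0 (g + 1) k q).σ (.inl 0, false), false) ::
        ((pr0 (g + 1) k q).σ (.inr (.inl 0), false), !true) :: (Y ++ [((.inl 0, false), true)]) := by
      rw [hY]
      exact List.isRotated_append (l := [((Sum.inl 0, false), true)])
    have ho : Abelianization.of (τ (.inl 0, false)) = (Abelianization.of (b0 g k q))⁻¹ := by
      rw [← Alg_of_conj (h.conjA 0), ← map_inv, ← lab]
      rfl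
    have hK : Abelianization.of (a0 g k q) ∈ Subgroup.closure {w | ∃ j, j ≠ (.inl 0, false) ∧
        j ≠ (pr0 (g + 1) k q).σ (.inl 0, false) ∧ w = Abelianization.of (τ j)} :=
      Subgroup.subset_closure ⟨(.inr (.inl 0), false), by simp, by simp [pr0],
        (Alg_of_conj (h.conjB 0)).symm⟩
    obtain ⟨s, hs, e⟩ := reach pat_W0 lab hr (hS _) (inv_mem (mul_mem hK (zpow_mem hK m)))
    refine ⟨s⁻¹, hi s hs, ?_⟩
    rw [map_inv, e, ho, ← mul_inv, inv_inv, map_mul, map_mul, map_zpow, ← mul_assoc,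
      mul_comm (Abelianization.of (b0 g k q))]

end Pool.Agent.P.MP_038aca_al.Top
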