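import Mathlib

/-! Balanced words and non-crossing matchings. -/

namespace Pool.Agent.P.MP_038aca_al.Top

/-- Words that carry a non-crossing perfect matching of equal letters. -/
inductive Bal {α : Type} : List α → Prop
  | nil : Bal []
  | cons (a : α) {l₁ l₂ : List α} : Bal l₁ → Bal l₂ → Bal (a :: (l₁ ++ a :: l₂))

variable {α β : Type}

theorem Bal.partner {a : α} {l : List α} (h : Bal (a :: l)) :
    ∃ l₁ l₂, l = l₁ ++ a :: l₂ ∧ Bal l₁ ∧ Bal l₂ := by
  generalize e : a :: l = w at h
  cases h with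
  | nil => cases e
  | cons b h1 h2 =>
    injection e with e1 e2
    subst e1
    exact ⟨_, _, e2, h1, h2⟩

theorem Bal.map (f : α → β) {l : List α} (h : Bal l) : Bal (l.map f) := by
  induction h with
  | nil => exact Bal.nil
  | cons a _ _ ih1 ih2 =>
    rw [List.map_cons, List.map_append, List.map_cons]
    exact Bal.cons (f a) ih1 ih2

open Classical in
/-- Multiplication of a reduced word by a letter. -/
noncomputable def Bal_act (a : α) : List α → List α
  | [] => [a]
  | b :: r => if a = b then r else a :: b :: r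

theorem Bal_act_self (a : α) (r : List α) : Bal_act a (a :: r) = r := by
  simp [Bal_act]

theorem Bal_act_ne {a b : α} (h : a ≠ b) (r : List α) : Bal_act a (b :: r) = a :: b :: r := by
  simp [Bal_act, h]

theorem Bal_act_chain (a : α) {r : List α} (h : r.IsChain (· ≠ ·)) :
    (Bal_act a r).IsChain (· ≠ ·) := by
  cases r with
  | nil => exact List.isChain_singleton a
  | cons b r =>
    by_cases e : a = b
    · subst e
      rw [Bal_act_self]
      exact h.tail
    · rw [Bal_act_ne e]
      exact List.isChain_cons_cons.2 ⟨e, h⟩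

theorem Bal_act_act (a : α) {r : List α} (h : r.IsChain (· ≠ ·)) :
    Bal_act a (Bal_act a r) = r := by
  cases r with
  | nil => exact Bal_act_self a []
  | cons b r =>
    by_cases e : a = b
    · subst e
      rw [Bal_act_self]
      cases r with
      | nil => rfl
      | cons c r => exact Bal_act_ne (List.isChain_cons_cons.1 h).1 r
    · rw [Bal_act_ne e, Bal_act_self]

theorem Bal_red (n : ℕ) : ∀ l : List α, l.length ≤ n → (l.foldr Bal_act [] = [] → Bal l) ∧
    ∀ a r, l.foldr Bal_act [] = a :: r →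
      ∃ l₁ l₂, l = l₁ ++ a :: l₂ ∧ Bal l₁ ∧ l₂.foldr Bal_act [] = r := by
  induction n with
  | zero =>
    intro l hl
    obtain rfl : l = [] := List.length_eq_zero_iff.1 (Nat.le_zero.1 hl)
    exact ⟨fun _ => Bal.nil, fun a r h => by cases h⟩
  | succ n ih =>
    intro l hl
    cases l with
    | nil => exact ⟨fun _ => Bal.nil, fun a r h => by cases h⟩
    | cons b l =>
      have hl' : l.length ≤ n := by simpa using hl
      rw [List.foldr_cons]
      cases e : l.foldr Bal_act [] with
      | nil =>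
        refine ⟨fun h => (by cases h), fun a r h => ?_⟩
        injection h with h1 h2
        subst h1 h2
        exact ⟨[], l, rfl, Bal.nil, e⟩
      | cons c r' =>
        by_cases hbc : b = c
        · subst hbc
          rw [Bal_act_self]
          obtain ⟨l₁, l₂, rfl, h1, h2⟩ := (ih l hl').2 _ _ e
          have hl2 : l₂.length ≤ n := by
            rw [List.length_append, List.length_cons] at hl'
            omega
          refine ⟨fun h => Bal.cons b h1 ((ih l₂ hl2).1 (h2.trans h)), fun a r h => ?_⟩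
          obtain ⟨m₁, m₂, rfl, h3, h4⟩ := (ih l₂ hl2).2 _ _ (h2.trans h)
          exact ⟨b :: (l₁ ++ b :: m₁), m₂, by simp, Bal.cons b h1 h3, h4⟩
        · rw [Bal_act_ne hbc]
          refine ⟨fun h => (by cases h), fun a r h => ?_⟩
          injection h with h1 h2
          subst h1 h2
          exact ⟨[], l, rfl, Bal.nil, e⟩

/-- Balanced words are the words that are trivial in the free product of groups of order two. -/
theorem exists_balGroup (α : Type) : ∃ (U : Type) (_ : Group U) (s : α → U),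
    (∀ a, s a * s a = 1) ∧ ∀ l : List α, Bal l ↔ (l.map s).prod = 1 := by
  let s : α → Equiv.Perm {r : List α // r.IsChain (· ≠ ·)} := fun a =>
    Function.Involutive.toPerm (fun r => ⟨Bal_act a r.1, Bal_act_chain a r.2⟩)
      fun r => Subtype.ext (Bal_act_act a r.2)
  have hs : ∀ a, s a * s a = 1 := fun a => Equiv.ext fun r => Subtype.ext (Bal_act_act a r.2)
  refine ⟨_, inferInstance, s, hs, fun l => ⟨fun h => ?_, fun h => ?_⟩⟩
  · induction h with
    | nil => rfl
    | cons a _ _ ih1 ih2 =>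
      rw [List.map_cons, List.map_append, List.map_cons, List.prod_cons, List.prod_append,
        List.prod_cons, ih1, ih2, one_mul, mul_one, hs]
  · have e : ∀ l : List α, ((l.map s).prod ⟨[], List.isChain_nil⟩).1 = l.foldr Bal_act [] := by
      intro l
      induction l with
      | nil => rfl
      | cons a l ih =>
        rw [List.map_cons, List.prod_cons, Equiv.Perm.mul_apply, List.foldr_cons, ← ih]
        rfl
    refine (Bal_red l.length l le_rfl).1 ?_
    rw [← e, h]
    rfl

theorem Bal_prod_reverse {U : Type} [Group U] {s : α → U} (hs : ∀ a, s a * s a = 1)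
    (l : List α) : (l.reverse.map s).prod = (l.map s).prod⁻¹ := by
  induction l with
  | nil => simp
  | cons a l ih =>
    rw [List.reverse_cons, List.map_append, List.prod_append, ih, List.map_cons, List.map_cons,
      List.map_nil, List.prod_singleton, List.prod_cons, mul_inv_rev,
      ← eq_inv_of_mul_eq_one_left (hs a)]

theorem Bal.rot {A B : List α} (h : Bal (A ++ B)) : Bal (B ++ A) := by
  obtain ⟨U, _, s, -, hs⟩ := exists_balGroup α
  rw [hs, List.map_append, List.prod_append] at h ⊢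
  rw [eq_inv_of_mul_eq_one_left h, mul_inv_cancel]

theorem Bal.reverse {A : List α} (h : Bal A) : Bal A.reverse := by
  obtain ⟨U, _, s, h2, hs⟩ := exists_balGroup α
  rw [hs] at h ⊢
  rw [Bal_prod_reverse h2, h, inv_one]

theorem Bal.append {A B : List α} (hA : Bal A) (hB : Bal B) : Bal (A ++ B) := by
  obtain ⟨U, _, s, -, hs⟩ := exists_balGroup α
  rw [hs] at hA hB ⊢
  rw [List.map_append, List.prod_append, hA, hB, mul_one]

theorem bal_append_reverse (A : List α) : Bal (A ++ A.reverse) := by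
  obtain ⟨U, _, s, h2, hs⟩ := exists_balGroup α
  rw [hs, List.map_append, List.prod_append, Bal_prod_reverse h2, mul_inv_cancel]

theorem Bal.glue {A B c : List α} (h : Bal (A ++ c)) (h' : Bal (c.reverse ++ B)) :
    Bal (A ++ B) := by
  obtain ⟨U, _, s, h2, hs⟩ := exists_balGroup α
  rw [hs, List.map_append, List.prod_append] at h h' ⊢
  rw [Bal_prod_reverse h2, inv_mul_eq_one] at h'
  rw [← h', h]

/-- Non-crossing matchings of the members of `B` with respect to the position `θ`. -/
structure NCM {T : Type} (B : List T) (θ : T → ℝ) (μ : T → T) : Prop where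
  mem : ∀ x ∈ B, μ x ∈ B
  ne : ∀ x ∈ B, μ x ≠ x
  inv : ∀ x ∈ B, μ (μ x) = x
  nc : ∀ x ∈ B, ∀ y ∈ B, ¬ (θ x < θ y ∧ θ y < θ (μ x) ∧ θ (μ x) < θ (μ y))

theorem Bal_ncm_sub {T : Type} {B B' : List T} {θ : T → ℝ} {μ : T → T} (h : NCM B θ μ)
    (hs : ∀ x ∈ B', x ∈ B) (hc : ∀ x ∈ B', μ x ∈ B') : NCM B' θ μ :=
  ⟨hc, fun x hx => h.ne x (hs x hx), fun x hx => h.inv x (hs x hx),
    fun x hx y hy => h.nc x (hs x hx) y (hs y hy)⟩

theorem Bal_order {T : Type} {θ : T → ℝ} {x y : T} {B₁ B₂ : List T}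
    (hB : (x :: (B₁ ++ y :: B₂)).Pairwise fun x y => θ x < θ y) :
    θ x < θ y ∧ (∀ z ∈ B₁, θ x < θ z ∧ θ z < θ y) ∧ (∀ z ∈ B₂, θ y < θ z) ∧
      (B₁.Pairwise fun x y => θ x < θ y) ∧ B₂.Pairwise fun x y => θ x < θ y := by
  obtain ⟨h1, h2⟩ := List.pairwise_cons.1 hB
  obtain ⟨h3, h4, h5⟩ := List.pairwise_append.1 h2
  obtain ⟨h6, h7⟩ := List.pairwise_cons.1 h4
  exact ⟨h1 y (by simp), fun z hz => ⟨h1 z (by simp [hz]), h5 z hz y (by simp)⟩, h6, h3, h7⟩

theorem Bal_mem {T : Type} {x y z : T} {B₁ B₂ : List T} :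
    z ∈ x :: (B₁ ++ y :: B₂) ↔ z = x ∨ z ∈ B₁ ∨ z = y ∨ z ∈ B₂ := by
  simp

theorem bal_of_ncm {T : Type} {B : List T} {θ : T → ℝ} {μ : T → T} {lab : T → α}
    (hB : B.Pairwise fun x y => θ x < θ y) (h : NCM B θ μ) (hl : ∀ x ∈ B, lab (μ x) = lab x) :
    Bal (B.map lab) := by
  induction hn : B.length using Nat.strong_induction_on generalizing B with
  | _ n ih =>
  cases B with
  | nil => exact Bal.nil
  | cons x r =>
    have hx : x ∈ x :: r := List.mem_cons_self
    have hm : μ x ∈ r := (List.mem_cons.1 (h.mem x hx)).resolve_left (h.ne x hx)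
    obtain ⟨l₁, l₂, rfl⟩ := List.append_of_mem hm
    obtain ⟨o1, o2, o3, p1, p2⟩ := Bal_order hB
    have s1 : ∀ z ∈ l₁, z ∈ x :: (l₁ ++ μ x :: l₂) := fun z hz => Bal_mem.2 (Or.inr (Or.inl hz))
    have s2 : ∀ z ∈ l₂, z ∈ x :: (l₁ ++ μ x :: l₂) := fun z hz =>
      Bal_mem.2 (Or.inr (Or.inr (Or.inr hz)))
    have k1 : ∀ z ∈ x :: (l₁ ++ μ x :: l₂), μ z = x → z = μ x := fun z hz e => by
      rw [← h.inv z hz, e]
    have k2 : ∀ z ∈ x :: (l₁ ++ μ x :: l₂), μ z = μ x → z = x := fun z hz e => by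
      rw [← h.inv z hz, e, h.inv x hx]
    have c1 : ∀ z ∈ l₁, μ z ∈ l₁ := by
      intro z hz
      rcases Bal_mem.1 (h.mem z (s1 z hz)) with e | e | e | e
      · have := (o2 z hz).2
        rw [k1 z (s1 z hz) e] at this
        exact absurd this (lt_irrefl _)
      · exact e
      · have := (o2 z hz).1
        rw [k2 z (s1 z hz) e] at this
        exact absurd this (lt_irrefl _)
      · exact absurd ⟨(o2 z hz).1, (o2 z hz).2, o3 _ e⟩ (h.nc x hx z (s1 z hz))
    have c2 : ∀ z ∈ l₂, μ z ∈ l₂ := by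
      intro z hz
      rcases Bal_mem.1 (h.mem z (s2 z hz)) with e | e | e | e
      · have := o3 z hz
        rw [k1 z (s2 z hz) e] at this
        exact absurd this (lt_irrefl _)
      · have := c1 _ e
        rw [h.inv z (s2 z hz)] at this
        exact absurd ((o2 z this).2.trans (o3 z hz)) (lt_irrefl _)
      · have := o1.trans (o3 z hz)
        rw [k2 z (s2 z hz) e] at this
        exact absurd this (lt_irrefl _)
      · exact e
    rw [List.length_cons, List.length_append, List.length_cons] at hn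
    have b1 := ih l₁.length (by omega) p1 (Bal_ncm_sub h s1 c1) (fun z hz => hl z (s1 z hz)) rfl
    have b2 := ih l₂.length (by omega) p2 (Bal_ncm_sub h s2 c2) (fun z hz => hl z (s2 z hz)) rfl
    rw [List.map_cons, List.map_append, List.map_cons, hl x hx]
    exact Bal.cons _ b1 b2

theorem ncm_of_bal {T : Type} {B : List T} {θ : T → ℝ} {lab : T → α}
    (hB : B.Pairwise fun x y => θ x < θ y) (h : Bal (B.map lab)) :
    ∃ μ, NCM B θ μ ∧ ∀ x ∈ B, lab (μ x) = lab x := by
  classical
  generalize e : B.map lab = w at h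
  induction h generalizing B with
  | nil =>
    obtain rfl : B = [] := List.map_eq_nil_iff.1 e
    exact ⟨id, ⟨by simp, by simp, by simp, by simp⟩, by simp⟩
  | cons a _ _ ih1 ih2 =>
    obtain ⟨x, r, rfl, hx, e1⟩ := List.map_eq_cons_iff.1 e
    obtain ⟨B₁, B', rfl, e2, e3⟩ := List.map_eq_append_iff.1 e1
    obtain ⟨y, B₂, rfl, hy, e4⟩ := List.map_eq_cons_iff.1 e3
    obtain ⟨o1, o2, o3, p1, p2⟩ := Bal_order hB
    obtain ⟨μ₁, n1, l1⟩ := ih1 p1 e2
    obtain ⟨μ₂, n2, l2⟩ := ih2 p2 e4
    obtain ⟨μ, mx, my, m1, m2⟩ : ∃ μ : T → T, μ x = y ∧ μ y = x ∧ (∀ z ∈ B₁, μ z = μ₁ z) ∧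
        ∀ z ∈ B₂, μ z = μ₂ z := by
      have hyx : y ≠ x := fun e => absurd o1 (by rw [e]; exact lt_irrefl _)
      refine ⟨fun z => if z = x then y else if z = y then x else if z ∈ B₁ then μ₁ z else μ₂ z,
        by simp, by simp [hyx], fun z hz => ?_, fun z hz => ?_⟩
      · have a1 : z ≠ x := fun e => absurd (o2 z hz).1 (by rw [e]; exact lt_irrefl _)
        have a2 : z ≠ y := fun e => absurd (o2 z hz).2 (by rw [e]; exact lt_irrefl _)
        simp [a1, a2, hz]
      · have a1 : z ≠ x := fun e => absurd (o1.trans (o3 z hz)) (by rw [e]; exact lt_irrefl _)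
        have a2 : z ≠ y := fun e => absurd (o3 z hz) (by rw [e]; exact lt_irrefl _)
        have a3 : z ∉ B₁ := fun h => absurd ((o2 z h).2.trans (o3 z hz)) (lt_irrefl _)
        simp [a1, a2, a3]
    have hyx : y ≠ x := fun e => absurd o1 (by rw [e]; exact lt_irrefl _)
    refine ⟨μ, ⟨fun z hz => ?_, fun z hz => ?_, fun z hz => ?_, fun u hu v hv => ?_⟩,
      fun z hz => ?_⟩
    · rcases Bal_mem.1 hz with rfl | h | rfl | h
      · rw [mx]
        exact Bal_mem.2 (Or.inr (Or.inr (Or.inl rfl)))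
      · rw [m1 z h]
        exact Bal_mem.2 (Or.inr (Or.inl (n1.mem z h)))
      · rw [my]
        exact Bal_mem.2 (Or.inl rfl)
      · rw [m2 z h]
        exact Bal_mem.2 (Or.inr (Or.inr (Or.inr (n2.mem z h))))
    · rcases Bal_mem.1 hz with rfl | h | rfl | h
      · rw [mx]
        exact hyx
      · rw [m1 z h]
        exact n1.ne z h
      · rw [my]
        exact hyx.symm
      · rw [m2 z h]
        exact n2.ne z h
    · rcases Bal_mem.1 hz with rfl | h | rfl | h
      · rw [mx, my]
      · rw [m1 z h, m1 _ (n1.mem z h), n1.inv z h]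
      · rw [my, mx]
      · rw [m2 z h, m2 _ (n2.mem z h), n2.inv z h]
    · rintro ⟨a1, a2, a3⟩
      rcases Bal_mem.1 hu with rfl | h | rfl | h
      · rw [mx] at a2 a3
        rcases Bal_mem.1 hv with rfl | h' | rfl | h'
        · exact lt_irrefl _ a1
        · rw [m1 v h'] at a3
          exact lt_asymm a3 (o2 _ (n1.mem v h')).2
        · exact lt_irrefl _ a2
        · exact lt_asymm a2 (o3 v h')
      · rw [m1 u h] at a2 a3
        rcases Bal_mem.1 hv with rfl | h' | rfl | h'
        · exact lt_asymm a1 (o2 u h).1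
        · rw [m1 v h'] at a3
          exact n1.nc u h v h' ⟨a1, a2, a3⟩
        · exact lt_asymm a2 (o2 _ (n1.mem u h)).2
        · exact lt_asymm a2 ((o2 _ (n1.mem u h)).2.trans (o3 v h'))
      · rw [my] at a2
        exact lt_asymm o1 (a1.trans a2)
      · rw [m2 u h] at a2 a3
        rcases Bal_mem.1 hv with rfl | h' | rfl | h'
        · exact lt_asymm a1 (o1.trans (o3 u h))
        · exact lt_asymm a1 ((o2 v h').2.trans (o3 u h))
        · exact lt_asymm a1 (o3 u h)
        · rw [m2 v h'] at a3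
          exact n2.nc u h v h' ⟨a1, a2, a3⟩
    · rcases Bal_mem.1 hz with rfl | h | rfl | h
      · rw [mx, hx, hy]
      · rw [m1 z h, l1 z h]
      · rw [my, hx, hy]
      · rw [m2 z h, l2 z h]

/-- Two involutions without fixed points: an orbit of the product is disjoint from its image. -/
theorem dihedral {T : Type} {μ ν : Equiv.Perm T} (hμ : ∀ x, μ (μ x) = x) (hν : ∀ x, ν (ν x) = x)
    (hμ' : ∀ x, μ x ≠ x) (hν' : ∀ x, ν x ≠ x) (a : T) (i k : ℤ) :
    μ (((ν * μ) ^ i) a) ≠ ((ν * μ) ^ k) a := by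
  have hs : SemiconjBy μ (ν * μ) (ν * μ)⁻¹ := by
    have h1 : μ * μ = 1 := Equiv.ext hμ
    have h2 : ν * ν = 1 := Equiv.ext hν
    rw [SemiconjBy, mul_inv_rev, ← eq_inv_of_mul_eq_one_left h1, ← eq_inv_of_mul_eq_one_left h2,
      mul_assoc]
  have hc : ∀ (j : ℤ) (x : T), μ (((ν * μ) ^ j) x) = ((ν * μ) ^ (-j)) (μ x) := by
    intro j x
    have := (hs.zpow_right j).eq
    rw [inv_zpow'] at this
    rw [← Equiv.Perm.mul_apply, this, Equiv.Perm.mul_apply]
  have ha : ∀ (j j' : ℤ) (x : T), ((ν * μ) ^ j) (((ν * μ) ^ j') x) = ((ν * μ) ^ (j + j')) x := by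
    intro j j' x
    rw [zpow_add, Equiv.Perm.mul_apply]
  have hn : ∀ x, ν x = ((ν * μ) ^ (1 : ℤ)) (μ x) := by
    intro x
    rw [zpow_one, Equiv.Perm.mul_apply, hμ]
  intro h
  have h1 : μ a = ((ν * μ) ^ (i + k)) a := by
    rw [← ha, ← h, hc, ha, add_neg_cancel, zpow_zero, Equiv.Perm.one_apply]
  obtain ⟨m, hm | hm⟩ := Int.even_or_odd' (i + k)
  · refine hμ' (((ν * μ) ^ m) a) ?_
    rw [hc, h1, ha, hm]
    congr 2
    ring
  · refine hν' (((ν * μ) ^ (m + 1)) a) ?_
    rw [hn, hc, h1, ha, ha, hm]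
    congr 2
    ring

end Pool.Agent.P.MP_038aca_al.Top
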