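import Pool.Agent.P.MP_038aca_al.Top.Cover

/-! The developing map of a tile together with the neighbouring sectors. -/

namespace Pool.Agent.P.MP_038aca_al.Top

open Set Topology

variable {J : Type} {G : Type} [Group G]

/-- An extended tile `U` with its developing map. -/
structure Chart (P : Poly J) (τ : J → G) {E : Type} [TopologicalSpace E] [MulAction G E]
    (U : Set E) (dev : E → ℂ) : Prop where
  isOpen : IsOpen U
  cont : ContinuousOn dev U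
  inj : InjOn dev U
  lt_two : ∀ e ∈ U, ‖dev e‖ < 2
  cross : ∀ e ∈ U, ∀ j, dev e ∈ P.Sct (P.mid j) → (τ j)⁻¹ • e ∈ U ∧
    dev ((τ j)⁻¹ • e) = (2 - ‖dev e‖ : ℝ) * P.pt (P.th (P.σ j) (P.uc j (dev e)))
  adj : ∀ e ∈ U, ∀ h : G, h • e ∈ U → h = 1 ∨ ∃ j, dev e ∈ P.Sct (P.mid j) ∧ h = (τ j)⁻¹
  out : ∀ e ∈ U, 1 ≤ ‖dev e‖ → ∃ j, dev e ∈ P.Sct (P.mid j)

/-- The line stays in the tiles and keeps away from the corners. -/
structure Far (P : Poly J) (G : Type) [Group G] {E : Type} [MulAction G E] (U : Set E)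
    (dev : E → ℂ) (c : ℝ → E) (δ : ℝ) : Prop where
  pos : 0 < δ
  lt : δ < 1 / 2
  cov : ∀ t, ∃ g : G, g • c t ∈ U ∧ ‖dev (g • c t)‖ ≤ 1
  far : ∀ t (g : G), g • c t ∈ U → 1 - δ ≤ ‖dev (g • c t)‖ →
    ∃ j, dev (g • c t) ∈ P.Sct (P.mid j)

/-- The reflection of the sector of the side `i` to the sector of its partner. -/
noncomputable def Chart_rf (P : Poly J) (i : J) (z : ℂ) : ℂ :=
  (2 - ‖z‖ : ℝ) * P.pt (P.th (P.σ i) (P.uc i z))

theorem Chart_rf_mem (P : Poly J) {i : J} {z : ℂ} (hz : z ∈ P.Sct (P.mid i)) (h2 : ‖z‖ < 2) :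
    Chart_rf P i z ∈ P.Sct (P.mid (P.σ i)) ∧ P.uc (P.σ i) (Chart_rf P i z) = P.uc i z :=
  P.side_mem (sub_pos.2 h2) (P.side_polar hz).1

theorem Chart_rf_norm (P : Poly J) (i : J) {z : ℂ} (h2 : ‖z‖ < 2) :
    ‖Chart_rf P i z‖ = 2 - ‖z‖ := P.norm_polar (sub_pos.2 h2).le _

theorem Chart_rf_rf (P : Poly J) {i : J} {z : ℂ} (hz : z ∈ P.Sct (P.mid i)) (h2 : ‖z‖ < 2) :
    Chart_rf P (P.σ i) (Chart_rf P i z) = z := by
  rw [Chart_rf, Chart_rf_norm P i h2, (Chart_rf_mem P hz h2).2, P.σσ, sub_sub_cancel]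
  exact (P.side_polar hz).2.symm

theorem Chart_rf_cont (P : Poly J) (i : J) : ContinuousOn (Chart_rf P i) (P.Sct (P.mid i)) :=
  (Complex.continuous_ofReal.comp (continuous_const.sub continuous_norm)).continuousOn.mul
    ((P.continuous_pt.comp (P.continuous_th _)).comp_continuousOn (P.continuousOn_uc i))

theorem Chart_rf_one (P : Poly J) (i : J) {z : ℂ} (h : ‖z‖ = 1) :
    Chart_rf P i z = P.pt (P.th (P.σ i) (P.uc i z)) := by
  rw [Chart_rf, h]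
  norm_num

theorem Chart_side (P : Poly J) {j : J} {u : ℝ} (hu : u ∈ Ioo (0 : ℝ) 1) :
    P.pt (P.th j u) ∈ P.Sct (P.mid j) ∧ P.uc j (P.pt (P.th j u)) = u := by
  simpa using P.side_mem (j := j) one_pos hu

theorem Chart_nc (P : Poly J) {j : J} {z : ℂ} (hz : z ∈ P.Sct (P.mid j)) (a : J × Bool) :
    z ≠ P.vtx a := by
  rintro rfl
  exact P.vtx_not_mem a j zero_le_one (by simpa using hz)

theorem Chart_end (P : Poly J) (j : J) {u : ℝ} (hu : u ∈ Icc (0 : ℝ) 1) :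
    u ∈ Ioo (0 : ℝ) 1 ∨ ∃ e, P.th j u = P.an (j, e) := by
  rcases hu.1.eq_or_lt with rfl | h0
  · exact Or.inr ⟨false, rfl⟩
  rcases hu.2.eq_or_lt with rfl | h1
  · exact Or.inr ⟨true, rfl⟩
  exact Or.inl ⟨h0, h1⟩

namespace PolyV

variable {P : PolyV J} {τ : J → G}

variable (P τ) in
/-- The graph of the developing map. -/
def Chart_R (g : G) (z : P.D) (w : ℂ) : Prop :=
  (g = 1 ∧ (∀ a, (z : ℂ) ≠ P.vtx a) ∧ w = z) ∨
    ∃ i, (z : ℂ) ∈ P.Sct (P.mid i) ∧ g * τ i = 1 ∧ w = Chart_rf P.toPoly i z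

theorem Chart_lt (z : P.D) : ‖(z : ℂ)‖ < 2 := z.2.1.trans_lt one_lt_two

theorem Chart_R_glue (hτ : IsLab P.toPr τ) {g : G} {j : J} {z z' : P.D} (h : P.Gj j z z') {w : ℂ}
    (hw : Chart_R P τ g z w) : Chart_R P τ (g * τ j) z' w := by
  obtain ⟨u, hu, hz, hz'⟩ := h
  rcases hw with ⟨rfl, hn, rfl⟩ | ⟨i, hi, hg, rfl⟩
  · rcases Chart_end P.toPoly j hu with hu' | ⟨e, he⟩
    · obtain ⟨h1, h2⟩ := Chart_side P.toPoly (j := P.σ j) hu'
      refine Or.inr ⟨P.σ j, hz' ▸ h1, by rw [hτ j, one_mul, mul_inv_cancel], ?_⟩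
      rw [Chart_rf_one _ _ (hz' ▸ P.norm_pt _), hz', h2, P.σσ, hz]
    · exact absurd (hz.trans (congrArg P.pt he)) (hn (j, e))
  · obtain ⟨rfl, hu'⟩ := P.side_of_mem (i := j) (j := i) one_pos hu (by simpa [hz] using hi)
    refine Or.inl ⟨hg, Chart_nc _ (hz' ▸ (Chart_side P.toPoly (j := P.σ j) hu').1), ?_⟩
    rw [Chart_rf_one _ _ (hz ▸ P.norm_pt _), hz, (Chart_side P.toPoly hu').2, hz']

theorem Chart_R_uniq (h1 : ∀ j, τ j ≠ 1) {g : G} {z : P.D} {w w' : ℂ} (hw : Chart_R P τ g z w)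
    (hw' : Chart_R P τ g z w') : w = w' := by
  rcases hw with ⟨rfl, -, rfl⟩ | ⟨i, hi, hg, rfl⟩
  · rcases hw' with ⟨-, -, rfl⟩ | ⟨i', -, hg', -⟩
    · rfl
    · exact absurd ((one_mul _).symm.trans hg') (h1 i')
  · rcases hw' with ⟨rfl, -, -⟩ | ⟨i', hi', -, rfl⟩
    · exact absurd ((one_mul _).symm.trans hg) (h1 i)
    · rw [P.side_unique hi hi']

theorem Chart_dev (hτ : IsLab P.toPr τ) (h1 : ∀ j, τ j ≠ 1) :
    ∃ (U : Set (P.E τ)) (dev : P.E τ → ℂ),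
      (∀ g z, P.tp τ g z ∈ U → Chart_R P τ g z (dev (P.tp τ g z))) ∧
      ∀ g z w, Chart_R P τ g z w → P.tp τ g z ∈ U ∧ dev (P.tp τ g z) = w := by
  classical
  obtain ⟨F, hF⟩ := exists_lift (P := P) (τ := τ) (fun g z => {w | Chart_R P τ g z w})
    fun g j z z' h => Set.ext fun w => ⟨Chart_R_glue hτ h, fun hw => by
      have := Chart_R_glue hτ h.symm hw
      rwa [hτ j, mul_inv_cancel_right] at this⟩
  have key : ∀ g z, (F (P.tp τ g z)).Nonempty → Chart_R P τ g z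
      (if h : (F (P.tp τ g z)).Nonempty then h.choose else 0) := by
    intro g z h
    rw [dif_pos h]
    have := h.choose_spec
    exact (hF g z).subset this
  refine ⟨{e | (F e).Nonempty}, fun e => if h : (F e).Nonempty then h.choose else 0, key,
    fun g z w hw => ?_⟩
  have h : (F (P.tp τ g z)).Nonempty := ⟨w, (hF g z).superset hw⟩
  exact ⟨h, Chart_R_uniq h1 (key g z h) hw⟩

theorem Chart_cross_one {g : G} {z : P.D} {i : J} (hi : (z : ℂ) ∈ P.Sct (P.mid i))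
    (hg : g * τ i = 1) (h : ‖Chart_rf P.toPoly i z‖ ≤ 1) :
    ∃ z' : P.D, P.tp τ g z = P.tp τ 1 z' ∧ Chart_rf P.toPoly i z = z' := by
  have hz : ‖(z : ℂ)‖ = 1 := by
    rw [Chart_rf_norm _ _ (Chart_lt z)] at h
    have := z.2.1
    linarith
  refine ⟨⟨_, P.mem_Ds_of_side h (Chart_rf_mem _ hi (Chart_lt z)).1⟩, ?_, rfl⟩
  rw [← hg]
  refine tp_glue ⟨P.uc i z, Ioo_subset_Icc_self (P.side_polar hi).1, ?_, Chart_rf_one _ _ hz⟩ g
  have := (P.side_polar hi).2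
  rwa [hz, Complex.ofReal_one, one_mul] at this

theorem exists_chart (hτ : IsLab P.toPr τ) (h1 : ∀ j, τ j ≠ 1) :
    ∃ (U : Set (P.E τ)) (dev : P.E τ → ℂ), Chart P.toPoly τ U dev ∧
      (∀ z : P.D, (∀ a, (z : ℂ) ≠ P.vtx a) → P.tp τ 1 z ∈ U ∧ dev (P.tp τ 1 z) = z) ∧
      ∀ e ∈ U, ‖dev e‖ ≤ 1 → ∃ z : P.D, e = P.tp τ 1 z ∧ dev e = z := by
  obtain ⟨U, dev, hU, hR⟩ := Chart_dev (P := P) hτ h1
  have hfin : Finite J := P.finite
  have hop : IsOpen U := by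
    refine (P.isOpen_E τ).2 fun g => isOpen_iff_mem_nhds.2 fun z hz => ?_
    rcases hU g z hz with ⟨rfl, hn, -⟩ | ⟨i, hi, hg, -⟩
    · have : IsOpen (⋂ a, {z : P.D | (z : ℂ) ≠ P.vtx a}) :=
        isOpen_iInter_of_finite fun a => isOpen_ne_fun continuous_subtype_val continuous_const
      filter_upwards [this.mem_nhds (mem_iInter.2 hn)] with y hy
      exact (hR 1 y _ (Or.inl ⟨rfl, mem_iInter.1 hy, rfl⟩)).1
    · filter_upwards [((P.isOpen_Sct _).preimage continuous_subtype_val).mem_nhds hi] with y hy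
      exact (hR g y _ (Or.inr ⟨i, hy, hg, rfl⟩)).1
  refine ⟨U, dev, ⟨hop, P.continuousOn_E τ hop fun g z hz => ?_, ?_, ?_, ?_, ?_, ?_⟩,
    fun z hz => hR 1 z _ (Or.inl ⟨rfl, hz, rfl⟩), ?_⟩
  · rcases hU g z hz with ⟨rfl, -, he⟩ | ⟨i, hi, hg, -⟩
    · refine continuous_subtype_val.continuousWithinAt.congr (fun y hy => ?_) he
      rcases hU 1 y hy with ⟨-, -, he'⟩ | ⟨i', -, hg', -⟩
      · exact he'
      · exact absurd ((one_mul _).symm.trans hg') (h1 i')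
    · have hc : ContinuousAt (fun y : P.D => Chart_rf P.toPoly i y) z :=
        ((Chart_rf_cont P.toPoly i).continuousAt ((P.isOpen_Sct _).mem_nhds hi)).comp
          continuous_subtype_val.continuousAt
      refine (hc.congr ?_).continuousWithinAt
      filter_upwards [((P.isOpen_Sct _).preimage continuous_subtype_val).mem_nhds hi] with y hy
      exact (hR g y _ (Or.inr ⟨i, hy, hg, rfl⟩)).2.symm
  · intro e he e' he' hee
    obtain ⟨g, z, rfl⟩ := P.exists_tp τ e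
    obtain ⟨g', z', rfl⟩ := P.exists_tp τ e'
    rcases hU g z he with ⟨rfl, -, hw⟩ | ⟨i, hi, hg, hw⟩
    · rcases hU g' z' he' with ⟨rfl, -, hw'⟩ | ⟨i', hi', hg', hw'⟩
      · rw [Subtype.ext (hw.symm.trans (hee.trans hw') : (z : ℂ) = z')]
      · have e1 : (z : ℂ) = Chart_rf P.toPoly i' z' := hw.symm.trans (hee.trans hw')
        obtain ⟨y, hy, hy'⟩ := Chart_cross_one hi' hg' (e1 ▸ z.2.1)
        rw [hy, Subtype.ext (e1.trans hy')]
    · rcases hU g' z' he' with ⟨rfl, -, hw'⟩ | ⟨i', hi', hg', hw'⟩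
      · have e1 : (z' : ℂ) = Chart_rf P.toPoly i z := hw'.symm.trans (hee.symm.trans hw)
        obtain ⟨y, hy, hy'⟩ := Chart_cross_one hi hg (e1 ▸ z'.2.1)
        rw [hy, Subtype.ext (e1.trans hy')]
      · have e1 : Chart_rf P.toPoly i z = Chart_rf P.toPoly i' z' := hw.symm.trans (hee.trans hw')
        have e2 : P.σ i = P.σ i' := P.side_unique (Chart_rf_mem _ hi (Chart_lt z)).1
          (e1 ▸ (Chart_rf_mem _ hi' (Chart_lt z')).1)
        obtain rfl : i = i' := by rw [← P.σσ i, e2, P.σσ]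
        have e3 : (z : ℂ) = z' := by
          rw [← Chart_rf_rf _ hi (Chart_lt z), e1, Chart_rf_rf _ hi' (Chart_lt z')]
        rw [Subtype.ext e3, mul_right_cancel (hg.trans hg'.symm)]
  · intro e he
    obtain ⟨g, z, rfl⟩ := P.exists_tp τ e
    rcases hU g z he with ⟨-, -, hw⟩ | ⟨i, hi, -, hw⟩
    · rw [hw]
      exact Chart_lt z
    · rw [hw, Chart_rf_norm _ _ (Chart_lt z)]
      exact sub_lt_self _ (norm_pos_iff.2 hi.1)
  · intro e he j hj
    obtain ⟨g, z, rfl⟩ := P.exists_tp τ e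
    rw [P.smul_tp]
    rcases hU g z he with ⟨rfl, -, hw⟩ | ⟨i, hi, hg, hw⟩
    · rw [hw] at hj ⊢
      exact hR _ z _ (Or.inr ⟨j, hj, by rw [mul_one, inv_mul_cancel], rfl⟩)
    · rw [hw] at hj ⊢
      obtain rfl : j = P.σ i := P.side_unique hj (Chart_rf_mem _ hi (Chart_lt z)).1
      refine hR _ z _ (Or.inl ⟨?_, Chart_nc _ hi, Chart_rf_rf _ hi (Chart_lt z)⟩)
      rw [hτ i, inv_inv]
      exact mul_eq_one_comm.1 hg
  · intro e he h hh
    obtain ⟨g, z, rfl⟩ := P.exists_tp τ e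
    rw [P.smul_tp] at hh
    rcases hU g z he with ⟨rfl, -, hw⟩ | ⟨i, hi, hg, hw⟩
    · rcases hU _ z hh with ⟨hg', -, -⟩ | ⟨i', hi', hg', -⟩
      · exact Or.inl ((mul_one h).symm.trans hg')
      · rw [mul_one] at hg'
        exact Or.inr ⟨i', hw ▸ hi', eq_inv_of_mul_eq_one_left hg'⟩
    · rcases hU _ z hh with ⟨hg', -, -⟩ | ⟨i', hi', hg', -⟩
      · refine Or.inr ⟨P.σ i, hw ▸ (Chart_rf_mem _ hi (Chart_lt z)).1, ?_⟩
        rw [hτ i, inv_inv, ← mul_one h, ← hg, ← mul_assoc, hg', one_mul]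
      · obtain rfl : i = i' := P.side_unique hi hi'
        rw [mul_assoc, hg, mul_one] at hg'
        exact Or.inl hg'
  · intro e he h
    obtain ⟨g, z, rfl⟩ := P.exists_tp τ e
    rcases hU g z he with ⟨-, hn, hw⟩ | ⟨i, hi, -, hw⟩
    · rw [hw] at h ⊢
      rcases cases_D z with h' | ⟨-, h'⟩ | ⟨a, -, h'⟩
      · exact absurd h' (not_lt.2 h)
      · exact h'
      · exact absurd h' (hn a)
    · exact ⟨P.σ i, hw ▸ (Chart_rf_mem _ hi (Chart_lt z)).1⟩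
  · intro e he h
    obtain ⟨g, z, rfl⟩ := P.exists_tp τ e
    rcases hU g z he with ⟨rfl, -, hw⟩ | ⟨i, hi, hg, hw⟩
    · exact ⟨z, rfl, hw⟩
    · rw [hw] at h ⊢
      exact Chart_cross_one hi hg h

theorem exists_far {U : Set (P.E τ)} {dev : P.E τ → ℂ} (h : Chart P.toPoly τ U dev)
    (h1 : ∀ z : P.D, (∀ a, (z : ℂ) ≠ P.vtx a) → P.tp τ 1 z ∈ U ∧ dev (P.tp τ 1 z) = z)
    (h2 : ∀ e ∈ U, ‖dev e‖ ≤ 1 → ∃ z : P.D, e = P.tp τ 1 z ∧ dev e = z)
    {x : G} {c : ℝ → P.E τ} (hc : LineT 1 x c) (hn : ∀ t, NC (c t)) :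
    ∃ δ, Far P.toPoly G U dev c δ := by
  obtain ⟨d, hd, hdG, hd1, hd2⟩ := exists_dist (P := P) (τ := τ) univ (fun _ _ _ => trivial)
    fun _ _ _ _ => trivial
  have hpos : ∀ t, 0 < d (c t) := by
    intro t
    obtain ⟨g, z, hz⟩ := P.exists_tp τ (c t)
    by_contra hle
    have hle' := not_lt.1 hle
    rw [hz] at hle'
    obtain ⟨a, -, ha⟩ := hd2 g z (hle'.trans_lt one_half_pos)
    rw [ha, Poly.NN] at hle'
    have k1 := z.2.1
    have k2 := abs_nonneg (P.ph (P.an a) z)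
    have k3 : ‖(z : ℂ)‖ = 1 := by linarith
    have k4 : P.ph (P.an a) z = 0 := abs_eq_zero.1 (by linarith)
    have k5 := P.polar (P.an a) z
    rw [k3, k4, add_zero, Complex.ofReal_one, one_mul] at k5
    exact hn t g z hz a k5
  obtain ⟨t₀, -, ht₀⟩ := isCompact_Icc.exists_isMinOn (nonempty_Icc.2 (zero_le_one' ℝ))
    (hd.comp hc.cont).continuousOn
  have hmin : ∀ t, d (c t₀) ≤ d (c t) := by
    intro t
    have e : c t = x ^ ⌊t⌋ • c (Int.fract t) := by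
      rw [← hc.zper, mul_one, Int.fract_add_floor]
    rw [e, hdG]
    exact ht₀ ⟨Int.fract_nonneg t, (Int.fract_lt_one t).le⟩
  have hm : 0 < min (d (c t₀)) (1 / 2) := lt_min (hpos t₀) one_half_pos
  have hm1 := min_le_left (d (c t₀)) (1 / 2)
  have hm2 := min_le_right (d (c t₀)) (1 / 2)
  refine ⟨min (d (c t₀)) (1 / 2) / 2, by linarith, by linarith, fun t => ?_, fun t g hg hδ => ?_⟩
  · obtain ⟨g, z, hz⟩ := P.exists_tp τ (c t)
    refine ⟨g⁻¹, ?_⟩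
    obtain ⟨k1, k2⟩ := h1 z (hn t g z hz)
    rw [hz, P.smul_tp, inv_mul_cancel, k2]
    exact ⟨k1, z.2.1⟩
  · rcases le_total 1 ‖dev (g • c t)‖ with k | k
    · exact h.out _ hg k
    obtain ⟨z, hz, hz'⟩ := h2 _ hg k
    rw [hz'] at hδ ⊢
    have hz0 : 0 < ‖(z : ℂ)‖ := by linarith
    obtain ⟨j, u, hu, hzu⟩ := P.exists_side z
    rcases Chart_end P.toPoly j hu with hu' | ⟨e, he⟩
    · exact ⟨j, hzu ▸ (P.side_mem hz0 hu').1⟩
    · exfalso
      have k1 := hd1 1 z (j, e) trivial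
      have k2 : P.ph (P.an (j, e)) z = 0 := by
        have k3 := P.ph_polar (θ := P.an (j, e)) (t := 0) hz0 (by
          rw [abs_zero]
          exact half_pos P.n_pos)
        rwa [add_zero, ← he, ← hzu, he] at k3
      rw [← hz, hdG, Poly.NN, k2, abs_zero] at k1
      have k4 := hmin t
      linarith

end PolyV

end Pool.Agent.P.MP_038aca_al.Top
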