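import Pool.Agent.P.MP_038aca_al.Top.Til2

/-! The tiled space is a regular covering. -/

namespace Pool.Agent.P.MP_038aca_al.Top.PolyV

open Set Topology

variable {J : Type} {P : PolyV J} {G : Type} [Group G] {τ : J → G} {k : J × Bool → G}

theorem Cover_gen {U : Set (P.E τ)} (hU : IsOpen U) {e : P.E τ} (he : e ∈ U)
    (h : ∀ (a g : G) (z : P.D), P.tp τ g z ∈ U → P.tp τ (a * g) z ∈ U → a * g = g) :
    ∃ U ∈ 𝓝 e, ∀ g : G, ((g • ·) '' U ∩ U).Nonempty → g = 1 := by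
  refine ⟨U, hU.mem_nhds he, ?_⟩
  rintro a ⟨_, ⟨x, hx, rfl⟩, hx'⟩
  obtain ⟨g, z, rfl⟩ := P.exists_tp τ x
  exact mul_eq_right.1 (h a g z hx hx')

theorem Cover_side (hτ : IsLab P.toPr τ) {g g' : G} {z z' : P.D} {j : J}
    (hz : (z : ℂ) ∈ P.Sct (P.mid j)) (h : P.tp τ g z = P.tp τ g' z') :
    (g' = g ∧ (z' : ℂ) ∈ P.Sct (P.mid j)) ∨
      (g' = g * τ j ∧ (z' : ℂ) ∈ P.Sct (P.mid (P.σ j))) := by
  rcases tp_eq_side hτ hz h with ⟨h1, rfl⟩ | ⟨h1, -, h2⟩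
  · exact Or.inl ⟨h1, hz⟩
  · refine Or.inr ⟨h1, ?_⟩
    have h3 := (P.side_mem (j := P.σ j) one_pos (P.side_polar hz).1).1
    rwa [Complex.ofReal_one, one_mul, ← h2] at h3

theorem exists_nhds_disjoint (hk : P.Lab τ k) (e : P.E τ) :
    ∃ U ∈ 𝓝 e, ∀ g : G, ((g • ·) '' U ∩ U).Nonempty → g = 1 := by
  obtain ⟨g₀, z₀, rfl⟩ := P.exists_tp τ e
  rcases cases_D z₀ with h₀ | ⟨-, j, h₀⟩ | ⟨a₀, ha₀, h₀⟩
  · have key : ∀ g (z : P.D), P.tp τ g z ∈ {e | ∃ z : P.D, ‖(z : ℂ)‖ < 1 ∧ P.tp τ g₀ z = e} ↔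
        g = g₀ ∧ ‖(z : ℂ)‖ < 1 := by
      refine fun g z => ⟨?_, ?_⟩
      · rintro ⟨z', h1, h2⟩
        obtain ⟨rfl, rfl⟩ := tp_eq_inner h1 h2
        exact ⟨rfl, h1⟩
      · rintro ⟨rfl, h1⟩
        exact ⟨z, h1, rfl⟩
    refine Cover_gen ((P.isOpen_E τ).2 fun g => ?_) ((key g₀ z₀).2 ⟨rfl, h₀⟩) fun a g z h1 h2 =>
      ((key _ _).1 h2).1.trans ((key _ _).1 h1).1.symm
    simp only [key]
    exact isOpen_const.and (isOpen_lt continuous_subtype_val.norm continuous_const)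
  · have key : ∀ g (z : P.D), P.tp τ g z ∈ {e | ∃ z : P.D,
        ((z : ℂ) ∈ P.Sct (P.mid j) ∧ P.tp τ g₀ z = e) ∨
          ((z : ℂ) ∈ P.Sct (P.mid (P.σ j)) ∧ P.tp τ (g₀ * τ j) z = e)} ↔
        (g = g₀ ∧ (z : ℂ) ∈ P.Sct (P.mid j)) ∨
          (g = g₀ * τ j ∧ (z : ℂ) ∈ P.Sct (P.mid (P.σ j))) := by
      refine fun g z => ⟨?_, ?_⟩
      · rintro ⟨z', ⟨h1, h2⟩ | ⟨h1, h2⟩⟩
        · exact Cover_side hk.lab h1 h2
        · have h3 := Cover_side hk.lab h1 h2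
          rw [hk.lab j, P.σσ, mul_inv_cancel_right] at h3
          exact h3.symm
      · rintro (⟨rfl, h1⟩ | ⟨rfl, h1⟩)
        · exact ⟨z, Or.inl ⟨h1, rfl⟩⟩
        · exact ⟨z, Or.inr ⟨h1, rfl⟩⟩
    refine Cover_gen ((P.isOpen_E τ).2 fun g => ?_) ((key g₀ z₀).2 (Or.inl ⟨rfl, h₀⟩))
      fun a g z h1 h2 => ?_
    · simp only [key]
      exact (isOpen_const.and ((P.isOpen_Sct _).preimage continuous_subtype_val)).union
        (isOpen_const.and ((P.isOpen_Sct _).preimage continuous_subtype_val))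
    · rcases (key _ _).1 h1 with ⟨h3, h4⟩ | ⟨h3, h4⟩ <;>
        rcases (key _ _).1 h2 with ⟨h5, h6⟩ | ⟨h5, h6⟩
      · exact h5.trans h3.symm
      · exact absurd (P.side_unique h6 h4) (P.ne j)
      · exact absurd (P.side_unique h4 h6) (P.ne j)
      · exact h5.trans h3.symm
  · obtain ⟨O, f, h1, h2, h3⟩ := exists_star hk
    refine Cover_gen (h3 (f (P.tp τ g₀ z₀)))
      ⟨(h1 _ _).2 ⟨a₀, ha₀, h₀ ▸ P.vtx_mem a₀⟩, rfl⟩ fun a g z h4 h5 => ?_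
    obtain ⟨b, hb, hz⟩ := (h1 _ _).1 h4.1
    have h6 := h5.2.trans h4.2.symm
    rw [h2 _ z b hb hz, h2 _ z b hb hz] at h6
    exact mul_right_cancel h6

theorem smul_eq_self (hk : P.Lab τ k) {h : G} {e : P.E τ} (he : h • e = e) : h = 1 := by
  obtain ⟨U, hU, h1⟩ := exists_nhds_disjoint hk e
  exact h1 h ⟨e, ⟨e, mem_of_mem_nhds hU, he⟩, mem_of_mem_nhds hU⟩

theorem Cover_eqv {z z' : P.D} (h : Relation.EqvGen P.Gl z z') :
    ∀ g : G, ∃ g', P.tp τ g z = P.tp τ g' z' := by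
  induction h with
  | rel z z' h =>
    obtain ⟨j, hj⟩ := h
    exact fun g => ⟨_, tp_glue hj g⟩
  | refl z => exact fun g => ⟨g, rfl⟩
  | symm z z' _ ih =>
    intro g
    obtain ⟨g', h⟩ := ih 1
    have h1 := congrArg ((g * g'⁻¹) • ·) h
    simp only [smul_tp, inv_mul_cancel_right] at h1
    exact ⟨_, h1.symm⟩
  | trans z z' z'' _ _ ih ih' =>
    intro g
    obtain ⟨g', h⟩ := ih g
    obtain ⟨g'', h'⟩ := ih' g'
    exact ⟨g'', h.trans h'⟩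

theorem exists_cover (hk : P.Lab τ k) {X : Type} [TopologicalSpace X] {q : P.D → X}
    (hq : P.Geo q) :
    ∃ π : P.E τ → X, (∀ g z, π (P.tp τ g z) = q z) ∧ IsQuotientCoveringMap π G := by
  obtain ⟨π, hπ⟩ := exists_lift (P := P) (τ := τ) (fun _ z => q z) fun g j z z' h =>
    (hq.ker z z').2 (.rel _ _ ⟨j, h⟩)
  have hc : Continuous π := (P.continuous_E τ).2 fun g => by
    simp only [hπ]
    exact hq.quot.continuous
  have hQ : IsQuotientMap π := IsQuotientMap.of_comp (P.continuous_tp τ 1) hc (by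
    rw [show π ∘ P.tp τ 1 = q from funext (hπ 1)]
    exact hq.quot)
  refine ⟨π, hπ, hQ, inferInstance, fun {e₁ e₂} => ?_, exists_nhds_disjoint hk⟩
  obtain ⟨g', z', rfl⟩ := P.exists_tp τ e₂
  constructor
  · obtain ⟨g, z, rfl⟩ := P.exists_tp τ e₁
    intro h
    rw [hπ, hπ] at h
    obtain ⟨g'', h1⟩ := Cover_eqv (τ := τ) ((hq.ker z z').1 h) g
    refine ⟨g'' * g'⁻¹, ?_⟩
    simp only [smul_tp, inv_mul_cancel_right]
    exact h1.symm
  · rintro ⟨a, rfl⟩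
    simp only [smul_tp, hπ]

theorem pathConnected (hg : Subgroup.closure (range τ) = ⊤) : PathConnectedSpace (P.E τ) := by
  have hD : PathConnectedSpace P.D := isPathConnected_iff_pathConnectedSpace.1
    (P.convex_Ds.isPathConnected ⟨_, P.ctr.2⟩)
  have h1 : ∀ g (z z' : P.D), Joined (P.tp τ g z) (P.tp τ g z') := fun g z z' =>
    (PathConnectedSpace.joined z z').map (P.continuous_tp τ g)
  have h2 : ∀ (a : G) {x y : P.E τ}, Joined x y → Joined (a • x) (a • y) := fun a _ _ h =>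
    h.map (continuous_const_smul a)
  have h3 : ∀ g ∈ Subgroup.closure (range τ), Joined (P.tp τ 1 P.ctr) (P.tp τ g P.ctr) := by
    intro g hg
    induction hg using Subgroup.closure_induction with
    | mem x hx =>
      obtain ⟨j, rfl⟩ := hx
      have hu : (1 / 2 : ℝ) ∈ Ioo (0 : ℝ) 1 := ⟨by norm_num, by norm_num⟩
      have h4 := tp_glue (τ := τ) (j := j) (z := ⟨_, P.pt_mem_Ds hu⟩) (z' := ⟨_, P.pt_mem_Ds hu⟩)
        ⟨1 / 2, Ioo_subset_Icc_self hu, rfl, rfl⟩ 1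
      rw [one_mul] at h4
      refine (h1 1 _ ⟨_, P.pt_mem_Ds (j := j) hu⟩).trans ?_
      rw [h4]
      exact h1 _ _ _
    | one => exact Joined.refl _
    | mul a b _ _ ha hb =>
      have h4 := h2 a hb
      rw [smul_tp, smul_tp, mul_one] at h4
      exact ha.trans h4
    | inv a _ ha =>
      have h4 := h2 a⁻¹ ha
      rw [smul_tp, smul_tp, mul_one, inv_mul_cancel] at h4
      exact h4.symm
  refine ⟨⟨P.tp τ 1 P.ctr⟩, fun x y => ?_⟩
  obtain ⟨g, z, rfl⟩ := P.exists_tp τ x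
  obtain ⟨g', z', rfl⟩ := P.exists_tp τ y
  exact ((h1 g _ _).trans (h3 g (hg ▸ Subgroup.mem_top g)).symm).trans
    ((h3 g' (hg ▸ Subgroup.mem_top g')).trans (h1 g' _ _))

end Pool.Agent.P.MP_038aca_al.Top.PolyV
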