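import Pool.Agent.P.MP_038aca_al.Top.Poly2

/-! Crossing paths meet. -/

namespace Pool.Agent.P.MP_038aca_al.Top

open Set

/-- The change of the argument along a path in a closed half plane. -/
theorem Cross_edge {g h : ℝ → ℂ} (hh : Continuous h) (he : ∀ t, Complex.exp (h t) = g t) {c : ℂ}
    (hc : c ≠ 0) (hs : ∀ t, 0 ≤ (c * g t).re) :
    (h 1).im - (h 0).im = Complex.arg (c * g 1) - Complex.arg (c * g 0) := by
  have hg : Continuous g := by
    rw [← funext he]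
    fun_prop
  have h0 : ∀ t, c * g t ≠ 0 := fun t => mul_ne_zero hc (he t ▸ Complex.exp_ne_zero _)
  have hsl : ∀ t, c * g t ∈ Complex.slitPlane := fun t => by
    rw [Complex.mem_slitPlane_iff]
    by_contra hn
    rw [not_or, not_lt, not_not] at hn
    exact h0 t (Complex.ext (le_antisymm hn.1 (hs t)) hn.2)
  have hcont : Continuous fun t => h t - Complex.log (c * g t) :=
    hh.sub ((continuous_const.mul hg).clog hsl)
  have key := Complex.isCoveringMap_exp.const_of_comp hcont (by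
    intro s t
    apply Subtype.ext
    have a1 : g s ≠ 0 := he s ▸ Complex.exp_ne_zero _
    have a2 : g t ≠ 0 := he t ▸ Complex.exp_ne_zero _
    simp only [Complex.exp_sub, he, Complex.exp_log (h0 s), Complex.exp_log (h0 t)]
    field_simp) 1 0
  have := congrArg Complex.im key
  simp only [Complex.sub_im, Complex.log_im] at this
  linarith

theorem Cross_lift {F : ℝ × ℝ → ℂ} (hF : Continuous F) (h0 : ∀ p, F p ≠ 0) :
    ∃ L : ℝ × ℝ → ℂ, Continuous L ∧ ∀ p, Complex.exp (L p) = F p := by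
  obtain ⟨L, ⟨-, hL⟩, -⟩ := Complex.isCoveringMapOn_exp.existsUnique_continuousMap_lifts
    (⟨F, hF⟩ : C(ℝ × ℝ, ℂ)) (a₀ := (0, 0)) (e₀ := Complex.log (F (0, 0)))
    (Complex.exp_log (h0 _)) (fun p => h0 p)
  exact ⟨L, L.continuous, fun p => congrFun hL p⟩

theorem Cross_up {z : ℂ} (h1 : z.re = 0) (h2 : 0 < z.im) : Complex.arg z = Real.pi / 2 :=
  Complex.arg_eq_pi_div_two_iff.2 ⟨h1, h2⟩

theorem Cross_dn {z : ℂ} (h1 : z.re = 0) (h2 : z.im < 0) : Complex.arg z = -(Real.pi / 2) :=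
  Complex.arg_eq_neg_pi_div_two_iff.2 ⟨h1, h2⟩

/-- Paths in the closed upper half plane with interlaced endpoints on the real line meet. -/
theorem cross_half {α β : ℝ → ℂ} (hα : Continuous α) (hβ : Continuous β)
    (hα' : ∀ s, 0 ≤ (α s).im) (hβ' : ∀ t, 0 ≤ (β t).im) {x₁ y₁ x₂ y₂ : ℝ} (h1 : x₁ < y₁)
    (h2 : y₁ < x₂) (h3 : x₂ < y₂) (e1 : α 0 = x₁) (e2 : α 1 = x₂) (e3 : β 0 = y₁)
    (e4 : β 1 = y₂) : ∃ s t, α s = β t := by
  by_contra hne
  simp only [not_exists] at hne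
  obtain ⟨L, hL, he⟩ := Cross_lift (F := fun p => α p.1 - β p.2) (by fun_prop)
    fun p => sub_ne_zero.2 (hne _ _)
  have nI : -Complex.I ≠ 0 := neg_ne_zero.2 Complex.I_ne_zero
  have a1 := Cross_edge (h := fun s => L (s, 0)) (g := fun s => α s - β 0) (by fun_prop)
    (fun s => he _) nI fun s => by simpa [e3] using hα' s
  have a2 := Cross_edge (h := fun t => L (1, t)) (g := fun t => α 1 - β t) (by fun_prop)
    (fun s => he _) Complex.I_ne_zero fun t => by simpa [e2] using hβ' t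
  have a3 := Cross_edge (h := fun s => L (s, 1)) (g := fun s => α s - β 1) (by fun_prop)
    (fun s => he _) nI fun s => by simpa [e4] using hα' s
  have a4 := Cross_edge (h := fun t => L (0, t)) (g := fun t => α 0 - β t) (by fun_prop)
    (fun s => he _) Complex.I_ne_zero fun t => by simpa [e1] using hβ' t
  simp only [e1, e2, e3, e4] at a1 a2 a3 a4
  rw [Cross_dn (by simp) (by simpa using h2), Cross_up (by simp) (by simpa using h1)] at a1
  rw [Cross_dn (by simp) (by simpa using h3), Cross_up (by simp) (by simpa using h2)] at a2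
  rw [Cross_up (by simp) (by simpa using h3),
    Cross_up (by simp) (by simpa using h1.trans (h2.trans h3))] at a3
  rw [Cross_dn (by simp) (by simpa using h1.trans (h2.trans h3)),
    Cross_dn (by simp) (by simpa using h1)] at a4
  linarith [Real.pi_pos]

/-- Paths from the left to the right side of a vertical strip that change order meet. -/
theorem cross_strip {α β : ℝ → ℂ} (hα : Continuous α) (hβ : Continuous β) {l r : ℝ}
    (hα' : ∀ s, (α s).re ∈ Icc l r) (hβ' : ∀ t, (β t).re ∈ Icc l r) (e1 : (α 0).re = l)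
    (e2 : (α 1).re = r) (e3 : (β 0).re = l) (e4 : (β 1).re = r) (h1 : (α 0).im < (β 0).im)
    (h2 : (β 1).im < (α 1).im) : ∃ s t, α s = β t := by
  by_contra hne
  simp only [not_exists] at hne
  obtain ⟨L, hL, he⟩ := Cross_lift (F := fun p => α p.1 - β p.2) (by fun_prop)
    fun p => sub_ne_zero.2 (hne _ _)
  have n1 : (-1 : ℂ) ≠ 0 := neg_ne_zero.2 one_ne_zero
  have a1 := Cross_edge (h := fun s => L (s, 0)) (g := fun s => α s - β 0) (by fun_prop)
    (fun s => he _) one_ne_zero fun s => by simpa [e3] using (hα' s).1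
  have a2 := Cross_edge (h := fun t => L (1, t)) (g := fun t => α 1 - β t) (by fun_prop)
    (fun s => he _) one_ne_zero fun t => by simpa [e2] using (hβ' t).2
  have a3 := Cross_edge (h := fun s => L (s, 1)) (g := fun s => α s - β 1) (by fun_prop)
    (fun s => he _) n1 fun s => by simpa [e4] using (hα' s).2
  have a4 := Cross_edge (h := fun t => L (0, t)) (g := fun t => α 0 - β t) (by fun_prop)
    (fun s => he _) n1 fun t => by simpa [e1] using (hβ' t).1
  rw [Cross_dn (z := 1 * (α 0 - β 0)) (by simp [e1, e3]) (by simpa using h1)] at a1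
  rw [Cross_up (z := 1 * (α 1 - β 1)) (by simp [e2, e4]) (by simpa using h2)] at a2
  rw [Cross_dn (z := -1 * (α 1 - β 1)) (by simp [e2, e4]) (by simpa using h2)] at a3
  rw [Cross_up (z := -1 * (α 0 - β 0)) (by simp [e1, e3]) (by simpa using h1)] at a4
  linarith [Real.pi_pos]

/-- The Cayley map of the disc of radius `R` to the upper half plane. -/
noncomputable def Cross_w (R : ℝ) (z : ℂ) : ℂ := Complex.I * ((R + z) / (R - z))

theorem Cross_w_im {R : ℝ} {z : ℂ} (h : ‖z‖ ≤ R) : 0 ≤ (Cross_w R z).im := by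
  have h1 : z.re * z.re + z.im * z.im ≤ R * R := by
    rw [← Complex.normSq_apply, Complex.normSq_eq_norm_sq]
    nlinarith [norm_nonneg z]
  have e : (Cross_w R z).im = (R * R - (z.re * z.re + z.im * z.im)) / Complex.normSq (R - z) := by
    simp only [Cross_w, Complex.mul_im, Complex.I_re, Complex.I_im, Complex.div_re, zero_mul,
      one_mul, zero_add, Complex.add_re, Complex.sub_re, Complex.add_im, Complex.sub_im,
      Complex.ofReal_re, Complex.ofReal_im]
    ring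
  rw [e]
  exact div_nonneg (by linarith) (Complex.normSq_nonneg _)

theorem Cross_w_inj {R : ℝ} (hR : 0 < R) {z z' : ℂ} (h : z ≠ R) (h' : z' ≠ R)
    (e : Cross_w R z = Cross_w R z') : z = z' := by
  have a1 : (R : ℂ) - z ≠ 0 := sub_ne_zero.2 h.symm
  have a2 : (R : ℂ) - z' ≠ 0 := sub_ne_zero.2 h'.symm
  have a3 := mul_left_cancel₀ Complex.I_ne_zero e
  rw [div_eq_div_iff a1 a2] at a3
  have a4 : (2 * R : ℂ) ≠ 0 := mul_ne_zero two_ne_zero (Complex.ofReal_ne_zero.2 hR.ne')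
  apply mul_left_cancel₀ a4
  linear_combination a3

theorem Cross_w_circle {R x : ℝ} (hR : 0 < R) (hx : Real.sin x ≠ 0) :
    Cross_w R (R * Complex.exp (2 * x * Complex.I)) = (-(Real.cos x / Real.sin x) : ℝ) := by
  have a0 : (R : ℂ) ≠ 0 := Complex.ofReal_ne_zero.2 hR.ne'
  have a1 : (Real.sin x : ℂ) ≠ 0 := Complex.ofReal_ne_zero.2 hx
  have a2 : (Real.sin x : ℂ) ^ 2 + (Real.cos x : ℂ) ^ 2 = 1 := by
    exact_mod_cast Real.sin_sq_add_cos_sq x
  have a3 : Complex.exp (2 * x * Complex.I) =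
      ((Real.cos x : ℂ) + (Real.sin x : ℂ) * Complex.I) ^ 2 := by
    rw [Complex.ofReal_cos, Complex.ofReal_sin, ← Complex.exp_mul_I, ← Complex.exp_nat_mul]
    congr 1
    push_cast
    ring
  have a4 : (Real.cos x : ℂ) + (Real.sin x : ℂ) * Complex.I ≠ 0 := by
    rw [Complex.ofReal_cos, Complex.ofReal_sin, ← Complex.exp_mul_I]
    exact Complex.exp_ne_zero _
  rw [a3, Complex.ofReal_neg, Complex.ofReal_div]
  generalize (Real.cos x : ℂ) = c at *
  generalize (Real.sin x : ℂ) = s at *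
  have b1 : (R : ℂ) + R * (c + s * Complex.I) ^ 2 = 2 * R * c * (c + s * Complex.I) := by
    linear_combination (-R) * a2 + R * s ^ 2 * Complex.I_mul_I
  have b2 : (R : ℂ) - R * (c + s * Complex.I) ^ 2 =
      -2 * R * s * Complex.I * (c + s * Complex.I) := by
    linear_combination (-R) * a2 + R * s ^ 2 * Complex.I_mul_I
  rw [Cross_w, b1, b2, mul_div_mul_right _ _ a4]
  have := Complex.I_ne_zero
  field_simp

theorem Cross_cot {x y : ℝ} (h0 : 0 < x) (h1 : x < y) (h2 : y < Real.pi) :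
    -(Real.cos x / Real.sin x) < -(Real.cos y / Real.sin y) := by
  have a1 := Real.sin_pos_of_pos_of_lt_pi h0 (h1.trans h2)
  have a2 := Real.sin_pos_of_pos_of_lt_pi (h0.trans h1) h2
  have a3 := Real.sin_pos_of_pos_of_lt_pi (sub_pos.2 h1) (by linarith)
  rw [Real.sin_sub] at a3
  rw [neg_lt_neg_iff, div_lt_div_iff₀ a2 a1]
  linarith

theorem Cross_path {S : Set ℂ} (hS : IsPathConnected S) {x y : ℂ} (hx : x ∈ S) (hy : y ∈ S) :
    ∃ γ : ℝ → ℂ, Continuous γ ∧ (∀ t, γ t ∈ S) ∧ γ 0 = x ∧ γ 1 = y := by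
  obtain ⟨g, hg⟩ := hS.joinedIn x hx y hy
  exact ⟨g.extend, g.continuous_extend, fun t => hg _, g.extend_zero, g.extend_one⟩

variable {J : Type} (P : Poly J)

/-- Paths in a closed disc with interlaced endpoints on the circle meet. -/
theorem Poly.cross_disc {R : ℝ} (hR : 0 < R) {S T : Set ℂ} (hS : IsPathConnected S)
    (hT : IsPathConnected T) (hS' : ∀ z ∈ S, ‖z‖ ≤ R ∧ z ≠ R) (hT' : ∀ z ∈ T, ‖z‖ ≤ R ∧ z ≠ R)
    {θ₁ θ₂ θ₃ θ₄ : ℝ} (h0 : 0 < θ₁) (h1 : θ₁ < θ₂) (h2 : θ₂ < θ₃) (h3 : θ₃ < θ₄) (h4 : θ₄ < P.n)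
    (e1 : (R : ℂ) * P.pt θ₁ ∈ S) (e3 : (R : ℂ) * P.pt θ₃ ∈ S) (e2 : (R : ℂ) * P.pt θ₂ ∈ T)
    (e4 : (R : ℂ) * P.pt θ₄ ∈ T) : (S ∩ T).Nonempty := by
  obtain ⟨α, a1, a2, a3, a4⟩ := Cross_path hS e1 e3
  obtain ⟨β, b1, b2, b3, b4⟩ := Cross_path hT e2 e4
  have hn := P.n_pos
  have hp := Real.pi_pos
  have lt : ∀ {θ θ' : ℝ}, θ < θ' → Real.pi * θ / P.n < Real.pi * θ' / P.n := fun h =>
    div_lt_div_of_pos_right (mul_lt_mul_of_pos_left h hp) hn
  have x0 : 0 < Real.pi * θ₁ / P.n := by positivity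
  have x4 : Real.pi * θ₄ / P.n < Real.pi := by
    rw [div_lt_iff₀ hn]
    exact mul_lt_mul_of_pos_left h4 hp
  have x1 := lt h1
  have x2 := lt h2
  have x3 := lt h3
  have val : ∀ θ : ℝ, 0 < Real.pi * θ / P.n → Real.pi * θ / P.n < Real.pi →
      Cross_w R (R * P.pt θ) =
        (-(Real.cos (Real.pi * θ / P.n) / Real.sin (Real.pi * θ / P.n)) : ℝ) := fun θ c1 c2 => by
    rw [← Cross_w_circle hR (Real.sin_pos_of_pos_of_lt_pi c1 c2).ne', Poly.pt]
    congr 3
    push_cast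
    ring
  have cont : ∀ γ : ℝ → ℂ, Continuous γ → (∀ t, γ t ≠ R) → Continuous fun t => Cross_w R (γ t) :=
    fun γ c1 c2 => continuous_const.mul ((continuous_const.add c1).div (continuous_const.sub c1)
      fun t => sub_ne_zero.2 (c2 t).symm)
  obtain ⟨s, t, e⟩ := cross_half (cont α a1 fun t => (hS' _ (a2 t)).2)
    (cont β b1 fun t => (hT' _ (b2 t)).2) (fun t => Cross_w_im (hS' _ (a2 t)).1)
    (fun t => Cross_w_im (hT' _ (b2 t)).1) (Cross_cot x0 x1 (by linarith))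
    (Cross_cot (by linarith) x2 (by linarith)) (Cross_cot (by linarith) x3 x4)
    (by rw [a3]; exact val _ x0 (by linarith)) (by rw [a4]; exact val _ (by linarith) (by linarith))
    (by rw [b3]; exact val _ (by linarith) (by linarith)) (by rw [b4]; exact val _ (by linarith) x4)
  exact ⟨α s, a2 s, by rw [Cross_w_inj hR (hS' _ (a2 s)).2 (hT' _ (b2 t)).2 e]; exact b2 t⟩

/-- Paths across a band that change order meet. -/
theorem Poly.cross_band {j : J} {r R : ℝ} (hr : 0 < r) (hrR : r ≤ R) {S T : Set ℂ}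
    (hS : IsPathConnected S) (hT : IsPathConnected T)
    (hS' : ∀ z ∈ S, z ∈ P.Sct (P.mid j) ∧ ‖z‖ ∈ Icc r R)
    (hT' : ∀ z ∈ T, z ∈ P.Sct (P.mid j) ∧ ‖z‖ ∈ Icc r R) {u₁ u₂ v₁ v₂ : ℝ}
    (hu₁ : u₁ ∈ Ioo (0 : ℝ) 1) (hu₂ : u₂ ∈ Ioo (0 : ℝ) 1) (hv₁ : v₁ ∈ Ioo (0 : ℝ) 1)
    (hv₂ : v₂ ∈ Ioo (0 : ℝ) 1) (h1 : u₁ < v₁) (h2 : v₂ < u₂)
    (e1 : (r : ℂ) * P.pt (P.th j u₁) ∈ S) (e2 : (R : ℂ) * P.pt (P.th j u₂) ∈ S)
    (e3 : (r : ℂ) * P.pt (P.th j v₁) ∈ T) (e4 : (R : ℂ) * P.pt (P.th j v₂) ∈ T) :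
    (S ∩ T).Nonempty := by
  obtain ⟨α, a1, a2, a3, a4⟩ := Cross_path hS e1 e2
  obtain ⟨β, b1, b2, b3, b4⟩ := Cross_path hT e3 e4
  have hR : 0 < R := hr.trans_le hrR
  have cont : ∀ γ : ℝ → ℂ, Continuous γ → (∀ t, γ t ∈ P.Sct (P.mid j)) →
      Continuous fun t => ((‖γ t‖ : ℝ) : ℂ) + (P.uc j (γ t) : ℝ) * Complex.I := fun γ c1 c2 =>
    (Complex.continuous_ofReal.comp c1.norm).add ((Complex.continuous_ofReal.comp
      ((P.continuousOn_uc j).comp_continuous c1 c2)).mul continuous_const)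
  have re : ∀ x y : ℝ, ((x : ℂ) + (y : ℂ) * Complex.I).re = x := fun x y => by simp
  have im : ∀ x y : ℝ, ((x : ℂ) + (y : ℂ) * Complex.I).im = y := fun x y => by simp
  obtain ⟨s, t, e⟩ := cross_strip (l := r) (r := R) (cont α a1 fun t => (hS' _ (a2 t)).1)
    (cont β b1 fun t => (hT' _ (b2 t)).1) (fun t => by rw [re]; exact (hS' _ (a2 t)).2)
    (fun t => by rw [re]; exact (hT' _ (b2 t)).2) (by rw [re, a3, P.norm_polar hr.le])
    (by rw [re, a4, P.norm_polar hR.le]) (by rw [re, b3, P.norm_polar hr.le])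
    (by rw [re, b4, P.norm_polar hR.le])
    (by rw [im, im, a3, b3, (P.side_mem hr hu₁).2, (P.side_mem hr hv₁).2]; exact h1)
    (by rw [im, im, a4, b4, (P.side_mem hR hu₂).2, (P.side_mem hR hv₂).2]; exact h2)
  have c1 := congrArg Complex.re e
  have c2 := congrArg Complex.im e
  rw [re, re] at c1
  rw [im, im] at c2
  have c3 : α s = β t := by
    rw [(P.side_polar (hS' _ (a2 s)).1).2, (P.side_polar (hT' _ (b2 t)).1).2, c1, c2]
  exact ⟨α s, a2 s, by rw [c3]; exact b2 t⟩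

end Pool.Agent.P.MP_038aca_al.Top
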