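import Pool.Agent.P.MP_038aca_al.Defs

/-! The surfaces of finite type as polygons with glued sides, and their simple closed curves. -/

namespace Pool.Agent.P.MP_038aca_al.Top

open Set

noncomputable section

/-- The boundary word `a₁ b₁ a₁⁻¹ b₁⁻¹ ⋯ a_g b_g a_g⁻¹ b_g⁻¹ · e₁ e₁ ⋯ e_k e_k · d₁ d₁⁻¹ ⋯ d_q d_q⁻¹`.
A letter is a pair (name, sign), where the sign `true` means exponent `+1`. -/
def word (g k q : ℕ) : List (Gen g k q × Bool) :=
  (List.ofFn fun i : Fin g =>
      [(.inl i, true), (.inr (.inl i), true), (.inl i, false), (.inr (.inl i), false)]).flatten ++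
    (List.ofFn fun j : Fin k =>
      [(.inr (.inr (.inl j)), true), (.inr (.inr (.inl j)), true)]).flatten ++
    (List.ofFn fun l : Fin q =>
      [(.inr (.inr (.inr l)), true), (.inr (.inr (.inr l)), false)]).flatten

/-- The point with parameter `u ∈ [0, 1]` on the `i`-th side. The unit circle is cut into
`w.length` equal arcs, and the `i`-th arc is run through counterclockwise if the `i`-th letter has
exponent `+1` and clockwise otherwise. -/
def sidePt {α : Type} (w : List (α × Bool)) (i : Fin w.length) (u : ℝ) : ℂ :=
  Complex.exp (2 * Real.pi * Complex.I * (if (w.get i).2 then i + u else i + 1 - u) / w.length)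

/-- Points with the same parameter on two sides with the same name are glued. -/
def Glued {α : Type} (w : List (α × Bool)) (z z' : Metric.closedBall (0 : ℂ) 1) : Prop :=
  ∃ i i' : Fin w.length, (w.get i).1 = (w.get i').1 ∧
    ∃ u ∈ Icc (0 : ℝ) 1, (z : ℂ) = sidePt w i u ∧ (z' : ℂ) = sidePt w i' u

/-- The closed surface of the polygon with boundary word `w`: the closed unit disc modulo the
gluing, with the quotient topology. -/
abbrev Closed {α : Type} (w : List (α × Bool)) : Type := Quot (Glued w)

/-- The closed surface of `word g k q` minus the middle points of the folds `d_l d_l⁻¹`, `l < p`. -/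
abbrev Surf (g k q p : ℕ) : Type :=
  {y : Closed (word g k q) // ∀ (z : Metric.closedBall (0 : ℂ) 1) (i : Fin (word g k q).length)
    (l : Fin q), (l : ℕ) < p → (word g k q).get i = (.inr (.inr (.inr l)), true) →
      (z : ℂ) = sidePt (word g k q) i 1 → y ≠ Quot.mk _ z}

/-- The surface with `g` handles, `k` crosscaps and `p` punctures. For the sphere the word is
`d₁ d₁⁻¹` and no point is removed. -/
abbrev Surface (g k p : ℕ) : Type := Surf g k (if g + k + p = 0 then 1 else p) p

/-- Simple closed curves: the only coincidence is that of the two endpoints. -/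
def IsSimpleLoop {X : Type} [TopologicalSpace X] {y : X} (γ : Path y y) : Prop :=
  ∀ s t, γ s = γ t → s = t ∨ (s = 0 ∧ t = 1) ∨ (s = 1 ∧ t = 0)

/-- The elements of the fundamental group whose conjugacy class is represented by a simple closed
curve: the classes of the loops `α γ α⁻¹` with `γ` a simple closed curve and `α` any path from the
base point to the starting point of `γ`. -/
def simpleClasses {X : Type} [TopologicalSpace X] (x₀ : X) : Set (FundamentalGroup X x₀) :=
  {x | ∃ (y : X) (α : Path x₀ y) (γ : Path y y), IsSimpleLoop γ ∧
    x = FundamentalGroup.fromPath (Path.Homotopic.Quotient.mk ((α.trans γ).trans α.symm))}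

end

end Pool.Agent.P.MP_038aca_al.Top
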