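import Pool.Agent.P.MP_038aca_al.Top.Valid2

/-! Chord diagrams, the flow that removes crossings, and the reachable homology classes. -/

namespace Pool.Agent.P.MP_038aca_al.Top

open scoped Pointwise

/-- Lists of labels as a system of edge data. -/
def lsSys (G : Type) [Group G] : Sys G (List G) where
  act g l := l.map (g * ·)
  rev := List.reverse
  OK A := Bal A.flatten
  act_one c := by simp
  act_mul g h c := by simp [mul_assoc]
  rev_rev := List.reverse_reverse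
  rev_act g c := List.map_reverse.symm
  rot A B h := by
    rw [List.flatten_append] at h ⊢
    exact h.rot
  flip A h := by
    rw [← List.reverse_flatten]
    exact h.reverse
  smul g A h := by
    rw [← List.map_flatten]
    exact h.map _
  glue A B c h h' := by
    rw [List.flatten_append] at h ⊢
    rw [List.flatten_singleton] at h
    exact h.glue h'
  cut A B _ h := ⟨A.flatten, by
    rw [List.flatten_append, List.flatten_singleton]
    exact bal_append_reverse _, by rwa [List.flatten_append] at h⟩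

variable {J G : Type} [Group G]

/-- A chord diagram of class `x`; the curve is cut open at the first crossing on the side `m`,
and `Y` are the labels of the other crossings on `m`. -/
structure DgD (p : Pr J) (W : List (J × Bool)) (τ : J → G) (m : J) (x : G) (Λ : J → List G)
    (Y : List G) : Prop where
  brk : ∃ h h', Λ m = h :: Y ∧ Λ (p.σ m) = h' :: Y.map (τ (p.σ m) * ·) ∧ h * x = τ m * h'
  eqv : ∀ j, j ≠ m → j ≠ p.σ m → (lsSys G).Eqv p τ Λ j
  ok : (lsSys G).OK ((lsSys G).wd Λ W)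

/-- Diagrams that are cut open at the first crossing on `m`. -/
def Dg1 (p : Pr J) (W : List (J × Bool)) (τ : J → G) (m : J) (x : G) : Prop :=
  ∃ Λ Y, DgD p W τ m x Λ Y

/-- Diagrams with a single crossing on `m`. -/
def Dg (p : Pr J) (W : List (J × Bool)) (τ : J → G) (m : J) (x : G) : Prop :=
  ∃ Λ, DgD p W τ m x Λ []

variable {p : Pr J} {W W' : List (J × Bool)} {τ : J → G} {m : J} {x : G}

theorem Flow_ne {a b : J} (h : a ≠ p.σ b) : p.σ a ≠ b := fun e => h (by rw [← e, p.σσ])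

theorem Flow_ne' {a b : J} (h : a ≠ b) : p.σ a ≠ p.σ b := fun e =>
  h (by rw [← p.σσ a, e, p.σσ])

theorem Flow_split {j : J} (h : j ∈ W.map Prod.fst) : ∃ A e B, W = A ++ (j, e) :: B := by
  obtain ⟨⟨_, e⟩, hs, rfl⟩ := List.mem_map.1 h
  obtain ⟨A, B, h⟩ := List.append_of_mem hs
  exact ⟨A, e, B, h⟩

theorem Flow_first (hW : Pat W) (m : J) : ∃ e R, W ~r (m, e) :: R := by
  obtain ⟨A, e, B, rfl⟩ := Flow_split (hW.all m)
  exact ⟨e, B ++ A, List.isRotated_append⟩

theorem Flow_locate {α β : Type} (f : α → List β) (R : List α) {l₁ l₂ : List β} {a : β}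
    (h : (R.map f).flatten = l₁ ++ a :: l₂) : ∃ A s B b₁ b₂, R = A ++ s :: B ∧
      f s = b₁ ++ a :: b₂ ∧ l₁ = (A.map f).flatten ++ b₁ ∧ l₂ = b₂ ++ (B.map f).flatten := by
  induction R generalizing l₁ with
  | nil => simp at h
  | cons s R ih =>
    have key : ∀ l, l₁ = f s ++ l → (R.map f).flatten = l ++ a :: l₂ → ∃ A t B b₁ b₂,
        s :: R = A ++ t :: B ∧ f t = b₁ ++ a :: b₂ ∧ l₁ = (A.map f).flatten ++ b₁ ∧
          l₂ = b₂ ++ (B.map f).flatten := fun l h1 h2 => by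
      obtain ⟨A, t, B, b₁, b₂, e1, e2, e3, e4⟩ := ih h2
      exact ⟨s :: A, t, B, b₁, b₂, by rw [e1, List.cons_append], e2,
        by rw [h1, e3, List.map_cons, List.flatten_cons, List.append_assoc], e4⟩
    rw [List.map_cons, List.flatten_cons, List.append_eq_append_iff] at h
    rcases h with ⟨l, h1, h2⟩ | ⟨_ | ⟨a', l⟩, h1, h2⟩
    · exact key l h1 h2
    · exact key [] (by rw [h1, List.append_nil, List.append_nil]) h2.symm
    · obtain ⟨rfl, h3⟩ := List.cons.inj h2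
      exact ⟨[], s, R, l₁, l, rfl, h1, rfl, h3⟩

theorem Flow_ev_length (Λ : J → List G) (s : J × Bool) :
    ((lsSys G).ev Λ s).length = (Λ s.1).length := by
  obtain ⟨j, _ | _⟩ := s <;> simp [Sys.ev, lsSys]

theorem Flow_ev_single {Λ : J → List G} {j : J} {a : G} (h : Λ j = [a]) (e : Bool) :
    (lsSys G).ev Λ (j, e) = [a] := by
  cases e <;> simp [Sys.ev, lsSys, h]

theorem Dg.rot (h : Dg p W τ m x) (hr : W ~r W') : Dg p W' τ m x := by
  obtain ⟨Λ, h⟩ := h
  exact ⟨Λ, h.brk, h.eqv, Sys.ok_rot _ _ hr h.ok⟩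

theorem Dg1.sub (hτ : IsLab p τ) (h : Dg1 p W τ m x) :
    Dg p.ext (sub p m W) (subLab p m τ) (.inl m) x := by
  classical
  obtain ⟨Λ, Y, ⟨h, h', e1, e2, e3⟩, he, hok⟩ := h
  have hm := p.ne m
  refine ⟨Sum.elim (fun j => if j = m then [h] else if j = p.σ m then [h'] else Λ j)
    fun b => if b then Y.map (τ (p.σ m) * ·) else Y, ⟨h, h', ?_, ?_, e3⟩, ?_, ?_⟩
  · simp
  · simp [Pr.ext, hm]
  · rintro (j | _ | _) h1 h2
    · have h1' : j ≠ m := fun e => h1 (congrArg _ e)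
      have h2' : j ≠ p.σ m := fun e => h2 (congrArg Sum.inl e)
      simpa [Sys.Eqv, Pr.ext, subLab, h1', h2', Flow_ne h2', Flow_ne' h1'] using he j h1' h2'
    · simp [Sys.Eqv, Pr.ext, subLab, lsSys, hτ m]
    · simp [Sys.Eqv, Pr.ext, subLab, lsSys]
  · refine (congrArg Bal ?_).mpr hok
    clear hok
    unfold Top.sub Sys.wd
    induction W with
    | nil => rfl
    | cons s W ih =>
      rw [List.flatMap_cons, List.map_append, List.flatten_append, ih, List.map_cons,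
        List.flatten_cons]
      congr 1
      obtain ⟨j, e⟩ := s
      by_cases h1 : j = m
      · subst h1
        cases e <;> simp [sub1, Sys.ev, lsSys, e1]
      · by_cases h2 : j = p.σ m
        · subst h2
          cases e <;> simp [sub1, Sys.ev, lsSys, e2, hm]
        · cases e <;> simp [sub1, Sys.ev, lsSys, h1, h2]

theorem dg_triv (hW : Pat W) (τ : J → G) (m : J) : Dg p W τ m (τ m) := by
  classical
  obtain ⟨e, R, hr⟩ := Flow_first hW m
  have hW' := hW.rot hr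
  obtain ⟨A, f, B, rfl⟩ :=
    Flow_split (W := R) ((List.mem_cons.1 (hW'.all (p.σ m))).resolve_left (p.ne m))
  refine Dg.rot ⟨fun j => if j = m ∨ j = p.σ m then [1] else [], ⟨1, 1, by simp, by simp, by simp⟩,
    fun j h1 h2 => by simp [Sys.Eqv, lsSys, h1, h2, Flow_ne h2, Flow_ne' h1], ?_⟩ hr.symm
  have hn := hW'.nodup
  have h0 : ∀ L : List (J × Bool), m ∉ L.map Prod.fst → p.σ m ∉ L.map Prod.fst →
      (L.map ((lsSys G).ev fun j => if j = m ∨ j = p.σ m then [1] else [])).flatten = [] := by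
    intro L h1 h2
    refine List.flatten_eq_nil_iff.2 fun l hl => ?_
    obtain ⟨s, hs, rfl⟩ := List.mem_map.1 hl
    have h3 : s.1 ≠ m := fun e => h1 (List.mem_map.2 ⟨s, hs, e⟩)
    have h4 : s.1 ≠ p.σ m := fun e => h2 (List.mem_map.2 ⟨s, hs, e⟩)
    simp [Sys.ev, lsSys, h3, h4]
  simp only [List.map_cons, List.map_append, List.nodup_cons, List.nodup_append, List.mem_append,
    List.mem_cons, not_or] at hn
  show Bal (List.flatten (List.map _ _))
  rw [List.map_cons, List.map_append, List.map_cons, List.flatten_cons, List.flatten_append,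
    List.flatten_cons, h0 A hn.1.1 fun h => hn.2.2.2 _ h _ (Or.inl rfl) rfl,
    h0 B hn.1.2.2 hn.2.2.1.1, Flow_ev_single (a := 1) (by simp), Flow_ev_single (a := 1) (by simp)]
  exact Bal.cons 1 Bal.nil Bal.nil

theorem DgD.move {M : Mv J} {Λ Λ' : J → List G} (hp : Pat (M.src p)) (hτ : IsLab p τ)
    (hb : M.b ≠ m) (hb' : M.b ≠ p.σ m) (h : DgD p (M.src p) τ m x Λ [])
    (hr : M.Rel p (lsSys G) τ Λ Λ') : DgD p (M.tgt p) (M.lab p τ) m x Λ' [] := by
  obtain ⟨a, a', e1, e2, e3⟩ := h.brk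
  refine ⟨⟨M.u p τ m * a, M.u p τ (p.σ m) * a', ?_, ?_, ?_⟩,
    fun j h1 h2 => hr.eqv hp hτ fun _ _ => h.eqv j h1 h2, hr.ok_tgt hp hτ⟩
  · rw [hr.other m hb.symm (Flow_ne hb').symm, e1]
    rfl
  · rw [hr.other _ hb'.symm (Flow_ne' hb).symm, e2]
    rfl
  · rw [mul_assoc, e3, Mv.lab]
    group

theorem Dg.back {M : Mv J} (hp : Pat (M.src p)) (hτ : IsLab p τ) (hb : M.b ≠ m)
    (hb' : M.b ≠ p.σ m) (h : Dg p (M.tgt p) (M.lab p τ) m x) : Dg p (M.src p) τ m x := by
  obtain ⟨Λ', h⟩ := h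
  have hnew := h.eqv (p.σ M.b) (Flow_ne hb') (Flow_ne' hb)
  rw [Sys.Eqv, p.σσ, (Mv.lab_b hp τ).2] at hnew
  obtain ⟨Λ, hr⟩ := Mv.exists_rel_back hp hτ hnew h.ok
  obtain ⟨a, a', e1, e2, e3⟩ := h.brk
  have key : ∀ j a, j ≠ M.b → j ≠ p.σ M.b → Λ' j = [a] → Λ j = [(M.u p τ j)⁻¹ * a] :=
    fun j a h1 h2 e => by
      rw [← (lsSys G).act_one (Λ j), ← inv_mul_cancel (M.u p τ j), Sys.act_mul,
        ← hr.other j h1 h2, e]
      rfl
  refine ⟨Λ, ⟨_, _, key m a hb.symm (Flow_ne hb').symm e1,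
    key _ a' hb'.symm (Flow_ne' hb).symm e2, ?_⟩,
    fun j h1 h2 => hr.eqv_back hp hτ fun _ _ => h.eqv j h1 h2, hr.ok_src⟩
  rw [mul_assoc, e3, Mv.lab]
  group

theorem Flow_step [Fintype J] {ι : Type} {c : ι → G} {κ : J → Set G × Set G} {M : Mv J}
    {Λ : J → List G} (hV : Valid c p (M.src p) τ κ) (h : DgD p (M.src p) τ m x Λ [])
    (hb : M.b ≠ m) (hb' : M.b ≠ p.σ m) {l : List G}
    (h1 : Bal (((lsSys G).wd Λ M.L).flatten ++ l.reverse))
    (h2 : Bal (l ++ ((lsSys G).wd Λ (M.R p)).flatten)) (hl : l.length < (Λ M.b).length) :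
    ∃ W' τ' κ' Λ', Valid c p W' τ' κ' ∧ DgD p W' τ' m x Λ' [] ∧
      ∑ j, (Λ' j).length < ∑ j, (Λ j).length := by
  have hold := h.eqv (p.σ M.b) (Flow_ne hb') (Flow_ne' hb)
  rw [Sys.Eqv, p.σσ] at hold
  obtain ⟨Λ', hr, e⟩ := Mv.exists_rel_of_cut (c := l) hold (by
    show Bal (List.flatten _)
    rwa [List.flatten_append, List.flatten_singleton]) h2
  obtain ⟨κ', hV'⟩ := hV.move
  have hlt : (Λ' M.b).length < (Λ M.b).length := by
    rwa [← Flow_ev_length Λ' (M.b, M.e), e]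
  refine ⟨_, _, κ', Λ', hV', h.move hV.pat hV.sec.lab hb hb' hr,
    Finset.sum_lt_sum (fun j _ => ?_) ⟨M.b, Finset.mem_univ _, hlt⟩⟩
  by_cases e1 : j = M.b
  · exact e1 ▸ hlt.le
  by_cases e2 : j = p.σ M.b
  · rw [e2, hr.new, hr.old]
    simpa [lsSys] using hlt.le
  · rw [hr.other j e1 e2]
    simp [lsSys]

/-- The flow: cut and paste until the curve crosses only `m`. -/
theorem flow [Finite J] {ι : Type} {c : ι → G} {κ : J → Set G × Set G} (hV : Valid c p W τ κ)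
    (h : Dg p W τ m x) : ∃ W' τ' κ', Valid c p W' τ' κ' ∧ IsConj (τ' m) x := by
  have := Fintype.ofFinite J
  obtain ⟨Λ, h⟩ := h
  induction hN : ∑ j, (Λ j).length using Nat.strong_induction_on generalizing W τ κ Λ with
  | _ N ih =>
  suffices H : IsConj (τ m) x ∨ ∃ W' τ' κ' Λ', Valid c p W' τ' κ' ∧ DgD p W' τ' m x Λ' [] ∧
      ∑ j, (Λ' j).length < ∑ j, (Λ j).length by
    rcases H with H | ⟨W', τ', κ', Λ', h1, h2, h3⟩
    · exact ⟨W, τ, κ, hV, H⟩
    · exact ih _ (hN ▸ h3) h1 Λ' h2 rfl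
  obtain ⟨e₀, R, hr⟩ := Flow_first hV.pat m
  obtain ⟨a, a', e1, e2, e3⟩ := h.brk
  have hok : Bal ((lsSys G).ev Λ (m, e₀) ++ (R.map ((lsSys G).ev Λ)).flatten) :=
    Sys.ok_rot _ _ hr h.ok
  rw [Flow_ev_single e1] at hok
  obtain ⟨l₁, l₂, el, hl₁, hl₂⟩ := Bal.partner hok
  obtain ⟨A, ⟨b, e⟩, B, b₁, b₂, rfl, es, rfl, rfl⟩ := Flow_locate _ R el
  clear el
  by_cases hb' : b = p.σ m
  · left
    rw [hb', Flow_ev_single e2] at es
    have ha : a = a' := List.mem_singleton.1 (es ▸ by simp)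
    exact isConj_iff.2 ⟨a⁻¹, by rw [mul_assoc, inv_inv, inv_mul_eq_iff_eq_mul, e3, ha]⟩
  right
  have hp := hV.pat.rot hr
  have hb : b ≠ m := fun e => (List.nodup_cons.1 hp.nodup).1 (by simp [e])
  have hlen : (Λ b).length = b₁.length + (b₂.length + 1) := by
    rw [← Flow_ev_length Λ (b, e), es, List.length_append, List.length_cons]
  have hs := hp.all (p.σ b)
  simp only [List.map_cons, List.map_append, List.mem_cons, List.mem_append, Flow_ne hb', p.ne b,
    false_or] at hs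
  rcases hs with hs | hs
  · obtain ⟨R₁, f, R₂, rfl⟩ := Flow_split hs
    have hr' : W ~r Mv.src p ⟨[], B ++ [(m, e₀)], R₁, R₂, b, e, f⟩ := hr.trans (by
      simpa [Mv.src, Mv.L, Mv.R] using List.isRotated_append
        (l := (m, e₀) :: (R₁ ++ (p.σ b, f) :: R₂)) (l' := (b, e) :: B))
    refine Flow_step (hV.rot hr') ⟨h.brk, h.eqv, Sys.ok_rot _ _ hr' h.ok⟩ hb hb' (l := b₁) ?_
      hl₁.rot (by show _ < (Λ b).length; omega)
    have h3 := ((bal_append_reverse b₁.reverse).append (Bal.cons a hl₂ Bal.nil))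
    rw [List.reverse_reverse, List.append_assoc] at h3
    simpa [Mv.L, Sys.wd, es, Flow_ev_single e1] using h3.rot
  · obtain ⟨R₁, f, R₂, rfl⟩ := Flow_split hs
    have hr' : W ~r Mv.src p ⟨(m, e₀) :: A, [], R₁, R₂, b, e, f⟩ := by
      simpa [Mv.src, Mv.L, Mv.R] using hr
    refine Flow_step (hV.rot hr') ⟨h.brk, h.eqv, Sys.ok_rot _ _ hr' h.ok⟩ hb hb' (l := b₂) ?_
      hl₂ (by show _ < (Λ b).length; omega)
    simpa [Mv.L, Sys.wd, es, Flow_ev_single e1] using Bal.cons a hl₁ (bal_append_reverse b₂)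

/-- The classes of chord diagrams lie in finitely many orbits. -/
theorem finite_orbits [Finite J] {ι : Type} {c : ι → G} (hc : ∀ l, ¬ IsOfFinOrder (c l))
    {κ : J → Set G × Set G} (hV : Valid c p W τ κ) : ∃ C : Set G, C.Finite ∧
      ∀ m x, Dg1 p W τ m x → ∃ F : G ≃* G, Peri c F ∧ ∃ y ∈ C, IsConj (F y) x := by
  obtain ⟨C, hC, h⟩ := finite_labels hc p.ext
  refine ⟨C, hC, fun m x hx => ?_⟩
  obtain ⟨κ', hV'⟩ := hV.sub m
  obtain ⟨W', τ', κ'', h1, h2⟩ := flow hV' (hx.sub hV.sec.lab)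
  obtain ⟨F, hF, y, hy, e⟩ := h W' τ' κ'' h1 (.inl m)
  exact ⟨F, hF, y, hy, e ▸ h2⟩

end Pool.Agent.P.MP_038aca_al.Top
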