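import Pool.Agent.P.MP_038aca_al.Top.Poly2
import Pool.Agent.P.MP_038aca_al.Top.Flow

/-! Chord diagrams given by points on the sides. -/

namespace Pool.Agent.P.MP_038aca_al.Top

open Set

variable {J : Type} {G : Type} [Group G]

/-- Points `t` on the sides `sd t` with parameters `uu t`, joined by the chords `μ` and glued by
`ν`, with labels; the gluing at `t₀` is twisted by `x`. -/
structure TD (P : Poly J) (τ : J → G) (x : G) {T : Type} (sd : T → J) (uu : T → ℝ)
    (μ ν : Equiv.Perm T) (lab : T → G) (t₀ : T) : Prop where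
  μμ : ∀ t, μ (μ t) = t
  μ_ne : ∀ t, μ t ≠ t
  νν : ∀ t, ν (ν t) = t
  sd_ν : ∀ t, sd (ν t) = P.σ (sd t)
  mem : ∀ t, uu t ∈ Ioo (0 : ℝ) 1
  inj : ∀ s t, sd s = sd t → uu s = uu t → s = t
  nc : ∀ s t, ¬ (P.th (sd s) (uu s) < P.th (sd t) (uu t) ∧
    P.th (sd t) (uu t) < P.th (sd (μ s)) (uu (μ s)) ∧
    P.th (sd (μ s)) (uu (μ s)) < P.th (sd (μ t)) (uu (μ t)))
  band : ∀ s t, sd s = sd t → uu s < uu t → uu (ν s) < uu (ν t)
  lab_μ : ∀ t, lab (μ t) = lab t
  lab_ν : ∀ t, t ≠ t₀ → t ≠ ν t₀ → lab t = τ (sd t) * lab (ν t)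
  brk : lab t₀ * x = τ (sd t₀) * lab (ν t₀)

variable {P : Poly J} {τ : J → G} {x : G}

/-- The points in the order of the boundary. -/
theorem pairwise_boundary (P : Poly J) {T : Type} {sd : T → J} {uu : T → ℝ}
    (hu : ∀ t, uu t ∈ Ioo (0 : ℝ) 1) {L : J → List T} (hL : ∀ j, ∀ t ∈ L j, sd t = j)
    (hs : ∀ j, (L j).Pairwise fun s t => uu s < uu t) :
    (P.W.flatMap fun s => if s.2 then L s.1 else (L s.1).reverse).Pairwise
      fun s t => P.th (sd s) (uu s) < P.th (sd t) (uu t) := by
  have hm : ∀ (j : J) (e : Bool) (t : T), t ∈ (if e then L j else (L j).reverse) → sd t = j := by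
    intro j e t ht
    cases e
    · exact hL j t (by simpa using ht)
    · exact hL j t (by simpa using ht)
  rw [List.pairwise_flatMap]
  refine ⟨?_, ?_⟩
  · intro a ha
    obtain ⟨i, rfl⟩ := List.mem_ofFn.1 ha
    generalize P.pos.symm i = j
    have h1 := List.Pairwise.and_mem.1 (hs j)
    by_cases hj : P.sg j = true
    · simp only [hj, if_true]
      refine h1.imp ?_
      rintro s t ⟨h2, h3, h4⟩
      rw [hL j s h2, hL j t h3]
      simp only [Poly.th, hj, if_true]
      linarith
    · simp only [hj]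
      rw [if_neg (by simp), List.pairwise_reverse]
      refine h1.imp ?_
      rintro s t ⟨h2, h3, h4⟩
      rw [hL j s h2, hL j t h3]
      simp only [Poly.th, hj]
      rw [if_neg (by simp), if_neg (by simp)]
      linarith
  · unfold Poly.W
    rw [List.pairwise_ofFn]
    intro i i' hi s h1 t h2
    have e1 := hm _ _ _ h1
    have e2 := hm _ _ _ h2
    have a1 := (P.th_mem (j := sd s) (hu s)).2
    have a2 := (P.th_mem (j := sd t) (hu t)).1
    have b1 : P.pos (sd s) = i := by rw [e1]; simp
    have b2 : P.pos (sd t) = i' := by rw [e2]; simp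
    rw [b1] at a1
    rw [b2] at a2
    have c : ((i : ℕ) : ℝ) + 1 ≤ ((i' : ℕ) : ℝ) := by exact_mod_cast (show (i : ℕ) + 1 ≤ i' from hi)
    linarith

/-- The points of each side, sorted by the parameter. -/
theorem TD_exists_sorted {T : Type} [Finite T] {sd : T → J} {uu : T → ℝ}
    (hi : ∀ s t, sd s = sd t → uu s = uu t → s = t) :
    ∃ L : J → List T, (∀ j t, t ∈ L j ↔ sd t = j) ∧
      ∀ j, (L j).Pairwise fun s t => uu s < uu t := by
  classical
  have := Fintype.ofFinite T
  refine ⟨fun j => ((Finset.univ.filter fun t => sd t = j).toList).mergeSort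
    fun s t => decide (uu s ≤ uu t), fun j t => by simp, fun j => ?_⟩
  have h1 : (((Finset.univ.filter fun t => sd t = j).toList).mergeSort
      fun s t => decide (uu s ≤ uu t)).Pairwise fun s t => decide (uu s ≤ uu t) = true := by
    refine List.pairwise_mergeSort ?_ ?_ _
    · intro a b c hab hbc
      simp only [decide_eq_true_eq] at hab hbc ⊢
      exact hab.trans hbc
    · intro a b
      simpa using le_total (uu a) (uu b)
  have h2 : (((Finset.univ.filter fun t => sd t = j).toList).mergeSort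
      fun s t => decide (uu s ≤ uu t)).Nodup :=
    (List.mergeSort_perm _ _).nodup_iff.2 (Finset.nodup_toList _)
  have h3 := List.Pairwise.and_mem.1 (h1.and h2)
  refine h3.imp ?_
  rintro s t ⟨hs, ht, h4, h5⟩
  have e1 : sd s = j := by simpa using hs
  have e2 : sd t = j := by simpa using ht
  refine lt_of_le_of_ne (by simpa using h4) fun e => h5 (hi s t (e1.trans e2.symm) e)

/-- Strictly sorted lists with the same members are equal. -/
theorem TD_eq_of_sorted {T : Type} {uu : T → ℝ} {A B : List T}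
    (hA : A.Pairwise fun s t => uu s < uu t) (hB : B.Pairwise fun s t => uu s < uu t)
    (h : ∀ t, t ∈ A ↔ t ∈ B) : A = B := by
  have n1 : A.Nodup := hA.imp fun {s t} hst e => by rw [e] at hst; exact lt_irrefl _ hst
  have n2 : B.Nodup := hB.imp fun {s t} hst e => by rw [e] at hst; exact lt_irrefl _ hst
  exact List.Perm.eq_of_pairwise (fun a b _ _ h1 h2 => absurd h1 (not_lt.2 h2.le)) hA hB
    ((List.perm_ext_iff_of_nodup n1 n2).2 h)

theorem TD.dg1 {T : Type} [Finite T] {sd : T → J} {uu : T → ℝ} {μ ν : Equiv.Perm T} {lab : T → G}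
    {t₀ : T} (hτ : IsLab P.toPr τ) (h : TD P τ x sd uu μ ν lab t₀)
    (h0 : ∀ t, sd t = sd t₀ → uu t₀ ≤ uu t) : Dg1 P.toPr P.W τ (sd t₀) x := by
  obtain ⟨L, hL, hs⟩ := TD_exists_sorted h.inj
  have hν : ∀ j, L (P.σ j) = (L j).map ν := by
    intro j
    refine TD_eq_of_sorted (hs _) ?_ fun t => ?_
    · rw [List.pairwise_map]
      refine (List.Pairwise.and_mem.1 (hs j)).imp ?_
      rintro s t ⟨h1, h2, h3⟩
      exact h.band s t (((hL _ _).1 h1).trans ((hL _ _).1 h2).symm) h3
    · rw [hL, List.mem_map]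
      constructor
      · intro ht
        refine ⟨ν t, (hL _ _).2 ?_, h.νν t⟩
        rw [h.sd_ν, ht, P.σσ]
      · rintro ⟨s, h1, rfl⟩
        rw [h.sd_ν, (hL _ _).1 h1]
  obtain ⟨r, hr⟩ : ∃ r, L (sd t₀) = t₀ :: r := by
    have h1 : t₀ ∈ L (sd t₀) := (hL _ _).2 rfl
    have h2 := hs (sd t₀)
    have h3 := fun t => (hL (sd t₀) t).1
    rcases hl : L (sd t₀) with _ | ⟨a, r⟩
    · rw [hl] at h1
      simp at h1
    · rw [hl] at h1 h2 h3
      rcases List.mem_cons.1 h1 with e | e
      · exact ⟨r, by rw [e]⟩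
      · exact absurd (List.rel_of_pairwise_cons h2 e)
          (not_lt.2 (h0 a (h3 a List.mem_cons_self)))
  refine ⟨fun j => (L j).map lab, r.map lab, ⟨lab t₀, lab (ν t₀), ?_, ?_, h.brk⟩, ?_, ?_⟩
  · simp only [hr, List.map_cons]
  · simp only [hν, hr, List.map_cons, List.map_map]
    congr 1
    refine List.map_congr_left fun t ht => ?_
    have h1 : sd t = sd t₀ := (hL _ _).1 (by rw [hr]; exact List.mem_cons_of_mem _ ht)
    have h2 : t ≠ t₀ := by
      rintro rfl
      have := hs (sd t)
      rw [hr] at this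
      exact lt_irrefl _ (List.rel_of_pairwise_cons this ht)
    have h3 : t ≠ ν t₀ := by
      intro e
      rw [e, h.sd_ν] at h1
      exact P.ne _ h1
    have h4 := h.lab_ν t h2 h3
    simp only [Function.comp]
    rw [h4, h1, hτ (sd t₀), inv_mul_cancel_left]
  · intro j hj hj'
    change (L j).map lab = ((L (P.σ j)).map lab).map (τ j * ·)
    rw [hν, List.map_map, List.map_map]
    refine List.map_congr_left fun t ht => ?_
    have h1 : sd t = j := (hL _ _).1 ht
    have h2 : t ≠ t₀ := by
      rintro rfl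
      exact hj h1.symm
    have h3 : t ≠ ν t₀ := by
      intro e
      rw [e, h.sd_ν] at h1
      exact hj' h1.symm
    simpa [h1] using h.lab_ν t h2 h3
  · have hp := pairwise_boundary P h.mem (fun j t ht => (hL j t).1 ht) hs
    have hall : ∀ t, t ∈ P.W.flatMap fun s => if s.2 then L s.1 else (L s.1).reverse := by
      intro t
      refine List.mem_flatMap.2 ⟨_, P.mem_W (sd t), ?_⟩
      have := (hL (sd t) t).2 rfl
      dsimp only
      split_ifs
      · exact this
      · exact List.mem_reverse.2 this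
    have hb := bal_of_ncm (θ := fun t => P.th (sd t) (uu t)) (μ := μ) (lab := lab) hp
      ⟨fun t _ => hall _, fun t _ => h.μ_ne t, fun t _ => h.μμ t, fun s _ t _ => h.nc s t⟩
      fun t _ => h.lab_μ t
    change Bal (((lsSys G).wd (fun j => (L j).map lab) P.W).flatten)
    convert hb using 1
    rw [List.map_flatMap, List.flatMap_def, Sys.wd]
    congr 1
    refine List.map_congr_left fun s _ => ?_
    rcases s with ⟨j, e⟩
    cases e
    · change ((L j).map lab).reverse = ((L j).reverse).map lab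
      rw [List.map_reverse]
    · rfl

end Pool.Agent.P.MP_038aca_al.Top
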