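import Pool.Agent.P.MP_038aca_al.Top.Step
import Pool.Agent.P.MP_038aca_al.Top.Cross
import Pool.Agent.P.MP_038aca_al.Top.TD

/-! The chord diagram of a line. -/

namespace Pool.Agent.P.MP_038aca_al.Top

open Set Topology

variable {J : Type} {G : Type} [Group G] {E : Type} [TopologicalSpace E] [MulAction G E]
  [ContinuousConstSMul G E] {P : Poly J} {τ : J → G} {U : Set E} {dev : E → ℂ} {x : G}
  {c : ℝ → E} {δ : ℝ}

/-- The side of a point. -/
def Extr_sd (P : Poly J) (j : ℕ → J) (i : ℕ) (e : Bool) : J := if e then j i else P.σ (j i)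

/-- The tile of a point. -/
def Extr_tl (g : ℕ → G) (i : ℕ) (e : Bool) : G := if e then g i else g (i + 1)

/-- The time of a point. -/
def Extr_tm (a b : ℕ → ℝ) (i : ℕ) (e : Bool) : ℝ := if e then b i else a i

/-- The parameter of a point. -/
noncomputable def Extr_uu (P : Poly J) (dev : E → ℂ) (c : ℝ → E) (a b : ℕ → ℝ) (j : ℕ → J)
    (g : ℕ → G) (i : ℕ) (e : Bool) : ℝ :=
  P.uc (j i) (dev ((g i)⁻¹ • c (Extr_tm a b i e)))

variable {N : ℕ} {a b : ℕ → ℝ} {j : ℕ → J} {g : ℕ → G}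

omit [TopologicalSpace E] [ContinuousConstSMul G E] in
theorem Extr_a_mono (hC : Crs P τ U dev x c δ N a b j g) : StrictMono a :=
  strictMono_nat_of_lt_succ fun i => (hC.lt i).trans (hC.lt' i)

omit [TopologicalSpace E] [ContinuousConstSMul G E] in
theorem Extr_b_mono (hC : Crs P τ U dev x c δ N a b j g) : StrictMono b :=
  strictMono_nat_of_lt_succ fun i => (hC.lt' i).trans (hC.lt (i + 1))

omit [TopologicalSpace E] [ContinuousConstSMul G E] in
theorem Extr_ba (hC : Crs P τ U dev x c δ N a b j g) {i k : ℕ} (h : i < k) : b i < a k :=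
  (hC.lt' i).trans_le ((Extr_a_mono hC).monotone h)

omit [TopologicalSpace E] [ContinuousConstSMul G E] in
theorem Extr_le (hC : Crs P τ U dev x c δ N a b j g) {i k : ℕ} (h : a k ≤ b i) : k ≤ i := by
  by_contra h'
  exact absurd (Extr_ba hC (not_le.1 h')) (not_lt.2 h)

omit [TopologicalSpace E] [ContinuousConstSMul G E] in
theorem Extr_tm_mem (hC : Crs P τ U dev x c δ N a b j g) (i : ℕ) (e : Bool) :
    Extr_tm a b i e ∈ Icc (a i) (b i) := by
  cases e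
  · exact ⟨le_rfl, (hC.lt i).le⟩
  · exact ⟨(hC.lt i).le, le_rfl⟩

omit [ContinuousConstSMul G E] in
/-- The band seen from both tiles. -/
theorem Extr_band (h : Chart P τ U dev) (hδ' : δ < 1 / 2) (hC : Crs P τ U dev x c δ N a b j g)
    (i : ℕ) (e : Bool) {t : ℝ} (ht : t ∈ Icc (a i) (b i)) :
    (Extr_tl g i e)⁻¹ • c t ∈ U ∧ P.uc (j i) (dev ((g i)⁻¹ • c t)) ∈ Ioo (0 : ℝ) 1 ∧
      dev ((Extr_tl g i e)⁻¹ • c t) =
        ((if e then ‖dev ((g i)⁻¹ • c t)‖ else 2 - ‖dev ((g i)⁻¹ • c t)‖ : ℝ) : ℂ) *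
          P.pt (P.th (Extr_sd P j i e) (P.uc (j i) (dev ((g i)⁻¹ • c t)))) := by
  obtain ⟨h1, h2, h3⟩ := hC.band i t ht
  obtain ⟨h4, h5⟩ := P.side_polar h2
  cases e
  · obtain ⟨h6, h7⟩ := h.cross _ h1 _ h2
    have e1 : (Extr_tl g i false)⁻¹ • c t = (τ (j i))⁻¹ • (g i)⁻¹ • c t := by
      rw [smul_smul, ← mul_inv_rev, ← hC.g_succ]
      rfl
    rw [e1]
    exact ⟨h6, h4, h7⟩
  · exact ⟨h1, h4, h5⟩

omit [ContinuousConstSMul G E] in
theorem Extr_band' (h : Chart P τ U dev) (hδ' : δ < 1 / 2) (hC : Crs P τ U dev x c δ N a b j g)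
    (i : ℕ) (e : Bool) {t : ℝ} (ht : t ∈ Icc (a i) (b i)) :
    dev ((Extr_tl g i e)⁻¹ • c t) ∈ P.Sct (P.mid (Extr_sd P j i e)) ∧
      ‖dev ((Extr_tl g i e)⁻¹ • c t)‖ ∈ Icc (1 - δ) (1 + δ) := by
  obtain ⟨-, h2, h3⟩ := Extr_band h hδ' hC i e ht
  obtain ⟨-, -, h4, h5⟩ := hC.band i t ht
  have h6 : (if e then ‖dev ((g i)⁻¹ • c t)‖ else 2 - ‖dev ((g i)⁻¹ • c t)‖ : ℝ) ∈
      Icc (1 - δ) (1 + δ) := by
    split_ifs
    · exact ⟨h4, h5⟩
    · exact ⟨by linarith, by linarith⟩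
  have h7 := h6.1
  rw [h3, P.norm_polar (by linarith)]
  exact ⟨(P.side_mem (by linarith) h2).1, h6⟩

omit [ContinuousConstSMul G E] in
theorem Extr_mem (h : Chart P τ U dev) (hδ' : δ < 1 / 2) (hC : Crs P τ U dev x c δ N a b j g)
    (i : ℕ) (e : Bool) : Extr_uu P dev c a b j g i e ∈ Ioo (0 : ℝ) 1 :=
  (Extr_band h hδ' hC i e (Extr_tm_mem hC i e)).2.1

omit [ContinuousConstSMul G E] in
theorem Extr_out (h : Chart P τ U dev) (hδ' : δ < 1 / 2) (hC : Crs P τ U dev x c δ N a b j g)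
    (i : ℕ) (e : Bool) : dev ((Extr_tl g i e)⁻¹ • c (Extr_tm a b i e)) =
      ((1 + δ : ℝ) : ℂ) * P.pt (P.th (Extr_sd P j i e) (Extr_uu P dev c a b j g i e)) := by
  rw [(Extr_band h hδ' hC i e (Extr_tm_mem hC i e)).2.2]
  congr 2
  cases e
  · have := hC.start i
    simp only [Extr_tm, Bool.false_eq_true, if_false]
    linarith
  · exact hC.stop i

omit [ContinuousConstSMul G E] in
theorem Extr_in (h : Chart P τ U dev) (hδ' : δ < 1 / 2) (hC : Crs P τ U dev x c δ N a b j g)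
    (i : ℕ) (e : Bool) : dev ((Extr_tl g i e)⁻¹ • c (Extr_tm a b i (!e))) =
      ((1 - δ : ℝ) : ℂ) * P.pt (P.th (Extr_sd P j i e) (Extr_uu P dev c a b j g i (!e))) := by
  rw [(Extr_band h hδ' hC i e (Extr_tm_mem hC i (!e))).2.2]
  congr 2
  cases e
  · have := hC.stop i
    simp only [Extr_tm, Bool.false_eq_true, if_false, Bool.not_false, if_true]
    linarith
  · exact hC.start i

omit [ContinuousConstSMul G E] in
/-- Points with the same position come from times that differ by an integer. -/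
theorem Extr_time (h : Chart P τ U dev) (hc : LineT 1 x c) {k k' : G} {p q : ℝ}
    (h1 : k⁻¹ • c p ∈ U) (h2 : k'⁻¹ • c q ∈ U) (e : dev (k⁻¹ • c p) = dev (k'⁻¹ • c q)) :
    k⁻¹ • c p = k'⁻¹ • c q ∧ ∃ z : ℤ, p = q + z := by
  have h3 := h.inj h1 h2 e
  obtain ⟨z, hz⟩ := hc.simple p q (k * k'⁻¹) (by rw [mul_smul, ← h3, smul_inv_smul])
  exact ⟨h3, z, by simpa using hz⟩

omit [ContinuousConstSMul G E] in
/-- The crossings of a band are disjoint. -/
theorem Extr_key (h : Chart P τ U dev) (hc : LineT 1 x c) (hδ' : δ < 1 / 2)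
    (hC : Crs P τ U dev x c δ N a b j g) {i k : ℕ} (hi : i < N) (hk : k < N) {e f : Bool}
    (hs : Extr_sd P j i e = Extr_sd P j k f) {p q : ℝ} (hp : p ∈ Icc (a i) (b i))
    (hq : q ∈ Icc (a k) (b k))
    (he : dev ((Extr_tl g i e)⁻¹ • c p) = dev ((Extr_tl g k f)⁻¹ • c q)) : i = k ∧ e = f := by
  obtain ⟨-, z, hz⟩ := Extr_time h hc (Extr_band h hδ' hC i e hp).1 (Extr_band h hδ' hC k f hq).1 he
  have h1 := (Extr_a_mono hC).monotone (Nat.zero_le i)
  have h2 := (Extr_a_mono hC).monotone (Nat.zero_le k)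
  have h3 := Extr_ba hC hi
  have h4 := Extr_ba hC hk
  rw [hC.aN] at h3 h4
  have h5 : (z : ℝ) < 1 := by linarith [hp.2, hq.1]
  have h6 : (-1 : ℝ) < z := by linarith [hp.1, hq.2]
  have h7 : z = 0 := by
    have h5' : z < 1 := by exact_mod_cast h5
    have h6' : -1 < z := by exact_mod_cast h6
    omega
  rw [h7, Int.cast_zero, add_zero] at hz
  subst hz
  obtain rfl : i = k :=
    le_antisymm (Extr_le hC (hp.1.trans hq.2)) (Extr_le hC (hq.1.trans hp.2))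
  refine ⟨rfl, ?_⟩
  cases e <;> cases f
  · rfl
  · exact absurd hs (P.ne _)
  · exact absurd hs.symm (P.ne _)
  · rfl

theorem Extr_pc (h : Chart P τ U dev) (hc : LineT 1 x c) {k : G} {p q : ℝ} (hpq : p ≤ q)
    (hU : ∀ t ∈ Icc p q, k⁻¹ • c t ∈ U) :
    IsPathConnected ((fun t => dev (k⁻¹ • c t)) '' Icc p q) := by
  refine IsPathConnected.image' ((convex_Icc p q).isPathConnected (nonempty_Icc.2 hpq)) ?_
  exact h.cont.comp ((continuous_const_smul _).comp hc.cont).continuousOn hU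

theorem Extr_order (h : Chart P τ U dev) (hc : LineT 1 x c) (hδ : 0 < δ) (hδ' : δ < 1 / 2)
    (hC : Crs P τ U dev x c δ N a b j g) {i k : ℕ} (hi : i < N) (hk : k < N) {e f : Bool}
    (hs : Extr_sd P j i e = Extr_sd P j k f)
    (hu : Extr_uu P dev c a b j g i e < Extr_uu P dev c a b j g k f) :
    Extr_uu P dev c a b j g i (!e) < Extr_uu P dev c a b j g k (!f) := by
  by_contra hn
  have h0 : ¬ (i = k ∧ e = f) := by
    rintro ⟨rfl, rfl⟩
    exact lt_irrefl _ hu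
  rcases (not_lt.1 hn).eq_or_lt with h1 | h1
  · refine h0 (Extr_key h hc hδ' hC hi hk hs (Extr_tm_mem hC i (!e)) (Extr_tm_mem hC k (!f)) ?_)
    rw [Extr_in h hδ' hC, Extr_in h hδ' hC, hs, h1]
  · obtain ⟨z, ⟨p, hp, rfl⟩, q, hq, hz⟩ := P.cross_band (j := Extr_sd P j k f) (r := 1 - δ)
      (R := 1 + δ) (by linarith) (by linarith)
      (Extr_pc h hc (hC.lt k).le fun t ht => (Extr_band h hδ' hC k f ht).1)
      (Extr_pc h hc (hC.lt i).le fun t ht => (Extr_band h hδ' hC i e ht).1)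
      (by
        rintro _ ⟨t, ht, rfl⟩
        exact Extr_band' h hδ' hC k f ht)
      (by
        rintro _ ⟨t, ht, rfl⟩
        rw [← hs]
        exact Extr_band' h hδ' hC i e ht)
      (Extr_mem h hδ' hC k (!f)) (Extr_mem h hδ' hC k f) (Extr_mem h hδ' hC i (!e))
      (Extr_mem h hδ' hC i e) h1 hu
      ⟨_, Extr_tm_mem hC k (!f), Extr_in h hδ' hC k f⟩
      ⟨_, Extr_tm_mem hC k f, Extr_out h hδ' hC k f⟩
      ⟨_, Extr_tm_mem hC i (!e), hs ▸ Extr_in h hδ' hC i e⟩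
      ⟨_, Extr_tm_mem hC i e, hs ▸ Extr_out h hδ' hC i e⟩
    exact h0 (Extr_key h hc hδ' hC hi hk hs hq hp hz)

omit [ContinuousConstSMul G E] in
/-- The chords are disjoint. -/
theorem Extr_chord (h : Chart P τ U dev) (h1 : ∀ j, τ j ≠ 1)
    (hfree : ∀ (g : G) (e : E), g • e = e → g = 1) (hc : LineT 1 x c)
    (hC : Crs P τ U dev x c δ N a b j g) {i k : ℕ} (hik : i < k) (hk : k < N) {p q : ℝ}
    (hp : p ∈ Icc (a i) (b (i + 1))) (hq : q ∈ Icc (a k) (b (k + 1)))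
    (he : dev ((g (i + 1))⁻¹ • c p) = dev ((g (k + 1))⁻¹ • c q)) : False := by
  obtain ⟨h2, z, hz⟩ := Extr_time h hc (hC.tile i p hp).1 (hC.tile k q hq).1 he
  have hg : ∀ (l : ℕ) (y : E), (g l)⁻¹ • y = (g (l + 1))⁻¹ • y → False := fun l y hy => by
    have := hfree (g (l + 1) * (g l)⁻¹) y (by rw [mul_smul, hy, smul_inv_smul])
    rw [hC.g_succ, mul_inv_eq_one] at this
    exact h1 _ (mul_eq_left.1 this)
  have h3 := (Extr_a_mono hC).monotone (Nat.zero_le i)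
  have h4 := (Extr_a_mono hC).monotone (Nat.zero_le k)
  have h5 := (Extr_b_mono hC).monotone (Nat.succ_le_of_lt hik)
  have h6 := Extr_ba hC hk
  have h7 := (Extr_b_mono hC).monotone (Nat.succ_le_of_lt hk)
  have h8 := Extr_ba hC hC.pos
  have h9 := hC.aN
  have h10 := hC.bN
  have z1 : (z : ℝ) < 1 := by linarith [hp.2, hq.1]
  have z2 : (-2 : ℝ) < z := by linarith [hp.1, hq.2]
  have z1' : z < 1 := by exact_mod_cast z1
  have z2' : -2 < z := by exact_mod_cast z2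
  rcases (by omega : z = 0 ∨ z = -1) with rfl | rfl
  · rw [Int.cast_zero, add_zero] at hz
    subst hz
    obtain rfl : k = i + 1 := le_antisymm (Extr_le hC (hq.1.trans hp.2)) hik
    exact hg _ _ h2
  · have hz' : q = p + 1 := by
      rw [hz]
      push_cast
      ring
    subst hz'
    obtain rfl : i = 0 := Nat.le_zero.1 (Extr_le hC (by linarith [hp.1, hq.2]))
    have : N ≤ k + 1 := Extr_le hC (by linarith [hp.1, hq.2])
    obtain rfl : N = k + 1 := le_antisymm this hk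
    rw [hC.gN, hc.per, mul_inv_rev, mul_smul, inv_smul_smul] at h2
    exact hg _ _ h2.symm

omit [ContinuousConstSMul G E] in
theorem Extr_ne (h : Chart P τ U dev) (hδ : 0 < δ) {y : E} (hy : y ∈ U) :
    dev y ≠ ((1 + δ : ℝ) : ℂ) := by
  intro e
  have h1 : ‖dev y‖ = 1 + δ := by
    rw [e, Complex.norm_real, Real.norm_of_nonneg (by linarith)]
  obtain ⟨i, hi⟩ := h.out y hy (by linarith)
  obtain ⟨h2, h3⟩ := P.side_polar hi
  have h4 := P.th_mem_n (j := i) h2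
  have h5 : P.pt 0 = 1 := by simp [Poly.pt]
  rw [h1] at h3
  have h6 := P.polar_inj (ρ := 1 + δ) (ρ' := 1 + δ) (θ := 0)
    (θ' := P.th i (P.uc i (dev y))) (by linarith) (by linarith) (by rw [h5, mul_one, ← h3, e])
  exact h4.1.ne (P.pt_injOn ⟨le_rfl, P.n_pos⟩ ⟨h4.1.le, h4.2⟩ h6.2)

theorem Extr_rot {N : ℕ} (hN : 0 < N) : ∃ r : Equiv.Perm (Fin N),
    ∀ i, (r i : ℕ) = i + 1 ∨ ((r i : ℕ) = 0 ∧ (i : ℕ) + 1 = N) := by
  obtain ⟨n, rfl⟩ := Nat.exists_eq_succ_of_ne_zero hN.ne'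
  refine ⟨finRotate (n + 1), fun i => ?_⟩
  rw [coe_finRotate]
  split_ifs with hi
  · exact Or.inr ⟨rfl, by rw [hi, Fin.val_last]⟩
  · exact Or.inl rfl

theorem Crs.td (h : Chart P τ U dev) (hτ : IsLab P.toPr τ) (h1 : ∀ j, τ j ≠ 1)
    (hfree : ∀ (g : G) (e : E), g • e = e → g = 1) (hc : LineT 1 x c) (hx : x ≠ 1) (hδ : 0 < δ)
    (hδ' : δ < 1 / 2) {N : ℕ} {a b : ℕ → ℝ} {j : ℕ → J} {g : ℕ → G}
    (hC : Crs P τ U dev x c δ N a b j g) :
    ∃ (T : Type) (_ : Finite T) (sd : T → J) (uu : T → ℝ) (μ ν : Equiv.Perm T) (lab : T → G)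
      (t₀ : T), TD P τ x sd uu μ ν lab t₀ ∧ ∀ t, sd t = sd t₀ → uu t₀ ≤ uu t := by
  obtain ⟨r, hr⟩ := Extr_rot hC.pos
  let sd : Fin N × Bool → J := fun t => Extr_sd P j t.1 t.2
  let uu : Fin N × Bool → ℝ := fun t => Extr_uu P dev c a b j g t.1 t.2
  let m : Fin N × Bool → Fin N × Bool := fun t => if t.2 then (r.symm t.1, false) else (r t.1, true)
  let n : Fin N × Bool → Fin N × Bool := fun t => (t.1, !t.2)
  have hm : Function.Involutive m := by
    rintro ⟨i, _ | _⟩ <;> simp [m]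
  have hn : Function.Involutive n := by
    rintro ⟨i, _ | _⟩ <;> rfl
  have hband : ∀ s t, sd s = sd t → uu s < uu t → uu (n s) < uu (n t) := fun s t h2 h3 =>
    Extr_order h hc hδ hδ' hC s.1.2 t.1.2 h2 h3
  obtain ⟨i₀, hi₀⟩ : ∃ i₀ : Fin N, ∀ t, sd t = sd (i₀, true) → uu (i₀, true) ≤ uu t := by
    have : Nonempty (Fin N × Bool) := ⟨(⟨0, hC.pos⟩, true)⟩
    obtain ⟨⟨i, e⟩, ht⟩ := Finite.exists_min uu
    refine ⟨i, fun t h2 => ?_⟩
    cases e
    · by_contra h3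
      exact absurd (hband _ _ h2 (not_le.1 h3)) (not_lt.2 (ht _))
    · exact ht t
  let ch : Fin N × Bool → Fin N := fun t => if t.2 then r.symm t.1 else t.1
  let Ch : Fin N → Set ℂ := fun i => (fun t => dev ((g (i + 1))⁻¹ • c t)) '' Icc (a i) (b (i + 1))
  have hab : ∀ i : ℕ, a i ≤ b (i + 1) := fun i =>
    ((Extr_a_mono hC) (Nat.lt_succ_self i)).le.trans (hC.lt _).le
  have hch : ∀ t, ((1 + δ : ℝ) : ℂ) * P.pt (P.th (sd t) (uu t)) ∈ Ch (ch t) := by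
    rintro ⟨i, _ | _⟩
    · exact ⟨a i, ⟨le_rfl, hab i⟩, Extr_out h hδ' hC i false⟩
    · obtain ⟨k, rfl⟩ := r.surjective i
      have e1 : ch (r k, true) = k := by simp [ch]
      rw [e1]
      refine ⟨b (k + 1), ⟨hab k, le_rfl⟩, Eq.trans ?_ (Extr_out h hδ' hC (r k) true)⟩
      change dev ((g (k + 1))⁻¹ • c (b (k + 1))) = dev ((g (r k))⁻¹ • c (b (r k)))
      rcases hr k with h2 | ⟨h2, h3⟩
      · rw [h2]
      · rw [h2, h3, hC.gN, hC.bN, hc.per, mul_inv_rev, mul_smul, inv_smul_smul]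
  have hchm : ∀ t, ch (m t) = ch t := by
    rintro ⟨i, _ | _⟩ <;> simp [ch, m]
  have hch' : ∀ s t, ch s = ch t → t = s ∨ t = m s := by
    rintro ⟨i, _ | _⟩ ⟨k, _ | _⟩ <;> simp only [ch, m, if_true, if_false, Bool.false_eq_true]
    · rintro rfl
      exact Or.inl rfl
    · rintro rfl
      exact Or.inr (by simp)
    · rintro rfl
      exact Or.inr rfl
    · intro h2
      rw [r.symm.injective h2]
      exact Or.inl rfl
  have hCh : ∀ i, ∀ z ∈ Ch i, ‖z‖ ≤ 1 + δ ∧ z ≠ ((1 + δ : ℝ) : ℂ) := by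
    rintro i _ ⟨t, ht, rfl⟩
    exact ⟨(hC.tile i t ht).2, Extr_ne h hδ (hC.tile i t ht).1⟩
  have hpc : ∀ i, IsPathConnected (Ch i) := fun i =>
    Extr_pc h hc (hab i) fun t ht => (hC.tile i t ht).1
  let lab : Fin N × Bool → G := fun t => if t.2 then (g t.1)⁻¹ * (if t.1 ≤ i₀ then x⁻¹ else 1)
    else (g (t.1 + 1))⁻¹ * (if t.1 < i₀ then x⁻¹ else 1)
  have hl : ∀ i, lab (r i, true) = lab (i, false) := fun i => by
    change (g (r i))⁻¹ * (if r i ≤ i₀ then x⁻¹ else 1) =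
      (g (i + 1))⁻¹ * (if i < i₀ then x⁻¹ else 1)
    have h4 := i₀.2
    rcases hr i with h2 | ⟨h2, h3⟩
    · have : r i ≤ i₀ ↔ i < i₀ := by
        rw [Fin.le_def, Fin.lt_def]
        omega
      simp only [h2, this]
    · rw [if_pos (by rw [Fin.le_def]; omega), if_neg (by rw [Fin.lt_def]; omega), h2, h3, hC.gN,
        mul_inv_rev, mul_one]
  refine ⟨Fin N × Bool, inferInstance, sd, uu, hm.toPerm, hn.toPerm, lab, (i₀, true),
    ⟨hm, ?_, hn, ?_, fun t => Extr_mem h hδ' hC _ _, ?_, ?_, hband, ?_, ?_, ?_⟩, hi₀⟩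
  · rintro ⟨i, _ | _⟩ <;> simp [m]
  · rintro ⟨i, _ | _⟩
    · exact (P.σσ _).symm
    · rfl
  · intro s t h2 h3
    obtain ⟨h4, h5⟩ := Extr_key h hc hδ' hC s.1.2 t.1.2 h2 (Extr_tm_mem hC _ s.2)
      (Extr_tm_mem hC _ t.2) (by
        rw [Extr_out h hδ' hC, Extr_out h hδ' hC]
        exact congrArg₂ (fun k u => ((1 + δ : ℝ) : ℂ) * P.pt (P.th k u)) h2 h3)
    exact Prod.ext (Fin.ext h4) h5
  · rintro s t ⟨h2, h3, h4⟩
    obtain ⟨z, ⟨p, hp, rfl⟩, q, hq, hz⟩ := P.cross_disc (R := 1 + δ) (by linarith) (hpc (ch s))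
      (hpc (ch t)) (hCh _) (hCh _) (P.th_mem_n (Extr_mem h hδ' hC _ _)).1 h2 h3 h4
      (P.th_mem_n (Extr_mem h hδ' hC _ _)).2 (hch s) (hchm s ▸ hch (m s)) (hch t)
      (hchm t ▸ hch (m t))
    rcases lt_trichotomy (ch s) (ch t) with h5 | h5 | h5
    · exact Extr_chord h h1 hfree hc hC h5 (ch t).2 hp hq hz.symm
    · rcases hch' s t h5 with rfl | rfl
      · exact lt_irrefl _ h2
      · exact lt_irrefl _ h3
    · exact Extr_chord h h1 hfree hc hC h5 (ch s).2 hq hp hz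
  · rintro ⟨i, _ | _⟩
    · exact hl i
    · obtain ⟨k, rfl⟩ := r.surjective i
      rw [hl k]
      simp [m]
  · rintro ⟨i, e⟩ h2 h3
    have h4 : i ≠ i₀ := by
      rintro rfl
      cases e
      · exact h3 rfl
      · exact h2 rfl
    have h5 : i ≤ i₀ ↔ i < i₀ := ⟨fun h => lt_of_le_of_ne h h4, le_of_lt⟩
    cases e
    · change (g (i + 1))⁻¹ * (if i < i₀ then x⁻¹ else 1) =
        τ (P.σ (j i)) * ((g i)⁻¹ * (if i ≤ i₀ then x⁻¹ else 1))
      simp only [h5]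
      rw [hτ, hC.g_succ, mul_inv_rev, mul_assoc]
    · change (g i)⁻¹ * (if i ≤ i₀ then x⁻¹ else 1) =
        τ (j i) * ((g (i + 1))⁻¹ * (if i < i₀ then x⁻¹ else 1))
      simp only [h5]
      rw [hC.g_succ, mul_inv_rev, mul_assoc, mul_inv_cancel_left]
  · change (g i₀)⁻¹ * (if i₀ ≤ i₀ then x⁻¹ else 1) * x =
      τ (j i₀) * ((g (i₀ + 1))⁻¹ * (if i₀ < i₀ then x⁻¹ else 1))
    rw [if_pos le_rfl, if_neg (lt_irrefl _), hC.g_succ]
    group

end Pool.Agent.P.MP_038aca_al.Top
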