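import Pool.Agent.P.MP_038aca_al.Top.Valid
import Pool.Agent.P.MP_038aca_al.Top.Defs
import Pool.Agent.P.MP_038aca_al.Small

/-! The standard pattern and its labels. -/

namespace Pool.Agent.P.MP_038aca_al.Top

open scoped Pointwise

variable {g k q : ℕ}

/-- The sides: a letter and its first or second occurrence. -/
abbrev J0 (g k q : ℕ) : Type := Gen g k q × Bool

/-- The pairing of the two occurrences. -/
def pr0 (g k q : ℕ) : Pr (J0 g k q) where
  σ j := (j.1, !j.2)
  σσ j := by simp
  ne j h := by simpa using congrArg Prod.snd h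

/-- A handle. -/
def blkH (k q : ℕ) (i : Fin g) : List (J0 g k q × Bool) :=
  [((.inl i, false), true), ((.inr (.inl i), false), true), ((.inl i, true), false),
    ((.inr (.inl i), true), false)]

/-- A crosscap. -/
def blkE (g q : ℕ) (j : Fin k) : List (J0 g k q × Bool) :=
  [((.inr (.inr (.inl j)), false), true), ((.inr (.inr (.inl j)), true), true)]

/-- A fold. -/
def blkD (g k : ℕ) (l : Fin q) : List (J0 g k q × Bool) :=
  [((.inr (.inr (.inr l)), false), true), ((.inr (.inr (.inr l)), true), false)]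

/-- The standard pattern. -/
def W0 (g k q : ℕ) : List (J0 g k q × Bool) :=
  (List.ofFn (blkH (g := g) k q)).flatten ++ (List.ofFn (blkE (k := k) g q)).flatten ++
    (List.ofFn (blkD (q := q) g k)).flatten

/-- The middle points of the folds. -/
def ty0 (a : J0 g k q × Bool) : Option (Fin q) :=
  match a with
  | ((.inr (.inr (.inr l)), _), true) => some l
  | _ => none

theorem map_W0 : (W0 g k q).map (fun s => (s.1.1, s.2)) = word g k q := by
  simp only [W0, word, List.map_append, List.map_flatten, List.map_ofFn]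
  rfl

theorem length_W0 : (W0 g k q).length = 4 * g + 2 * k + 2 * q := by
  simp only [W0, List.length_append, List.length_flatten, List.map_ofFn, List.sum_ofFn,
    Function.comp_apply, blkH, blkE, blkD, List.length_cons, List.length_nil, Finset.sum_const,
    Finset.card_univ, Fintype.card_fin, smul_eq_mul]
  ring

theorem pat_W0 : Pat (W0 g k q) := by
  have hall : ∀ j, j ∈ (W0 g k q).map Prod.fst := by
    rintro ⟨x, b⟩
    simp only [W0, List.map_append, List.map_flatten, List.map_ofFn, List.mem_append,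
      List.mem_flatten, List.mem_ofFn]
    rcases x with i | i | i | i
    · exact Or.inl (Or.inl ⟨_, ⟨i, rfl⟩, by cases b <;> simp [blkH]⟩)
    · exact Or.inl (Or.inl ⟨_, ⟨i, rfl⟩, by cases b <;> simp [blkH]⟩)
    · exact Or.inl (Or.inr ⟨_, ⟨i, rfl⟩, by cases b <;> simp [blkE]⟩)
    · exact Or.inr ⟨_, ⟨i, rfl⟩, by cases b <;> simp [blkD]⟩
  refine ⟨?_, hall⟩
  have h1 : ((W0 g k q).map Prod.fst).toFinset = Finset.univ :=
    Finset.eq_univ_of_forall fun j => List.mem_toFinset.2 (hall j)
  have h2 := List.card_toFinset ((W0 g k q).map Prod.fst)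
  rw [h1] at h2
  rw [← List.dedup_eq_self]
  refine (List.dedup_sublist _).eq_of_length ?_
  rw [← h2, List.length_map, length_W0]
  simp only [Finset.card_univ, Fintype.card_prod, Fintype.card_sum, Fintype.card_fin,
    Fintype.card_bool]
  ring

/-- Chains along a list of blocks. -/
theorem ch_flatten {X : Type} {n : ℕ} {B : Fin n → List (X × X)} {x y : X} :
    Ch x (List.ofFn B).flatten y ↔
      ∃ v : ℕ → X, v 0 = x ∧ v n = y ∧ ∀ i : Fin n, Ch (v i) (B i) (v (i + 1)) := by
  induction n generalizing x with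
  | zero =>
    simp only [List.ofFn_zero, List.flatten_nil, Ch]
    exact ⟨fun h => ⟨fun _ => x, rfl, h, fun i => i.elim0⟩, fun ⟨v, h0, h1, _⟩ => h0.symm.trans h1⟩
  | succ n ih =>
    rw [List.ofFn_succ, List.flatten_cons, ch_append]
    constructor
    · rintro ⟨z, h1, h2⟩
      obtain ⟨v, h0, hn, hv⟩ := ih.1 h2
      refine ⟨fun m => Nat.casesOn m x v, rfl, hn, fun i => ?_⟩
      refine Fin.cases ?_ (fun i => hv i) i
      change Ch x (B 0) (v 0)
      rwa [h0]
    · rintro ⟨v, rfl, hn, hv⟩
      exact ⟨v 1, hv 0, ih.2 ⟨fun m => v (m + 1), rfl, hn, fun i => hv i.succ⟩⟩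

/-- The types of the corners form a closed chain. -/
theorem ch_ty0 : Ch none ((W0 g k q).map fun s =>
    if s.2 then (ty0 (s.1, false), ty0 (s.1, true)) else (ty0 (s.1, true), ty0 (s.1, false)))
      none := by
  simp only [W0, List.map_append, List.map_flatten, List.map_ofFn, ch_append, ch_flatten]
  exact ⟨none, ⟨none, ⟨fun _ => none, rfl, rfl, fun _ => ⟨rfl, rfl, rfl, rfl, rfl⟩⟩,
    fun _ => none, rfl, rfl, fun _ => ⟨rfl, rfl, rfl⟩⟩,
    fun _ => none, rfl, rfl, fun _ => ⟨rfl, rfl, rfl⟩⟩

/-- The two ends at the middle of a fold carry the same vertex. -/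
theorem Sec.fold {H X : Type} [Group H] [MulAction H X] {τ : J0 g k q → H} {κ : J0 g k q → X × X}
    (h : Sec (pr0 g k q) (W0 g k q) τ κ) (l : Fin q) :
    vt κ ((.inr (.inr (.inr l)), false), true) = vt κ ((.inr (.inr (.inr l)), true), true) := by
  obtain ⟨x, hx⟩ := h.ok
  simp only [Sys.wd, W0, List.map_append, List.map_flatten, List.map_ofFn, ch_append,
    ch_flatten] at hx
  obtain ⟨z, -, v, -, -, hv⟩ := hx
  exact (hv l).2.1

/-- The labels of the standard pattern. -/
structure Std (g k q : ℕ) (τ : J0 g k q → SurfaceGroup g k q)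
    (v : J0 g k q × Bool → SurfaceGroup g k q)
    (κ : J0 g k q → Set (SurfaceGroup g k q) × Set (SurfaceGroup g k q)) : Prop where
  sec : Sec (pr0 g k q) (W0 g k q) τ κ
  vt_none : ∀ a, ty0 a = none → vt κ a = {v a}
  vt_some : ∀ a l, ty0 a = some l →
    vt κ a = v a • (Subgroup.zpowers (genC l : SurfaceGroup g k q) : Set (SurfaceGroup g k q))
  cl : Subgroup.closure (Set.range τ) = ⊤
  conjA : ∀ i, IsConj (τ (.inl i, true)) (gen (.inr (.inl i)))
  conjB : ∀ i, IsConj (τ (.inr (.inl i), false)) (gen (.inl i))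
  conjE : ∀ j, IsConj (τ (.inr (.inr (.inl j)), true)) (gen (.inr (.inr (.inl j))))
  eqD : ∀ l, τ (.inr (.inr (.inr l)), true) =
    v ((.inr (.inr (.inr l)), true), true) * genC l * (v ((.inr (.inr (.inr l)), true), true))⁻¹
  univ : ∀ (H : Type) [Group H] (τ' : J0 g k q → H) (κ' : J0 g k q → Set H × Set H),
    Sec (pr0 g k q) (W0 g k q) τ' κ' → (∀ a, ty0 a = none → ∃ h, vt κ' a = {h}) →
      ∃ (F : SurfaceGroup g k q →* H) (h₀ : H), (∀ j, F (τ j) = τ' j) ∧
        ∀ a, ty0 a = none → vt κ' a = {F (v a) * h₀}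

end Pool.Agent.P.MP_038aca_al.Top
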