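import Pool.Agent.P.MP_038aca_al.Top.K0

/-! Construction of the standard labels. -/

namespace Pool.Agent.P.MP_038aca_al.Top

open scoped Pointwise

section aux

variable {G : Type} [Group G] {g k q n : ℕ}

/-- The product of the first `i` values. -/
def K1_P (f : Fin n → G) (i : ℕ) : G := ((List.ofFn f).take i).prod

theorem K1_P_zero (f : Fin n → G) : K1_P f 0 = 1 := rfl

theorem K1_P_succ (f : Fin n → G) (i : Fin n) : K1_P f (i + 1) = K1_P f i * f i := by
  have h : (i : ℕ) < (List.ofFn f).length := by simp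
  rw [K1_P, List.prod_take_succ _ _ h, List.getElem_ofFn]
  rfl

theorem K1_P_top (f : Fin n → G) : K1_P f n = (List.ofFn f).prod := by
  rw [K1_P, List.take_of_length_le (by simp)]

theorem K1_P_map {H : Type} [Group H] (φ : G →* H) (f : Fin n → G) (i : ℕ) :
    φ (K1_P f i) = K1_P (fun j => φ (f j)) i := by
  rw [K1_P, K1_P, map_list_prod, List.map_take, List.map_ofFn]
  rfl

theorem K1_ind (f : Fin n → G) (p : G) (Q : ℕ → G → Prop) (h0 : Q 0 p)
    (hs : ∀ i : Fin n, Q i (p * K1_P f i) → Q (i + 1) (p * K1_P f i * f i)) :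
    ∀ i ≤ n, Q i (p * K1_P f i) := by
  intro i hi
  induction i with
  | zero => rwa [K1_P_zero, mul_one]
  | succ i ih =>
    have := hs ⟨i, hi⟩ (ih (Nat.le_of_succ_le hi))
    rwa [mul_assoc, ← K1_P_succ] at this

/-- The commutator of a handle. -/
def K1_h (t : Gen g k q → G) (i : Fin g) : G :=
  t (.inl i) * t (.inr (.inl i)) * (t (.inl i))⁻¹ * (t (.inr (.inl i)))⁻¹

/-- The square of a crosscap. -/
def K1_e (t : Gen g k q → G) (j : Fin k) : G := t (.inr (.inr (.inl j))) ^ 2

/-- The value at a fold. -/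
def K1_c (t : Gen g k q → G) (l : Fin q) : G := t (.inr (.inr (.inr l)))

theorem K1_word (t : Gen g k q → G) :
    K1_P (K1_h t) g * K1_P (K1_e t) k * K1_P (K1_c t) q = surfaceWord t := by
  rw [K1_P_top, K1_P_top, K1_P_top]
  rfl

/-- The product of the earlier blocks. -/
def K1_B (t : Gen g k q → G) : Gen g k q → G
  | .inl i => K1_P (K1_h t) i
  | .inr (.inl i) => K1_P (K1_h t) i
  | .inr (.inr (.inl j)) => K1_P (K1_h t) g * K1_P (K1_e t) j
  | .inr (.inr (.inr l)) => K1_P (K1_h t) g * K1_P (K1_e t) k * K1_P (K1_c t) l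

/-- The position of a corner inside its block. -/
def K1_w (t : Gen g k q → G) : J0 g k q × Bool → G
  | ((.inl _, false), false) => 1
  | ((.inl i, false), true) => t (.inl i)
  | ((.inl i, true), false) => t (.inl i) * t (.inr (.inl i)) * (t (.inl i))⁻¹
  | ((.inl i, true), true) => t (.inl i) * t (.inr (.inl i))
  | ((.inr (.inl i), false), false) => t (.inl i)
  | ((.inr (.inl i), false), true) => t (.inl i) * t (.inr (.inl i))
  | ((.inr (.inl i), true), false) => K1_h t i
  | ((.inr (.inl i), true), true) => t (.inl i) * t (.inr (.inl i)) * (t (.inl i))⁻¹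
  | ((.inr (.inr (.inl _)), false), false) => 1
  | ((.inr (.inr (.inl j)), false), true) => t (.inr (.inr (.inl j)))
  | ((.inr (.inr (.inl j)), true), false) => t (.inr (.inr (.inl j)))
  | ((.inr (.inr (.inl j)), true), true) => K1_e t j
  | ((.inr (.inr (.inr _)), false), false) => 1
  | ((.inr (.inr (.inr l)), true), false) => K1_c t l
  | ((.inr (.inr (.inr _)), _), true) => 1

/-- The values at the corners. -/
def K1_v (t : Gen g k q → G) (a : J0 g k q × Bool) : G := K1_B t a.1.1 * K1_w t a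

/-- The labels. -/
def K1_τ (t : Gen g k q → G) (j : J0 g k q) : G :=
  K1_v t (j, false) * (K1_v t ((pr0 g k q).σ j, false))⁻¹

/-- The vertex at a corner. -/
def K1_s (t : Gen g k q → G) (a : J0 g k q × Bool) : Set G :=
  match ty0 a with
  | none => {K1_v t a}
  | some l => K1_v t a • (Subgroup.zpowers (K1_c t l) : Set G)

/-- The vertex section. -/
def K1_κ (t : Gen g k q → G) (j : J0 g k q) : Set G × Set G :=
  (K1_s t (j, false), K1_s t (j, true))

theorem K1_vt (t : Gen g k q → G) (a : J0 g k q × Bool) : vt (K1_κ t) a = K1_s t a := by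
  rcases a with ⟨j, _ | _⟩ <;> rfl

theorem K1_v_map {H : Type} [Group H] (φ : G →* H) (t : Gen g k q → G) (a : J0 g k q × Bool) :
    φ (K1_v t a) = K1_v (fun x => φ (t x)) a := by
  have h1 : (fun i => φ (K1_h t i)) = K1_h fun x => φ (t x) :=
    funext fun i => by simp only [K1_h, map_mul, map_inv]
  have h2 : (fun i => φ (K1_e t i)) = K1_e fun x => φ (t x) :=
    funext fun i => by simp only [K1_e, map_pow]
  have h3 : (fun i => φ (K1_c t i)) = K1_c fun x => φ (t x) := rfl
  have h4 : ∀ x, φ (K1_B t x) = K1_B (fun x => φ (t x)) x := by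
    rintro (i | i | j | l) <;> simp only [K1_B, map_mul, K1_P_map, h1, h2, h3]
  rw [K1_v, K1_v, map_mul, h4]
  congr 1
  rcases a with ⟨⟨i | i | j | l, _ | _⟩, _ | _⟩ <;>
    simp only [K1_w, K1_h, K1_e, K1_c, map_mul, map_inv, map_one, map_pow]

theorem K1_ch {X : Type} [MulAction G X] (κ : J0 g k q → X × X) (x y : X) :
    Ch x ((chSys G X).wd κ (W0 g k q)) y ↔ ∃ u w z : ℕ → X, u 0 = x ∧ w 0 = u g ∧ z 0 = w k ∧
      z q = y ∧ (∀ i : Fin g, Ch (u i) ((chSys G X).wd κ (blkH k q i)) (u (i + 1))) ∧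
      (∀ j : Fin k, Ch (w j) ((chSys G X).wd κ (blkE g q j)) (w (j + 1))) ∧
      ∀ l : Fin q, Ch (z l) ((chSys G X).wd κ (blkD g k l)) (z (l + 1)) := by
  simp only [Sys.wd, W0, List.map_append, List.map_flatten, List.map_ofFn, ch_append, ch_flatten]
  constructor
  · rintro ⟨_, ⟨_, ⟨u, h1, rfl, h2⟩, w, h3, rfl, h4⟩, z, h5, h6, h7⟩
    exact ⟨u, w, z, h1, h3, h5, h6, h2, h4, h7⟩
  · rintro ⟨u, w, z, h1, h3, h5, h6, h2, h4, h7⟩
    exact ⟨_, ⟨_, ⟨u, h1, rfl, h2⟩, w, h3, rfl, h4⟩, z, h5, h6, h7⟩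

theorem K1_coset (c P : G) {a : G} (h : a ∈ Subgroup.zpowers c) :
    (P * a) • (Subgroup.zpowers c : Set G) = P • (Subgroup.zpowers c : Set G) := by
  rw [mul_smul, smul_coe_set h]

theorem K1_sec (t : Gen g k q → G) (ht : surfaceWord t = 1) :
    Sec (pr0 g k q) (W0 g k q) (K1_τ t) (K1_κ t) where
  lab j := by rw [K1_τ, K1_τ, Pr.σσ, mul_inv_rev, inv_inv]
  eqv j := by
    refine Prod.ext ?_ ?_
    · have e : ∀ j : J0 g k q, K1_s t (j, false) = {K1_v t (j, false)} := by
        rintro ⟨i | i | j | l, _⟩ <;> rfl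
      change K1_s t (j, false) = K1_τ t j • K1_s t ((pr0 g k q).σ j, false)
      rw [e, e, Set.smul_set_singleton, smul_eq_mul, K1_τ, inv_mul_cancel_right]
    · change K1_s t (j, true) = K1_τ t j • K1_s t ((pr0 g k q).σ j, true)
      rcases j with ⟨i | i | j | l, _ | _⟩ <;>
        simp only [K1_s, ty0, K1_τ, K1_v, K1_w, pr0, Bool.not_false, Bool.not_true, K1_h, K1_e,
          Set.smul_set_singleton, smul_eq_mul, Set.singleton_eq_singleton_iff, smul_smul, sq,
          inv_mul_cancel_right, mul_one]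
      any_goals group
      · exact (K1_coset _ _ (Subgroup.zpow_mem_zpowers _ _)).symm
      · exact (K1_coset _ _ (Subgroup.mem_zpowers _)).symm
  ok := by
    refine ⟨{1}, (K1_ch _ _ _).2 ⟨fun i => {K1_P (K1_h t) i},
      fun j => {K1_P (K1_h t) g * K1_P (K1_e t) j},
      fun l => {K1_P (K1_h t) g * K1_P (K1_e t) k * K1_P (K1_c t) l}, rfl,
      congrArg _ (mul_one _), congrArg _ (mul_one _), congrArg _ ((K1_word t).trans ht),
      fun i => ⟨congrArg _ (mul_one _).symm, rfl, rfl, rfl,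
        congrArg singleton (K1_P_succ (K1_h t) i).symm⟩,
      fun j => ⟨congrArg _ (mul_one _).symm, rfl, ?_⟩,
      fun l => ⟨congrArg _ (mul_one _).symm, rfl, ?_⟩⟩⟩
    · exact congrArg singleton ((mul_assoc _ _ _).trans (congrArg _ (K1_P_succ (K1_e t) j).symm))
    · exact congrArg singleton ((mul_assoc _ _ _).trans (congrArg _ (K1_P_succ (K1_c t) l).symm))

theorem K1_τA (t : Gen g k q → G) (i : Fin g) : K1_τ t (.inl i, true) =
    K1_P (K1_h t) i * t (.inl i) * t (.inr (.inl i)) * (K1_P (K1_h t) i * t (.inl i))⁻¹ := by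
  simp only [K1_τ, K1_v, K1_w, K1_B, pr0, Bool.not_true]
  group

theorem K1_τB (t : Gen g k q → G) (i : Fin g) : K1_τ t (.inr (.inl i), false) =
    K1_P (K1_h t) i * t (.inl i) * t (.inr (.inl i)) * t (.inl i) *
      (K1_P (K1_h t) i * t (.inl i) * t (.inr (.inl i)))⁻¹ := by
  simp only [K1_τ, K1_v, K1_w, K1_B, pr0, Bool.not_false, K1_h]
  group

theorem K1_τE (t : Gen g k q → G) (x : Fin k ⊕ Fin q) : K1_τ t (.inr (.inr x), true) =
    K1_B t (.inr (.inr x)) * t (.inr (.inr x)) * (K1_B t (.inr (.inr x)))⁻¹ := by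
  rcases x with j | l <;> simp only [K1_τ, K1_v, K1_w, pr0, Bool.not_true, K1_c, mul_one]

theorem K1_conj (K : Subgroup G) {P a : G} (hP : P ∈ K) (h : P * a * P⁻¹ ∈ K) : a ∈ K := by
  have := mul_mem (mul_mem (inv_mem hP) h) hP
  rwa [show P⁻¹ * (P * a * P⁻¹) * P = a by group] at this

theorem K1_gen (t : Gen g k q → G) (K : Subgroup G) (hK : ∀ j, K1_τ t j ∈ K) (x : Gen g k q) :
    t x ∈ K := by
  have hH : ∀ i : Fin g, K1_P (K1_h t) i ∈ K → t (.inl i) ∈ K ∧ t (.inr (.inl i)) ∈ K := by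
    intro i hi
    have h1 := hK (.inl i, true)
    have h2 := hK (.inr (.inl i), false)
    rw [K1_τA] at h1
    rw [K1_τB] at h2
    have h3 : t (.inl i) ∈ K := by
      refine K1_conj K (mul_mem h1 hi) ?_
      rwa [show ∀ P a b : G, P * a * b * (P * a)⁻¹ * P * a * (P * a * b * (P * a)⁻¹ * P)⁻¹ =
        P * a * b * a * (P * a * b)⁻¹ from fun P a b => by group]
    exact ⟨h3, K1_conj K (mul_mem hi h3) h1⟩
  have hE : ∀ y, K1_B t (.inr (.inr y)) ∈ K → t (.inr (.inr y)) ∈ K := fun y hy =>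
    K1_conj K hy (K1_τE t y ▸ hK _)
  have h1 := K1_ind (K1_h t) 1 (fun _ y => y ∈ K) (one_mem K) fun i hi => by
    obtain ⟨a, b⟩ := hH i (by rwa [one_mul] at hi)
    exact mul_mem hi (mul_mem (mul_mem (mul_mem a b) (inv_mem a)) (inv_mem b))
  simp only [one_mul] at h1
  have h2 := K1_ind (K1_e t) _ (fun _ y => y ∈ K) (h1 g le_rfl) fun j hj =>
    mul_mem hj (pow_mem (hE (.inl j) hj) 2)
  have h3 := K1_ind (K1_c t) _ (fun _ y => y ∈ K) (h2 k le_rfl) fun l hl =>
    mul_mem hl (hE (.inr l) hl)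
  rcases x with i | i | j | l
  exacts [(hH i (h1 i i.2.le)).1, (hH i (h1 i i.2.le)).2, hE (.inl j) (h2 j j.2.le),
    hE (.inr l) (h3 l l.2.le)]

/-- The tuple read off from the values at the corners. -/
def K1_t (r : J0 g k q × Bool → G) : Gen g k q → G
  | .inr (.inr (.inr l)) =>
    (r ((.inr (.inr (.inr l)), false), false))⁻¹ * r ((.inr (.inr (.inr l)), true), false)
  | x => (r ((x, false), false))⁻¹ * r ((x, false), true)

theorem K1_univ {τ : J0 g k q → G} {κ : J0 g k q → Set G × Set G}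
    (h : Sec (pr0 g k q) (W0 g k q) τ κ) {r : J0 g k q × Bool → G}
    (hr : ∀ a, ty0 a = none → vt κ a = {r a}) {h₀ : G}
    (hc : Ch {h₀} ((chSys G (Set G)).wd κ (W0 g k q)) {h₀}) :
    surfaceWord (K1_t r) = 1 ∧ ∀ a, ty0 a = none → r a = h₀ * K1_v (K1_t r) a := by
  obtain ⟨u, w, z, u0, w0, z0, zq, hu, hw, hz⟩ := (K1_ch _ _ _).1 hc
  have eq : ∀ a b, ty0 a = none → ty0 b = none → vt κ a = vt κ b → r a = r b :=
    fun a b ha hb e => Set.singleton_injective ((hr a ha).symm.trans (e.trans (hr b hb)))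
  have e1 : ∀ {y : G} {S : Set G} (a), ty0 a = none → S = {y} → S = vt κ a → r a = y :=
    fun a ha e e' => Set.singleton_injective ((hr a ha).symm.trans (e'.symm.trans e))
  have op : ∀ x, ty0 ((x, true), true) = none → ty0 ((x, false), true) = none →
      r ((x, true), false) = r ((x, true), true) *
        ((r ((x, false), false))⁻¹ * r ((x, false), true))⁻¹ := by
    intro x h1 h2
    have h3 : ∀ b, ty0 ((x, b), false) = none := fun b => by rcases x with i | i | j | l <;> rfl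
    have h4 := h.vt_eq (x, true) false
    have h5 := h.vt_eq (x, true) true
    change _ = _ • vt κ ((x, false), false) at h4
    change _ = _ • vt κ ((x, false), true) at h5
    rw [hr _ (h3 _), hr _ (h3 _), Set.smul_set_singleton, Set.singleton_eq_singleton_iff] at h4
    rw [hr _ h1, hr _ h2, Set.smul_set_singleton, Set.singleton_eq_singleton_iff] at h5
    rw [h4, h5, smul_eq_mul, smul_eq_mul]
    group
  have hH : ∀ (i : Fin g) (y : G), u i = {y} → ∀ b c,
      r ((.inl i, b), c) = y * K1_w (K1_t r) ((.inl i, b), c) ∧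
      r ((.inr (.inl i), b), c) = y * K1_w (K1_t r) ((.inr (.inl i), b), c) := by
    intro i y hy b c
    obtain ⟨a1, a2, a3, a4, -⟩ := hu i
    have b1 := e1 ((.inl i, false), false) rfl hy a1
    have b2 := eq ((.inl i, false), true) ((.inr (.inl i), false), false) rfl rfl a2
    have b3 := eq ((.inr (.inl i), false), true) ((.inl i, true), true) rfl rfl a3
    have b4 := eq ((.inl i, true), false) ((.inr (.inl i), true), true) rfl rfl a4
    have b5 := op (.inl i) rfl rfl
    have b6 := op (.inr (.inl i)) rfl rfl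
    rw [← b4] at b6
    rw [← b3] at b5
    rcases b with _ | _ <;> rcases c with _ | _ <;>
      simp only [K1_w, K1_t, K1_h, ← b4, ← b3, b6, b5, ← b2, b1] <;> constructor <;> group
  have hE : ∀ (j : Fin k) (y : G), w j = {y} → ∀ b c, r ((.inr (.inr (.inl j)), b), c) =
      y * K1_w (K1_t r) ((.inr (.inr (.inl j)), b), c) := by
    intro j y hy b c
    obtain ⟨a1, a2, -⟩ := hw j
    have b1 := e1 ((.inr (.inr (.inl j)), false), false) rfl hy a1
    have b2 := eq ((.inr (.inr (.inl j)), false), true) ((.inr (.inr (.inl j)), true), false)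
      rfl rfl a2
    have b3 := op (.inr (.inr (.inl j))) rfl rfl
    rw [← b2, eq_mul_inv_iff_mul_eq] at b3
    rcases b with _ | _ <;> rcases c with _ | _ <;>
      simp only [K1_w, K1_t, K1_e, ← b3, ← b2, b1, sq] <;> group
  have hD : ∀ (l : Fin q) (y : G), z l = {y} → ∀ b, r ((.inr (.inr (.inr l)), b), false) =
      y * K1_w (K1_t r) ((.inr (.inr (.inr l)), b), false) := by
    intro l y hy b
    have b1 := e1 ((.inr (.inr (.inr l)), false), false) rfl hy (hz l).1
    rcases b with _ | _ <;> simp only [K1_w, K1_t, K1_c, b1] <;> group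
  have h1 := K1_ind (K1_h (K1_t r)) h₀ (fun i y => u i = {y}) u0 fun i hi =>
    (hu i).2.2.2.2.symm.trans ((hr ((.inr (.inl i), true), false) rfl).trans
      (congrArg _ (hH i _ hi true false).2))
  have h2 := K1_ind (K1_e (K1_t r)) _ (fun j y => w j = {y}) (w0.trans (h1 g le_rfl)) fun j hj =>
    (hw j).2.2.symm.trans ((hr ((.inr (.inr (.inl j)), true), true) rfl).trans
      (congrArg _ (hE j _ hj true true)))
  have h3 := K1_ind (K1_c (K1_t r)) _ (fun l y => z l = {y}) (z0.trans (h2 k le_rfl)) fun l hl =>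
    (hz l).2.2.symm.trans ((hr ((.inr (.inr (.inr l)), true), false) rfl).trans
      (congrArg _ (hD l _ hl true)))
  constructor
  · have h4 := Set.singleton_injective (zq.symm.trans (h3 q le_rfl))
    rw [mul_assoc h₀, mul_assoc h₀, K1_word] at h4
    exact left_eq_mul.1 h4
  · rintro ⟨⟨i | i | j | l, b⟩, c⟩ ha
    · exact (hH i _ (h1 i i.2.le) b c).1.trans (mul_assoc _ _ _)
    · exact (hH i _ (h1 i i.2.le) b c).2.trans (mul_assoc _ _ _)
    · rw [hE j _ (h2 j j.2.le) b c, K1_v, K1_B]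
      simp only [mul_assoc]
    · rcases c with _ | _
      · rw [hD l _ (h3 l l.2.le) b, K1_v, K1_B]
        simp only [mul_assoc]
      · cases ha

theorem K1_first {κ : J0 g k q → Set G × Set G} {r : J0 g k q × Bool → G}
    (hr : ∀ a, ty0 a = none → vt κ a = {r a}) {x : Set G}
    (hc : Ch x ((chSys G (Set G)).wd κ (W0 g k q)) x) :
    ∃ h₀ : G, Ch {h₀} ((chSys G (Set G)).wd κ (W0 g k q)) {h₀} := by
  by_cases hx : ∃ h₀ : G, x = {h₀}
  · obtain ⟨h₀, rfl⟩ := hx
    exact ⟨h₀, hc⟩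
  obtain ⟨u, w, z, u0, w0, z0, -, hu, hw, hz⟩ := (K1_ch _ _ _).1 hc
  rcases g with _ | g
  · rcases k with _ | k
    · rcases q with _ | q
      · exact ⟨1, rfl⟩
      · exact absurd ⟨_, (u0.symm.trans (w0.symm.trans (z0.symm.trans (hz 0).1))).trans
          (hr ((.inr (.inr (.inr 0)), false), false) rfl)⟩ hx
    · exact absurd ⟨_, (u0.symm.trans (w0.symm.trans (hw 0).1)).trans
        (hr ((.inr (.inr (.inl 0)), false), false) rfl)⟩ hx
  · exact absurd ⟨_, (u0.symm.trans (hu 0).1).trans (hr ((.inl 0, false), false) rfl)⟩ hx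

end aux

theorem exists_std (g k q : ℕ) : ∃ τ v κ, Std g k q τ v κ := by
  refine ⟨K1_τ gen, K1_v gen, K1_κ gen, K1_sec gen surfaceWord_gen, fun a ha => ?_,
    fun a l ha => ?_, ?_, fun i => ?_, fun i => ?_, fun j => ?_, fun l => ?_, ?_⟩
  · rw [K1_vt, K1_s, ha]
  · rw [K1_vt, K1_s, ha]
    rfl
  · exact eq_top_iff.2 fun x _ => PresentedGroup.generated_by _ _
      (K1_gen gen _ fun j => Subgroup.subset_closure (Set.mem_range_self j)) x
  · exact (isConj_iff.2 ⟨_, (K1_τA gen i).symm⟩).symm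
  · exact (isConj_iff.2 ⟨_, (K1_τB gen i).symm⟩).symm
  · exact (isConj_iff.2 ⟨_, (K1_τE gen (.inl j)).symm⟩).symm
  · rw [K1_τE, K1_v, K1_w, mul_one]
    rfl
  · intro H _ τ' κ' h hs
    have hs' : ∀ a, ∃ y, ty0 a = none → vt κ' a = {y} := fun a => by
      by_cases ha : ty0 a = none
      · exact (hs a ha).imp fun _ e _ => e
      · exact ⟨1, fun e => absurd e ha⟩
    choose r hr using hs'
    obtain ⟨x, hx⟩ := h.ok
    obtain ⟨h₀, hc⟩ := K1_first hr hx
    obtain ⟨h1, h2⟩ := K1_univ h hr hc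
    have h3 : ∀ a, ty0 a = none →
        ((MulAut.conj h₀).toMonoidHom.comp (homOf _ h1)) (K1_v gen a) = r a * h₀⁻¹ := by
      intro a ha
      change h₀ * homOf _ h1 (K1_v gen a) * h₀⁻¹ = _
      rw [K1_v_map, h2 a ha]
      simp only [homOf_gen]
    refine ⟨(MulAut.conj h₀).toMonoidHom.comp (homOf _ h1), h₀, fun j => ?_, fun a ha => ?_⟩
    · have h4 : ∀ j : J0 g k q, ty0 (j, false) = none := by
        rintro ⟨i | i | j | l, _⟩ <;> rfl
      have h5 := h.vt_eq j false
      rw [hr _ (h4 _), hr _ (h4 _), Set.smul_set_singleton, Set.singleton_eq_singleton_iff] at h5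
      rw [K1_τ, map_mul, map_inv, h3 _ (h4 _), h3 _ (h4 _), h5, smul_eq_mul]
      group
    · rw [h3 a ha, inv_mul_cancel_right, hr a ha]

end Pool.Agent.P.MP_038aca_al.Top
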