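import Pool.Agent.P.MP_038aca_al.Top.Defs
import Pool.Agent.P.MP_038aca_al.WL

/-! Simple closed curves seen in a simply connected regular covering. -/

namespace Pool.Agent.P.MP_038aca_al.Top

open Set

/-- A lift of a simple closed curve of class `x`, with period `T`. -/
structure LineT {G E : Type} [Group G] [MulAction G E] [TopologicalSpace E] (T : ℝ) (x : G)
    (c : ℝ → E) : Prop where
  cont : Continuous c
  per : ∀ t, c (t + T) = x • c t
  simple : ∀ (s t : ℝ) (h : G), c s = h • c t → ∃ z : ℤ, s = t + z * T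

/-- The classes of simple closed curves. -/
def SE (G E : Type) [Group G] [MulAction G E] [TopologicalSpace E] : Set G :=
  {x | ∃ c : ℝ → E, LineT 1 x c}

variable {G E X : Type} [Group G] [MulAction G E] [TopologicalSpace E] [TopologicalSpace X]

/-- Gluing of a sequence of arcs. -/
theorem continuous_glue {α : ℤ → ℝ → X} (hc : ∀ i, ContinuousOn (α i) (Icc 0 1))
    (h : ∀ i, α i 1 = α (i + 1) 0) : Continuous fun t : ℝ => α ⌊t⌋ (Int.fract t) := by
  have key : ∀ i : ℤ, ContinuousOn (fun t : ℝ => α ⌊t⌋ (Int.fract t)) (Icc (i : ℝ) (i + 1)) := by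
    intro i
    have h1 : ContinuousOn (fun t : ℝ => α i (t - i)) (Icc (i : ℝ) (i + 1)) :=
      (hc i).comp (continuous_id.sub continuous_const).continuousOn fun t ht =>
        ⟨sub_nonneg.2 ht.1, sub_le_iff_le_add'.2 ht.2⟩
    refine h1.congr fun t ht => ?_
    rcases ht.2.lt_or_eq with h2 | h2
    · have e : ⌊t⌋ = i := Int.floor_eq_iff.2 ⟨ht.1, h2⟩
      simp only [Int.fract, e]
    · have e : t = ((i + 1 : ℤ) : ℝ) := by rw [h2]; push_cast; rfl
      simp only [e, Int.floor_intCast, Int.fract_intCast]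
      rw [← h]
      congr 1
      push_cast
      ring
  refine continuous_iff_continuousAt.2 fun t => ?_
  have h1 := key (⌊t⌋ - 1)
  rw [Int.cast_sub, Int.cast_one, sub_add_cancel] at h1
  have h2 := h1.union_of_isClosed (key ⌊t⌋) isClosed_Icc isClosed_Icc
  rw [Icc_union_Icc_eq_Icc (by linarith) (by linarith)] at h2
  exact h2.continuousAt (Icc_mem_nhds (by linarith [Int.floor_le t]) (Int.lt_floor_add_one t))

theorem LineT.mem {T : ℝ} (hT : 0 < T) {x : G} {c : ℝ → E} (h : LineT T x c) : x ∈ SE G E := by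
  refine ⟨fun t => c (t * T), h.cont.comp (continuous_id.mul continuous_const), fun t => ?_,
    fun s t g e => ?_⟩
  · rw [add_mul, one_mul, h.per]
  · obtain ⟨z, hz⟩ := h.simple _ _ g e
    exact ⟨z, mul_right_cancel₀ hT.ne' (by rw [hz]; ring)⟩

theorem LineT.zper {T : ℝ} {x : G} {c : ℝ → E} (h : LineT T x c) (z : ℤ) (t : ℝ) :
    c (t + z * T) = x ^ z • c t := by
  induction z using Int.induction_on with
  | zero => simp
  | succ n ih =>
    rw [Int.cast_add, Int.cast_one, add_mul, one_mul, ← add_assoc, h.per, ih, ← mul_smul,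
      add_comm (n : ℤ) 1, zpow_one_add]
  | pred n ih =>
    have e : t + ((-(n : ℤ) : ℤ) : ℝ) * T = t + ((-(n : ℤ) - 1 : ℤ) : ℝ) * T + T := by
      push_cast; ring
    rw [e, h.per] at ih
    rw [eq_inv_smul_iff.2 ih, ← mul_smul, sub_eq_neg_add, zpow_add, zpow_neg_one]

theorem LineT.shift {T : ℝ} {x : G} {c : ℝ → E} (h : LineT T x c) (a : ℝ) :
    LineT T x fun t => c (t + a) := by
  refine ⟨h.cont.comp (continuous_id.add continuous_const), fun t => ?_, fun s t g e => ?_⟩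
  · rw [add_right_comm, h.per]
  · obtain ⟨z, hz⟩ := h.simple _ _ g e
    exact ⟨z, by linarith⟩

/-- A line from `N` arcs. -/
theorem mem_SE_of_arcs [ContinuousConstSMul G E] {x : G} {N : ℕ} (hN : 0 < N) {α : ℕ → ℝ → E}
    (hc : ∀ i < N, ContinuousOn (α i) (Icc 0 1)) (h : ∀ i, i + 1 < N → α i 1 = α (i + 1) 0)
    (hl : α (N - 1) 1 = x • α 0 0)
    (hs : ∀ i < N, ∀ k < N, ∀ s ∈ Ico (0 : ℝ) 1, ∀ t ∈ Ico (0 : ℝ) 1, ∀ h : G,
      α i s = h • α k t → i = k ∧ s = t) :
    ∃ c : ℝ → E, LineT N x c ∧ (∀ i < N, ∀ s ∈ Icc (0 : ℝ) 1, c (i + s) = α i s) ∧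
      ∀ t, ∃ i < N, ∃ s ∈ Ico (0 : ℝ) 1, ∃ z : ℤ, c t = x ^ z • α i s := by
  have hN' : (0 : ℤ) < N := by exact_mod_cast hN
  let β : ℤ → ℝ → E := fun i s => x ^ (i / N) • α (i % N).toNat s
  have hβ : ∀ (q : ℤ) (r : ℕ), r < N → ∀ s, β (r + q * N) s = x ^ q • α r s := by
    intro q r hr s
    have h1 : (r : ℤ) < N := by exact_mod_cast hr
    simp only [β]
    rw [Int.add_mul_ediv_right _ _ hN'.ne', Int.add_mul_emod_self_right,
      Int.ediv_eq_zero_of_lt (Int.natCast_nonneg r) h1, zero_add,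
      Int.emod_eq_of_lt (Int.natCast_nonneg r) h1, Int.toNat_natCast]
  have dec : ∀ i : ℤ, ∃ (q : ℤ) (r : ℕ), r < N ∧ i = r + q * N := fun i => by
    have h1 := Int.emod_nonneg i hN'.ne'
    have h2 := Int.emod_lt_of_pos i hN'
    refine ⟨i / N, (i % N).toNat, by omega, ?_⟩
    rw [Int.toNat_of_nonneg h1, Int.emod_add_ediv_mul]
  have glue : ∀ i, β i 1 = β (i + 1) 0 := fun i => by
    obtain ⟨q, r, hr, rfl⟩ := dec i
    rw [hβ q r hr]
    by_cases h1 : r + 1 < N
    · rw [h r h1, ← hβ q (r + 1) h1]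
      congr 1
      push_cast
      ring
    · have e : r = N - 1 := by omega
      have e2 : (r : ℤ) + q * N + 1 = (0 : ℕ) + (q + 1) * N := by
        have : (N : ℤ) = r + 1 := by omega
        rw [this]; push_cast; ring
      rw [e2, hβ _ 0 hN, e, hl, ← mul_smul, zpow_add_one]
  have cont : Continuous fun t : ℝ => β ⌊t⌋ (Int.fract t) :=
    continuous_glue (fun i => by
      obtain ⟨q, r, hr, rfl⟩ := dec i
      rw [funext (hβ q r hr)]
      exact (hc r hr).const_smul _) glue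
  obtain ⟨c, hcc⟩ : ∃ c : ℝ → E, c = fun t : ℝ => β ⌊t⌋ (Int.fract t) := ⟨_, rfl⟩
  have key0 : ∀ (i : ℤ), ∀ u ∈ Ico (0 : ℝ) 1, c (i + u) = β i u := fun i u hu => by
    simp only [hcc]
    rw [Int.floor_intCast_add, Int.fract_intCast_add, Int.floor_eq_zero_iff.2 hu, add_zero,
      Int.fract_eq_self.2 hu]
  have key : ∀ (q : ℤ) (r : ℕ), r < N → ∀ u ∈ Ico (0 : ℝ) 1,
      c (r + q * N + u) = x ^ q • α r u := fun q r hr u hu => by
    rw [← hβ q r hr, ← key0 _ u hu]
    push_cast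
    rfl
  have dec' : ∀ t : ℝ, ∃ (q : ℤ) (r : ℕ), r < N ∧ ∃ u ∈ Ico (0 : ℝ) 1, t = r + q * N + u := by
    intro t
    obtain ⟨q, r, hr, e⟩ := dec ⌊t⌋
    refine ⟨q, r, hr, Int.fract t, ⟨Int.fract_nonneg t, Int.fract_lt_one t⟩, ?_⟩
    have e2 := Int.floor_add_fract t
    rw [e] at e2
    push_cast at e2
    exact e2.symm
  refine ⟨c, ⟨hcc ▸ cont, fun t => ?_, fun s t g e => ?_⟩, fun i hi s hs' => ?_, fun t => ?_⟩
  · obtain ⟨q, r, hr, u, hu, rfl⟩ := dec' t
    rw [key q r hr u hu, ← mul_smul, ← zpow_one_add, ← key _ r hr u hu]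
    congr 1
    push_cast
    ring
  · obtain ⟨q, r, hr, u, hu, rfl⟩ := dec' s
    obtain ⟨q', r', hr', u', hu', rfl⟩ := dec' t
    rw [key q r hr u hu, key q' r' hr' u' hu', ← eq_inv_smul_iff, ← mul_smul, ← mul_smul] at e
    obtain ⟨rfl, rfl⟩ := hs r hr r' hr' u hu u' hu' _ e
    exact ⟨q - q', by push_cast; ring⟩
  · have e0 : ∀ u, β i u = α i u := fun u => by
      have := hβ 0 i hi u
      rwa [zero_mul, add_zero, zpow_zero, one_smul] at this
    rcases hs'.2.lt_or_eq with h1 | rfl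
    · rw [← e0, ← key0 i s ⟨hs'.1, h1⟩, Int.cast_natCast]
    · rw [← e0, glue, ← key0 _ 0 ⟨le_rfl, zero_lt_one⟩]
      congr 1
      push_cast
      ring
  · obtain ⟨q, r, hr, u, hu, rfl⟩ := dec' t
    exact ⟨r, hr, u, hu, q, key q r hr u hu⟩

theorem SE_inv {x : G} (h : x ∈ SE G E) : x⁻¹ ∈ SE G E := by
  obtain ⟨c, hc⟩ := h
  refine ⟨fun t => c (-t), hc.cont.comp continuous_neg, fun t => ?_, fun s t g e => ?_⟩
  · rw [eq_inv_smul_iff, ← hc.per]
    congr 1
    ring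
  · obtain ⟨z, hz⟩ := hc.simple _ _ g e
    exact ⟨-z, by push_cast; linarith⟩

theorem SE_conj [ContinuousConstSMul G E] {x : G} (h : x ∈ SE G E) (g : G) :
    g * x * g⁻¹ ∈ SE G E := by
  obtain ⟨c, hc⟩ := h
  refine ⟨fun t => g • c t, hc.cont.const_smul g, fun t => ?_, fun s t k e => ?_⟩
  · rw [hc.per, ← mul_smul, ← mul_smul, inv_mul_cancel_right]
  · rw [← eq_inv_smul_iff, ← mul_smul, ← mul_smul] at e
    exact hc.simple _ _ _ e

theorem Line_le_of {a b : ℕ∞} (h : ∀ r : ℕ, b ≤ r → a ≤ r) : a ≤ b := by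
  induction b using ENat.recTopCoe with
  | top => exact le_top
  | coe r => exact h r le_rfl

theorem Line_le {G H : Type} [Group G] [Group H] (ψ : H ≃* G) (S : Set H) (n : ℕ) :
    lcsDiameter (ψ '' S) n ≤ lcsDiameter S n := by
  refine Line_le_of fun r hr => ?_
  rw [lcsDiameter_le_iff] at hr ⊢
  intro x
  obtain ⟨x, rfl⟩ := ψ.surjective x
  obtain ⟨l, h1, h2, h3⟩ := hr x
  refine ⟨l.map ψ, fun y hy => ?_, by rwa [List.length_map], ?_⟩
  · obtain ⟨z, hz, rfl⟩ := List.mem_map.1 hy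
    exact (h1 z hz).imp (mem_image_of_mem _) fun h => ⟨_, h, map_inv ψ z⟩
  · rw [← map_list_prod, ← map_inv, ← map_mul]
    have h4 := Subgroup.mem_map_of_mem ψ.toMonoidHom h3
    rw [Subgroup.map_lowerCentralSeries, Subgroup.map_top_of_surjective _ ψ.surjective] at h4
    exact h4

theorem lcsDiameter_equiv {H : Type} [Group H] (ψ : H ≃* G) (S : Set H) (n : ℕ) :
    lcsDiameter (ψ '' S) n = lcsDiameter S n := by
  refine le_antisymm (Line_le ψ S n) ?_
  have h := Line_le ψ.symm (ψ '' S) n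
  rwa [image_image, show (fun x => ψ.symm (ψ x)) = id from funext ψ.symm_apply_apply,
    image_id] at h

theorem lcsDiameter_anti {S S' : Set G} (h : S ⊆ S') (n : ℕ) :
    lcsDiameter S' n ≤ lcsDiameter S n := by
  refine Line_le_of fun r hr => ?_
  rw [lcsDiameter_le_iff] at hr ⊢
  intro x
  obtain ⟨l, h1, h2⟩ := hr x
  exact ⟨l, fun y hy => (h1 y hy).imp (@h _) (@h _), h2⟩

end Pool.Agent.P.MP_038aca_al.Top
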