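import Pool.Agent.P.MP_038aca_al.Top.Line

/-! The fundamental group and the deck group. -/

namespace Pool.Agent.P.MP_038aca_al.Top

open Set

variable {G E X : Type} [Group G] [MulAction G E] [TopologicalSpace E] [TopologicalSpace X]

/-- The monodromy along a path is read off from any lift. -/
theorem Line2_mono {π : E → X} (h : IsCoveringMap π) {x y : X} (γ : Path x y) (e : π ⁻¹' {x})
    {b : E} (B : Path e.1 b) (hB : ∀ t, π (B t) = γ t) :
    (h.monodromy (Path.Homotopic.Quotient.mk γ) e).1 = b :=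
  (DFunLike.congr_fun ((h.eq_liftPath_iff' (γ := γ) (Γ := B) (γ.source.trans e.2.symm)).mpr
    ⟨funext hB, B.source⟩) 1).symm.trans B.target

/-- The deck transformation of a conjugated loop. -/
theorem Line2_conj {π : E → X} (h : IsQuotientCoveringMap π G) {x y : X} (α : Path x y)
    (γ : Path y y) (e : π ⁻¹' {x}) {a : E} {g : G} (A : Path e.1 a) (Γ : Path a (g • a))
    (hA : ∀ t, π (A t) = α t) (hΓ : ∀ t, π (Γ t) = γ t) :
    h.fundamentalGroupToMulOpposite e
      (FundamentalGroup.fromPath (Path.Homotopic.Quotient.mk ((α.trans γ).trans α.symm))) =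
      MulOpposite.op g := by
  rw [h.fundamentalGroupToMulOpposite_apply_eq_Iff]
  refine (Line2_mono h.isCoveringMap _ e
    ((A.trans Γ).trans (A.map (h.continuous_const_smul g)).symm) fun t => ?_).symm
  simp only [Path.trans_apply]
  split_ifs
  · exact hA _
  · exact hΓ _
  · exact (h.map_smul g).trans (hA _)

/-- The fundamental group is the deck group, and simple classes correspond to lines. -/
theorem exists_equiv [SimplyConnectedSpace E] {π : E → X} (h : IsQuotientCoveringMap π G)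
    (x₀ : X) : ∃ ψ : FundamentalGroup X x₀ ≃* G, ψ '' simpleClasses x₀ = SE G E := by
  have := h.toContinuousConstSMul
  have cov := h.isCoveringMap
  obtain ⟨e₀, he₀⟩ := h.surjective x₀
  let e : π ⁻¹' {x₀} := ⟨e₀, he₀⟩
  have hψ : ∀ (x : FundamentalGroup X x₀) (g : G),
      h.fundamentalGroupToMulOpposite e x = MulOpposite.op g →
      ((h.fundamentalGroupEquiv e).trans (MulEquiv.inv' G).symm) x = g⁻¹ := fun x g hx => by
    rw [MulEquiv.trans_apply, MulEquiv.symm_apply_eq]
    exact hx.trans (by simp)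
  refine ⟨(h.fundamentalGroupEquiv e).trans (MulEquiv.inv' G).symm, Subset.antisymm ?_ ?_⟩
  · rintro _ ⟨_, ⟨y, α, γ, hγ, rfl⟩, rfl⟩
    obtain ⟨A, hA, hA0⟩ := cov.exists_path_lifts α e₀ (α.source.trans he₀.symm)
    have hA1 : π (A 1) = y := (congrFun hA 1).trans α.target
    obtain ⟨Γ, hΓ, hΓ0⟩ := cov.exists_path_lifts γ (A 1) (γ.source.trans hA1.symm)
    obtain ⟨g, hg⟩ := h.apply_eq_iff_mem_orbit.1
      (((congrFun hΓ 1).trans γ.target).trans hA1.symm)
    let Γ' : Path (A 1) (g • A 1) := ⟨Γ, hΓ0, hg.symm⟩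
    rw [hψ _ g (Line2_conj h α γ e ⟨A, hA0, rfl⟩ Γ' (congrFun hA) (congrFun hΓ))]
    obtain ⟨c, hc, -⟩ := mem_SE_of_arcs (x := g) one_pos (α := fun _ => Γ'.extend)
      (fun _ _ => Γ'.continuous_extend.continuousOn) (fun i hi => absurd hi (by omega))
      (by simp) fun i hi k hk s hs t ht u hu => ⟨by omega, by
        rw [Γ'.extend_apply (Ico_subset_Icc_self hs), Γ'.extend_apply (Ico_subset_Icc_self ht)]
          at hu
        have e1 : γ ⟨s, Ico_subset_Icc_self hs⟩ = γ ⟨t, Ico_subset_Icc_self ht⟩ :=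
          (congrFun hΓ _).symm.trans (((congrArg π hu).trans (h.map_smul u)).trans (congrFun hΓ _))
        rcases hγ _ _ e1 with e2 | ⟨-, e2⟩ | ⟨e2, -⟩
        · exact congrArg Subtype.val e2
        · exact absurd (congrArg Subtype.val e2) ht.2.ne
        · exact absurd (congrArg Subtype.val e2) hs.2.ne⟩
    exact SE_inv (hc.mem (by simp))
  · intro x hx
    obtain ⟨c, hc⟩ := SE_inv hx
    let A : Path e₀ (c 0) := PathConnectedSpace.somePath _ _
    let Γ : Path (c 0) (x⁻¹ • c 0) := ⟨⟨fun t => c t, hc.cont.comp continuous_subtype_val⟩, rfl,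
      by simpa using hc.per 0⟩
    refine ⟨_, ⟨π (c 0), (A.map h.continuous).cast he₀.symm rfl,
      (Γ.map h.continuous).cast rfl (h.map_smul x⁻¹).symm, fun s t hst => ?_, rfl⟩,
      (hψ _ x⁻¹ (Line2_conj h _ _ e A Γ (fun _ => rfl) fun _ => rfl)).trans (inv_inv x)⟩
    obtain ⟨u, hu⟩ := h.apply_eq_iff_mem_orbit.1 (show π (c s) = π (c t) from hst)
    obtain ⟨z, hz⟩ := hc.simple s t u hu.symm
    have h1 : (z : ℝ) ≤ 1 := by linarith [s.2.2, t.2.1]
    have h2 : (-1 : ℝ) ≤ z := by linarith [s.2.1, t.2.2]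
    have h3 : z ≤ 1 := by exact_mod_cast h1
    have h4 : -1 ≤ z := by exact_mod_cast h2
    have h5 : z = 0 ∨ z = -1 ∨ z = 1 := by omega
    rcases h5 with rfl | rfl | rfl
    · exact .inl (Subtype.ext (by simpa using hz))
    · push_cast at hz
      exact .inr (.inl ⟨Subtype.ext (le_antisymm (show (s : ℝ) ≤ 0 by linarith [t.2.2]) s.2.1),
        Subtype.ext (le_antisymm t.2.2 (show (1 : ℝ) ≤ t by linarith [s.2.1]))⟩)
    · push_cast at hz
      exact .inr (.inr ⟨Subtype.ext (le_antisymm s.2.2 (show (1 : ℝ) ≤ s by linarith [t.2.1])),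
        Subtype.ext (le_antisymm (show (t : ℝ) ≤ 0 by linarith [s.2.2]) t.2.1)⟩)

end Pool.Agent.P.MP_038aca_al.Top
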