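import Pool.Agent.P.MP_038aca_al.Top.Cover

/-! The link of the vertex. -/

namespace Pool.Agent.P.MP_038aca_al.Top.PolyV

open Set Topology

variable {J : Type} {P : PolyV J} {G : Type} [Group G] {τ : J → G} {k : J × Bool → G}

/-- All corners that are kept are glued to one vertex. -/
def One (P : PolyV J) : Prop :=
  ∀ A : Set (J × Bool), (∀ j e, (j, e) ∈ A → (P.σ j, e) ∈ A) →
    (∀ a a', P.vtx a = P.vtx a' → a ∈ A → a' ∈ A) → ∀ a ∈ P.V, ∀ a' ∈ P.V, a ∈ A → a' ∈ A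

theorem Link_orbit {T : Type} [Finite T] (ι γ : Equiv.Perm T) (hι : ∀ x, ι (ι x) = x)
    (hγ : ∀ x, γ (γ x) = x) (hι' : ∀ x, ι x ≠ x) (hγ' : ∀ x, γ x ≠ x) (a₀ : T) :
    ∃ (N : ℕ) (a : ℕ → T), 0 < N ∧ a 0 = a₀ ∧ (∀ i, a (i + 1) = γ (ι (a i))) ∧ a N = a₀ ∧
      (∀ i < N, ∀ k < N, a i = a k → i = k) ∧ (∀ i k, ι (a i) ≠ a k) ∧ (∀ i k, γ (a i) ≠ a k) ∧
      (∀ i, ∃ k < N, a i = a k) ∧ ∀ i, ∃ k, γ (a i) = ι (a k) := by
  have hper : a₀ ∈ Function.periodicPts (γ * ι : Equiv.Perm T) :=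
    (γ * ι).injective.mem_periodicPts a₀
  have hN : 0 < Function.minimalPeriod (γ * ι : Equiv.Perm T) a₀ :=
    Function.minimalPeriod_pos_of_mem_periodicPts hper
  have hsucc : ∀ i, (γ * ι : Equiv.Perm T)^[i + 1] a₀ = γ (ι ((γ * ι : Equiv.Perm T)^[i] a₀)) := by
    intro i
    rw [Function.iterate_succ_apply']
    rfl
  have hd : ∀ i k : ℕ, ι ((γ * ι : Equiv.Perm T)^[i] a₀) ≠ (γ * ι : Equiv.Perm T)^[k] a₀ := by
    intro i k
    have := dihedral hι hγ hι' hγ' a₀ (i : ℤ) (k : ℤ)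
    simpa only [zpow_natCast, Equiv.Perm.coe_pow] using this
  have hγι : ∀ i : ℕ, ∃ k : ℕ,
      γ ((γ * ι : Equiv.Perm T)^[i] a₀) = ι ((γ * ι : Equiv.Perm T)^[k] a₀) := by
    intro i
    obtain ⟨M, hM⟩ := Nat.exists_eq_succ_of_ne_zero hN.ne'
    refine ⟨i + M, ?_⟩
    have h1 : (γ * ι : Equiv.Perm T)^[i + M + 1] a₀ = (γ * ι : Equiv.Perm T)^[i] a₀ := by
      rw [add_assoc, ← Nat.succ_eq_add_one M, ← hM, Function.iterate_add_apply,
        Function.iterate_minimalPeriod]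
    rw [← h1, hsucc, hγ]
  refine ⟨Function.minimalPeriod (γ * ι : Equiv.Perm T) a₀,
    fun i => (γ * ι : Equiv.Perm T)^[i] a₀, hN, rfl, hsucc, Function.iterate_minimalPeriod,
    fun i hi k hk h => Function.iterate_injOn_Iio_minimalPeriod hi hk h, hd, ?_, ?_, hγι⟩
  · intro i k
    obtain ⟨m, hm⟩ := hγι i
    rw [hm]
    exact hd m k
  · intro i
    exact ⟨_, Nat.mod_lt i hN, Function.iterate_mod_minimalPeriod_eq.symm⟩

/-- The direction in which a side leaves a corner. -/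
noncomputable def Link_ep (P : Poly J) (a : J × Bool) : ℝ := if P.sg a.1 = a.2 then -1 else 1

/-- The parameter at distance `r` from an end. -/
noncomputable def Link_uu (r : ℝ) (e : Bool) : ℝ := if e then 1 - r else r

/-- The arc around a corner. -/
noncomputable def Link_Z (P : Poly J) (r : ℝ) (a : J × Bool) (w : ℝ) : ℂ :=
  ((1 - r + r * |w| : ℝ) : ℂ) * P.pt (P.an a + Link_ep P a * r * w)

/-- The clamped parameter. -/
noncomputable def Link_cl (s : ℝ) : ℝ := max (-1) (min 1 (1 - 2 * s))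

theorem Link_cl_abs (s : ℝ) : |Link_cl s| ≤ 1 := by
  rw [abs_le]
  exact ⟨le_max_left _ _, max_le (by norm_num) (min_le_left _ _)⟩

theorem Link_cl_eq {s : ℝ} (hs : s ∈ Icc (0 : ℝ) 1) : Link_cl s = 1 - 2 * s := by
  unfold Link_cl
  rw [min_eq_right (by linarith [hs.1]), max_eq_right (by linarith [hs.2])]

theorem Link_cl_cont : Continuous Link_cl := by
  unfold Link_cl
  fun_prop

theorem Link_ep_abs (P : Poly J) (a : J × Bool) : |Link_ep P a| = 1 := by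
  unfold Link_ep
  split_ifs <;> simp

theorem Link_ep_sq (P : Poly J) (a : J × Bool) : Link_ep P a * Link_ep P a = 1 := by
  unfold Link_ep
  split_ifs <;> simp

theorem Link_abs (P : Poly J) (a : J × Bool) {r : ℝ} (hr : 0 < r) (w : ℝ) :
    |Link_ep P a * r * w| = r * |w| := by
  rw [abs_mul, abs_mul, Link_ep_abs, abs_of_pos hr, one_mul]

theorem Link_th (P : Poly J) (a : J × Bool) (r : ℝ) :
    P.th a.1 (Link_uu r a.2) = P.an a + Link_ep P a * r := by
  obtain ⟨j, e⟩ := a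
  unfold Poly.an Poly.th Link_uu Link_ep
  cases e <;> cases h : P.sg j <;> simp <;> ring

theorem Link_uu_mem {r : ℝ} (hr : 0 < r) (hr' : r < 1 / 2) (e : Bool) :
    Link_uu r e ∈ Ioo (0 : ℝ) 1 := by
  unfold Link_uu
  cases e
  · exact ⟨by simpa using hr, by simp only [Bool.false_eq_true, if_false]; linarith⟩
  · exact ⟨by simp only [if_true]; linarith, by simp only [if_true]; linarith⟩

theorem Link_Z_one (P : Poly J) (r : ℝ) (a : J × Bool) :
    Link_Z P r a 1 = P.pt (P.th a.1 (Link_uu r a.2)) := by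
  rw [Link_th]
  unfold Link_Z
  simp

theorem Link_rho_pos {r w : ℝ} (hr : 0 < r) (hr' : r < 1 / 2) : 0 < 1 - r + r * |w| := by
  have := mul_nonneg hr.le (abs_nonneg w)
  linarith

theorem Link_norm (P : Poly J) {r : ℝ} (hr : 0 < r) (hr' : r < 1 / 2) (a : J × Bool) (w : ℝ) :
    ‖Link_Z P r a w‖ = 1 - r + r * |w| :=
  P.norm_polar (Link_rho_pos hr hr').le _

theorem Link_lt {r w : ℝ} (hr : 0 < r) (hr' : r < 1 / 2) (hw : |w| ≤ 1) : r * |w| < 1 / 2 := by
  have := mul_le_mul_of_nonneg_left hw hr.le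
  linarith

theorem Link_ph (P : Poly J) {r : ℝ} (hr : 0 < r) (hr' : r < 1 / 2) (a : J × Bool) {w : ℝ}
    (hw : |w| ≤ 1) : P.ph (P.an a) (Link_Z P r a w) = Link_ep P a * r * w := by
  apply P.ph_polar (Link_rho_pos hr hr')
  rw [Link_abs P a hr]
  have h2 : (2 : ℝ) ≤ P.n := by exact_mod_cast P.two
  have := Link_lt hr hr' hw
  linarith

theorem Link_Sct (P : Poly J) {r : ℝ} (hr : 0 < r) (hr' : r < 1 / 2) (a : J × Bool) {w : ℝ}
    (hw : |w| ≤ 1) : Link_Z P r a w ∈ P.Sct (P.an a) :=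
  P.mem_Sct_iff.2 ⟨_, _, Link_rho_pos hr hr', by
    rw [Link_abs P a hr]; exact Link_lt hr hr' hw, rfl⟩

theorem Link_NN (P : Poly J) {r : ℝ} (hr : 0 < r) (hr' : r < 1 / 2) (a : J × Bool) {w : ℝ}
    (hw : |w| ≤ 1) : P.NN a (Link_Z P r a w) = r := by
  unfold Poly.NN
  rw [Link_norm P hr hr', Link_ph P hr hr' a hw, Link_abs P a hr]
  ring

theorem Link_norm_le (P : Poly J) {r : ℝ} (hr : 0 < r) (hr' : r < 1 / 2) (a : J × Bool) {w : ℝ}
    (hw : |w| ≤ 1) : ‖Link_Z P r a w‖ ≤ 1 := by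
  rw [Link_norm P hr hr']
  have := mul_le_mul_of_nonneg_left hw hr.le
  linarith

theorem Link_norm_lt (P : Poly J) {r : ℝ} (hr : 0 < r) (hr' : r < 1 / 2) (a : J × Bool) {w : ℝ}
    (hw : |w| < 1) : ‖Link_Z P r a w‖ < 1 := by
  rw [Link_norm P hr hr']
  have := mul_lt_mul_of_pos_left hw hr
  linarith

theorem Link_inj (P : Poly J) {r : ℝ} (hr : 0 < r) (hr' : r < 1 / 2) (a : J × Bool) {w w' : ℝ}
    (hw : |w| ≤ 1) (hw' : |w'| ≤ 1) (h : Link_Z P r a w = Link_Z P r a w') : w = w' := by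
  have h1 := Link_ph P hr hr' a hw
  rw [h, Link_ph P hr hr' a hw'] at h1
  have h0 : Link_ep P a * r ≠ 0 := by
    refine mul_ne_zero (fun h0 => ?_) hr.ne'
    have := Link_ep_abs P a
    rw [h0, abs_zero] at this
    exact zero_ne_one this
  exact (mul_left_cancel₀ h0 h1).symm

theorem Link_turn (P : Poly J) (r : ℝ) {a b : J × Bool} (hv : P.vtx a = P.vtx b)
    (hs : P.sg b.1 = b.2 ↔ ¬ P.sg a.1 = a.2) (w : ℝ) : Link_Z P r b w = Link_Z P r a (-w) := by
  have he : Link_ep P b = -Link_ep P a := by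
    unfold Link_ep
    by_cases h : P.sg a.1 = a.2
    · rw [if_pos h, if_neg (fun h' => hs.1 h' h)]; simp
    · rw [if_neg h, if_pos (hs.2 h)]
  unfold Link_Z
  rw [abs_neg]
  congr 1
  obtain ⟨m, hm⟩ := P.pt_eq_iff.1 hv
  refine (P.pt_eq_iff.2 ⟨m, ?_⟩).symm
  rw [hm, he]
  ring

theorem Link_surj (P : Poly J) {r : ℝ} (hr : 0 < r) (a : J × Bool) {z : ℂ} (hz : ‖z‖ ≤ 1)
    (h : P.NN a z = r) : ∃ w, |w| ≤ 1 ∧ z = Link_Z P r a w := by
  unfold Poly.NN at h
  have h1 : r * |Link_ep P a * P.ph (P.an a) z / r| = |P.ph (P.an a) z| := by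
    rw [abs_div, abs_mul, Link_ep_abs, abs_of_pos hr, one_mul]
    field_simp
  have h2 : Link_ep P a * r * (Link_ep P a * P.ph (P.an a) z / r) = P.ph (P.an a) z := by
    have h3 : Link_ep P a * r * (Link_ep P a * P.ph (P.an a) z / r) =
        (Link_ep P a * Link_ep P a) * P.ph (P.an a) z := by
      field_simp
    rw [h3, Link_ep_sq, one_mul]
  refine ⟨Link_ep P a * P.ph (P.an a) z / r, ?_, ?_⟩
  · refine le_of_mul_le_mul_left ?_ hr
    rw [h1]
    linarith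
  · unfold Link_Z
    rw [h1, h2]
    have h4 : 1 - r + |P.ph (P.an a) z| = ‖z‖ := by linarith
    rw [h4]
    exact P.polar _ z

theorem Link_Z_cont (P : Poly J) (r : ℝ) (a : J × Bool) : Continuous (Link_Z P r a) := by
  unfold Link_Z
  have := P.continuous_pt
  fun_prop

/-- The arc around a corner as a map to the tile. -/
theorem Link_arc (P : PolyV J) {r : ℝ} (hr : 0 < r) (hr' : r < 1 / 2) :
    ∃ Y : J × Bool → ℝ → P.D, (∀ a ∈ P.V, Continuous (Y a)) ∧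
      ∀ a ∈ P.V, ∀ s, (Y a s : ℂ) = Link_Z P.toPoly r a (Link_cl s) := by
  classical
  have hm : ∀ a ∈ P.V, ∀ s, Link_Z P.toPoly r a (Link_cl s) ∈ P.Ds := fun a ha s =>
    P.mem_Ds_of_corner ha (Link_norm_le _ hr hr' a (Link_cl_abs s))
      (Link_Sct _ hr hr' a (Link_cl_abs s))
  refine ⟨fun a s => if h : a ∈ P.V then ⟨_, hm a h s⟩ else P.ctr, fun a ha => ?_,
    fun a ha s => ?_⟩
  · simp only [dif_pos ha]
    exact ((Link_Z_cont _ r a).comp Link_cl_cont).subtype_mk _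
  · simp only [dif_pos ha]

/-- The link of the vertex. -/
theorem exists_link (hk : P.Lab τ k) (h1 : P.One) {a₀ : J × Bool} (ha₀ : a₀ ∈ P.V) {r : ℝ}
    (hr : 0 < r) (hr' : r < 1 / 2) : ∃ (N : ℕ) (l : ℝ → P.E τ), 0 < N ∧ LineT N (1 : G) l ∧
      (∀ t, ∃ a ∈ P.V, ∃ z : P.D, P.NN a z = r ∧ l t = P.tp τ (k a)⁻¹ z) ∧
      ∀ a ∈ P.V, ∀ z : P.D, P.NN a z = r → ∃ t, l t = P.tp τ (k a)⁻¹ z := by
  have := P.finite
  obtain ⟨ι, hι, hι', hv, hsg⟩ := P.exists_turn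
  have hγinv : Function.Involutive fun a : J × Bool => (P.σ a.1, a.2) := by
    intro a
    simp only [P.σσ]
  obtain ⟨γ, hγe⟩ : ∃ γ : Equiv.Perm (J × Bool), ∀ a, γ a = (P.σ a.1, a.2) :=
    ⟨hγinv.toPerm, fun _ => rfl⟩
  have hγ : ∀ a, γ (γ a) = a := fun a => by rw [hγe, hγe]; exact hγinv a
  have hγ' : ∀ a, γ a ≠ a := fun a h => by
    rw [hγe] at h
    exact P.ne a.1 (congrArg Prod.fst h)
  obtain ⟨N, a, hN, h0, hsucc, hlast, hinj, hdι, hdγ, hmod, hγι⟩ :=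
    Link_orbit ι γ hι hγ hι' hγ' a₀
  obtain ⟨Y, hYc, hY⟩ := Link_arc P hr hr'
  have hvι : ∀ b, P.vtx b = P.vtx (ι b) := fun b => (hv b (ι b)).2 (Or.inr rfl)
  have hVι : ∀ b ∈ P.V, ι b ∈ P.V := fun b hb => P.V_vtx _ _ (hvι b) hb
  have hVγ : ∀ b ∈ P.V, γ b ∈ P.V := fun b hb => by
    rw [hγe]
    exact P.V_σ b.1 b.2 hb
  have hV : ∀ i, a i ∈ P.V := by
    intro i
    induction i with
    | zero => rw [h0]; exact ha₀
    | succ i ih => rw [hsucc]; exact hVγ _ (hVι _ ih)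
  have hturn : ∀ b w, Link_Z P.toPoly r (ι b) w = Link_Z P.toPoly r b (-w) := fun b w =>
    Link_turn _ r (hvι b) (hsg b) w
  have hc0 : Link_cl 0 = 1 := by rw [Link_cl_eq ⟨le_rfl, zero_le_one⟩]; ring
  have hc1 : Link_cl 1 = -1 := by rw [Link_cl_eq ⟨zero_le_one, le_rfl⟩]; ring
  have heq : ∀ b b' w w', |w| ≤ 1 → |w'| ≤ 1 →
      Link_Z P.toPoly r b w = Link_Z P.toPoly r b' w' →
      (b' = b ∧ w' = w) ∨ (b' = ι b ∧ w' = -w) := by
    intro b b' w w' hw hw' h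
    have h2 := Link_Sct P.toPoly hr hr' b' hw'
    rw [← h] at h2
    rcases (hv b b').1 (P.corner_unique (Link_Sct P.toPoly hr hr' b hw) h2) with h3 | h3
    · subst h3
      exact Or.inl ⟨rfl, (Link_inj _ hr hr' _ hw hw' h).symm⟩
    · subst h3
      rw [hturn] at h
      have := Link_inj _ hr hr' _ hw (by rwa [abs_neg]) h
      exact Or.inr ⟨rfl, by linarith⟩
  have hstep : ∀ b ∈ P.V, P.tp τ (k b)⁻¹ (Y b 1) = P.tp τ (k (γ (ι b)))⁻¹ (Y (γ (ι b)) 0) := by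
    intro b hb
    have hG : P.Gj (ι b).1 (Y b 1) (Y (γ (ι b)) 0) := by
      refine ⟨Link_uu r (ι b).2, Ioo_subset_Icc_self (Link_uu_mem hr hr' _), ?_, ?_⟩
      · rw [hY b hb, hc1, ← hturn, Link_Z_one]
      · rw [hY _ (hVγ _ (hVι _ hb)), hc0, Link_Z_one, hγe]
    rw [tp_glue hG]
    congr 1
    rw [hk.k_vtx _ _ (hvι b) hb, hγe, hk.k_σ (ι b).1 (ι b).2 (hVι _ hb)]
    group
  obtain ⟨l, hl, hl1, hl2⟩ := mem_SE_of_arcs (G := G) (x := 1) hN
    (α := fun i s => P.tp τ (k (a i))⁻¹ (Y (a i) s))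
    (fun i _ => ((P.continuous_tp τ _).comp (hYc _ (hV i))).continuousOn)
    (fun i _ => by rw [hsucc]; exact hstep _ (hV i))
    (by
      rw [one_smul, hstep _ (hV _), ← hsucc, Nat.sub_add_cancel hN, hlast, h0])
    (by
      intro i hi m hm s hs t ht h hst
      rw [smul_tp] at hst
      have hs' := Link_cl_eq (Ico_subset_Icc_self hs)
      have ht' := Link_cl_eq (Ico_subset_Icc_self ht)
      have hsame : Y (a i) s = Y (a m) t → i = m ∧ s = t := by
        intro hz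
        have hz' := congrArg Subtype.val hz
        rw [hY _ (hV i), hY _ (hV m)] at hz'
        rcases heq _ _ _ _ (Link_cl_abs s) (Link_cl_abs t) hz' with ⟨h2, h3⟩ | ⟨h2, _⟩
        · refine ⟨hinj i hi m hm h2.symm, ?_⟩
          rw [hs', ht'] at h3
          linarith
        · exact absurd h2.symm (hdι i m)
      rcases hs.1.eq_or_lt with hs0 | hs0
      · subst hs0
        have hz : (Y (a i) 0 : ℂ) = ((1 : ℝ) : ℂ) * P.pt (P.th (a i).1 (Link_uu r (a i).2)) := by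
          rw [hY _ (hV i), hc0, Link_Z_one]
          simp
        obtain ⟨hm1, hm2⟩ := P.side_mem (j := (a i).1) one_pos (Link_uu_mem hr hr' (a i).2)
        rw [← hz] at hm1 hm2
        rcases tp_eq_side hk.lab hm1 hst with ⟨_, h3⟩ | ⟨_, _, h3⟩
        · exact hsame h3.symm
        · exfalso
          rw [hm2, hY _ (hV m)] at h3
          have h4 : Link_Z P.toPoly r (γ (a i)) 1 = Link_Z P.toPoly r (a m) (Link_cl t) := by
            rw [h3, Link_Z_one, hγe]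
          rcases heq _ _ _ _ (by simp) (Link_cl_abs t) h4 with ⟨h5, _⟩ | ⟨_, h6⟩
          · exact hdγ i m h5.symm
          · rw [ht'] at h6
            linarith [ht.2]
      · have hlt : ‖(Y (a i) s : ℂ)‖ < 1 := by
          rw [hY _ (hV i)]
          apply Link_norm_lt _ hr hr'
          rw [hs', abs_lt]
          constructor <;> linarith [hs.2]
        exact hsame (tp_eq_inner hlt hst).2)
  refine ⟨N, l, hN, hl, fun t => ?_, fun b hb z hz => ?_⟩
  · obtain ⟨i, _, s, _, m, hm⟩ := hl2 t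
    refine ⟨a i, hV i, Y (a i) s, ?_, ?_⟩
    · rw [hY _ (hV i)]
      exact Link_NN _ hr hr' _ (Link_cl_abs s)
    · rw [hm, one_zpow, one_smul]
  · have hbA : b ∈ {c | ∃ i, c = a i ∨ c = ι (a i)} := by
      refine h1 _ ?_ ?_ a₀ ha₀ b hb ⟨0, Or.inl h0.symm⟩
      · rintro j e ⟨i, hi | hi⟩
        · obtain ⟨m, hm⟩ := hγι i
          refine ⟨m, Or.inr ?_⟩
          rw [← hm, ← hi, hγe]
        · refine ⟨i + 1, Or.inl ?_⟩
          rw [hsucc, ← hi, hγe]
      · rintro c c' hcc ⟨i, hi⟩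
        rcases (hv c c').1 hcc with h2 | h2
        · exact ⟨i, h2 ▸ hi⟩
        · rcases hi with hi | hi
          · exact ⟨i, Or.inr (by rw [h2, hi])⟩
          · exact ⟨i, Or.inl (by rw [h2, hi, hι])⟩
    obtain ⟨i, hi⟩ := hbA
    obtain ⟨m, hm, him⟩ := hmod i
    rw [him] at hi
    obtain ⟨w, hw, hzw⟩ := Link_surj P.toPoly hr b z.2.1 hz
    have key : ∀ w, |w| ≤ 1 → (z : ℂ) = Link_Z P.toPoly r (a m) w →
        ∃ t, l t = P.tp τ (k (a m))⁻¹ z := by
      intro w hw hzw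
      rw [abs_le] at hw
      have hs : (1 - w) / 2 ∈ Icc (0 : ℝ) 1 := ⟨by linarith [hw.2], by linarith [hw.1]⟩
      refine ⟨m + (1 - w) / 2, ?_⟩
      rw [hl1 m hm _ hs]
      congr 1
      apply Subtype.ext
      rw [hY _ (hV m), Link_cl_eq hs, hzw]
      congr 1
      ring
    rcases hi with hi | hi
    · subst hi
      exact key w hw hzw
    · subst hi
      rw [← hk.k_vtx _ _ (hvι _) (hV m)]
      rw [hturn] at hzw
      exact key (-w) (by rwa [abs_neg]) hzw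

end Pool.Agent.P.MP_038aca_al.Top.PolyV
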