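import Pool.Agent.P.MP_038aca_al.Top.Til

/-! The glued polygon is semilocally simply connected. -/

namespace Pool.Agent.P.MP_038aca_al.Top.PolyV

open Set Topology unitInterval

variable {J : Type} {P : PolyV J} {X : Type} [TopologicalSpace X] {q : P.D → X}

theorem Loc_null {U : Set X} [ContractibleSpace U] (y : X) (γ : Path y y) (h : ∀ t, γ t ∈ U) :
    γ.Homotopic (Path.refl y) := by
  have hy : y ∈ U := by simpa using h 0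
  let γ' : Path (⟨y, hy⟩ : U) ⟨y, hy⟩ :=
    { toFun := fun t => ⟨γ t, h t⟩
      continuous_toFun := γ.continuous.subtype_mk _
      source' := Subtype.ext γ.source
      target' := Subtype.ext γ.target }
  have h1 := (SimplyConnectedSpace.paths_homotopic γ' (Path.refl _)).map
    (⟨Subtype.val, continuous_subtype_val⟩ : C(U, X))
  exact h1

/-- Loops in the image of a saturated open set with a compatible contraction are trivial. -/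
theorem loops_trivial (hq : P.Geo q) {O : Set P.D} (hO : IsOpen O)
    (hsat : ∀ z z', P.Gl z z' → (z ∈ O ↔ z' ∈ O)) {H : P.D × I → P.D}
    (hH : ContinuousOn H (O ×ˢ univ)) (h0 : ∀ z ∈ O, H (z, 0) = z) {y₀ : X}
    (h1 : ∀ z ∈ O, q (H (z, 1)) = y₀) (hm : ∀ z ∈ O, ∀ t, H (z, t) ∈ O)
    (hc : ∀ z z', P.Gl z z' → z ∈ O → ∀ t, q (H (z, t)) = q (H (z', t))) :
    IsOpen (q '' O) ∧
      ∀ (y : X) (γ : Path y y), (∀ t, γ t ∈ q '' O) → γ.Homotopic (Path.refl y) := by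
  have key : ∀ z z', q z = q z' →
      (z ∈ O ↔ z' ∈ O) ∧ (z ∈ O → ∀ t, q (H (z, t)) = q (H (z', t))) := by
    intro z z' h
    rw [hq.ker] at h
    induction h with
    | rel a b hab => exact ⟨hsat a b hab, hc a b hab⟩
    | refl a => exact ⟨Iff.rfl, fun _ _ => rfl⟩
    | symm a b _ ih => exact ⟨ih.1.symm, fun hb t => (ih.2 (ih.1.2 hb) t).symm⟩
    | trans a b c _ _ ih ih' =>
      exact ⟨ih.1.trans ih'.1, fun ha t => (ih.2 ha t).trans (ih'.2 (ih.1.1 ha) t)⟩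
  have hpre : q ⁻¹' (q '' O) = O := by
    ext z
    constructor
    · rintro ⟨z', hz', h⟩
      exact (key z' z h).1.1 hz'
    · exact fun hz => ⟨z, hz, rfl⟩
  have hU : IsOpen (q '' O) := by
    rw [← hq.quot.isOpen_preimage, hpre]
    exact hO
  refine ⟨hU, fun y γ hγ => ?_⟩
  have hy : y ∈ q '' O := by simpa using hγ 0
  obtain ⟨z₀, hz₀, -⟩ := hy
  have hy₀ : y₀ ∈ q '' O := ⟨H (z₀, 1), hm z₀ hz₀ 1, h1 z₀ hz₀⟩
  choose r hr hr' using fun u : q '' O => u.2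
  let K : (q '' O) × I → q '' O := fun p => ⟨q (H (r p.1, p.2)), _, hm _ (hr p.1) p.2, rfl⟩
  have hK : Continuous K := by
    refine (hq.quot.restrictPreimage_isOpen hU).continuous_lift_prod_left ?_
    refine Continuous.subtype_mk ?_ _
    have e : (fun p : (q ⁻¹' (q '' O)) × I =>
        q (H (r ((q '' O).restrictPreimage q p.1), p.2))) = fun p => q (H (p.1.1, p.2)) := by
      funext p
      exact (key _ _ (hr' _)).2 (hr _) p.2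
    rw [e]
    refine hq.quot.continuous.comp ?_
    refine hH.comp_continuous (by fun_prop) fun p => ⟨?_, mem_univ _⟩
    exact hpre.subset p.1.2
  haveI : ContractibleSpace (q '' O) := by
    rw [contractible_iff_id_nullhomotopic]
    refine ⟨⟨y₀, hy₀⟩, ⟨⟨⟨fun p => K (p.2, p.1), by fun_prop⟩, fun u => ?_, fun u => ?_⟩⟩⟩
    · apply Subtype.ext
      change q (H (r u, 0)) = u
      rw [h0 _ (hr u), hr']
    · apply Subtype.ext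
      exact h1 _ (hr u)
  exact Loc_null y γ hγ

theorem Loc_nhds (hq : P.Geo q) {O : Set P.D} (hO : IsOpen O) {z₀ : P.D} (hz₀ : z₀ ∈ O)
    (hsat : ∀ z z', P.Gl z z' → (z ∈ O ↔ z' ∈ O)) {H : P.D × I → P.D}
    (hH : ContinuousOn H (O ×ˢ univ)) (h0 : ∀ z ∈ O, H (z, 0) = z) {y₀ : X}
    (h1 : ∀ z ∈ O, q (H (z, 1)) = y₀) (hm : ∀ z ∈ O, ∀ t, H (z, t) ∈ O)
    (hc : ∀ z z', P.Gl z z' → z ∈ O → ∀ t, q (H (z, t)) = q (H (z', t))) :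
    ∃ U ∈ 𝓝 (q z₀), ∀ (y : X) (γ : Path y y), (∀ t, γ t ∈ U) → γ.Homotopic (Path.refl y) := by
  obtain ⟨h, h'⟩ := loops_trivial hq hO hsat hH h0 h1 hm hc
  exact ⟨_, h.mem_nhds ⟨z₀, hz₀, rfl⟩, h'⟩

theorem Loc_pt_add {θ θ' : ℝ} (h : P.pt θ = P.pt θ') (s : ℝ) :
    P.pt (θ + s) = P.pt (θ' + s) := by
  obtain ⟨k, hk⟩ := P.pt_eq_iff.1 h
  exact P.pt_eq_iff.2 ⟨k, by rw [hk]; ring⟩

theorem Loc_form_mem {θ : ℝ} {z : ℂ} (hz : z ∈ P.Sct θ) (h1 : ‖z‖ ≤ 1) (t : I) :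
    (((1 - t) * ‖z‖ + t : ℝ) : ℂ) * P.pt (θ + (1 - t) * P.ph θ z) ∈ P.Sct θ ∧
      ‖(((1 - t) * ‖z‖ + t : ℝ) : ℂ) * P.pt (θ + (1 - t) * P.ph θ z)‖ ≤ 1 := by
  have ht0 := t.2.1
  have ht1 := t.2.2
  have hz0 : 0 < ‖z‖ := norm_pos_iff.2 hz.1
  have hρ : 0 < (1 - (t : ℝ)) * ‖z‖ + t := by
    rcases ht0.eq_or_lt with h | h
    · rw [← h]; simpa using hz.1
    · have := mul_nonneg (sub_nonneg.2 ht1) hz0.le
      linarith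
  refine ⟨P.mem_Sct_iff.2 ⟨_, _, hρ, ?_, rfl⟩, ?_⟩
  · rw [abs_mul, abs_of_nonneg (sub_nonneg.2 ht1)]
    have := hz.2
    nlinarith [abs_nonneg (P.ph θ z)]
  · rw [P.norm_polar hρ.le]
    nlinarith

/-- The contraction of a family of sectors to their middle points on the circle. -/
theorem exists_contraction (C : Set ℝ) (hC : ∀ θ ∈ C, ∀ z ∈ P.Sct θ, ‖z‖ ≤ 1 → z ∈ P.Ds)
    (hd : ∀ θ ∈ C, ∀ θ' ∈ C, ∀ z, z ∈ P.Sct θ → z ∈ P.Sct θ' → P.pt θ = P.pt θ') :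
    ∃ H : P.D × I → P.D, ContinuousOn H ({z : P.D | ∃ θ ∈ C, (z : ℂ) ∈ P.Sct θ} ×ˢ univ) ∧
      ∀ θ ∈ C, ∀ z : P.D, (z : ℂ) ∈ P.Sct θ → ∀ t : I, (H (z, t) : ℂ) ∈ P.Sct θ ∧
        (H (z, t) : ℂ) =
          ((1 - t) * ‖(z : ℂ)‖ + t : ℝ) * P.pt (θ + (1 - t) * P.ph θ z) := by
  have hex : ∀ p : P.D × I, ∃ w : P.D, ∀ θ ∈ C, (p.1 : ℂ) ∈ P.Sct θ →
      (w : ℂ) = ((1 - p.2) * ‖(p.1 : ℂ)‖ + p.2 : ℝ) * P.pt (θ + (1 - p.2) * P.ph θ p.1) := by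
    rintro ⟨z, t⟩
    by_cases h : ∃ θ ∈ C, (z : ℂ) ∈ P.Sct θ
    · obtain ⟨θ, hθ, hz⟩ := h
      obtain ⟨h1, h2⟩ := Loc_form_mem hz z.2.1 t
      refine ⟨⟨_, hC θ hθ _ h1 h2⟩, fun θ' hθ' hz' => ?_⟩
      have e := hd θ hθ θ' hθ' z hz hz'
      change _ * _ = _ * _
      rw [P.ph_congr e, Loc_pt_add e]
    · exact ⟨z, fun θ hθ hz => absurd ⟨θ, hθ, hz⟩ h⟩
  choose H hH using hex
  refine ⟨H, ?_, fun θ hθ z hz t => ?_⟩
  · rintro ⟨z, t⟩ ⟨⟨θ, hθ, hz⟩, -⟩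
    apply ContinuousAt.continuousWithinAt
    rw [IsInducing.subtypeVal.continuousAt_iff]
    have hN : {p : P.D × I | (p.1 : ℂ) ∈ P.Sct θ} ∈ 𝓝 (z, t) :=
      ((P.isOpen_Sct θ).preimage (by fun_prop)).mem_nhds hz
    refine ContinuousAt.congr (f := fun p : P.D × I =>
      (((1 - p.2) * ‖(p.1 : ℂ)‖ + p.2 : ℝ) : ℂ) * P.pt (θ + (1 - p.2) * P.ph θ p.1)) ?_ ?_
    · have hph : ContinuousAt (fun p : P.D × I => P.ph θ p.1) (z, t) := by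
        refine ContinuousAt.comp (g := P.ph θ) (f := fun p : P.D × I => (p.1 : ℂ)) ?_
          (by fun_prop)
        exact (P.continuousOn_ph θ).continuousAt ((P.isOpen_Sct θ).mem_nhds hz)
      have hpt := P.continuous_pt
      refine ContinuousAt.mul (by fun_prop) (hpt.continuousAt.comp ?_)
      exact continuousAt_const.add (ContinuousAt.mul (by fun_prop) hph)
    · filter_upwards [hN] with p hp
      exact (hH p θ hθ hp).symm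
  · have e := hH (z, t) θ hθ hz
    refine ⟨?_, e⟩
    rw [e]
    exact (Loc_form_mem hz z.2.1 t).1

theorem Loc_near (i : J) {u v : ℝ} (h : |u - v| < 1 / 2) :
    P.pt (P.th i u) ∈ P.Sct (P.th i v) ∧
      P.ph (P.th i v) (P.pt (P.th i u)) = P.th i u - P.th i v := by
  have h1 : |P.th i u - P.th i v| < 1 / 2 := by
    unfold Poly.th
    split_ifs
    · rwa [add_sub_add_left_eq_sub]
    · rw [add_sub_add_left_eq_sub, show 1 - u - (1 - v) = -(u - v) by ring, abs_neg]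
      exact h
  have e : P.pt (P.th i u) = ((1 : ℝ) : ℂ) * P.pt (P.th i v + (P.th i u - P.th i v)) := by
    simp
  have h2 : (2 : ℝ) ≤ P.n := by exact_mod_cast P.two
  refine ⟨P.mem_Sct_iff.2 ⟨1, _, one_pos, h1, e⟩, ?_⟩
  rw [e]
  exact P.ph_polar one_pos (by linarith)

theorem Loc_th_aff (i : J) (u v t : ℝ) :
    P.th i v + (1 - t) * (P.th i u - P.th i v) = P.th i ((1 - t) * u + t * v) := by
  unfold Poly.th
  split_ifs <;> ring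

theorem Loc_gen (hq : P.Geo q) (C : Set ℝ) (hC : ∀ θ ∈ C, ∀ z ∈ P.Sct θ, ‖z‖ ≤ 1 → z ∈ P.Ds)
    (hd : ∀ θ ∈ C, ∀ θ' ∈ C, ∀ z, z ∈ P.Sct θ → z ∈ P.Sct θ' → P.pt θ = P.pt θ') {y₀ : X}
    (hy : ∀ θ ∈ C, ∀ w : P.D, (w : ℂ) = P.pt θ → q w = y₀)
    (hg : ∀ i, ∀ u ∈ Icc (0 : ℝ) 1, ∀ θ ∈ C, P.pt (P.th i u) ∈ P.Sct θ →
      ∃ v ∈ Icc (0 : ℝ) 1, |u - v| < 1 / 2 ∧ P.th i v ∈ C ∧ P.th (P.σ i) v ∈ C)
    {z₀ : P.D} (hz₀ : ∃ θ ∈ C, (z₀ : ℂ) ∈ P.Sct θ) :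
    ∃ U ∈ 𝓝 (q z₀), ∀ (y : X) (γ : Path y y), (∀ t, γ t ∈ U) → γ.Homotopic (Path.refl y) := by
  obtain ⟨H, hH, hf⟩ := exists_contraction C hC hd
  have hO : IsOpen {z : P.D | ∃ θ ∈ C, (z : ℂ) ∈ P.Sct θ} := by
    rw [isOpen_iff_mem_nhds]
    rintro z ⟨θ, hθ, hz⟩
    filter_upwards [((P.isOpen_Sct θ).preimage continuous_subtype_val).mem_nhds hz] with w hw
    exact ⟨θ, hθ, hw⟩
  have hs : ∀ j z z', P.Gj j z z' → z ∈ {z : P.D | ∃ θ ∈ C, (z : ℂ) ∈ P.Sct θ} →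
      z' ∈ {z : P.D | ∃ θ ∈ C, (z : ℂ) ∈ P.Sct θ} := by
    rintro j z z' ⟨u, hu, e, e'⟩ ⟨θ, hθ, hz⟩
    rw [e] at hz
    obtain ⟨v, -, huv, -, h2⟩ := hg j u hu θ hθ hz
    exact ⟨_, h2, e' ▸ (Loc_near _ huv).1⟩
  have hb : ∀ i (u v : ℝ), |u - v| < 1 / 2 → P.th i v ∈ C → ∀ z : P.D,
      (z : ℂ) = P.pt (P.th i u) → ∀ t : I,
        (H (z, t) : ℂ) = P.pt (P.th i ((1 - t) * u + t * v)) := by
    intro i u v huv hv z e t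
    obtain ⟨h1, h2⟩ := Loc_near (P := P) i huv
    rw [(hf _ hv z (e ▸ h1) t).2, e, h2, Loc_th_aff, P.norm_pt]
    simp
  refine Loc_nhds hq hO hz₀ (y₀ := y₀) (H := H) ?_ hH ?_ ?_ ?_ ?_
  · rintro z z' ⟨j, hj⟩
    exact ⟨hs j z z' hj, hs _ z' z hj.symm⟩
  · rintro z ⟨θ, hθ, hz⟩
    apply Subtype.ext
    rw [(hf θ hθ z hz 0).2]
    simpa using (P.polar θ z).symm
  · rintro z ⟨θ, hθ, hz⟩
    apply hy θ hθ
    rw [(hf θ hθ z hz 1).2]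
    simp
  · rintro z ⟨θ, hθ, hz⟩ t
    exact ⟨θ, hθ, (hf θ hθ z hz t).1⟩
  · rintro z z' ⟨j, u, hu, e, e'⟩ ⟨θ, hθ, hz⟩ t
    rw [e] at hz
    obtain ⟨v, hv, huv, h1, h2⟩ := hg j u hu θ hθ hz
    rw [hq.ker]
    refine .rel _ _ ⟨j, (1 - t) * u + t * v, ⟨?_, ?_⟩, hb j u v huv h1 z e t,
      hb _ u v huv h2 z' e' t⟩
    · nlinarith [t.2.1, t.2.2, hu.1, hv.1]
    · nlinarith [t.2.1, t.2.2, hu.2, hv.2]

theorem Loc_inner (hq : P.Geo q) {z₀ : P.D} (hz₀ : ‖(z₀ : ℂ)‖ < 1) :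
    ∃ U ∈ 𝓝 (q z₀), ∀ (y : X) (γ : Path y y), (∀ t, γ t ∈ U) → γ.Homotopic (Path.refl y) := by
  have hmem : ∀ p : P.D × I, (((1 - p.2 : ℝ)) : ℂ) * p.1 ∈ P.Ds := by
    rintro ⟨z, t⟩
    have := P.convex_Ds z.2 P.ctr.2 (sub_nonneg.2 t.2.2) t.2.1 (sub_add_cancel _ _)
    simpa [ctr] using this
  have hO : IsOpen {z : P.D | ‖(z : ℂ)‖ < 1} := isOpen_lt (by fun_prop) continuous_const
  have hn : ∀ z z', P.Gl z z' → ‖(z : ℂ)‖ = 1 ∧ ‖(z' : ℂ)‖ = 1 := by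
    rintro z z' ⟨j, u, -, e, e'⟩
    rw [e, e']
    exact ⟨P.norm_pt _, P.norm_pt _⟩
  refine Loc_nhds hq hO hz₀ (y₀ := q P.ctr) (H := fun p => ⟨_, hmem p⟩) ?_ ?_ ?_ ?_ ?_ ?_
  · intro z z' h
    simp [(hn z z' h).1, (hn z z' h).2]
  · exact (Continuous.subtype_mk (by fun_prop) _).continuousOn
  · intro z _
    apply Subtype.ext
    simp
  · intro z _
    congr 1
    apply Subtype.ext
    simp [ctr]
  · intro z hz t
    change ‖(((1 - t : ℝ)) : ℂ) * z‖ < 1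
    have hz' : ‖(z : ℂ)‖ < 1 := hz
    rw [norm_mul, Complex.norm_real, Real.norm_of_nonneg (sub_nonneg.2 t.2.2)]
    nlinarith [t.2.1, t.2.2, norm_nonneg (z : ℂ)]
  · intro z z' h hz
    exact absurd (hn z z' h).1 (ne_of_lt hz)

theorem Loc_side (hq : P.Geo q) {z₀ : P.D} {j : J} (hz₀ : (z₀ : ℂ) ∈ P.Sct (P.mid j)) :
    ∃ U ∈ 𝓝 (q z₀), ∀ (y : X) (γ : Path y y), (∀ t, γ t ∈ U) → γ.Homotopic (Path.refl y) := by
  have hh : (1 / 2 : ℝ) ∈ Ioo (0 : ℝ) 1 := ⟨by norm_num, by norm_num⟩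
  refine Loc_gen hq {θ | ∃ i, (i = j ∨ i = P.σ j) ∧ θ = P.mid i} ?_ ?_
    (y₀ := q ⟨_, P.pt_mem_Ds (j := j) hh⟩) ?_ ?_ ⟨_, ⟨j, .inl rfl, rfl⟩, hz₀⟩
  · rintro _ ⟨i, -, rfl⟩ z hz h1
    exact P.mem_Ds_of_side h1 hz
  · rintro _ ⟨i, -, rfl⟩ _ ⟨i', -, rfl⟩ z hz hz'
    rw [P.side_unique hz hz']
  · rintro _ ⟨i, rfl | rfl, rfl⟩ w hw
    · congr 1
      apply Subtype.ext
      rw [hw, ← P.th_half]
    · symm
      rw [hq.ker]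
      refine .rel _ _ ⟨j, 1 / 2, Ioo_subset_Icc_self hh, rfl, ?_⟩
      rw [hw, P.th_half]
  · rintro i u hu _ ⟨i', hi', rfl⟩ hz
    obtain ⟨rfl, hu'⟩ := P.side_of_mem (i := i) (j := i') one_pos hu (by simpa using hz)
    refine ⟨1 / 2, Ioo_subset_Icc_self hh, ?_, ⟨i, hi', P.th_half i⟩, P.σ i, ?_, P.th_half _⟩
    · rw [abs_lt]
      constructor <;> linarith [hu'.1, hu'.2]
    · rcases hi' with rfl | rfl
      · exact .inr rfl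
      · exact .inl (P.σσ j)

theorem Loc_corner (hq : P.Geo q) {z₀ : P.D} {a₀ : J × Bool} (ha₀ : a₀ ∈ P.V)
    (hz₀ : (z₀ : ℂ) = P.vtx a₀) :
    ∃ U ∈ 𝓝 (q z₀), ∀ (y : X) (γ : Path y y), (∀ t, γ t ∈ U) → γ.Homotopic (Path.refl y) := by
  refine Loc_gen hq {θ | ∃ a ∈ P.V, (∃ w : P.D, (w : ℂ) = P.vtx a ∧ q w = q z₀) ∧ θ = P.an a}
    ?_ ?_ (y₀ := q z₀) ?_ ?_ ⟨_, ⟨a₀, ha₀, ⟨z₀, hz₀, rfl⟩, rfl⟩, hz₀ ▸ P.vtx_mem a₀⟩
  · rintro _ ⟨a, ha, -, rfl⟩ z hz h1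
    exact P.mem_Ds_of_corner ha h1 hz
  · rintro _ ⟨a, -, -, rfl⟩ _ ⟨a', -, -, rfl⟩ z hz hz'
    exact P.corner_unique hz hz'
  · rintro _ ⟨a, -, ⟨w', hw', e⟩, rfl⟩ w hw
    rw [← e]
    congr 1
    exact Subtype.ext (hw.trans hw'.symm)
  · rintro i u hu _ ⟨a, ha, ⟨w, hw, e⟩, rfl⟩ hz
    obtain ⟨b, h1, -, h3⟩ := P.near (a := a) (j := i) one_pos hu (by simpa using hz)
    have hv : (if b then (1 : ℝ) else 0) ∈ Icc (0 : ℝ) 1 := by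
      cases b <;> simp
    have hV : (i, b) ∈ P.V := P.V_vtx _ _ h1.symm ha
    have hw' : (w : ℂ) = P.pt (P.th i (if b then 1 else 0)) := hw.trans h1.symm
    have hD := P.pt_mem_Ds_σ hv (hw' ▸ w.2)
    refine ⟨_, hv, h3, ⟨(i, b), hV, ⟨w, hw', e⟩, rfl⟩,
      (P.σ i, b), P.V_σ _ _ hV, ⟨⟨_, hD⟩, rfl, ?_⟩, rfl⟩
    rw [← e]
    symm
    rw [hq.ker]
    exact .rel _ _ ⟨i, _, hv, hw', rfl⟩

theorem semilocal (hq : P.Geo q) (x : X) :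
    ∃ U ∈ 𝓝 x, ∀ (y : X) (γ : Path y y), (∀ t, γ t ∈ U) → γ.Homotopic (Path.refl y) := by
  obtain ⟨z, rfl⟩ := hq.quot.surjective x
  rcases cases_D z with h | ⟨-, j, h⟩ | ⟨a, ha, h⟩
  · exact Loc_inner hq h
  · exact Loc_side hq h
  · exact Loc_corner hq ha h

end Pool.Agent.P.MP_038aca_al.Top.PolyV
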