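import Pool.Agent.P.MP_038aca_al.Top.Link

/-! Pushing a line off the vertex. -/

namespace Pool.Agent.P.MP_038aca_al.Top.PolyV

open Set Topology

variable {J : Type} {P : PolyV J} {G : Type} [Group G] {τ : J → G} {k : J × Bool → G}

section abs

variable {E : Type} [MulAction G E] [TopologicalSpace E]

theorem Push_int {z : ℤ} {T : ℝ} (hT : 0 < T) (h1 : -T < z * T) (h2 : z * T < T) : z = 0 := by
  have h3 : (-1 : ℝ) < z := lt_of_mul_lt_mul_right (by linarith) hT.le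
  have h4 : (z : ℝ) < 1 := lt_of_mul_lt_mul_right (by linarith) hT.le
  have h5 : (-1 : ℤ) < z := by exact_mod_cast h3
  have h6 : z < (1 : ℤ) := by exact_mod_cast h4
  omega

theorem Push_eq {T : ℝ} {x : G} {c : ℝ → E} (hc : LineT T x c) {s t : ℝ} {h : G}
    (e : c s = h • c t) (h1 : s < t + T) (h2 : t < s + T) : s = t := by
  obtain ⟨z, hz⟩ := hc.simple s t h e
  have := Push_int (z := z) (T := T) (by linarith) (by linarith) (by linarith)
  rw [hz, this, Int.cast_zero, zero_mul, add_zero]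

theorem Push_half {x : G} {c : ℝ → E} (hc : LineT (2 : ℕ) x c) : LineT 1 x fun t => c (2 * t) where
  cont := hc.cont.comp (continuous_const.mul continuous_id)
  per t := by
    rw [← hc.per]
    congr 1
    push_cast
    ring
  simple s t h e := by
    obtain ⟨z, hz⟩ := hc.simple _ _ h e
    refine ⟨z, ?_⟩
    push_cast at hz
    linarith

theorem Push_smul [ContinuousConstSMul G E] {T : ℝ} {l : ℝ → E} (hl : LineT T (1 : G) l) (g : G) :
    LineT T (1 : G) fun t => g • l t where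
  cont := hl.cont.const_smul g
  per t := by rw [hl.per, one_smul, one_smul]
  simple s t h e := hl.simple s t (g⁻¹ * h * g) (by rw [mul_smul, mul_smul, ← e, inv_smul_smul])

theorem Push_seg {a b s : ℝ} (h : a < b) (hs : s ∈ Ico (0 : ℝ) 1) : a + s * (b - a) ∈ Ico a b :=
  ⟨by nlinarith [hs.1], by nlinarith [hs.2]⟩

/-- An arc of the line and an arc of the link form a new line. -/
theorem Push_arcs [ContinuousConstSMul G E] {x : G} {c l : ℝ → E} {T : ℝ} (hc : LineT 1 x c)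
    (hl : LineT T (1 : G) l) {d : E → ℝ} (hd : ∀ (h : G) e, d (h • e) = d e) {r t₁ t₂ y₁ y₂ : ℝ}
    (hr : r ≠ 0) (ht : t₁ < t₂) (ht' : t₂ < t₁ + 1) (hy : y₂ < y₁) (hy' : y₁ < y₂ + T)
    (e₁ : c t₁ = l y₁) (e₂ : c t₂ = x • l y₂) (hdl : ∀ t, d (l t) = r)
    (hdc : ∀ t ∈ Ioo t₁ t₂, d (c t) ≠ r ∧ d (c t) ≠ 0) :
    ∃ c' : ℝ → E, LineT 1 x c' ∧ ∀ t, d (c' t) ≠ 0 := by
  let α : ℕ → ℝ → E := fun i s =>
    if i = 0 then c (t₁ + s * (t₂ - t₁)) else x • l (y₂ + s * (y₁ - y₂))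
  have a0 : ∀ s, α 0 s = c (t₁ + s * (t₂ - t₁)) := fun s => if_pos rfl
  have a1 : ∀ s, α 1 s = x • l (y₂ + s * (y₁ - y₂)) := fun s => if_neg one_ne_zero
  have mix : ∀ s ∈ Ico (0 : ℝ) 1, ∀ t ∈ Ico (0 : ℝ) 1, ∀ h : G, α 0 s ≠ h • α 1 t := by
    intro s hs t ht₀ h e
    rw [a0, a1] at e
    have h1 := Push_seg ht hs
    have h2 := Push_seg hy ht₀
    rcases h1.1.eq_or_lt with h3 | h3
    · rw [← h3, e₁, ← mul_smul] at e
      have := Push_eq hl e (by linarith [h2.1]) (by linarith [h2.2])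
      linarith [h2.2]
    · exact (hdc _ ⟨h3, h1.2⟩).1 (by rw [e, hd, hd, hdl])
  obtain ⟨c', h1, -, h2⟩ := mem_SE_of_arcs (x := x) (N := 2) two_pos (α := α) (fun i hi => by
    obtain rfl | rfl : i = 0 ∨ i = 1 := by omega
    · rw [funext a0]
      exact (hc.cont.comp (by fun_prop)).continuousOn
    · rw [funext a1]
      exact ((hl.cont.comp (by fun_prop)).const_smul x).continuousOn) (fun i hi => by
    obtain rfl : i = 0 := by omega
    rw [a0, zero_add, a1, one_mul, zero_mul, add_zero, add_sub_cancel, e₂]) (by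
    rw [a0, show 2 - 1 = 1 from rfl, a1, one_mul, zero_mul, add_zero, add_sub_cancel, e₁]) (by
    intro i hi j hj s hs t ht₀ h e
    obtain rfl | rfl : i = 0 ∨ i = 1 := by omega
    all_goals obtain rfl | rfl : j = 0 ∨ j = 1 := by omega
    · rw [a0, a0] at e
      have h1 := Push_seg ht hs
      have h2 := Push_seg ht ht₀
      have h3 := Push_eq hc e (by linarith [h1.2, h2.1]) (by linarith [h1.1, h2.2])
      exact ⟨rfl, mul_right_cancel₀ (sub_pos.2 ht).ne' (add_left_cancel h3)⟩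
    · exact absurd e (mix s hs t ht₀ h)
    · exact absurd (by rw [e, inv_smul_smul]) (mix t ht₀ s hs h⁻¹)
    · rw [a1, a1] at e
      have h1 := Push_seg hy hs
      have h2 := Push_seg hy ht₀
      have h3 := Push_eq (Push_smul hl x) e (by linarith [h1.2, h2.1]) (by linarith [h1.1, h2.2])
      exact ⟨rfl, mul_right_cancel₀ (sub_pos.2 hy).ne' (add_left_cancel h3)⟩)
  refine ⟨_, Push_half h1, fun t => ?_⟩
  obtain ⟨i, hi, s, hs, z, hz⟩ := h2 (2 * t)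
  rw [hz, hd]
  obtain rfl | rfl : i = 0 ∨ i = 1 := by omega
  · rw [a0]
    have h3 := Push_seg ht hs
    rcases h3.1.eq_or_lt with h4 | h4
    · rwa [← h4, e₁, hdl]
    · exact (hdc _ ⟨h4, h3.2⟩).2
  · rwa [a1, hd, hdl]

/-- The abstract form of the push. -/
theorem Push_abs [ContinuousConstSMul G E] {x : G} {c : ℝ → E} (hc : LineT 1 x c) {d : E → ℝ}
    (hdc : Continuous d) (hd : ∀ (h : G) e, d (h • e) = d e) (hn : ∀ e, 0 ≤ d e)
    (h0 : d (c 0) = 0) (horb : ∀ e, d e = 0 → ∃ h : G, e = h • c 0) {O : Set E} (hO : IsOpen O)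
    (hO' : c 0 ∈ O) (hl : ∀ r : ℝ, 0 < r → r < 1 / 2 → ∃ (T : ℝ) (l : ℝ → E), 0 < T ∧
      LineT T (1 : G) l ∧ (∀ t, d (l t) = r) ∧ ∀ e ∈ O, d e = r → ∃ y, e = l y) :
    ∃ c' : ℝ → E, LineT 1 x c' ∧ ∀ t, d (c' t) ≠ 0 := by
  have hf : Continuous fun t => d (c t) := hdc.comp hc.cont
  have h1 : d (c 1) = 0 := by rw [← zero_add (1 : ℝ), hc.per, hd, h0]
  have hpos : ∀ t ∈ Ioo (0 : ℝ) 1, d (c t) ≠ 0 := fun t ht e => by
    obtain ⟨h, e'⟩ := horb _ e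
    exact ht.1.ne' (Push_eq hc e' (by linarith [ht.2]) (by linarith [ht.1]))
  obtain ⟨ε, hε, hb⟩ := Metric.isOpen_iff.1 (hO.preimage hc.cont) 0 hO'
  obtain ⟨η, hη, hη', hηO⟩ : ∃ η : ℝ, 0 < η ∧ η < 1 / 2 ∧ ∀ t, |t| ≤ η → c t ∈ O :=
    ⟨min ε (1 / 2) / 2, by positivity, by linarith [min_le_right ε (1 / 2)], fun t ht => hb (by
      rw [mem_ball_zero_iff, Real.norm_eq_abs]
      linarith [min_le_left ε (1 / 2)])⟩
  obtain ⟨m, hm, hmin⟩ := (isCompact_Icc (a := η) (b := 1 - η)).exists_isMinOn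
    (nonempty_Icc.2 (by linarith)) hf.continuousOn
  have hm0 : 0 < d (c m) :=
    (hn _).lt_of_ne' (hpos m ⟨by linarith [hm.1], by linarith [hm.2]⟩)
  obtain ⟨r, hr, hr', hrm⟩ : ∃ r : ℝ, 0 < r ∧ r < 1 / 2 ∧ ∀ t ∈ Icc η (1 - η), r < d (c t) :=
    ⟨min (d (c m)) (1 / 2) / 2, by positivity, by linarith [min_le_right (d (c m)) (1 / 2)],
      fun t ht => by
        have : d (c m) ≤ d (c t) := hmin ht
        linarith [min_le_left (d (c m)) (1 / 2)]⟩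
  obtain ⟨T, l, hT, hL, hdl, hy⟩ := hl r hr hr'
  have hcl : IsClosed {t | d (c t) = r} := isClosed_eq hf continuous_const
  obtain ⟨t₁, ⟨k1, k2⟩, k3⟩ := ((isCompact_Icc (a := 0) (b := η)).inter_right hcl).exists_isGreatest
    (intermediate_value_Icc hη.le hf.continuousOn
      ⟨h0.le.trans hr.le, (hrm η ⟨le_rfl, by linarith⟩).le⟩)
  obtain ⟨t₂, ⟨k4, k5⟩, k6⟩ := ((isCompact_Icc (a := 1 - η) (b := 1)).inter_right hcl).exists_isLeast
    (intermediate_value_Icc' (by linarith) hf.continuousOn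
      ⟨h1.le.trans hr.le, (hrm _ ⟨by linarith, le_rfl⟩).le⟩)
  have k2' : d (c t₁) = r := k2
  have k5' : d (c t₂) = r := k5
  have t0 : 0 < t₁ := k1.1.lt_of_ne fun e => hr.ne (by rw [← k2', ← e, h0])
  have t1 : t₂ < 1 := k4.2.lt_of_ne fun e => hr.ne (by rw [← k5', e, h1])
  have t12 : t₁ < t₂ := by linarith [k1.2, k4.1]
  have e2 : c t₂ = x • c (t₂ - 1) := by rw [← hc.per, sub_add_cancel]
  obtain ⟨y, e₁⟩ := hy _ (hηO t₁ (abs_le.2 ⟨by linarith, k1.2⟩)) k2'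
  obtain ⟨y₂, e₂⟩ := hy _ (hηO (t₂ - 1) (abs_le.2 ⟨by linarith [k4.1], by linarith⟩))
    (by rw [← hd x, ← e2, k5'])
  have e₃ : l (toIcoMod hT y₂ y) = l y := by
    have h2 := hL.zper (toIcoDiv hT y₂ y) (toIcoMod hT y₂ y)
    rw [← zsmul_eq_mul, toIcoMod_add_toIcoDiv_zsmul, one_zpow, one_smul] at h2
    exact h2.symm
  have hI := toIcoMod_mem_Ico hT y₂ y
  rw [← e₃] at e₁
  rw [e₂] at e2
  refine Push_arcs hc hL hd hr.ne' t12 (by linarith) (hI.1.lt_of_ne fun e => ?_) hI.2 e₁ e2 hdl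
    fun t ht => ⟨fun e => ?_, hpos t ⟨t0.trans ht.1, ht.2.trans t1⟩⟩
  · rw [e, ← e₁] at e2
    exact t12.ne' (Push_eq hc e2 (by linarith) (by linarith))
  · rcases le_total t η with h2 | h2
    · exact ht.1.not_ge (k3 ⟨⟨(t0.trans ht.1).le, h2⟩, e⟩)
    · rcases le_total t (1 - η) with h3 | h3
      · exact (hrm t ⟨h2, h3⟩).ne' e
      · exact ht.2.not_ge (k6 ⟨⟨h3, (ht.2.trans t1).le⟩, e⟩)

end abs

theorem Push_V {z : P.D} {a : J × Bool} (h : (z : ℂ) = P.vtx a) : a ∈ P.V := by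
  by_contra ha
  exact z.2.2 a ha h

theorem Push_NN_nonneg (a : J × Bool) (z : P.D) : 0 ≤ P.NN a z :=
  add_nonneg (sub_nonneg.2 z.2.1) (abs_nonneg _)

theorem Push_NN_vtx (a : J × Bool) : P.NN a (P.vtx a) = 0 := by
  have h := P.ph_polar (ρ := 1) (θ := P.an a) (t := 0) one_pos (by
    rw [abs_zero]
    exact half_pos P.n_pos)
  rw [Complex.ofReal_one, one_mul, add_zero] at h
  rw [Poly.NN, Poly.vtx, h, P.norm_pt, sub_self, abs_zero, add_zero]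

theorem Push_eq_vtx {a : J × Bool} {z : P.D} (h : P.NN a z = 0) : (z : ℂ) = P.vtx a := by
  have h1 : 0 ≤ 1 - ‖(z : ℂ)‖ := sub_nonneg.2 z.2.1
  have h2 := abs_nonneg (P.ph (P.an a) z)
  rw [Poly.NN] at h
  have h3 : ‖(z : ℂ)‖ = 1 := by linarith
  have h4 : P.ph (P.an a) z = 0 := abs_eq_zero.1 (by linarith)
  have h5 := P.polar (P.an a) z
  rwa [h3, h4, add_zero, Complex.ofReal_one, one_mul] at h5

theorem Push_sct {a : J × Bool} {z : P.D} (h : P.NN a z < 1 / 2) : (z : ℂ) ∈ P.Sct (P.an a) := by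
  have h1 : 0 ≤ 1 - ‖(z : ℂ)‖ := sub_nonneg.2 z.2.1
  have h2 := abs_nonneg (P.ph (P.an a) z)
  rw [Poly.NN] at h
  exact ⟨norm_pos_iff.1 (by linarith), by linarith⟩

/-- The corners form one orbit. -/
theorem Push_orbit (hk : P.Lab τ k) (h1 : P.One) {a a' : J × Bool} {z z' : P.D}
    (hz : (z : ℂ) = P.vtx a) (hz' : (z' : ℂ) = P.vtx a') :
    P.tp τ (k a')⁻¹ z' = P.tp τ (k a)⁻¹ z := by
  obtain ⟨w, hw, e⟩ := h1
    {b | ∃ w : P.D, (w : ℂ) = P.vtx b ∧ P.tp τ (k b)⁻¹ w = P.tp τ (k a)⁻¹ z} (by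
      rintro j e ⟨w, hw, e'⟩
      have hu : (if e then 1 else 0 : ℝ) ∈ Icc (0 : ℝ) 1 := by cases e <;> simp
      have hw' : (w : ℂ) = P.pt (P.th j (if e then 1 else 0)) := hw
      refine ⟨⟨_, P.pt_mem_Ds_σ hu (hw' ▸ w.2)⟩, rfl, ?_⟩
      rw [← e', tp_glue (j := j) (z := w) (z' := ⟨_, P.pt_mem_Ds_σ hu (hw' ▸ w.2)⟩)
        ⟨_, hu, hw', rfl⟩, hk.k_σ j e (Push_V hw), mul_inv_rev,
        inv_mul_cancel_right]) (by
      rintro b b' e ⟨w, hw, e'⟩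
      exact ⟨w, hw.trans e, by rw [← hk.k_vtx b b' e (Push_V hw), e']⟩)
    a (Push_V hz) a' (Push_V hz') ⟨z, hz, rfl⟩
  rw [← e, Subtype.ext (hz'.trans hw.symm)]

theorem push (hk : P.Lab τ k) (h1 : P.One) {x : G} (hx : x ∈ SE G (P.E τ)) :
    ∃ c : ℝ → P.E τ, LineT 1 x c ∧ ∀ t, NC (c t) := by
  obtain ⟨c₀, hc₀⟩ := hx
  by_cases hn : ∀ t, NC (c₀ t)
  · exact ⟨c₀, hc₀, hn⟩
  simp only [NC, not_forall, not_not] at hn
  obtain ⟨t₀, g₀, z₀, e₀, a₀, hz₀⟩ := hn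
  obtain ⟨d, hdc, hd, hd1, hd2⟩ := exists_dist (τ := τ) P.V P.V_σ P.V_vtx
  obtain ⟨O, f, hO, hf, hO'⟩ := exists_star hk
  have hn : ∀ e, 0 ≤ d e := fun e => by
    obtain ⟨g, z, rfl⟩ := P.exists_tp τ e
    rcases lt_or_ge (d (P.tp τ g z)) (1 / 2) with h | h
    · obtain ⟨a, -, h'⟩ := hd2 g z h
      rw [h']
      exact Push_NN_nonneg a z
    · linarith
  have hv : ∀ g (z : P.D) a, (z : ℂ) = P.vtx a → d (P.tp τ g z) = 0 := fun g z a h =>
    le_antisymm ((hd1 g z a (Push_V h)).trans_eq (by rw [h, Push_NN_vtx])) (hn _)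
  have e0 : c₀ (0 + t₀) = P.tp τ g₀ z₀ := by rw [zero_add, e₀]
  have s0 : (z₀ : ℂ) ∈ P.Sct (P.an a₀) := hz₀ ▸ P.vtx_mem a₀
  obtain ⟨c, hc, h2⟩ := Push_abs (hc₀.shift t₀) hdc hd hn (by rw [e0, hv g₀ z₀ a₀ hz₀])
    (fun e he => by
      obtain ⟨g, z, rfl⟩ := P.exists_tp τ e
      obtain ⟨a, -, h'⟩ := hd2 g z (by rw [he]; norm_num)
      have h3 := Push_orbit hk h1 hz₀ (Push_eq_vtx (h'.symm.trans he))
      refine ⟨g * k a * (g₀ * k a₀)⁻¹, ?_⟩
      rw [e0, smul_tp, mul_inv_rev, mul_assoc, inv_mul_cancel_right, ← smul_tp, ← h3, smul_tp,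
        mul_inv_cancel_right])
    (hO' (g₀ * k a₀)) (by
      rw [e0]
      exact ⟨(hO _ _).2 ⟨a₀, Push_V hz₀, s0⟩, hf _ _ a₀ (Push_V hz₀) s0⟩) fun r hr hr' => by
      obtain ⟨N, l, hN, hl, h3, h4⟩ := exists_link hk h1 (Push_V hz₀) hr hr'
      refine ⟨N, fun t => (g₀ * k a₀) • l t, Nat.cast_pos.2 hN, Push_smul hl _, fun t => ?_,
        fun e he he' => ?_⟩
      · obtain ⟨a, ha, z, h5, h6⟩ := h3 t
        obtain ⟨a', -, h7⟩ := hd2 (k a)⁻¹ z ((hd1 _ z a ha).trans_lt (h5.trans_lt hr'))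
        have h8 := P.corner_unique (Push_sct (h5.trans_lt hr'))
          (Push_sct (h7.symm.trans_lt ((hd1 _ z a ha).trans_lt (h5.trans_lt hr'))))
        rw [hd, h6, h7, ← h5, Poly.NN, Poly.NN, P.ph_congr h8]
      · obtain ⟨g, z, rfl⟩ := P.exists_tp τ e
        obtain ⟨a, ha, h5⟩ := hd2 g z (he'.trans_lt hr')
        obtain ⟨t, ht⟩ := h4 a ha z (h5.symm.trans he')
        have h6 := hf g z a ha (Push_sct (h5.symm.trans_lt (he'.trans_lt hr')))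
        refine ⟨t, ?_⟩
        simp only [ht]
        rw [← he.2, h6, smul_tp, mul_inv_cancel_right]
  exact ⟨c, hc, fun t g z e a ha => h2 t (by rw [e, hv g z a ha])⟩

end Pool.Agent.P.MP_038aca_al.Top.PolyV
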