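import Pool.Agent.P.MP_038aca_al.Top.TD

/-! Points on the sides from a diagram. -/

namespace Pool.Agent.P.MP_038aca_al.Top

open Set

variable {J : Type} {G : Type} [Group G] {P : Poly J} {τ : J → G} {x : G}

theorem TD2_len {p : Pr J} {W : List (J × Bool)} {m : J} {Λ : J → List G}
    (h : DgD p W τ m x Λ []) (j : J) : (Λ (p.σ j)).length = (Λ j).length := by
  obtain ⟨a, a', h1, h2, -⟩ := h.brk
  by_cases e1 : j = m
  · rw [e1, h1, h2]
    rfl
  by_cases e2 : j = p.σ m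
  · rw [e2, p.σσ, h1, h2]
    rfl
  have h3 : Λ j = (Λ (p.σ j)).map (τ j * ·) := h.eqv j e1 e2
  rw [h3, List.length_map]

theorem Dg.td {m : J} (h : Dg P.toPr P.W τ m x) :
    ∃ (T : Type) (_ : Finite T) (sd : T → J) (uu : T → ℝ) (μ ν : Equiv.Perm T) (lab : T → G)
      (t₀ : T), TD P τ x sd uu μ ν lab t₀ ∧ ∀ t, uu (ν t) = uu t := by
  obtain ⟨Λ, h⟩ := h
  have hl := TD2_len h
  obtain ⟨a, a', h1, h2, h3⟩ := h.brk
  have l1 : (Λ m).length = 1 := by rw [h1]; rfl
  have l2 : (Λ (P.σ m)).length = 1 := by rw [h2]; rfl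
  have := P.finite
  let T : Type := {p : J × ℕ // p.2 < (Λ p.1).length}
  let L : J → List T := fun j => List.ofFn fun r : Fin (Λ j).length => ⟨(j, r), r.2⟩
  have fin : Finite T := Finite.of_surjective
    (fun s : Σ j, Fin (Λ j).length => (⟨(s.1, s.2), s.2.2⟩ : T)) fun t => ⟨⟨t.1.1, t.1.2, t.2⟩, rfl⟩
  let uu : T → ℝ := fun t => ((t.1.2 : ℝ) + 1) / ((Λ t.1.1).length + 1)
  let lab : T → G := fun t => (Λ t.1.1)[t.1.2]'t.2
  let ν : T → T := fun t => ⟨(P.σ t.1.1, t.1.2), by rw [hl]; exact t.2⟩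
  have hν : Function.Involutive ν := fun t => Subtype.ext (Prod.ext (P.σσ _) rfl)
  have hu : ∀ t, uu t ∈ Ioo (0 : ℝ) 1 := fun t => by
    have : (t.1.2 : ℝ) < (Λ t.1.1).length := by exact_mod_cast t.2
    exact ⟨by positivity, (div_lt_one (by positivity)).2 (by linarith)⟩
  have huν : ∀ t, uu (ν t) = uu t := fun t => by
    show ((t.1.2 : ℝ) + 1) / ((Λ (P.σ t.1.1)).length + 1) = _
    rw [hl]
  have hB := pairwise_boundary P (sd := fun t : T => t.1.1) hu (L := L)
    (fun j t ht => by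
      obtain ⟨r, rfl⟩ := List.mem_ofFn.1 ht
      rfl)
    (fun j => List.pairwise_ofFn.2 fun r r' hr => by
      have : ((r : ℕ) : ℝ) < (r' : ℕ) := by exact_mod_cast hr
      exact div_lt_div_of_pos_right (by linarith) (by positivity))
  have hL : ∀ j, (L j).map lab = Λ j := fun j => by
    rw [List.map_ofFn]
    exact List.ofFn_getElem
  have hm : ∀ t : T, t ∈ P.W.flatMap fun s => if s.2 then L s.1 else (L s.1).reverse := fun t => by
    have : t ∈ L t.1.1 := List.mem_ofFn.2 ⟨⟨t.1.2, t.2⟩, rfl⟩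
    refine List.mem_flatMap.2 ⟨_, P.mem_W t.1.1, ?_⟩
    split_ifs
    · exact this
    · exact List.mem_reverse.2 this
  have hb : Bal ((P.W.flatMap fun s => if s.2 then L s.1 else (L s.1).reverse).map lab) := by
    have e : (P.W.flatMap fun s => if s.2 then L s.1 else (L s.1).reverse).map lab =
        ((lsSys G).wd Λ P.W).flatten := by
      rw [List.map_flatMap, Sys.wd, ← List.flatMap_def]
      refine List.flatMap_congr fun s _ => ?_
      rw [Sys.ev]
      split_ifs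
      · exact hL _
      · rw [List.map_reverse, hL]
        rfl
    rw [e]
    exact h.ok
  obtain ⟨μ, hμ, hμ'⟩ := ncm_of_bal hB hb
  have iμ : Function.Involutive μ := fun t => hμ.inv t (hm t)
  refine ⟨T, fin, fun t => t.1.1, uu, iμ.toPerm μ, hν.toPerm ν, lab, ⟨(m, 0), by rw [l1]; simp⟩,
    ⟨iμ, fun t => hμ.ne t (hm t), hν, fun t => rfl, hu, ?_, fun s t => hμ.nc s (hm s) t (hm t),
      fun s t _ hst => ?_, fun t => hμ' t (hm t), ?_, ?_⟩, huν⟩
  · rintro ⟨⟨j, r⟩, hr⟩ ⟨⟨j', r'⟩, hr'⟩ e1 e2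
    obtain rfl : j = j' := e1
    have e3 : ((r : ℝ) + 1) / ((Λ j).length + 1) = ((r' : ℝ) + 1) / ((Λ j).length + 1) := e2
    rw [div_left_inj' (by positivity), add_left_inj, Nat.cast_inj] at e3
    subst e3
    rfl
  · exact (huν s).trans_lt (hst.trans_eq (huν t).symm)
  · rintro ⟨⟨j, r⟩, hr⟩ e1 e2
    have e3 : j ≠ m := fun e => e1 (by
      subst e
      obtain rfl : r = 0 := Nat.lt_one_iff.1 (l1 ▸ hr)
      rfl)
    have e4 : j ≠ P.σ m := fun e => e2 (by
      subst e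
      obtain rfl : r = 0 := Nat.lt_one_iff.1 (l2 ▸ hr)
      rfl)
    have e5 : Λ j = (Λ (P.σ j)).map (τ j * ·) := h.eqv j e3 e4
    show (Λ j)[r] = τ j * (Λ (P.σ j))[r]'(by rw [hl]; exact hr)
    rw [List.getElem_of_eq e5, List.getElem_map]
  · show (Λ m)[0]'(by rw [l1]; simp) * x = τ m * (Λ (P.σ m))[0]'(by rw [l2]; simp)
    rw [List.getElem_of_eq h1, List.getElem_of_eq h2]
    exact h3

end Pool.Agent.P.MP_038aca_al.Top
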