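import Pool.Agent.P.MP_038aca_al.Top.Til
import Pool.Agent.P.MP_038aca_al.Top.TD2

/-! Chord diagrams are realised by lines. -/

namespace Pool.Agent.P.MP_038aca_al.Top

open Set Topology

theorem Real_between {A A' φ : ℝ} (hA : A < A') (h0 : 0 ≤ (φ - A) * (A' - φ)) :
    A ≤ φ ∧ φ ≤ A' := by
  constructor
  · by_contra h
    push Not at h
    nlinarith
  · by_contra h
    push Not at h
    nlinarith

theorem Real_four {A A' B B' φ : ℝ} (hA : A < A') (hB : B < B') (hAB : A < B) (h1 : A' ≠ B)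
    (h2 : A' ≠ B') (nc : ¬ (A < B ∧ B < A' ∧ A' < B')) (h0 : 0 ≤ (φ - A) * (A' - φ))
    (he : (φ - A) * (A' - φ) = (φ - B) * (B' - φ)) : False := by
  obtain ⟨a1, a2⟩ := Real_between hA h0
  obtain ⟨b1, b2⟩ := Real_between hB (he ▸ h0)
  have c1 : B < A' := lt_of_le_of_ne (b1.trans a2) h1.symm
  have c2 : B' < A' := lt_of_le_of_ne (not_lt.1 fun h => nc ⟨hAB, c1, h⟩) h2.symm
  have : (φ - B) * (B' - φ) < (φ - A) * (A' - φ) :=
    mul_lt_mul'' (by linarith) (by linarith) (by linarith) (by linarith)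
  linarith

/-- Two different chords of a non-crossing matching have no common point. -/
theorem Real_chord {T : Type} {θ : T → ℝ} {μ : T → T} (hθ : Function.Injective θ)
    (hμ : ∀ t, μ (μ t) = t) (hne : ∀ t, μ t ≠ t)
    (nc : ∀ s t, ¬ (θ s < θ t ∧ θ t < θ (μ s) ∧ θ (μ s) < θ (μ t))) {φ : ℝ} (a b : T)
    (hab : a ≠ b) (hab' : μ a ≠ b) (h0 : 0 ≤ (φ - θ a) * (θ (μ a) - φ))
    (he : (φ - θ a) * (θ (μ a) - φ) = (φ - θ b) * (θ (μ b) - φ)) : False := by
  have inj : Function.Injective μ := Function.LeftInverse.injective hμ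
  have sw : ∀ c, (φ - θ (μ c)) * (θ (μ (μ c)) - φ) = (φ - θ c) * (θ (μ c) - φ) := fun c => by
    rw [hμ]; ring
  have k1 : ∀ a b, θ a < θ (μ a) → θ b < θ (μ b) → a ≠ b → μ a ≠ b →
      0 ≤ (φ - θ a) * (θ (μ a) - φ) →
      (φ - θ a) * (θ (μ a) - φ) = (φ - θ b) * (θ (μ b) - φ) → False := by
    intro a b ha hb hab hab' h0 he
    rcases lt_or_gt_of_ne (hθ.ne hab) with h | h
    · exact Real_four ha hb h (hθ.ne hab') (hθ.ne (inj.ne hab)) (nc a b) h0 he
    · refine Real_four hb ha h (hθ.ne fun e => hab' ?_) (hθ.ne (inj.ne hab.symm)) (nc b a)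
        (he ▸ h0) he.symm
      rw [← e, hμ]
  have k2 : ∀ a b, θ a < θ (μ a) → a ≠ b → μ a ≠ b →
      0 ≤ (φ - θ a) * (θ (μ a) - φ) →
      (φ - θ a) * (θ (μ a) - φ) = (φ - θ b) * (θ (μ b) - φ) → False := by
    intro a b ha hab hab' h0 he
    rcases lt_or_gt_of_ne (hθ.ne (hne b)) with h | h
    · refine k1 a (μ b) ha (by rwa [hμ]) (fun e => hab' ?_) (inj.ne hab) h0 (he.trans (sw b).symm)
      rw [e, hμ]
    · exact k1 a b ha h hab hab' h0 he
  rcases lt_or_gt_of_ne (hθ.ne (hne a)) with h | h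
  · exact k2 (μ a) b (by rwa [hμ]) hab' (by rwa [hμ]) (by rwa [sw]) ((sw a).trans he)
  · exact k2 a b h hab hab' h0 he

/-- The radius along the arc from `A` to `B`. -/
noncomputable def Real_rad (n A B s : ℝ) : ℝ := 1 - s * (1 - s) * (B - A) ^ 2 / n ^ 2

theorem Real_rad_pos {n A B s : ℝ} (hA : A ∈ Ioo 0 n) (hB : B ∈ Ioo 0 n) :
    0 < Real_rad n A B s := by
  have hn : 0 < n := hA.1.trans hA.2
  have h1 : (B - A) ^ 2 < n ^ 2 := by
    apply sq_lt_sq'
    · linarith [hA.2, hB.1]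
    · linarith [hA.1, hB.2]
  have h2 : s * (1 - s) ≤ 1 := by nlinarith [sq_nonneg (s - 1 / 2)]
  have h3 : s * (1 - s) * (B - A) ^ 2 < n ^ 2 :=
    lt_of_le_of_lt (by nlinarith [sq_nonneg (B - A)]) h1
  unfold Real_rad
  have := (div_lt_one (pow_pos hn 2)).2 h3
  linarith

theorem Real_rad_lt {n A B s : ℝ} (hn : 0 < n) (hAB : B ≠ A) (hs : s ∈ Ioo (0 : ℝ) 1) :
    Real_rad n A B s < 1 := by
  have h1 : 0 < (B - A) ^ 2 := by
    have := sub_ne_zero.2 hAB
    positivity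
  have h2 : 0 < s * (1 - s) := mul_pos hs.1 (by linarith [hs.2])
  unfold Real_rad
  have := div_pos (mul_pos h2 h1) (pow_pos hn 2)
  linarith

theorem Real_ang_mem {n A B s : ℝ} (hA : A ∈ Ioo 0 n) (hB : B ∈ Ioo 0 n) (hs : s ∈ Icc (0 : ℝ) 1) :
    (1 - s) * A + s * B ∈ Ico 0 n := by
  have := (convex_Ioo (𝕜 := ℝ) (0 : ℝ) n) hA hB (sub_nonneg.2 hs.2) hs.1 (by ring)
  exact Ioo_subset_Ico_self this

variable {J : Type} {G : Type} [Group G] {P : PolyV J} {τ : J → G} {x : G}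

/-- The arc from the angle `A` to the angle `B`. -/
noncomputable def Real_arc (P : Poly J) (A B s : ℝ) : ℂ :=
  (Real_rad P.n A B s : ℂ) * P.pt ((1 - s) * A + s * B)

theorem Real_arc_zero (P : Poly J) (A B : ℝ) : Real_arc P A B 0 = P.pt A := by
  simp [Real_arc, Real_rad]

theorem Real_arc_one (P : Poly J) (A B : ℝ) : Real_arc P A B 1 = P.pt B := by
  simp [Real_arc, Real_rad]

theorem Real_arc_cont (P : Poly J) (A B : ℝ) : Continuous (Real_arc P A B) := by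
  unfold Real_arc Real_rad
  exact (Complex.continuous_ofReal.comp (by fun_prop)).mul (P.continuous_pt.comp (by fun_prop))

theorem Real_arc_lt (P : Poly J) {A B s : ℝ} (hA : A ∈ Ioo (0 : ℝ) P.n) (hB : B ∈ Ioo (0 : ℝ) P.n)
    (hAB : B ≠ A) (hs : s ∈ Ioo (0 : ℝ) 1) : ‖Real_arc P A B s‖ < 1 := by
  unfold Real_arc
  rw [P.norm_polar (Real_rad_pos hA hB).le]
  exact Real_rad_lt P.n_pos hAB hs

theorem Real_arc_eq (P : Poly J) {A B s A' B' s' : ℝ} (hA : A ∈ Ioo (0 : ℝ) P.n)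
    (hB : B ∈ Ioo (0 : ℝ) P.n) (hs : s ∈ Icc (0 : ℝ) 1) (hA' : A' ∈ Ioo (0 : ℝ) P.n)
    (hB' : B' ∈ Ioo (0 : ℝ) P.n) (hs' : s' ∈ Icc (0 : ℝ) 1)
    (h : Real_arc P A B s = Real_arc P A' B' s') :
    ∃ φ, φ = (1 - s) * A + s * B ∧ φ = (1 - s') * A' + s' * B' ∧ 0 ≤ (φ - A) * (B - φ) ∧
      (φ - A) * (B - φ) = (φ - A') * (B' - φ) := by
  obtain ⟨h1, h2⟩ := P.polar_inj (Real_rad_pos hA hB) (Real_rad_pos hA' hB') h
  have h3 := P.pt_injOn (Real_ang_mem hA hB hs) (Real_ang_mem hA' hB' hs') h2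
  have hn : (P.n : ℝ) ^ 2 ≠ 0 := (pow_pos P.n_pos 2).ne'
  have h4 : s * (1 - s) * (B - A) ^ 2 = s' * (1 - s') * (B' - A') ^ 2 := by
    unfold Real_rad at h1
    exact (div_left_inj' hn).1 (by linarith)
  have e1 : ((1 - s) * A + s * B - A) * (B - ((1 - s) * A + s * B)) =
      s * (1 - s) * (B - A) ^ 2 := by ring
  have e2 : ((1 - s') * A' + s' * B' - A') * (B' - ((1 - s') * A' + s' * B')) =
      s' * (1 - s') * (B' - A') ^ 2 := by ring
  refine ⟨_, rfl, h3, ?_, ?_⟩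
  · rw [e1]
    exact mul_nonneg (mul_nonneg hs.1 (sub_nonneg.2 hs.2)) (sq_nonneg _)
  · rw [e1, h4, ← e2, ← h3]

theorem TD.real (hτ : IsLab P.toPr τ) {T : Type} [Finite T] {sd : T → J} {uu : T → ℝ}
    {μ ν : Equiv.Perm T} {lab : T → G} {t₀ : T} (h : TD P.toPoly τ x sd uu μ ν lab t₀)
    (hu : ∀ t, uu (ν t) = uu t) : x ∈ SE G (P.E τ) := by
  set θ : T → ℝ := fun t => P.th (sd t) (uu t) with hθ
  have θmem : ∀ t, θ t ∈ Ioo (0 : ℝ) P.n := fun t => P.th_mem_n (h.mem t)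
  have ptinj : ∀ s t, P.pt (θ s) = P.pt (θ t) → s = t := fun s t e => by
    obtain ⟨e1, e2⟩ := P.th_inj (h.mem s) (Ioo_subset_Icc_self (h.mem t)) e
    exact h.inj s t e1 e2
  have θinj : Function.Injective θ := fun s t e => ptinj s t (congrArg P.pt e)
  have ν_ne : ∀ t, ν t ≠ t := fun t e => P.ne (sd t) (by rw [← h.sd_ν, e])
  have θne : ∀ t, θ (μ t) ≠ θ t := fun t => θinj.ne (h.μ_ne t)
  have memD : ∀ t, ∀ s ∈ Icc (0 : ℝ) 1, Real_arc P.toPoly (θ t) (θ (μ t)) s ∈ P.Ds := by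
    intro t s hs
    rcases hs.1.eq_or_lt with rfl | h0
    · rw [Real_arc_zero]
      exact P.pt_mem_Ds (h.mem t)
    rcases hs.2.eq_or_lt with rfl | h1
    · rw [Real_arc_one]
      exact P.pt_mem_Ds (h.mem (μ t))
    · exact P.mem_Ds_of_lt (Real_arc_lt _ (θmem t) (θmem _) (θne t) ⟨h0, h1⟩)
  obtain ⟨Z, Zc, Zv⟩ : ∃ Z : T → ℝ → P.D, (∀ t, Continuous (Z t)) ∧
      ∀ t, ∀ s ∈ Icc (0 : ℝ) 1, (Z t s : ℂ) = Real_arc P.toPoly (θ t) (θ (μ t)) s := by
    refine ⟨fun t s => ⟨_, memD t _ (projIcc (0 : ℝ) 1 zero_le_one s).2⟩, fun t => ?_,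
      fun t s hs => ?_⟩
    · exact ((Real_arc_cont _ _ _).comp (continuous_subtype_val.comp continuous_projIcc)).subtype_mk _
    · simp only [projIcc_of_mem _ hs]
  have Z0 : ∀ t, (Z t 0 : ℂ) = P.pt (θ t) := fun t => by
    rw [Zv t 0 (left_mem_Icc.2 zero_le_one), Real_arc_zero]
  have Z1 : ∀ t, (Z t 1 : ℂ) = P.pt (θ (μ t)) := fun t => by
    rw [Zv t 1 (right_mem_Icc.2 zero_le_one), Real_arc_one]
  have θν : ∀ t, θ (ν t) = P.th (P.σ (sd t)) (uu t) := fun t => by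
    simp only [hθ, h.sd_ν, hu]
  have glue : ∀ t g, P.tp τ g (Z t 1) = P.tp τ (g * τ (sd (μ t))) (Z (ν (μ t)) 0) := fun t g =>
    PolyV.tp_glue ⟨uu (μ t), Ioo_subset_Icc_self (h.mem _), Z1 t, by rw [Z0, θν]⟩ g
  have Zinj : ∀ a b, μ a ≠ b → ∀ s ∈ Icc (0 : ℝ) 1, ∀ t ∈ Icc (0 : ℝ) 1, Z a s = Z b t →
      a = b ∧ s = t := by
    intro a b hab s hs t ht e
    have e' : Real_arc P.toPoly (θ a) (θ (μ a)) s = Real_arc P.toPoly (θ b) (θ (μ b)) t := by
      rw [← Zv a s hs, ← Zv b t ht, e]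
    obtain ⟨φ, f1, f2, f3, f4⟩ :=
      Real_arc_eq _ (θmem a) (θmem _) hs (θmem b) (θmem _) ht e'
    have hab' : a = b := by
      by_contra hne
      exact Real_chord θinj h.μμ h.μ_ne h.nc a b hne hab f3 f4
    subst hab'
    refine ⟨rfl, ?_⟩
    have : (s - t) * (θ (μ a) - θ a) = 0 := by linarith
    exact sub_eq_zero.1 ((mul_eq_zero.1 this).resolve_right (sub_ne_zero.2 (θne a)))
  set R : Equiv.Perm T := ν * μ with hR
  set y : ℕ → T := fun i => R^[i] (ν t₀) with hy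
  have yz : ∀ i, y i = (R ^ (i : ℤ)) (ν t₀) := fun i => by
    simp only [hy, zpow_natCast, Equiv.Perm.iterate_eq_pow]
  have ys : ∀ i, y (i + 1) = ν (μ (y i)) := fun i => by
    simp only [hy, Function.iterate_succ_apply']
    rfl
  have dih : ∀ i k, μ (y i) ≠ y k := fun i k => by
    rw [yz, yz]
    exact dihedral h.μμ h.νν h.μ_ne ν_ne _ _ _
  have dih' : ∀ i k, ν (y i) ≠ y k := fun i k => by
    have e : ν (y i) = μ ((R ^ ((i : ℤ) - 1)) (ν t₀)) := by
      rw [yz]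
      conv_lhs => rw [show (i : ℤ) = 1 + ((i : ℤ) - 1) by ring, zpow_add, zpow_one]
      rw [Equiv.Perm.mul_apply, hR, Equiv.Perm.mul_apply, h.νν]
    rw [e, yz]
    exact dihedral h.μμ h.νν h.μ_ne ν_ne _ _ _
  have hper : ν t₀ ∈ Function.periodicPts R := R.injective.mem_periodicPts _
  set N := Function.minimalPeriod R (ν t₀) with hN
  have Npos : 0 < N := Function.minimalPeriod_pos_of_mem_periodicPts hper
  have yN : y N = y 0 := Function.iterate_minimalPeriod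
  have yinj : ∀ i < N, ∀ k < N, y i = y k → i = k := fun i hi k hk e =>
    Function.iterate_injOn_Iio_minimalPeriod hi hk e
  have y0 : y 0 = ν t₀ := rfl
  obtain ⟨c, hc, -⟩ := mem_SE_of_arcs (x := x) (N := N)
    (α := fun i s => P.tp τ (lab (y i))⁻¹ (Z (y i) s)) Npos
    (fun i _ => ((P.continuous_tp τ _).comp (Zc _)).continuousOn)
    (fun i hi => by
      have n1 : μ (y i) ≠ t₀ := fun e => by
        have := yinj (i + 1) hi 0 Npos (by rw [ys, e, y0])
        omega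
      have n2 : μ (y i) ≠ ν t₀ := dih i 0
      have e := h.lab_ν _ n1 n2
      rw [h.lab_μ] at e
      rw [glue, ys]
      congr 1
      rw [e]
      group)
    (by
      have e : μ (y (N - 1)) = t₀ := by
        apply ν.injective
        rw [← ys, Nat.sub_add_cancel Npos, yN, y0]
      rw [glue, ← h.lab_μ, e, PolyV.smul_tp, y0]
      congr 1
      rw [inv_mul_eq_iff_eq_mul, ← mul_assoc, h.brk]
      group)
    (by
      intro i hi k hk s hs t ht g e
      rw [PolyV.smul_tp] at e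
      have fin : Z (y i) s = Z (y k) t → i = k ∧ s = t := fun e' => by
        obtain ⟨e1, e2⟩ := Zinj _ _ (dih i k) s (Ico_subset_Icc_self hs) t
          (Ico_subset_Icc_self ht) e'
        exact ⟨yinj i hi k hk e1, e2⟩
      rcases hs.1.eq_or_lt with rfl | h0
      · have sm := P.side_mem (j := sd (y i)) one_pos (h.mem (y i))
        rw [Complex.ofReal_one, one_mul] at sm
        have hz : (Z (y i) 0 : ℂ) ∈ P.Sct (P.mid (sd (y i))) := by
          rw [Z0]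
          exact sm.1
        rcases PolyV.tp_eq_side hτ hz e with ⟨-, e'⟩ | ⟨-, -, e'⟩
        · exact fin e'.symm
        · exfalso
          have e2 : (Z (y k) t : ℂ) = P.pt (θ (ν (y i))) := by
            rw [e', Z0, θν]
            exact congrArg (fun u => P.pt (P.th (P.σ (sd (y i))) u)) sm.2
          rcases ht.1.eq_or_lt with rfl | t0
          · rw [Z0] at e2
            exact dih' i k (ptinj _ _ e2).symm
          · have := Real_arc_lt P.toPoly (θmem (y k)) (θmem _) (θne _) ⟨t0, ht.2⟩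
            rw [← Zv _ _ (Ico_subset_Icc_self ht), e2, P.norm_pt] at this
            exact lt_irrefl _ this
      · have hz : ‖(Z (y i) s : ℂ)‖ < 1 := by
          rw [Zv _ _ (Ico_subset_Icc_self hs)]
          exact Real_arc_lt _ (θmem _) (θmem _) (θne _) ⟨h0, hs.2⟩
        exact fin (PolyV.tp_eq_inner hz e).2)
  exact hc.mem (Nat.cast_pos.2 Npos)

theorem Dg.real (hτ : IsLab P.toPr τ) {m : J} (h : Dg P.toPr P.W τ m x) : x ∈ SE G (P.E τ) := by
  obtain ⟨T, _, sd, uu, μ, ν, lab, t₀, h1, h2⟩ := h.td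
  exact h1.real hτ h2

end Pool.Agent.P.MP_038aca_al.Top
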