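import Pool.Agent.P.MP_038aca_al.Top.Cover
import Pool.Agent.P.MP_038aca_al.Top.Loc
import Pool.Agent.P.MP_038aca_al.Top.Line2
import Pool.Agent.Lib.Unif.UC3

/-! The tiled space of a universal labelling is simply connected. -/

namespace Pool.Agent.P.MP_038aca_al.Top.PolyV

open Set Topology

variable {J : Type} {P : PolyV J} {G : Type} [Group G] {τ : J → G} {k : J × Bool → G}

/-- The group of deck transformations. -/
def SC_deck {E X : Type} [TopologicalSpace E] (π : E → X) : Subgroup (E ≃ₜ E) where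
  carrier := {t | ∀ x, π (t x) = π x}
  mul_mem' := fun {a b} ha hb x => (ha (b x)).trans (hb x)
  one_mem' := fun _ => rfl
  inv_mem' := fun {a} ha x => by
    have h := ha (a.symm x)
    rw [a.apply_symm_apply] at h
    exact h.symm

theorem SC_unique {E X : Type} [TopologicalSpace E] {π : E → X}
    (hg : Pool.Agent.Lib.Unif.Galois π) {a b : SC_deck π} {x : E} (h : a.1 x = b.1 x) : a = b := by
  have h1 : (b⁻¹ * a).1 x = x := by
    change b.1.symm (a.1 x) = x
    rw [h, Homeomorph.symm_apply_apply]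
  have h2 : b⁻¹ * a = 1 := Subtype.ext (Homeomorph.ext (hg.free _ (b⁻¹ * a).2 x h1))
  exact (inv_mul_eq_one.1 h2).symm

theorem SC_exists {E X : Type} [TopologicalSpace E] {π : E → X}
    (hg : Pool.Agent.Lib.Unif.Galois π) {x y : E} (h : π x = π y) :
    ∃ a : SC_deck π, a.1 x = y := by
  obtain ⟨t, h1, h2⟩ := hg.trans x y h
  exact ⟨⟨t, h1⟩, h2⟩

theorem SC_q_glue {X : Type} [TopologicalSpace X] {q : P.D → X} (hq : P.Geo q) {j : J}
    {z z' : P.D} (h : P.Gj j z z') : q z = q z' :=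
  (hq.ker z z').2 (Relation.EqvGen.rel _ _ ⟨j, h⟩)

/-- One deck transformation matches the two lifts along a whole side. -/
theorem SC_side {X E : Type} [TopologicalSpace X] [TopologicalSpace E] {q : P.D → X}
    (hq : P.Geo q) {π : E → X} (hc : IsCoveringMap π) (hg : Pool.Agent.Lib.Unif.Galois π)
    {s : P.D → E} (hs : Continuous s) (hl : ∀ z, π (s z) = q z) (j : J) :
    ∃ a : SC_deck π, ∀ z z', P.Gj j z z' → s z = a.1 (s z') := by
  let A : Set ℝ := {u | u ∈ Icc (0 : ℝ) 1 ∧ P.pt (P.th j u) ∈ P.Ds}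
  have hA : IsPreconnected A := by
    refine (isPreconnected_Ioo (a := (0 : ℝ)) (b := 1)).subset_closure
      (fun u hu => ⟨Ioo_subset_Icc_self hu, P.pt_mem_Ds hu⟩) ?_
    rw [closure_Ioo zero_ne_one]
    exact fun u hu => hu.1
  have : PreconnectedSpace A := isPreconnected_iff_preconnectedSpace.1 hA
  let f : A → P.D := fun u => ⟨P.pt (P.th j u), u.2.2⟩
  let f' : A → P.D := fun u => ⟨P.pt (P.th (P.σ j) u), P.pt_mem_Ds_σ u.2.1 u.2.2⟩
  have hf : Continuous f :=
    ((P.continuous_pt.comp (P.continuous_th j)).comp continuous_subtype_val).subtype_mk _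
  have hf' : Continuous f' :=
    ((P.continuous_pt.comp (P.continuous_th (P.σ j))).comp continuous_subtype_val).subtype_mk _
  have hG : ∀ u : A, P.Gj j (f u) (f' u) := fun u => ⟨u, u.2.1, rfl, rfl⟩
  have h12 : (1 / 2 : ℝ) ∈ Ioo (0 : ℝ) 1 := ⟨by norm_num, by norm_num⟩
  let u₀ : A := ⟨1 / 2, Ioo_subset_Icc_self h12, P.pt_mem_Ds h12⟩
  obtain ⟨a, ha⟩ := SC_exists hg (x := s (f' u₀)) (y := s (f u₀))
    (by rw [hl, hl]; exact (SC_q_glue hq (hG u₀)).symm)
  have he : (fun u => s (f u)) = fun u => a.1 (s (f' u)) := by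
    refine hc.eq_of_comp_eq (hs.comp hf) (a.1.continuous.comp (hs.comp hf')) ?_ u₀ ha.symm
    funext u
    change π (s (f u)) = π (a.1 (s (f' u)))
    rw [a.2, hl, hl]
    exact SC_q_glue hq (hG u)
  refine ⟨a, ?_⟩
  rintro z z' ⟨u, hu, h1, h2⟩
  have hz : P.pt (P.th j u) ∈ P.Ds := h1 ▸ z.2
  have e1 : z = f ⟨u, hu, hz⟩ := Subtype.ext h1
  have e2 : z' = f' ⟨u, hu, hz⟩ := Subtype.ext h2
  rw [e1, e2]
  exact congrFun he _

/-- The labelling by deck transformations of a regular covering. -/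
theorem SC_lab {X E : Type} [TopologicalSpace X] [TopologicalSpace E] {q : P.D → X}
    (hq : P.Geo q) {π : E → X} (hc : IsCoveringMap π) (hsu : Function.Surjective π)
    (hg : Pool.Agent.Lib.Unif.Galois π)
    {s : P.D → E} (hs : Continuous s) (hl : ∀ z, π (s z) = q z) :
    ∃ (τ' : J → SC_deck π) (k' : J × Bool → SC_deck π), P.Lab τ' k' ∧
      ∀ j z z', P.Gj j z z' → s z = (τ' j).1 (s z') := by
  classical
  choose τ' hτ' using SC_side hq hc hg hs hl
  choose sec hsec using hsu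
  have hK : ∀ z : P.D, ∃ a : SC_deck π, a.1 (sec (q z)) = s z := fun z =>
    SC_exists hg (by rw [hsec, hl])
  choose K hK using hK
  have h12 : (1 / 2 : ℝ) ∈ Ioo (0 : ℝ) 1 := ⟨by norm_num, by norm_num⟩
  have hV : ∀ a ∈ P.V, P.vtx a ∈ P.Ds := fun a ha =>
    P.mem_Ds_of_corner ha (P.norm_pt _).le (P.vtx_mem a)
  refine ⟨τ', fun a => if h : P.vtx a ∈ P.Ds then K ⟨P.vtx a, h⟩ else 1, ⟨fun j => ?_, ?_, ?_⟩,
    hτ'⟩
  · have hG : P.Gj j ⟨_, P.pt_mem_Ds h12⟩ ⟨_, P.pt_mem_Ds h12⟩ :=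
      ⟨1 / 2, Ioo_subset_Icc_self h12, rfl, rfl⟩
    have h1 := hτ' j _ _ hG
    have h2 := hτ' _ _ _ hG.symm
    refine eq_inv_of_mul_eq_one_left (SC_unique hg (x := s ⟨_, P.pt_mem_Ds (j := P.σ j) h12⟩) ?_)
    change (τ' (P.σ j)).1 ((τ' j).1 _) = _
    rw [← h1, ← h2]
    rfl
  · intro j e he
    have h1 := hV _ he
    have h2 := hV _ (P.V_σ j e he)
    simp only [dif_pos h1, dif_pos h2]
    have hG : P.Gj j ⟨_, h1⟩ ⟨_, h2⟩ :=
      ⟨if e then 1 else 0, by cases e <;> simp, rfl, rfl⟩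
    refine SC_unique hg (x := sec (q ⟨_, h1⟩)) ?_
    change _ = (τ' j).1 ((K ⟨_, h2⟩).1 _)
    rw [hK, SC_q_glue hq hG, hK]
    exact hτ' j _ _ hG
  · intro a a' h ha
    have h1 := hV _ ha
    have h2 : P.vtx a' ∈ P.Ds := h ▸ h1
    simp only [dif_pos h1, dif_pos h2]
    exact congrArg K (Subtype.ext h)

theorem simplyConnected (hk : P.Lab τ k) (hg : Subgroup.closure (range τ) = ⊤)
    (hu : ∀ (H : Type) [Group H] (τ' : J → H) (k' : J × Bool → H), P.Lab τ' k' →
      ∃ F : G →* H, ∀ j, F (τ j) = τ' j)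
    {X : Type} [TopologicalSpace X] {q : P.D → X} (hq : P.Geo q) :
    SimplyConnectedSpace (P.E τ) := by
  have hD : ContractibleSpace P.D := P.convex_Ds.contractibleSpace ⟨_, P.ctr.2⟩
  have hD1 : LocallyPathConnectedSpace P.D := P.convex_Ds.locallyPathConnectedSpace
  have hX : PathConnectedSpace X := hq.quot.surjective.pathConnectedSpace hq.quot.continuous
  have hX1 : LocallyPathConnectedSpace X := hq.quot.locallyPathConnectedSpace
  obtain ⟨E', tE, π', hc, hsu, hsc⟩ :=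
    Pool.Agent.Lib.Unif.exists_universal_cover X (semilocal hq)
  have hE : LocallyPathConnectedSpace E' :=
    Pool.Agent.Lib.Unif.locPath_of_loc hc.isLocalHomeomorph
  have hga := Pool.Agent.Lib.Unif.galois_of_cover hc
  obtain ⟨e₀, he₀⟩ := hsu (q P.ctr)
  obtain ⟨s, ⟨-, hs⟩, -⟩ :=
    hc.existsUnique_continuousMap_lifts ⟨q, hq.quot.continuous⟩ P.ctr e₀ he₀
  have hl : ∀ z, π' (s z) = q z := fun z => congrFun hs z
  obtain ⟨τ', k', hL, hτ'⟩ := SC_lab hq hc hsu hga s.continuous hl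
  obtain ⟨F, hF⟩ := hu _ τ' k' hL
  obtain ⟨Φ, hΦ⟩ := exists_lift (P := P) (τ := τ) (fun g z => (F g).1 (s z)) (by
    intro g j z z' h
    rw [map_mul, hF, hτ' j z z' h]
    rfl)
  have hΦc : Continuous Φ := by
    refine (P.continuous_E τ).2 fun g => ?_
    simp only [hΦ]
    exact (F g).1.continuous.comp s.continuous
  obtain ⟨π, hπ1, hπ⟩ := exists_cover hk hq
  have hco : ∀ e, π' (Φ e) = π e := by
    intro e
    obtain ⟨g, z, rfl⟩ := P.exists_tp τ e
    rw [hΦ, hπ1, (F g).2, hl]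
  have hcπ := hπ.isCoveringMap
  have hπe : π = π' ∘ Φ := funext fun e => (hco e).symm
  refine simply_connected_iff_loops_nullhomotopic.2 ⟨pathConnected hg, fun x γ => ?_⟩
  have h1 : (γ.map hΦc).Homotopic ((Path.refl x).map hΦc) :=
    SimplyConnectedSpace.paths_homotopic _ _
  have h2 := h1.map ⟨π', hc.continuous⟩
  subst hπe
  refine Path.Homotopic.Quotient.eq.1 (hcπ.injective_path_homotopic_map x x ?_)
  exact Path.Homotopic.Quotient.eq.2 h2

theorem exists_pi (hk : P.Lab τ k) (hg : Subgroup.closure (range τ) = ⊤)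
    (hu : ∀ (H : Type) [Group H] (τ' : J → H) (k' : J × Bool → H), P.Lab τ' k' →
      ∃ F : G →* H, ∀ j, F (τ j) = τ' j)
    {X : Type} [TopologicalSpace X] {q : P.D → X} (hq : P.Geo q) (x₀ : X) :
    ∃ ψ : FundamentalGroup X x₀ ≃* G, ψ '' simpleClasses x₀ = SE G (P.E τ) := by
  obtain ⟨π, -, hπ⟩ := exists_cover hk hq
  have := simplyConnected hk hg hu hq
  exact exists_equiv hπ x₀

end Pool.Agent.P.MP_038aca_al.Top.PolyV
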