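import Pool.Agent.P.MP_038aca_al.Top.Step

/-! The sequence of crossings. -/

namespace Pool.Agent.P.MP_038aca_al.Top

open Set Topology

variable {J : Type} {G : Type} [Group G] {E : Type} [TopologicalSpace E] [MulAction G E]
  [ContinuousConstSMul G E] {P : Poly J} {τ : J → G} {U : Set E} {dev : E → ℂ} {x : G}
  {c : ℝ → E} {δ : ℝ}

omit [ContinuousConstSMul G E] in
theorem Step2_shift (hc : LineT 1 x c) (g : G) (t : ℝ) : (x * g)⁻¹ • c (t + 1) = g⁻¹ • c t := by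
  rw [hc.per, mul_inv_rev, mul_smul, inv_smul_smul]

omit [ContinuousConstSMul G E] in
theorem Step2_inO (hc : LineT 1 x c) (g : G) (t : ℝ) :
    InO U dev δ (x * g) (c (t + 1)) ↔ InO U dev δ g (c t) := by
  rw [InO, InO, Step2_shift hc]

omit [ContinuousConstSMul G E] in
theorem Step2_inI (hc : LineT 1 x c) (g : G) (t : ℝ) :
    InI U dev δ (x * g) (c (t + 1)) ↔ InI U dev δ g (c t) := by
  rw [InI, InI, Step2_shift hc]

theorem Step2_exit (h : Chart P τ U dev) (hc : LineT 1 x c) (hδ : 0 < δ) (hx : x ≠ 1) {g : G}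
    {s : ℝ} (hs : InI U dev δ g (c s)) : ¬ InO U dev δ g (c (s + 1)) := fun h' =>
  hx (mul_eq_right.1 (((Step2_inI hc g s).2 hs).eq h hδ h'))

/-- The data of one step. -/
structure Step2_S (P : Poly J) (τ : J → G) (U : Set E) (dev : E → ℂ) (c : ℝ → E) (δ : ℝ)
    (s : ℝ) (g : G) (a b : ℝ) (j : J) (s' : ℝ) (g' : G) : Prop where
  glb : IsGLB {t | s ≤ t ∧ ¬ InO U dev δ g (c t)} b
  lub : IsLUB {t | t ≤ b ∧ InI U dev δ g (c t)} a
  lt₁ : s < a
  lt₂ : a < b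
  lt₃ : b < s'
  inO : ∀ t ∈ Icc s b, InO U dev δ g (c t)
  start : ‖dev (g⁻¹ • c a)‖ = 1 - δ
  stop : ‖dev (g⁻¹ • c b)‖ = 1 + δ
  band : ∀ t ∈ Icc a b, dev (g⁻¹ • c t) ∈ P.Sct (P.mid j) ∧ 1 - δ ≤ ‖dev (g⁻¹ • c t)‖
  eq : g' = g * τ j
  next : ∀ t ∈ Icc a s', InO U dev δ g' (c t)

theorem Step2_one (h : Chart P τ U dev) (hτ : IsLab P.toPr τ) (hc : LineT 1 x c)
    (hf : Far P G U dev c δ) (hx : x ≠ 1) (p : {p : ℝ × G // InI U dev δ p.2 (c p.1)}) :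
    ∃ (a b : ℝ) (j : J) (p' : {p : ℝ × G // InI U dev δ p.2 (c p.1)}),
      Step2_S P τ U dev c δ p.1.1 p.1.2 a b j p'.1.1 p'.1.2 := by
  obtain ⟨⟨s, g⟩, hs⟩ := p
  have hne : {t | s ≤ t ∧ ¬ InO U dev δ g (c t)}.Nonempty :=
    ⟨s + 1, by linarith, Step2_exit h hc hf.pos hx hs⟩
  have hb := isGLB_csInf hne ⟨s, fun t ht => ht.1⟩
  generalize sInf {t | s ≤ t ∧ ¬ InO U dev δ g (c t)} = b at hb
  have ha := isLUB_csSup (s := {t | t ≤ b ∧ InI U dev δ g (c t)})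
    ⟨s, hb.2 fun t ht => ht.1, hs⟩ ⟨b, fun t ht => ht.1⟩
  obtain ⟨h1, h2, h3, h4, h5, j, h6, s', h7, h8, h9⟩ := step h hτ hc.cont hf hs hb hne ha
  exact ⟨_, b, j, ⟨(s', g * τ j), h8⟩, hb, ha, h1, h2, h7, h3, h4, h5, h6, rfl, h9⟩

omit [ContinuousConstSMul G E] in
theorem Step2_depth (h : Chart P τ U dev) {e : E} (he : e ∈ U) {k : G} (hk : k • e ∈ U) :
    |‖dev (k • e)‖ - 1| = |‖dev e‖ - 1| := by
  rcases h.adj e he k hk with rfl | ⟨j, hj, rfl⟩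
  · rw [one_smul]
  · rw [(h.cross e he j hj).2, P.norm_polar (by linarith [h.lt_two e he]), ← abs_neg]
    congr 1
    ring

theorem Step2_unbdd (h : Chart P τ U dev) (hc : Continuous c) (hf : Far P G U dev c δ)
    {s a b : ℕ → ℝ} {j : ℕ → J} {g : ℕ → G}
    (hS : ∀ i, Step2_S P τ U dev c δ (s i) (g i) (a i) (b i) (j i) (s (i + 1)) (g (i + 1)))
    (T : ℝ) : ∃ N, T ≤ b N := by
  by_contra hT
  push Not at hT
  have hL := isLUB_ciSup (f := a) ⟨T, by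
    rintro _ ⟨i, rfl⟩
    exact ((hS i).lt₂.trans (hT i)).le⟩
  generalize iSup a = L at hL
  obtain ⟨k, hk, -⟩ := hf.cov L
  have h1 : ContinuousAt (fun t => k • c t) L := (hc.const_smul k).continuousAt
  have h2 : ContinuousAt (fun t => |‖dev (k • c t)‖ - 1|) L :=
    (((h.cont.continuousAt (h.isOpen.mem_nhds hk)).comp (f := fun t => k • c t) h1).norm.sub
      continuousAt_const).abs
  have h3 := (h1.eventually_mem (h.isOpen.mem_nhds hk)).and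
    (Metric.tendsto_nhds.1 h2 (δ / 2) (by linarith [hf.pos]))
  obtain ⟨η, hη, h4⟩ := Metric.eventually_nhds_iff.1 h3
  obtain ⟨_, ⟨i, rfl⟩, hi, -⟩ := hL.exists_between (show L - η < L by linarith)
  have h5 : b i < L := ((hS i).lt₃.trans (hS (i + 1)).lt₁).trans_le (hL.1 ⟨i + 1, rfl⟩)
  have h6 : ∀ t ∈ Icc (a i) (b i), (g i)⁻¹ • c t ∈ U := fun t ht =>
    ((hS i).inO t ⟨(hS i).lt₁.le.trans ht.1, ht.2⟩).1
  have h7 : ∀ t ∈ Icc (a i) (b i),
      dist |‖dev ((g i)⁻¹ • c t)‖ - 1| |‖dev (k • c L)‖ - 1| < δ / 2 := fun t ht => by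
    obtain ⟨h8, h9⟩ := h4 (y := t) (by
      rw [Real.dist_eq, abs_lt]
      constructor <;> linarith [ht.1, ht.2])
    have e : k • c t = (k * g i) • (g i)⁻¹ • c t := by rw [mul_smul, smul_inv_smul]
    rwa [e, Step2_depth h (h6 t ht) (e ▸ h8)] at h9
  have h8 : ContinuousOn (fun t => ‖dev ((g i)⁻¹ • c t)‖) (Icc (a i) (b i)) :=
    (h.cont.comp (hc.const_smul _).continuousOn h6).norm
  obtain ⟨t, ht, e⟩ := intermediate_value_Icc (hS i).lt₂.le h8 (show (1 : ℝ) ∈ Icc _ _ by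
    rw [(hS i).start, (hS i).stop]
    constructor <;> linarith [hf.pos])
  have h9 := h7 t ht
  have h10 := h7 (a i) (left_mem_Icc.2 (hS i).lt₂.le)
  beta_reduce at e
  rw [e, sub_self, abs_zero, Real.dist_eq, abs_lt] at h9
  rw [(hS i).start, sub_sub_cancel_left, abs_neg, abs_of_pos hf.pos, Real.dist_eq, abs_lt] at h10
  linarith [h9.1, h10.2]

theorem exists_crs (h : Chart P τ U dev) (hτ : IsLab P.toPr τ) (hc : LineT 1 x c)
    (hf : Far P G U dev c δ) (hx : x ≠ 1) : ∃ N a b j g, Crs P τ U dev x c δ N a b j g := by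
  classical
  obtain ⟨s₀, g₀, h₀⟩ := exists_inI h hτ hc hf hx
  choose fa fb fj fn hF using Step2_one h hτ hc hf hx
  obtain ⟨s, a, b, j, g, h₀, hS⟩ : ∃ (s a b : ℕ → ℝ) (j : ℕ → J) (g : ℕ → G),
      InI U dev δ (g 0) (c (s 0)) ∧
      ∀ i, Step2_S P τ U dev c δ (s i) (g i) (a i) (b i) (j i) (s (i + 1)) (g (i + 1)) := by
    refine ⟨fun i => (fn^[i] ⟨(s₀, g₀), h₀⟩).1.1, fun i => fa (fn^[i] ⟨(s₀, g₀), h₀⟩),
      fun i => fb (fn^[i] ⟨(s₀, g₀), h₀⟩), fun i => fj (fn^[i] ⟨(s₀, g₀), h₀⟩),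
      fun i => (fn^[i] ⟨(s₀, g₀), h₀⟩).1.2, h₀, fun i => ?_⟩
    simp only [Function.iterate_succ_apply']
    exact hF _
  have tile : ∀ i, ∀ t ∈ Icc (a i) (b (i + 1)), InO U dev δ (g (i + 1)) (c t) := fun i t ht => by
    rcases le_total t (s (i + 1)) with h1 | h1
    · exact (hS i).next t ⟨ht.1, h1⟩
    · exact (hS (i + 1)).inO t ⟨h1, ht.2⟩
  have hex := Step2_unbdd h hc.cont hf hS (s 0 + 1)
  have h1 := Nat.find_spec hex
  have h2 : Nat.find hex ≠ 0 := fun e => by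
    rw [e] at h1
    exact Step2_exit h hc hf.pos hx h₀ ((hS 0).inO _ ⟨by linarith, h1⟩)
  obtain ⟨M, hM⟩ := Nat.exists_eq_succ_of_ne_zero h2
  have h3 : b M < s 0 + 1 := not_le.1 (Nat.find_min hex (by omega))
  rw [hM] at h1
  have h4 : a M < s 0 + 1 := (hS M).lt₂.trans h3
  have hg : g (M + 1) = x * g 0 :=
    (((Step2_inI hc _ _).2 h₀).eq h hf.pos (tile M _ ⟨h4.le, h1⟩)).symm
  have hb : b (M + 1) = b 0 + 1 := by
    apply le_antisymm
    · refine sub_le_iff_le_add.1 ((hS 0).glb.2 fun t ht => sub_le_iff_le_add.2 ?_)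
      have h5 : ¬ InO U dev δ (g (M + 1)) (c (t + 1)) := by
        rw [hg, Step2_inO hc]
        exact ht.2
      by_contra h6
      exact h5 (tile M _ ⟨by linarith [ht.1], (not_le.1 h6).le⟩)
    · refine (hS (M + 1)).glb.2 fun t ht => le_sub_iff_add_le.1 ((hS 0).glb.1 ⟨?_, ?_⟩)
      · linarith [(hS (M + 1)).glb.1 ht]
      · rw [← Step2_inO hc, sub_add_cancel, ← hg]
        exact ht.2
  have ha : a (M + 1) = a 0 + 1 := by
    apply le_antisymm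
    · refine (hS (M + 1)).lub.2 fun t ht => sub_le_iff_le_add.1 ((hS 0).lub.1 ⟨?_, ?_⟩)
      · linarith [ht.1]
      · rw [← Step2_inI hc, sub_add_cancel, ← hg]
        exact ht.2
    · refine le_sub_iff_add_le.1 ((hS 0).lub.2 fun t ht =>
        le_sub_iff_add_le.2 ((hS (M + 1)).lub.1 ⟨?_, ?_⟩))
      · linarith [ht.1]
      · rw [hg, Step2_inI hc]
        exact ht.2
  refine ⟨M + 1, a, b, j, g, M.succ_pos, fun i => (hS i).lt₂,
    fun i => (hS i).lt₃.trans (hS (i + 1)).lt₁, fun i => (hS i).eq, ha, hb, ?_, hg,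
    fun i t ht => ?_, fun i => (hS i).start, fun i => (hS i).stop, tile⟩
  · have h5 := ((hS (M + 1)).band _ (left_mem_Icc.2 (hS (M + 1)).lt₂.le)).1
    rw [hg, ha, Step2_shift hc] at h5
    exact P.side_unique h5 ((hS 0).band _ (left_mem_Icc.2 (hS 0).lt₂.le)).1
  · have h5 := (hS i).inO t ⟨(hS i).lt₁.le.trans ht.1, ht.2⟩
    exact ⟨h5.1, ((hS i).band t ht).1, ((hS i).band t ht).2, h5.2⟩

end Pool.Agent.P.MP_038aca_al.Top
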