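import Pool.Agent.P.MP_038aca_al.Top.Alg
import Pool.Agent.P.MP_038aca_al.Top.Line
import Pool.Agent.P.MP_038aca_al.Lower2

/-! The limit for a set of simple classes. -/

namespace Pool.Agent.P.MP_038aca_al.Top

variable {g k p : ℕ}

theorem Up_ab {G A : Type*} [Group G] [CommGroup A] (ν : G →* A) {x y : G}
    (h : Abelianization.of x = Abelianization.of y) : ν x = ν y :=
  hom_lcs_one ν (QuotientGroup.eq.1 h)

theorem Up_mem {G : Type*} [Group G] {K : Subgroup G} {x y : G}
    (h : Abelianization.of x = Abelianization.of y) (hx : x ∈ K ⊔ commutator G) :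
    y ∈ K ⊔ commutator G := by
  simpa using mul_mem hx (Subgroup.mem_sup_right (S := K) (QuotientGroup.eq.1 h))

open Subgroup in
theorem Up_aux {q : ℕ} (j : Gen g k q → Gen g k p)
    (hj : ∀ K : Subgroup (SurfaceGroup (g + 1) k p), a0 g k p ∈ K → b0 g k p ∈ K →
      (∀ y, s0 (j y) ∈ K) → K = ⊤)
    {S : Set (SurfaceGroup (g + 1) k p)} (hS : Rich g k p S) (n : ℕ) :
    lcsDiameter S n ≤ (2 * (g + 1) + k + q + 1 : ℕ) := by
  refine lcsDiameter_le_of_le _ (Nat.le_succ n) ((lcsDiameter_le_iff _ _ _).2 fun x => ?_)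
  obtain ⟨va, ha, hva⟩ := hS.clsA _ nA_a
  have h1 : ∀ y : Gen g k q, ∃ s ∈ S,
      Abelianization.of s = Abelianization.of (a0 g k p * s0 (j y)) :=
    fun y => hS.clsA _ (by rw [map_mul, nA_a, nA_s, mul_one])
  choose v hv hv' using h1
  have hcard : Fintype.card (Gen g k q) = 2 * g + k + q := by simp; ring
  let e := (Fintype.equivFinOfCardEq hcard).symm
  let w : Fin (2 * g + k + q) → SurfaceGroup (g + 1) k p := fun i => v (e i)
  let m : ℤ := (nA g k p x).toAdd - 3 - (nA g k p (List.ofFn w).prod).toAdd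
  obtain ⟨vb, hb, hvb⟩ := hS.clsB m
  let y : Fin (2 * g + k + q + 1 + 1) → SurfaceGroup (g + 1) k p :=
    Fin.cons vb (Fin.cons va w)
  have hy : ∀ i, y i ∈ S := by
    intro i
    refine Fin.cases ?_ (fun i => Fin.cases ?_ (fun i => ?_) i) i
    · exact hb
    · exact ha
    · exact hv _
  have hprod : (List.ofFn y).prod = vb * (va * (List.ofFn w).prod) := by
    simp only [List.ofFn_succ, List.prod_cons, y, Fin.cons_zero, Fin.cons_succ]
  obtain ⟨v0, hv0, hv0'⟩ := hS.clsA (x * (List.ofFn y).prod⁻¹) (by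
    rw [hprod]
    simp only [map_mul, map_inv, map_zpow, Up_ab (nA g k p) hva, Up_ab (nA g k p) hvb, nA_a, nA_b]
    apply Multiplicative.toAdd.injective
    simp only [toAdd_mul, toAdd_inv, toAdd_zpow, toAdd_ofAdd, toAdd_one, smul_eq_mul, m]
    ring)
  have hgen : closure (Set.range y) ⊔ commutator _ = ⊤ := by
    have hmem : ∀ i, y i ∈ closure (Set.range y) ⊔ commutator _ :=
      fun i => mem_sup_left (subset_closure ⟨i, rfl⟩)
    have ha' : a0 g k p ∈ closure (Set.range y) ⊔ commutator _ := Up_mem hva (hmem (Fin.succ 0))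
    refine hj _ ha' ?_ fun z => ?_
    · have := mul_mem (mul_mem (inv_mem ha') (Up_mem hvb (hmem 0))) (inv_mem (zpow_mem ha' m))
      simpa [mul_assoc] using this
    · have h2 : v z ∈ closure (Set.range y) ⊔ commutator _ := by
        have := hmem (Fin.succ (Fin.succ (e.symm z)))
        simpa [y, w] using this
      simpa using mul_mem (inv_mem ha') (Up_mem (hv' z) h2)
  obtain ⟨h, hh⟩ := exists_conj_prod y hgen (v0⁻¹ * x) (by
    rw [← Abelianization.ker_of, MonoidHom.mem_ker, map_mul, map_mul, map_inv, map_inv, hv0']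
    simp) n
  refine ⟨v0 :: List.ofFn fun i => h i * y i * (h i)⁻¹, ?_, ?_, ?_⟩
  · intro z hz
    rcases List.mem_cons.1 hz with rfl | hz
    · exact Or.inl hv0
    · obtain ⟨i, rfl⟩ := List.mem_ofFn.1 hz
      exact Or.inl (hS.conj _ (hy i) (h i))
  · simp only [List.length_cons, List.length_ofFn]; omega
  · simpa [mul_assoc] using hh

theorem Rich.upper {S : Set (SurfaceGroup (g + 1) k p)} (h : Rich g k p S) (n : ℕ) :
    lcsDiameter S n ≤ (2 * (g + 1) + k + (p - 1) + 1 : ℕ) := by
  cases p with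
  | zero =>
    refine Up_aux id (fun K ha hb hs => ?_) h n
    exact top_le_of_gen (MonoidHom.id _) Function.surjective_id K (forall_gen_handle ha hb hs)
  | succ p =>
    refine Up_aux emb (fun K ha hb hs => ?_) h n
    refine top_le_of_gen (MonoidHom.id _) Function.surjective_id K
      (forall_gen_handle ha hb (forall_gen_succ hs ?_))
    have h := rel0 (g := g) (k := k) (p := p + 1)
    have h2 := surfaceWord_succ (s0 : Gen g k (p + 1) → SurfaceGroup (g + 1) k (p + 1))
    rw [h2, ← mul_assoc] at h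
    rw [MonoidHom.id_apply, ← inv_mem_iff, ← eq_inv_of_mul_eq_one_left h]
    exact mul_mem (mul_mem (mul_mem (mul_mem ha hb) (inv_mem ha)) (inv_mem hb))
      (surfaceWord_mem _ _ hs)

theorem Rich.torus {S : Set (SurfaceGroup 1 0 0)} (h : Rich 0 0 0 S) (n : ℕ) :
    lcsDiameter S n ≤ (2 : ℕ) := by
  refine (lcsDiameter_le_iff _ _ _).2 fun x => ?_
  obtain ⟨vb, hb, hvb⟩ := h.clsB ((nA 0 0 0 x).toAdd - 2)
  obtain ⟨s, hs, hs'⟩ := h.clsA (x * vb⁻¹) (by
    simp only [map_mul, map_inv, map_zpow, Up_ab (nA 0 0 0) hvb, nA_a, nA_b]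
    apply Multiplicative.toAdd.injective
    simp only [toAdd_mul, toAdd_inv, toAdd_zpow, toAdd_ofAdd, toAdd_one, smul_eq_mul]
    ring)
  have h1 : s⁻¹ * (x * vb⁻¹) ∈ commutator (SurfaceGroup 1 0 0) := QuotientGroup.eq.1 hs'
  rw [torus_commutator, Subgroup.mem_bot, inv_mul_eq_one] at h1
  refine ⟨[s, vb], ?_, le_rfl, by simp [h1]⟩
  intro y hy
  simp only [List.mem_cons, List.not_mem_nil, or_false] at hy
  rcases hy with rfl | rfl
  · exact Or.inl hs
  · exact Or.inl hb

theorem proj_le {S : Set (SurfaceGroup 0 1 0)} (h : genE 0 ∈ S) (n : ℕ) :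
    lcsDiameter S n ≤ (1 : ℕ) := by
  have h1 : (genE 0 : SurfaceGroup 0 1 0) * genE 0 = 1 := by
    have := surfaceWord_gen (g := 0) (k := 1) (p := 0)
    simp only [surfaceWord, sq, List.ofFn_zero, List.prod_nil, one_mul, List.ofFn_succ,
      List.prod_cons, mul_one] at this
    exact this
  let K : Subgroup (SurfaceGroup 0 1 0) :=
    { carrier := {x | x = 1 ∨ x = genE 0}
      one_mem' := Or.inl rfl
      mul_mem' := by rintro _ _ (rfl | rfl) (rfl | rfl) <;> simp [h1]
      inv_mem' := by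
        rintro _ (rfl | rfl)
        · simp
        · exact Or.inr (eq_inv_of_mul_eq_one_left h1).symm }
  have hK : K = ⊤ := by
    refine top_le_of_gen (MonoidHom.id _) Function.surjective_id _ ?_
    rintro (i | i | i | l)
    · exact i.elim0
    · exact i.elim0
    · rw [Subsingleton.elim i 0]; exact Or.inr rfl
    · exact l.elim0
  refine (lcsDiameter_le_iff _ _ _).2 fun x => ?_
  have hx : x ∈ K := hK ▸ Subgroup.mem_top x
  rcases hx with rfl | rfl
  · exact ⟨[], by simp, by simp, by simp⟩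
  · refine ⟨[genE 0], ?_, le_rfl, by simp⟩
    intro y hy
    rw [List.mem_singleton.1 hy]
    exact Or.inl h

/-- The limit for every set squeezed between the two conditions. -/
theorem limit (hgk : 1 ≤ g ∨ k ≤ 2) (h2 : 2 ≤ 2 * g + 2 * k + p) {S C : Set (SurfaceGroup g k p)}
    (hC : C.Finite) (hS : S ⊆ orbitSet C)
    (hR : ∀ (g' : ℕ) (e : g = g' + 1), Rich g' k p (e ▸ S)) (hE : ∀ j, genE j ∈ S) :
    (∀ n : ℕ, lcsDiameter S n ≤ limitValue g k p) ∧
      ∃ n₀ : ℕ, ∀ n ≥ n₀, lcsDiameter S n = limitValue g k p := by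
  have low : ∀ {n r : ℕ}, ¬ lcsDiameter (orbitSet C) n ≤ r → ¬ lcsDiameter S n ≤ r :=
    fun h h' => h ((lcsDiameter_anti hS _).trans h')
  cases g with
  | zero =>
    have hk : k ≤ 2 := by omega
    have h0 : ¬ (k = 0 ∧ p ≤ 1) := by omega
    by_cases h1 : k = 1 ∧ p = 0
    · obtain ⟨rfl, rfl⟩ := h1
      have hv : limitValue 0 1 0 = (0 + 1 : ℕ) := by simp [limitValue]
      rw [hv]
      exact ⟨proj_le (hE 0), eventually_eq_succ _ 0 (proj_le (hE 0)) ⟨1, proj_lower _⟩⟩
    have hv : limitValue 0 k p = ⊤ := by simp only [limitValue, if_true, if_neg h0, if_neg h1]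
    rw [hv]
    refine ⟨fun _ => le_top, eventually_eq_top _ fun r => low ?_⟩
    interval_cases k
    · obtain ⟨p, rfl⟩ : ∃ q, p = q + 2 := ⟨p - 2, by omega⟩
      exact planar_top hC r
    · obtain ⟨p, rfl⟩ : ∃ q, p = q + 1 := ⟨p - 1, by omega⟩
      exact moebius_top hC r
    · exact klein_top hC r
  | succ g =>
    have hr : Rich g k p S := hR g rfl
    by_cases h0 : g = 0 ∧ k = 0 ∧ p = 0
    · obtain ⟨rfl, rfl, rfl⟩ := h0
      have hv : limitValue (0 + 1) 0 0 = (1 + 1 : ℕ) := by simp [limitValue]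
      rw [hv]
      exact ⟨hr.torus, eventually_eq_succ _ 1 hr.torus ⟨1, low (torus_lower hC)⟩⟩
    have hv : limitValue (g + 1) k p = (2 * (g + 1) + k + (p - 1) + 1 : ℕ) := by
      rw [limitValue, if_neg (by omega), if_neg (by omega)]
    rw [hv]
    refine ⟨hr.upper, eventually_eq_succ _ _ hr.upper ?_⟩
    cases p with
    | zero => exact (lower_closed (by omega) C hC).imp fun _ => low
    | succ p => exact (lower_punctured (by omega) C hC).imp fun _ => low

end Pool.Agent.P.MP_038aca_al.Top
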