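import Pool.Agent.P.MP_038aca_al.Top.Model
import Pool.Agent.P.MP_038aca_al.Top.K1
import Pool.Agent.P.MP_038aca_al.Top.Up
import Pool.Agent.P.MP_038aca_al.Top.SC
import Pool.Agent.P.MP_038aca_al.Top.Extr
import Pool.Agent.P.MP_038aca_al.Top.Step2
import Pool.Agent.P.MP_038aca_al.Top.Real
import Pool.Agent.P.MP_038aca_al.Top.Push

/-! Assembly. -/

namespace Pool.Agent.P.MP_038aca_al.Top

open Set Topology
open scoped Pointwise

theorem PolyV.extract {J G : Type} [Group G] {P : PolyV J} {τ : J → G} {k : J × Bool → G}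
    (hk : P.Lab τ k) (h1 : ∀ j, τ j ≠ 1) (hO : P.One) {x : G} (hx : x ∈ SE G (P.E τ)) :
    x = 1 ∨ ∃ m, Dg1 P.toPr P.W τ m x := by
  by_cases hx1 : x = 1
  · exact Or.inl hx1
  obtain ⟨c, hc, hn⟩ := PolyV.push hk hO hx
  obtain ⟨U, dev, hU, h2, h3⟩ := PolyV.exists_chart hk.lab h1
  obtain ⟨δ, hδ⟩ := PolyV.exists_far hU h2 h3 hc hn
  obtain ⟨N, a, b, j, g, hC⟩ := exists_crs hU hk.lab hc hδ hx1
  obtain ⟨T, _, sd, uu, μ, ν, lab, t₀, h4, h5⟩ := hC.td hU hk.lab h1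
    (fun g e h => PolyV.smul_eq_self hk h) hc hx1 hδ.pos hδ.lt
  exact Or.inr ⟨_, h4.dg1 hk.lab h5⟩

open Classical in
/-- Corner labels give a vertex section. -/
theorem PolyV.Lab.sec {J H : Type} [Group H] {P : PolyV J} {τ : J → H} {k : J × Bool → H}
    (h : P.Lab τ k) : ∃ κ : J → Set H × Set H, Sec P.toPr P.W τ κ ∧ ∀ a ∈ P.V, vt κ a = {k a} := by
  let s : J × Bool → Set H := fun a => if a ∈ P.V then {k a} else univ
  have hv : ∀ a, vt (fun j => (s (j, false), s (j, true))) a = s a := by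
    rintro ⟨j, _ | _⟩ <;> rfl
  have hs : ∀ j e, s (j, e) = τ j • s (P.σ j, e) := by
    intro j e
    by_cases ha : (j, e) ∈ P.V
    · simp only [s, if_pos ha, if_pos (P.V_σ j e ha), smul_set_singleton, smul_eq_mul,
        h.k_σ j e ha]
    · have hb : (P.σ j, e) ∉ P.V := fun hb => ha (by simpa only [P.σσ] using P.V_σ _ _ hb)
      simp only [s, if_neg ha, if_neg hb, smul_set_univ]
  refine ⟨fun j => (s (j, false), s (j, true)), ⟨h.lab, fun j => Prod.ext (hs j _) (hs j _), ?_⟩,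
    fun a ha => by rw [hv]; exact if_pos ha⟩
  refine (P.ok_iff _).2 fun a a' e => ?_
  rw [hv, hv]
  by_cases ha : a ∈ P.V
  · simp only [s, if_pos ha, if_pos (P.V_vtx a a' e ha), h.k_vtx a a' e ha]
  · have hb : a' ∉ P.V := fun hb => ha (P.V_vtx a' a e.symm hb)
    simp only [s, if_neg ha, if_neg hb]

variable {g k q : ℕ} {τ : J0 g k q → SurfaceGroup g k q}
  {v : J0 g k q × Bool → SurfaceGroup g k q}
  {κ : J0 g k q → Set (SurfaceGroup g k q) × Set (SurfaceGroup g k q)} {P : PolyV (J0 g k q)}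

theorem Std.lift (h : Std g k q τ v κ) (e1 : P.toPr = pr0 g k q) (e2 : P.W = W0 g k q)
    (hV : ∀ a, ty0 a = none → a ∈ P.V) (H : Type) [Group H] (τ' : J0 g k q → H)
    (k' : J0 g k q × Bool → H) (h' : P.Lab τ' k') : ∃ (F : SurfaceGroup g k q →* H) (h₀ : H),
      (∀ j, F (τ j) = τ' j) ∧ ∀ a, ty0 a = none → k' a = F (v a) * h₀ := by
  obtain ⟨κ', h1, h2⟩ := h'.sec
  rw [e1, e2] at h1
  obtain ⟨F, h₀, h3, h4⟩ := h.univ H τ' κ' h1 fun a ha => ⟨_, h2 a (hV a ha)⟩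
  exact ⟨F, h₀, h3, fun a ha => singleton_injective ((h2 a (hV a ha)).symm.trans (h4 a ha))⟩

theorem Std.lab (h : Std g k q τ v κ) (e1 : P.toPr = pr0 g k q) (e2 : P.W = W0 g k q)
    (hV : ∀ a ∈ P.V, ty0 a = none) : P.Lab τ v := by
  have hs : Sec P.toPr P.W τ κ := by
    rw [e1, e2]
    exact h.sec
  refine ⟨hs.lab, fun j e ha => ?_, fun a a' e ha => ?_⟩
  · have := hs.vt_eq j e
    rw [h.vt_none _ (hV _ ha), h.vt_none _ (hV _ (P.V_σ j e ha)), smul_set_singleton] at this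
    exact singleton_injective this
  · have := (P.ok_iff κ).1 hs.ok a a' e
    rw [h.vt_none _ (hV _ ha), h.vt_none _ (hV _ (P.V_vtx a a' e ha))] at this
    exact singleton_injective this

open Classical in
theorem Std.one (h : Std g k q τ v κ) (e1 : P.toPr = pr0 g k q) (e2 : P.W = W0 g k q)
    (hV : ∀ a, a ∈ P.V ↔ ty0 a = none) : P.One := by
  intro A h1 h2 a ha a' ha' hA
  let k' : J0 g k q × Bool → Multiplicative ℤ := fun b => if b ∈ A then Multiplicative.ofAdd 1 else 1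
  have hl : P.Lab (fun _ => 1) k' := by
    refine ⟨fun _ => inv_one.symm, fun j e _ => ?_, fun b b' e _ => ?_⟩
    · have : (j, e) ∈ A ↔ (P.σ j, e) ∈ A :=
        ⟨h1 j e, fun hb => by simpa only [P.σσ] using h1 _ _ hb⟩
      simp only [k', this, one_mul]
    · have : b ∈ A ↔ b' ∈ A := ⟨h2 b b' e, h2 b' b e.symm⟩
      simp only [k', this]
  obtain ⟨F, h₀, h3, h4⟩ := h.lift e1 e2 (fun b => (hV b).2) _ _ k' hl
  have hF : F = 1 := MonoidHom.eq_of_eqOn_dense h.cl (by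
    rintro _ ⟨j, rfl⟩
    exact h3 j)
  have h5 := (h4 a ((hV a).1 ha)).trans (by rw [hF]; rfl : F (v a) * h₀ = F (v a') * h₀)
  rw [← h4 a' ((hV a').1 ha')] at h5
  by_contra hA'
  simp only [k', if_pos hA, if_neg hA'] at h5
  exact absurd h5 (by decide)

theorem PolyV.Geo.homeo {J : Type} {P : PolyV J} {X Y : Type} [TopologicalSpace X]
    [TopologicalSpace Y] {q : P.D → Y} (h : P.Geo q) (e : X ≃ₜ Y) : P.Geo (e.symm ∘ q) :=
  ⟨e.symm.isQuotientMap.comp h.quot, fun z z' => e.symm.injective.eq_iff.trans (h.ker z z')⟩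

theorem main_big {g k p : ℕ} (hgk : 1 ≤ g ∨ k ≤ 2) (h2 : 2 ≤ 2 * g + 2 * k + p) {X : Type}
    [TopologicalSpace X] (e : X ≃ₜ Surf g k p p) (x₀ : X) :
    (∀ n : ℕ, lcsDiameter (simpleClasses x₀) n ≤ limitValue g k p) ∧
      ∃ n₀ : ℕ, ∀ n ≥ n₀, lcsDiameter (simpleClasses x₀) n = limitValue g k p := by
  obtain ⟨P, π, e1, e2, h3, -, hπ⟩ := exists_model g k p p (by omega)
  replace hπ := hπ.homeo e
  obtain ⟨τ, v, κ, h⟩ := exists_std g k p
  have hV : ∀ a, a ∈ P.V ↔ ty0 a = none := fun a => by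
    rw [h3]
    cases ty0 a with
    | none => simp
    | some l => simpa using l.2
  have hk := h.lab e1 e2 fun a => (hV a).1
  obtain ⟨ψ, hψ⟩ := PolyV.exists_pi hk h.cl (fun H _ τ' k' h' => by
    obtain ⟨F, -, hF, -⟩ := h.lift e1 e2 (fun a => (hV a).2) H τ' k' h'
    exact ⟨F, hF⟩) hπ x₀
  simp only [← lcsDiameter_equiv ψ, hψ]
  obtain ⟨C, hC, h4, h5⟩ := h.finite h2
  have hreal : ∀ m x, Dg (pr0 g k p) (W0 g k p) τ m x → x ∈ SE _ (P.E τ) := fun m x hx =>
    Dg.real hk.lab (m := m) (by rwa [e1, e2])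
  refine limit hgk h2 hC (fun x hx => ?_) (fun g' e => ?_) fun j => ?_
  · rcases PolyV.extract hk (h.ne_one h2) (h.one e1 e2 hV) hx with rfl | ⟨m, hm⟩
    · exact h4
    · exact h5 m x (by rwa [e1, e2] at hm)
  · subst e
    exact h.rich (fun x hx g => SE_conj hx g) (fun x hx => SE_inv hx) hreal
  · obtain ⟨u, hu⟩ := isConj_iff.1 (h.conjE j)
    have h6 := SE_conj (hreal _ _ (dg_triv pat_W0 τ (.inr (.inr (.inl j)), true))) u
    rwa [hu] at h6

theorem main_small {p : ℕ} {X : Type} [TopologicalSpace X] (e : X ≃ₜ Surf 0 0 1 p) (x₀ : X)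
    (n : ℕ) : lcsDiameter (simpleClasses x₀) n = 0 := by
  obtain ⟨P, π, e1, e2, h3, -, hπ⟩ := exists_model 0 0 1 p (by omega)
  replace hπ := hπ.homeo e
  obtain ⟨τ, v, κ, h⟩ := exists_std 0 0 1
  have hs : ∀ x : SurfaceGroup 0 0 1, x = 1 := fun x => by
    have : (⊥ : Subgroup (SurfaceGroup 0 0 1)) = ⊤ := by
      refine top_le_of_gen (MonoidHom.id _) Function.surjective_id _ ?_
      rintro (i | i | i | l)
      · exact i.elim0
      · exact i.elim0
      · exact i.elim0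
      · have h1 := surfaceWord_gen (g := 0) (k := 0) (p := 1)
        rw [Subsingleton.elim l 0]
        simpa [surfaceWord] using h1
    exact Subgroup.mem_bot.1 (this ▸ Subgroup.mem_top x)
  have hk : P.Lab τ v := ⟨fun _ => (hs _).trans (hs _).symm, fun _ _ _ => (hs _).trans (hs _).symm,
    fun _ _ _ _ => (hs _).trans (hs _).symm⟩
  obtain ⟨ψ, -⟩ := PolyV.exists_pi hk h.cl (fun H _ τ' k' h' => by
    obtain ⟨F, -, hF, -⟩ := h.lift e1 e2 (fun a ha => (h3 a).2 (by simp [ha])) H τ' k' h'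
    exact ⟨F, hF⟩) hπ x₀
  rw [← lcsDiameter_equiv ψ]
  exact le_antisymm (by simpa using trivial_zero le_rfl _ n) (by simp)

theorem main (g k p q : ℕ) (hq : q = if g + k + p = 0 then 1 else p) (hgk : 1 ≤ g ∨ k ≤ 2)
    {X : Type} [TopologicalSpace X] (e : X ≃ₜ Surf g k q p) (x₀ : X) :
    (∀ n : ℕ, lcsDiameter (simpleClasses x₀) n ≤ limitValue g k p) ∧
      ∃ n₀ : ℕ, ∀ n ≥ n₀, lcsDiameter (simpleClasses x₀) n = limitValue g k p := by
  by_cases h2 : 2 ≤ 2 * g + 2 * k + p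
  · rw [if_neg (by omega)] at hq
    subst hq
    exact main_big hgk h2 e x₀
  · obtain rfl : g = 0 := by omega
    obtain rfl : k = 0 := by omega
    obtain rfl : q = 1 := by
      split_ifs at hq <;> omega
    have hv : limitValue 0 0 p = 0 := by simp [limitValue, show p ≤ 1 by omega]
    simp only [hv, main_small e]
    simp

end Pool.Agent.P.MP_038aca_al.Top
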