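import Pool.Agent.P.MP_038aca_al.Top.Poly2
import Pool.Agent.P.MP_038aca_al.Top.Line

/-! The tiled space `G × D / ∼`. -/

namespace Pool.Agent.P.MP_038aca_al.Top

open Set Topology

noncomputable section

/-- A polygon with a set `V` of ends whose corners are kept. -/
structure PolyV (J : Type) extends Poly J where
  /-- the ends at the corners that are kept -/
  V : Set (J × Bool)
  V_σ : ∀ j e, (j, e) ∈ V → (σ j, e) ∈ V
  V_vtx : ∀ a a', toPoly.vtx a = toPoly.vtx a' → a ∈ V → a' ∈ V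

/-- Labels for the sides and for the corners that are kept. -/
structure PolyV.Lab {J : Type} (P : PolyV J) {G : Type} [Group G] (τ : J → G) (k : J × Bool → G) :
    Prop where
  lab : IsLab P.toPr τ
  k_σ : ∀ j e, (j, e) ∈ P.V → k (j, e) = τ j * k (P.σ j, e)
  k_vtx : ∀ a a', P.vtx a = P.vtx a' → a ∈ P.V → k a = k a'

namespace PolyV

variable {J : Type} (P : PolyV J)

/-- The closed disc without the corners that are removed. -/
def Ds : Set ℂ := {z | ‖z‖ ≤ 1 ∧ ∀ a ∉ P.V, z ≠ P.vtx a}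

/-- The tile. -/
abbrev D : Type := P.Ds

/-- The gluing through the side `j`. -/
def Gj (j : J) (z z' : P.D) : Prop :=
  ∃ u ∈ Icc (0 : ℝ) 1, (z : ℂ) = P.pt (P.th j u) ∧ (z' : ℂ) = P.pt (P.th (P.σ j) u)

/-- The gluing. -/
def Gl (z z' : P.D) : Prop := ∃ j, P.Gj j z z'

/-- A space obtained by gluing the sides. -/
structure Geo {X : Type} [TopologicalSpace X] (q : P.D → X) : Prop where
  quot : IsQuotientMap q
  ker : ∀ z z', q z = q z' ↔ Relation.EqvGen P.Gl z z'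

theorem Til_norm_vtx (a : J × Bool) : ‖P.vtx a‖ = 1 := P.norm_pt _

theorem Til_lt {z : ℂ} (hz : ‖z‖ < 1) : z ∈ P.Ds := by
  refine ⟨hz.le, fun a _ h => ?_⟩
  rw [h, P.Til_norm_vtx] at hz
  exact lt_irrefl _ hz

theorem Til_not_vtx {z : ℂ} {j : J} (hj : z ∈ P.Sct (P.mid j)) (a : J × Bool) :
    z ≠ P.vtx a := by
  intro h
  have h1 := P.vtx_not_mem a j (ρ := 1) zero_le_one
  rw [Complex.ofReal_one, one_mul, ← h] at h1
  exact h1 hj

theorem Til_side {j : J} {u : ℝ} (hu : u ∈ Ioo (0 : ℝ) 1) :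
    P.pt (P.th j u) ∈ P.Sct (P.mid j) ∧ P.uc j (P.pt (P.th j u)) = u := by
  have h1 := P.side_mem (j := j) (ρ := 1) one_pos hu
  rwa [Complex.ofReal_one, one_mul] at h1

theorem Til_cases {u : ℝ} (hu : u ∈ Icc (0 : ℝ) 1) :
    u ∈ Ioo (0 : ℝ) 1 ∨ ∃ e : Bool, ∀ j, P.pt (P.th j u) = P.vtx (j, e) := by
  rcases hu.1.eq_or_lt with h0 | h0
  · exact Or.inr ⟨false, fun j => by rw [← h0]; simp [Poly.vtx, Poly.an]⟩
  rcases hu.2.eq_or_lt with h1 | h1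
  · exact Or.inr ⟨true, fun j => by rw [h1]; simp [Poly.vtx, Poly.an]⟩
  exact Or.inl ⟨h0, h1⟩

theorem convex_Ds : Convex ℝ P.Ds := by
  refine convex_iff_pairwise_pos.2 fun x hx y hy hxy a b ha hb hab => ?_
  have h := strictConvex_closedBall ℝ (0 : ℂ) 1 (mem_closedBall_zero_iff.2 hx.1)
    (mem_closedBall_zero_iff.2 hy.1) hxy ha hb hab
  rw [interior_closedBall (0 : ℂ) one_ne_zero, mem_ball_zero_iff] at h
  exact P.Til_lt h

theorem mem_Ds_of_lt {z : ℂ} (hz : ‖z‖ < 1) : z ∈ P.Ds := by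
  exact P.Til_lt hz

theorem mem_Ds_of_side {z : ℂ} {j : J} (hz : ‖z‖ ≤ 1) (hj : z ∈ P.Sct (P.mid j)) : z ∈ P.Ds := by
  exact ⟨hz, fun a _ => P.Til_not_vtx hj a⟩

theorem mem_Ds_of_corner {z : ℂ} {a : J × Bool} (ha : a ∈ P.V) (hz : ‖z‖ ≤ 1)
    (h : z ∈ P.Sct (P.an a)) : z ∈ P.Ds := by
  refine ⟨hz, fun a' ha' h' => ha' (P.V_vtx a a' ?_ ha)⟩
  exact P.corner_unique h (h' ▸ P.vtx_mem a')

theorem pt_mem_Ds {j : J} {u : ℝ} (hu : u ∈ Ioo (0 : ℝ) 1) : P.pt (P.th j u) ∈ P.Ds := by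
  exact P.mem_Ds_of_side (P.norm_pt _).le (P.Til_side hu).1

theorem pt_mem_Ds_σ {j : J} {u : ℝ} (hu : u ∈ Icc (0 : ℝ) 1) (h : P.pt (P.th j u) ∈ P.Ds) :
    P.pt (P.th (P.σ j) u) ∈ P.Ds := by
  rcases P.Til_cases hu with h1 | ⟨e, he⟩
  · exact P.pt_mem_Ds h1
  · have hV : (j, e) ∈ P.V := by
      by_contra hn
      exact h.2 _ hn (he j)
    rw [he]
    exact P.mem_Ds_of_corner (P.V_σ j e hV) (P.Til_norm_vtx _).le (P.vtx_mem _)

theorem Gj.symm {P : PolyV J} {j : J} {z z' : P.D} (h : P.Gj j z z') : P.Gj (P.σ j) z' z := by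
  obtain ⟨u, hu, h1, h2⟩ := h
  exact ⟨u, hu, h2, by rw [P.σσ]; exact h1⟩

/-- The centre. -/
def ctr : P.D := ⟨0, P.mem_Ds_of_lt (by simp)⟩

variable {G : Type} [Group G] (τ : J → G)

/-- The gluing of the tiles. -/
def Rl (x y : Σ _ : G, P.D) : Prop := ∃ j, P.Gj j x.2 y.2 ∧ y.1 = x.1 * τ j

/-- The tiled space. -/
def E : Type := Quot (P.Rl τ)

instance : TopologicalSpace (P.E τ) := inferInstanceAs (TopologicalSpace (Quot (P.Rl τ)))

/-- The point `z` of the tile `g`. -/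
def tp (g : G) (z : P.D) : P.E τ := Quot.mk _ ⟨g, z⟩

instance : MulAction G (P.E τ) where
  smul h := Quot.map (fun x => ⟨h * x.1, x.2⟩) fun _ _ ⟨j, h1, h2⟩ =>
    ⟨j, h1, by rw [h2, mul_assoc]⟩
  one_smul := by
    rintro ⟨g, z⟩
    exact congrArg (fun g' => P.tp τ g' z) (one_mul g)
  mul_smul a b := by
    rintro ⟨g, z⟩
    exact congrArg (fun g' => P.tp τ g' z) (mul_assoc a b g)

theorem smul_tp (h g : G) (z : P.D) : h • P.tp τ g z = P.tp τ (h * g) z := rfl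

theorem exists_tp (e : P.E τ) : ∃ g z, e = P.tp τ g z := by
  obtain ⟨g, z⟩ := e
  exact ⟨g, z, rfl⟩

theorem continuous_tp (g : G) : Continuous (P.tp τ g) := by
  exact continuous_quot_mk.comp (continuous_sigmaMk (σ := fun _ : G => P.D) (i := g))

theorem isOpen_E {U : Set (P.E τ)} : IsOpen U ↔ ∀ g, IsOpen {z | P.tp τ g z ∈ U} := by
  exact (isOpen_coinduced (f := Quot.mk (P.Rl τ))).trans isOpen_sigma_iff

theorem continuous_E {Y : Type} [TopologicalSpace Y] {f : P.E τ → Y} :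
    Continuous f ↔ ∀ g, Continuous fun z => f (P.tp τ g z) := by
  constructor
  · exact fun hf g => hf.comp (P.continuous_tp τ g)
  · intro h
    refine continuous_def.2 fun t ht => (P.isOpen_E τ).2 fun g => ?_
    exact ht.preimage (h g)

theorem continuousOn_E {Y : Type} [TopologicalSpace Y] {f : P.E τ → Y} {U : Set (P.E τ)}
    (hU : IsOpen U) (h : ∀ g, ContinuousOn (fun z => f (P.tp τ g z)) {z | P.tp τ g z ∈ U}) :
    ContinuousOn f U := by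
  refine (continuousOn_open_iff hU).2 fun t ht => (P.isOpen_E τ).2 fun g => ?_
  exact (continuousOn_open_iff ((P.isOpen_E τ).1 hU g)).1 (h g) t ht

instance : ContinuousConstSMul G (P.E τ) := by
  refine ⟨fun h => (P.continuous_E τ).2 fun g => ?_⟩
  exact P.continuous_tp τ (h * g)

variable {P τ}

theorem tp_glue {j : J} {z z' : P.D} (h : P.Gj j z z') (g : G) :
    P.tp τ g z = P.tp τ (g * τ j) z' := Quot.sound ⟨j, h, rfl⟩

/-- Functions that respect the gluing descend. -/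
theorem exists_lift {Y : Type} (f : G → P.D → Y)
    (hf : ∀ g j z z', P.Gj j z z' → f g z = f (g * τ j) z') :
    ∃ F : P.E τ → Y, ∀ g z, F (P.tp τ g z) = f g z := by
  refine ⟨Quot.lift (fun x => f x.1 x.2) ?_, fun _ _ => rfl⟩
  rintro ⟨g, z⟩ ⟨g', z'⟩ ⟨j, h1, h2⟩
  obtain rfl : g' = g * τ j := h2
  exact hf g j z z' h1

theorem Til_norm {j : J} {z z' : P.D} (h : P.Gj j z z') : ‖(z : ℂ)‖ = 1 ∧ ‖(z' : ℂ)‖ = 1 := by
  obtain ⟨u, -, h1, h2⟩ := h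
  rw [h1, h2]
  exact ⟨P.norm_pt _, P.norm_pt _⟩

/-- Saturated properties only depend on the point of the tiled space. -/
theorem Til_sat (f : G → P.D → Prop) (hf : ∀ g j z z', P.Gj j z z' → (f g z ↔ f (g * τ j) z'))
    {g g' : G} {z z' : P.D} (h : P.tp τ g z = P.tp τ g' z') (hz : f g z) : f g' z' := by
  obtain ⟨F, hF⟩ := exists_lift (P := P) (τ := τ) f fun g j z z' hw => propext (hf g j z z' hw)
  rw [← hF, ← h, hF]
  exact hz

theorem norm_eq_of_tp {g g' : G} {z z' : P.D} (h : P.tp τ g z = P.tp τ g' z') :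
    ‖(z : ℂ)‖ = ‖(z' : ℂ)‖ := by
  obtain ⟨F, hF⟩ := exists_lift (P := P) (τ := τ) (fun _ w => ‖(w : ℂ)‖) fun _ _ _ _ hw => by
    rw [(Til_norm hw).1, (Til_norm hw).2]
  rw [← hF g z, h, hF]

theorem tp_eq_inner {g g' : G} {z z' : P.D} (hz : ‖(z : ℂ)‖ < 1)
    (h : P.tp τ g z = P.tp τ g' z') : g = g' ∧ z = z' := by
  refine Til_sat (fun h w => g = h ∧ z = w) (fun h j w w' hw => ?_) h ⟨rfl, rfl⟩
  constructor
  · rintro ⟨-, rfl⟩
    exact absurd (Til_norm hw).1 hz.ne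
  · rintro ⟨-, rfl⟩
    exact absurd (Til_norm hw).2 hz.ne

theorem tp_eq_side (hτ : IsLab P.toPr τ) {g g' : G} {z z' : P.D} {j : J}
    (hz : (z : ℂ) ∈ P.Sct (P.mid j)) (h : P.tp τ g z = P.tp τ g' z') :
    (g' = g ∧ z' = z) ∨ (g' = g * τ j ∧ ‖(z : ℂ)‖ = 1 ∧
      (z' : ℂ) = P.pt (P.th (P.σ j) (P.uc j z))) := by
  have key : ∀ (h : G) (i : J) (w w' : P.D), P.Gj i w w' →
      ((h = g ∧ w = z) ∨ (h = g * τ j ∧ ‖(z : ℂ)‖ = 1 ∧
        (w : ℂ) = P.pt (P.th (P.σ j) (P.uc j z)))) →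
      ((h * τ i = g ∧ w' = z) ∨ (h * τ i = g * τ j ∧ ‖(z : ℂ)‖ = 1 ∧
        (w' : ℂ) = P.pt (P.th (P.σ j) (P.uc j z)))) := by
    rintro h i w w' ⟨u, hu, h1, h2⟩ (⟨rfl, rfl⟩ | ⟨rfl, h3, h4⟩)
    · have h5 : ((1 : ℝ) : ℂ) * P.pt (P.th i u) ∈ P.Sct (P.mid j) := by
        rwa [Complex.ofReal_one, one_mul, ← h1]
      obtain ⟨rfl, hu'⟩ := P.side_of_mem one_pos hu h5
      refine Or.inr ⟨rfl, by rw [h1]; exact P.norm_pt _, ?_⟩
      rw [h2, h1, (P.Til_side hu').2]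
    · obtain ⟨h5, h6⟩ := P.side_polar hz
      obtain ⟨rfl, h7⟩ := P.th_inj h5 hu (h4.symm.trans h1)
      refine Or.inl ⟨by rw [hτ j, mul_inv_cancel_right], Subtype.ext ?_⟩
      rw [h2, P.σσ, ← h7]
      rw [h3, Complex.ofReal_one, one_mul] at h6
      exact h6.symm
  refine Til_sat (fun h w => (h = g ∧ w = z) ∨ (h = g * τ j ∧ ‖(z : ℂ)‖ = 1 ∧
    (w : ℂ) = P.pt (P.th (P.σ j) (P.uc j z)))) (fun h i w w' hw => ⟨key h i w w' hw, fun H => ?_⟩) h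
    (Or.inl ⟨rfl, rfl⟩)
  have h1 := key _ _ _ _ hw.symm H
  rwa [hτ i, mul_inv_cancel_right] at h1

theorem tp_eq_vtx {g g' : G} {z z' : P.D} {a : J × Bool} (hz : (z : ℂ) = P.vtx a)
    (h : P.tp τ g z = P.tp τ g' z') : ∃ a', (z' : ℂ) = P.vtx a' := by
  have key : ∀ (i : J) (w w' : P.D), P.Gj i w w' → (∃ a', (w : ℂ) = P.vtx a') →
      ∃ a', (w' : ℂ) = P.vtx a' := by
    rintro i w w' ⟨u, hu, h1, h2⟩ ⟨a', ha'⟩
    rcases P.Til_cases hu with h3 | ⟨e, he⟩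
    · exact absurd (h1.symm.trans ha') (P.Til_not_vtx (P.Til_side h3).1 a')
    · exact ⟨(P.σ i, e), h2.trans (he _)⟩
  exact Til_sat (fun _ w => ∃ a', (w : ℂ) = P.vtx a')
    (fun _ i w w' hw => ⟨key i w w' hw, key _ _ _ hw.symm⟩) h ⟨a, hz⟩

/-- A point of the tile is an inner point, a point of an open side, or a corner. -/
theorem cases_D (z : P.D) : ‖(z : ℂ)‖ < 1 ∨ (‖(z : ℂ)‖ = 1 ∧ ∃ j, (z : ℂ) ∈ P.Sct (P.mid j)) ∨
    ∃ a ∈ P.V, (z : ℂ) = P.vtx a := by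
  rcases z.2.1.eq_or_lt with h1 | h1
  swap
  · exact Or.inl h1
  right
  obtain ⟨j, u, hu, h2⟩ := P.exists_side (z : ℂ)
  rw [h1, Complex.ofReal_one, one_mul] at h2
  rcases P.Til_cases hu with h3 | ⟨e, he⟩
  · exact Or.inl ⟨h1, j, h2 ▸ (P.Til_side h3).1⟩
  · refine Or.inr ⟨(j, e), ?_, h2.trans (he j)⟩
    by_contra hn
    exact z.2.2 _ hn (h2.trans (he j))

/-- The point is not a corner. -/
def NC (e : P.E τ) : Prop := ∀ g z, e = P.tp τ g z → ∀ a, (z : ℂ) ≠ P.vtx a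

end PolyV

end

end Pool.Agent.P.MP_038aca_al.Top
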