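import Pool.Agent.P.MP_038aca_al.Top.K0
import Pool.Agent.P.MP_038aca_al.Top.Til

/-! The surfaces of the statement are glued polygons. -/

namespace Pool.Agent.P.MP_038aca_al.Top

open Set Topology

theorem Model_idx {α : Type} (P : Poly (α × Bool)) {W : List ((α × Bool) × Bool)}
    {w : List (α × Bool)} (hw : W.map (fun s => (s.1.1, s.2)) = w) (hn : P.n = W.length)
    (hi : ∀ i : Fin W.length, (P.pos (W.get i).1 : ℕ) = i ∧ P.sg (W.get i).1 = (W.get i).2) :
    ∃ idx : Fin w.length → α × Bool, (∀ s ∈ W, ∃ i, idx i = s.1 ∧ w.get i = (s.1.1, s.2)) ∧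
      (∀ i, (w.get i).1 = (idx i).1) ∧ ∀ i u, sidePt w i u = P.pt (P.th (idx i) u) := by
  subst hw
  refine ⟨fun i => (W.get (i.cast (List.length_map _))).1, fun s hs => ?_, fun i => by simp,
    fun i u => ?_⟩
  · obtain ⟨i, rfl⟩ := List.mem_iff_get.1 hs
    exact ⟨i.cast (List.length_map _).symm, rfl, by simp⟩
  · obtain ⟨h1, h2⟩ := hi (i.cast (List.length_map _))
    have h3 : ((W.map fun s => (s.1.1, s.2)).get i).2 = (W.get (i.cast (List.length_map _))).2 := by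
      simp
    rw [sidePt, Poly.pt, Poly.th, h1, h2, h3, Fin.val_cast]
    congr 2
    · split_ifs <;> push_cast <;> ring
    · rw [hn, List.length_map]

section
variable {α : Type} {P : PolyV (α × Bool)} (hσ : ∀ j, P.σ j = (j.1, !j.2)) {w : List (α × Bool)}
  {idx : Fin w.length → α × Bool} (hname : ∀ i, (w.get i).1 = (idx i).1)
  (hside : ∀ i u, sidePt w i u = P.pt (P.th (idx i) u))
include hσ hname hside

theorem Model_glued {z z' : Metric.closedBall (0 : ℂ) 1} (h : Glued w z z') : z = z' ∨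
    ∃ j, ∃ u ∈ Icc (0 : ℝ) 1, (z : ℂ) = P.pt (P.th j u) ∧ (z' : ℂ) = P.pt (P.th (P.σ j) u) := by
  obtain ⟨i, i', e, u, hu, h1, h2⟩ := h
  rw [hname, hname] at e
  rw [hside] at h1 h2
  by_cases h : (idx i').2 = (idx i).2
  · exact Or.inl (Subtype.ext (by rw [h1, h2, Prod.ext e.symm h]))
  · refine Or.inr ⟨idx i, u, hu, h1, ?_⟩
    rw [hσ, h2, e, ← Bool.eq_not_iff.2 h]

theorem Model_sat {z z' : Metric.closedBall (0 : ℂ) 1}
    (h : Quot.mk (Glued w) z = Quot.mk (Glued w) z') : (z : ℂ) ∈ P.Ds ↔ (z' : ℂ) ∈ P.Ds := by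
  have h1 := Quot.eqvGen_exact h
  clear h
  induction h1 with
  | rel z z' h =>
    rcases Model_glued hσ hname hside h with rfl | ⟨j, u, hu, h1, h2⟩
    · rfl
    · rw [h1, h2]
      exact ⟨P.pt_mem_Ds_σ hu, fun h => P.σσ j ▸ P.pt_mem_Ds_σ hu h⟩
  | refl => rfl
  | symm _ _ _ ih => exact ih.symm
  | trans _ _ _ _ _ ih ih' => exact ih.trans ih'

theorem Model_geo (hs : Function.Surjective idx) {S : Closed w → Prop}
    (hS : ∀ z, S (Quot.mk _ z) ↔ (z : ℂ) ∈ P.Ds) : ∃ π : P.D → {y // S y}, P.Geo π := by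
  let e : P.D ≃ₜ (Quot.mk (Glued w) ⁻¹' {y | S y}) :=
    { toFun z := ⟨⟨z, mem_closedBall_zero_iff.2 z.2.1⟩, (hS _).2 z.2⟩
      invFun z := ⟨z.1, (hS _).1 z.2⟩
      left_inv _ := rfl
      right_inv _ := rfl
      continuous_toFun := by fun_prop
      continuous_invFun := by fun_prop }
  have ho : IsOpen {y | S y} := by
    have := P.finite
    rw [← isQuotientMap_quot_mk.isOpen_preimage]
    have h1 : Quot.mk (Glued w) ⁻¹' {y | S y} = Subtype.val ⁻¹' (P.vtx '' P.Vᶜ)ᶜ := Set.ext fun z =>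
      (hS z).trans ⟨fun h ⟨a, ha, e⟩ => h.2 a ha e.symm,
        fun h => ⟨mem_closedBall_zero_iff.1 z.2, fun a ha e => h ⟨a, ha, e.symm⟩⟩⟩
    rw [h1]
    exact (toFinite _).isClosed.isOpen_compl.preimage continuous_subtype_val
  refine ⟨_, (isQuotientMap_quot_mk.restrictPreimage_isOpen ho).comp e.isQuotientMap,
    fun z z' => ⟨fun h => ?_, fun h => ?_⟩⟩
  · have key : ∀ a b, Relation.EqvGen (Glued w) a b → ∀ (ha : (a : ℂ) ∈ P.Ds) (hb : (b : ℂ) ∈ P.Ds),
        Relation.EqvGen P.Gl ⟨a, ha⟩ ⟨b, hb⟩ := fun a b h => by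
      induction h with
      | rel a b h =>
        intro ha hb
        rcases Model_glued hσ hname hside h with rfl | h
        exacts [.refl _, .rel _ _ h]
      | refl => exact fun _ _ => .refl _
      | symm _ _ _ ih => exact fun ha hb => (ih hb ha).symm _ _
      | trans _ _ _ h _ ih ih' =>
        intro ha hb
        have hc := (Model_sat hσ hname hside (Quot.eqvGen_sound h)).1 ha
        exact (ih ha hc).trans _ _ _ (ih' hc hb)
    exact key _ _ (Quot.eqvGen_exact (congrArg Subtype.val h)) z.2 z'.2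
  · induction h with
    | rel z z' h =>
      obtain ⟨j, u, hu, h1, h2⟩ := h
      obtain ⟨i', hi'⟩ := hs (P.σ j)
      obtain ⟨i, rfl⟩ := hs j
      exact Subtype.ext (Quot.sound ⟨i, i', by rw [hname, hname, hi', hσ], u, hu,
        h1.trans (hside _ _).symm, h2.trans (by rw [hside, hi'])⟩)
    | refl => rfl
    | symm _ _ _ ih => exact ih.symm
    | trans _ _ _ _ _ ih ih' => exact ih.trans ih'

end

theorem Model_ty {g k q : ℕ} {a : J0 g k q × Bool} {l : Fin q} :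
    ty0 a = some l ↔ a.1.1 = .inr (.inr (.inr l)) ∧ a.2 = true := by
  obtain ⟨⟨x | x | x | x, b⟩, _ | _⟩ := a <;> simp [ty0]

/-- The polygon of the surface `Surf g k q p`. -/
theorem exists_model (g k q p : ℕ) (h : 1 ≤ 2 * g + k + q) :
    ∃ (P : PolyV (J0 g k q)) (π : P.D → Surf g k q p), P.toPr = pr0 g k q ∧ P.W = W0 g k q ∧
      (∀ a, a ∈ P.V ↔ ∀ l : Fin q, ty0 a = some l → p ≤ l) ∧
      (∀ a a', P.vtx a = P.vtx a' → ty0 a = ty0 a') ∧ P.Geo π := by
  obtain ⟨P₀, hp, hW, hn, hi⟩ := exists_poly (pr0 g k q) pat_W0 (by rw [length_W0]; omega)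
  have hty : ∀ a a', P₀.vtx a = P₀.vtx a' → ty0 a = ty0 a' := fun a a' e => by
    have h1 := (P₀.ok_iff (G := Equiv.Perm (Option (Fin q)))
      fun j => (ty0 (j, false), ty0 (j, true))).1 ⟨none, hW ▸ ch_ty0⟩ a a' e
    obtain ⟨j, _ | _⟩ := a <;> obtain ⟨j', _ | _⟩ := a' <;> exact h1
  have hσ : ∀ j, P₀.σ j = (j.1, !j.2) := fun j => by rw [hp]; rfl
  let P : PolyV (J0 g k q) :=
    { P₀ with
      V := {a | ∀ l : Fin q, ty0 a = some l → p ≤ l}
      V_σ := fun j e h l hl => h l (by rwa [Model_ty, hσ, ← Model_ty (a := (j, e))] at hl)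
      V_vtx := fun a a' e h l hl => h l ((hty a a' e).trans hl) }
  obtain ⟨idx, h1, h2, h3⟩ := Model_idx P₀ map_W0 hn hi
  have hs : Function.Surjective idx := fun j => by
    obtain ⟨s, hs, rfl⟩ := List.mem_map.1 (pat_W0.all j)
    exact (h1 s hs).imp fun _ h => h.1
  obtain ⟨π, hπ⟩ := Model_geo (P := P) hσ h2 h3 hs (S := fun y => ∀ (z : Metric.closedBall (0 : ℂ) 1)
      (i : Fin (word g k q).length) (l : Fin q), (l : ℕ) < p →
      (word g k q).get i = (.inr (.inr (.inr l)), true) → (z : ℂ) = sidePt (word g k q) i 1 →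
        y ≠ Quot.mk _ z) fun z => ⟨fun hz => ⟨mem_closedBall_zero_iff.1 z.2, fun a ha e => by
      obtain ⟨l, hl⟩ := not_forall.1 ha
      obtain ⟨hl, hl'⟩ := Classical.not_imp.1 hl
      obtain ⟨i, -, e2⟩ := h1 ((.inr (.inr (.inr l)), false), true) (by simp [W0, blkD])
      obtain ⟨j, b⟩ := a
      obtain ⟨e3, rfl⟩ := Model_ty.1 hl
      obtain ⟨i', rfl⟩ := hs j
      exact hz ⟨sidePt _ i 1, by rw [h3, mem_closedBall_zero_iff, P₀.norm_pt]⟩ i l
        (not_le.1 hl') e2 rfl (Quot.sound ⟨i', i, by rw [h2, e2]; exact e3, 1,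
          right_mem_Icc.2 zero_le_one, e.trans (h3 _ _).symm, rfl⟩)⟩,
    fun hz z' i l hl e1 e2 e3 => ((Model_sat (P := P) hσ h2 h3 e3).1 hz).2 (idx i, true)
      (fun h => (h l (Model_ty.2 ⟨by rw [← h2, e1], rfl⟩)).not_gt hl) (e2.trans (h3 _ _))⟩
  exact ⟨P, π, hp, hW, fun _ => Iff.rfl, hty, hπ⟩

end Pool.Agent.P.MP_038aca_al.Top
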