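import Pool.Agent.P.MP_038aca_al.Top.Valid

/-! The round polygon: angles, sectors and coordinates. -/

namespace Pool.Agent.P.MP_038aca_al.Top

open Set

noncomputable section

/-- A polygon with paired sides. -/
structure Poly (J : Type) extends Pr J where
  /-- the number of sides -/
  n : ℕ
  /-- the position of a side -/
  pos : J ≃ Fin n
  /-- the direction of a side -/
  sg : J → Bool
  two : 2 ≤ n

namespace Poly

variable {J : Type} (P : Poly J)

/-- The pattern of the polygon. -/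
def W : List (J × Bool) := List.ofFn fun i : Fin P.n => (P.pos.symm i, P.sg (P.pos.symm i))

/-- The angle of the point with parameter `u` on the side `j`; a full turn is `n`. -/
def th (j : J) (u : ℝ) : ℝ := ((P.pos j : ℕ) : ℝ) + if P.sg j then u else 1 - u

/-- The point of the unit circle with a given angle. -/
def pt (θ : ℝ) : ℂ := Complex.exp (2 * Real.pi * Complex.I * θ / P.n)

/-- The angle of an end of a side. -/
def an (a : J × Bool) : ℝ := P.th a.1 (if a.2 then 1 else 0)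

/-- The corner at an end of a side. -/
def vtx (a : J × Bool) : ℂ := P.pt (P.an a)

/-- The angle of `z` relative to the direction `θ`. -/
def ph (θ : ℝ) (z : ℂ) : ℝ := Complex.arg (z * (starRingEnd ℂ) (P.pt θ)) * P.n / (2 * Real.pi)

/-- The open sector of half width one half around the direction `θ`. -/
def Sct (θ : ℝ) : Set ℂ := {z | z ≠ 0 ∧ |P.ph θ z| < 1 / 2}

/-- The direction of the middle of a side. -/
def mid (j : J) : ℝ := ((P.pos j : ℕ) : ℝ) + 1 / 2

/-- The parameter of a point in the sector of the side `j`. -/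
def uc (j : J) (z : ℂ) : ℝ := if P.sg j then P.ph (P.mid j) z + 1 / 2 else 1 / 2 - P.ph (P.mid j) z

/-- A distance to the corner at `a`. -/
def NN (a : J × Bool) (z : ℂ) : ℝ := (1 - ‖z‖) + |P.ph (P.an a) z|

include P in
theorem finite : Finite J := Finite.of_equiv _ P.pos.symm

theorem n_pos : (0 : ℝ) < P.n := by
  have h := P.two
  exact_mod_cast (by omega : 0 < P.n)

theorem pat_W : Pat P.W := by
  have e : P.W.map Prod.fst = List.ofFn P.pos.symm := by
    rw [W, List.map_ofFn]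
    rfl
  refine ⟨?_, fun j => ?_⟩
  · rw [e]
    exact List.nodup_ofFn.2 P.pos.symm.injective
  · rw [e, List.mem_ofFn]
    exact ⟨P.pos j, P.pos.symm_apply_apply j⟩

theorem mem_W (j : J) : (j, P.sg j) ∈ P.W := by
  rw [W, List.mem_ofFn]
  exact ⟨P.pos j, by rw [P.pos.symm_apply_apply]⟩

theorem Poly_pt (θ : ℝ) :
    P.pt θ = Complex.exp (((2 * Real.pi * θ / P.n : ℝ) : ℂ) * Complex.I) := by
  rw [pt]
  congr 1
  push_cast
  ring

theorem Poly_add (θ t : ℝ) : P.pt (θ + t) = P.pt θ * P.pt t := by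
  rw [pt, pt, pt, ← Complex.exp_add]
  congr 1
  push_cast
  ring

theorem norm_pt (θ : ℝ) : ‖P.pt θ‖ = 1 := by
  rw [Poly_pt, Complex.norm_exp_ofReal_mul_I]

theorem Poly_conj (θ : ℝ) : P.pt θ * (starRingEnd ℂ) (P.pt θ) = 1 := by
  rw [Complex.mul_conj, Complex.normSq_eq_norm_sq, norm_pt]
  simp

theorem continuous_pt : Continuous P.pt := by
  unfold pt
  fun_prop

theorem pt_eq_iff {θ θ' : ℝ} : P.pt θ = P.pt θ' ↔ ∃ k : ℤ, θ' = θ + k * P.n := by
  have hn : (P.n : ℂ) ≠ 0 := by exact_mod_cast P.n_pos.ne'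
  have hp : (2 * Real.pi * Complex.I : ℂ) ≠ 0 := Complex.two_pi_I_ne_zero
  rw [eq_comm, pt, pt, Complex.exp_eq_exp_iff_exists_int]
  refine exists_congr fun k => ⟨fun h => ?_, fun h => ?_⟩
  · have h1 : (θ' : ℂ) = θ + k * P.n := by
      refine mul_left_cancel₀ hp ?_
      rw [div_eq_iff hn, add_mul, div_mul_cancel₀ _ hn] at h
      rw [h]
      ring
    exact_mod_cast h1
  · rw [h]
    push_cast
    field_simp

theorem pt_add_n (θ : ℝ) : P.pt (θ + P.n) = P.pt θ := by
  exact (P.pt_eq_iff.2 ⟨1, by simp⟩).symm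

theorem pt_injOn : InjOn P.pt (Ico 0 P.n) := by
  intro θ hθ θ' hθ' h
  obtain ⟨k, hk⟩ := P.pt_eq_iff.1 h
  have hn := P.n_pos
  have h1 : (-1 : ℝ) < k := by
    by_contra h1
    nlinarith [hθ.2, hθ'.1, not_lt.1 h1]
  have h2 : (k : ℝ) < 1 := by
    by_contra h2
    nlinarith [hθ.1, hθ'.2, not_lt.1 h2]
  have h3 : -1 < k := by exact_mod_cast h1
  have h4 : k < 1 := by exact_mod_cast h2
  have h5 : k = 0 := by omega
  rw [hk, h5]
  simp

/-- Polar coordinates are unique. -/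
theorem polar_inj {ρ ρ' θ θ' : ℝ} (hρ : 0 < ρ) (hρ' : 0 < ρ') (h : ρ * P.pt θ = ρ' * P.pt θ') :
    ρ = ρ' ∧ P.pt θ = P.pt θ' := by
  have h1 := congrArg norm h
  rw [norm_mul, norm_mul, norm_pt, norm_pt, mul_one, mul_one, Complex.norm_of_nonneg hρ.le,
    Complex.norm_of_nonneg hρ'.le] at h1
  subst h1
  exact ⟨rfl, mul_left_cancel₀ (by exact_mod_cast hρ.ne') h⟩

theorem norm_polar {ρ : ℝ} (hρ : 0 ≤ ρ) (θ : ℝ) : ‖(ρ : ℂ) * P.pt θ‖ = ρ := by
  rw [norm_mul, norm_pt, mul_one, Complex.norm_of_nonneg hρ]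

theorem polar (θ : ℝ) (z : ℂ) : z = ‖z‖ * P.pt (θ + P.ph θ z) := by
  have hn := P.n_pos.ne'
  have hp := Real.pi_pos.ne'
  have h1 := Complex.norm_mul_exp_arg_mul_I (z * (starRingEnd ℂ) (P.pt θ))
  have h2 : 2 * Real.pi * P.ph θ z / P.n = Complex.arg (z * (starRingEnd ℂ) (P.pt θ)) := by
    unfold ph
    field_simp
  rw [norm_mul, Complex.norm_conj, norm_pt, mul_one, ← h2, ← Poly_pt] at h1
  rw [Poly_add, mul_left_comm, h1, mul_left_comm, Poly_conj, mul_one]

theorem ph_polar {ρ θ t : ℝ} (hρ : 0 < ρ) (ht : |t| < P.n / 2) :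
    P.ph θ (ρ * P.pt (θ + t)) = t := by
  have hn := P.n_pos
  have hp := Real.pi_pos
  have h1 := abs_lt.1 ht
  have h2 : (ρ : ℂ) * P.pt (θ + t) * (starRingEnd ℂ) (P.pt θ) = ρ * P.pt t := by
    rw [Poly_add, mul_assoc, mul_right_comm, Poly_conj, one_mul]
  rw [ph, h2, Poly_pt, Complex.exp_mul_I, Complex.arg_mul_cos_add_sin_mul_I hρ]
  · field_simp
  · constructor
    · rw [lt_div_iff₀ hn]
      nlinarith [h1.1]
    · rw [div_le_iff₀ hn]
      nlinarith [h1.2]

theorem ph_congr {θ θ' : ℝ} (h : P.pt θ = P.pt θ') (z : ℂ) : P.ph θ z = P.ph θ' z := by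
  rw [ph, ph, h]

theorem continuousAt_abs_ph (θ : ℝ) {z : ℂ} (hz : z ≠ 0) :
    ContinuousAt (fun w => |P.ph θ w|) z := by
  have hn := P.n_pos
  have hp := Real.pi_pos
  have h0 : ∀ {w : ℂ}, w ≠ 0 → w * (starRingEnd ℂ) (P.pt θ) ≠ 0 := fun hw =>
    mul_ne_zero hw (right_ne_zero_of_mul (by rw [Poly_conj]; exact one_ne_zero))
  have h1 : ContinuousAt (fun w : ℂ =>
      InnerProductGeometry.angle (w * (starRingEnd ℂ) (P.pt θ)) 1 * P.n / (2 * Real.pi)) z := by
    refine (ContinuousAt.mul ?_ continuousAt_const).div_const _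
    exact ContinuousAt.comp (f := fun w : ℂ => (w * (starRingEnd ℂ) (P.pt θ), (1 : ℂ)))
      (g := fun y : ℂ × ℂ => InnerProductGeometry.angle y.1 y.2)
      (InnerProductGeometry.continuousAt_angle (h0 hz) one_ne_zero) (by fun_prop)
  refine h1.congr ?_
  filter_upwards [isOpen_ne.mem_nhds hz] with w hw
  rw [Complex.angle_eq_abs_arg (h0 hw) one_ne_zero, div_one, ph, abs_div, abs_mul, abs_of_pos hn,
    abs_of_pos (by positivity : 0 < 2 * Real.pi)]

theorem isOpen_Sct (θ : ℝ) : IsOpen (P.Sct θ) := by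
  refine isOpen_iff_mem_nhds.2 fun z hz => ?_
  filter_upwards [isOpen_ne.mem_nhds hz.1,
    (P.continuousAt_abs_ph θ hz.1).eventually_lt continuousAt_const hz.2] with w h1 h2
  exact ⟨h1, h2⟩

theorem continuousOn_ph (θ : ℝ) : ContinuousOn (P.ph θ) (P.Sct θ) := by
  intro z hz
  have hn := P.n_pos
  have hp := Real.pi_pos
  have h2 : (2 : ℝ) ≤ P.n := by exact_mod_cast P.two
  have hs : z * (starRingEnd ℂ) (P.pt θ) ∈ Complex.slitPlane := by
    refine Complex.mem_slitPlane_iff_arg.2 ⟨fun h => ?_,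
      mul_ne_zero hz.1 (right_ne_zero_of_mul (by rw [Poly_conj]; exact one_ne_zero))⟩
    have h1 := (abs_lt.1 hz.2).2
    rw [ph, h, div_lt_iff₀ (by positivity)] at h1
    nlinarith
  refine ContinuousAt.continuousWithinAt ?_
  refine (ContinuousAt.mul ?_ continuousAt_const).div_const _
  exact ContinuousAt.comp (f := fun w : ℂ => w * (starRingEnd ℂ) (P.pt θ))
    (Complex.continuousAt_arg hs) (by fun_prop)

theorem continuousOn_uc (j : J) : ContinuousOn (P.uc j) (P.Sct (P.mid j)) := by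
  unfold uc
  split_ifs
  · exact (P.continuousOn_ph _).add continuousOn_const
  · exact continuousOn_const.sub (P.continuousOn_ph _)

theorem mem_Sct_iff {θ : ℝ} {z : ℂ} :
    z ∈ P.Sct θ ↔ ∃ ρ t : ℝ, 0 < ρ ∧ |t| < 1 / 2 ∧ z = ρ * P.pt (θ + t) := by
  have h2 : (2 : ℝ) ≤ P.n := by exact_mod_cast P.two
  constructor
  · rintro ⟨h0, h1⟩
    exact ⟨‖z‖, P.ph θ z, norm_pos_iff.2 h0, h1, P.polar θ z⟩
  · rintro ⟨ρ, t, hρ, ht, rfl⟩
    refine ⟨fun h => hρ.ne' ?_, ?_⟩
    · rw [← P.norm_polar hρ.le (θ + t), h, norm_zero]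
    · rwa [P.ph_polar hρ (by linarith)]

end Poly

end

end Pool.Agent.P.MP_038aca_al.Top
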