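import Pool.Agent.P.MP_038aca_al.Top.Poly

/-! Sides and corners of the round polygon. -/

namespace Pool.Agent.P.MP_038aca_al.Top

open Set

noncomputable section

namespace Poly

variable {J : Type} (P : Poly J)

theorem Poly2_two : (2 : ℝ) ≤ P.n := by exact_mod_cast P.two

theorem Poly2_pos_lt (j : J) : ((P.pos j : ℕ) : ℝ) + 1 ≤ P.n := by
  exact_mod_cast (P.pos j).2

theorem Poly2_int {m : ℤ} (h : |(m : ℝ)| < 1) : m = 0 := by
  have : |m| < 1 := by exact_mod_cast h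
  exact Int.abs_lt_one_iff.1 this

/-- The angle of a point of a sector. -/
theorem Poly2_sct {θ φ ρ : ℝ} (hρ : 0 < ρ) (h : (ρ : ℂ) * P.pt φ ∈ P.Sct θ) :
    ∃ (k : ℤ) (t : ℝ), |t| < 1 / 2 ∧ θ + t = φ + k * P.n ∧ P.ph θ (ρ * P.pt φ) = t := by
  obtain ⟨ρ', t, h1, h2, h3⟩ := P.mem_Sct_iff.1 h
  obtain ⟨k, hk⟩ := P.pt_eq_iff.1 (P.polar_inj hρ h1 h3).2
  refine ⟨k, t, h2, hk, ?_⟩
  rw [h3]
  exact P.ph_polar h1 (by linarith [P.Poly2_two])

theorem Poly2_sct' {θ φ ρ : ℝ} (hρ : 0 < ρ) (h : |φ - θ| < 1 / 2) :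
    (ρ : ℂ) * P.pt φ ∈ P.Sct θ ∧ P.ph θ (ρ * P.pt φ) = φ - θ := by
  have e : φ = θ + (φ - θ) := by ring
  refine ⟨P.mem_Sct_iff.2 ⟨ρ, φ - θ, hρ, h, by rw [← e]⟩, ?_⟩
  conv_lhs => rw [e]
  exact P.ph_polar hρ (by linarith [P.Poly2_two])

theorem Poly2_an (a : J × Bool) :
    P.an a = ((P.pos a.1 : ℕ) : ℝ) + if P.sg a.1 = a.2 then 1 else 0 := by
  obtain ⟨j, e⟩ := a
  cases e <;> cases h : P.sg j <;> simp [an, th, h]

theorem Poly2_an_int (a : J × Bool) : ∃ m : ℤ, P.an a = m := by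
  rw [Poly2_an]
  split_ifs
  · exact ⟨(P.pos a.1 : ℕ) + 1, by push_cast; rfl⟩
  · exact ⟨(P.pos a.1 : ℕ), by push_cast; rw [add_zero]⟩

theorem Poly2_th_Icc {j : J} {u : ℝ} (hu : u ∈ Icc (0 : ℝ) 1) :
    P.th j u ∈ Icc ((P.pos j : ℕ) : ℝ) ((P.pos j : ℕ) + 1) := by
  unfold th
  split_ifs <;> constructor <;> linarith [hu.1, hu.2]

theorem Poly2_abs (j : J) (e : Bool) (u : ℝ) :
    |P.th j u - P.an (j, e)| = |u - if e then 1 else 0| := by
  unfold an th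
  dsimp only
  generalize (if e = true then (1 : ℝ) else 0) = c
  split_ifs
  · congr 1
    ring
  · rw [abs_sub_comm u c]
    congr 1
    ring

theorem th_mem {j : J} {u : ℝ} (hu : u ∈ Ioo (0 : ℝ) 1) :
    P.th j u ∈ Ioo ((P.pos j : ℕ) : ℝ) ((P.pos j : ℕ) + 1) := by
  unfold th
  split_ifs <;> constructor <;> linarith [hu.1, hu.2]

theorem th_mem_n {j : J} {u : ℝ} (hu : u ∈ Ioo (0 : ℝ) 1) : P.th j u ∈ Ioo (0 : ℝ) P.n := by
  have h := P.th_mem (j := j) hu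
  exact ⟨(Nat.cast_nonneg _).trans_lt h.1, h.2.trans_le (P.Poly2_pos_lt j)⟩

theorem th_half (j : J) : P.th j (1 / 2) = P.mid j := by
  unfold th mid
  split_ifs <;> norm_num

theorem continuous_th (j : J) : Continuous (P.th j) := by
  unfold th
  split_ifs <;> fun_prop

theorem th_inj {j j' : J} {u u' : ℝ} (hu : u ∈ Ioo (0 : ℝ) 1) (hu' : u' ∈ Icc (0 : ℝ) 1)
    (h : P.pt (P.th j u) = P.pt (P.th j' u')) : j = j' ∧ u = u' := by
  obtain ⟨k, hk⟩ := P.pt_eq_iff.1 h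
  have h1 := P.th_mem (j := j) hu
  have h2 := P.Poly2_th_Icc (j := j') hu'
  have h3 : ((P.pos j' : ℕ) : ℤ) - (P.pos j : ℕ) - k * P.n = 0 := by
    refine Poly2_int ?_
    push_cast
    rw [abs_lt]
    constructor <;> linarith [h1.1, h1.2, h2.1, h2.2]
  have h4 := (P.pos j).2
  have h5 := (P.pos j').2
  have h6 : k = 0 := by
    by_contra h0
    rcases lt_or_gt_of_ne h0 with h0 | h0 <;> nlinarith
  subst h6
  have h7 : j = j' := P.pos.injective (Fin.ext (by omega))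
  subst h7
  refine ⟨rfl, ?_⟩
  unfold th at hk
  split_ifs at hk <;> push_cast at hk <;> linarith

theorem side_mem {j : J} {ρ u : ℝ} (hρ : 0 < ρ) (hu : u ∈ Ioo (0 : ℝ) 1) :
    (ρ : ℂ) * P.pt (P.th j u) ∈ P.Sct (P.mid j) ∧ P.uc j (ρ * P.pt (P.th j u)) = u := by
  have h1 := P.th_mem (j := j) hu
  have h2 := P.Poly2_sct' (θ := P.mid j) (φ := P.th j u) hρ (by
    rw [abs_lt, mid]
    constructor <;> linarith [h1.1, h1.2])
  refine ⟨h2.1, ?_⟩
  rw [uc, h2.2]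
  unfold th mid
  split_ifs <;> ring

theorem side_polar {j : J} {z : ℂ} (hz : z ∈ P.Sct (P.mid j)) :
    P.uc j z ∈ Ioo (0 : ℝ) 1 ∧ z = ‖z‖ * P.pt (P.th j (P.uc j z)) := by
  have h1 := abs_lt.1 hz.2
  have h2 : P.th j (P.uc j z) = P.mid j + P.ph (P.mid j) z := by
    unfold th uc
    generalize P.ph (P.mid j) z = t
    unfold mid
    split_ifs <;> ring
  refine ⟨?_, by rw [h2]; exact P.polar _ z⟩
  unfold uc
  split_ifs <;> constructor <;> linarith [h1.1, h1.2]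

theorem side_unique {j j' : J} {z : ℂ} (hz : z ∈ P.Sct (P.mid j)) (hz' : z ∈ P.Sct (P.mid j')) :
    j = j' := by
  obtain ⟨h1, h2⟩ := P.side_polar hz
  obtain ⟨h3, h4⟩ := P.side_polar hz'
  have h0 := norm_pos_iff.2 hz.1
  exact (P.th_inj h1 (Ioo_subset_Icc_self h3) (P.polar_inj h0 h0 (h2.symm.trans h4)).2).1

/-- A point of a closed side lies in the sector of a side only if it is an inner point of it. -/
theorem side_of_mem {i j : J} {ρ u : ℝ} (hρ : 0 < ρ) (hu : u ∈ Icc (0 : ℝ) 1)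
    (h : (ρ : ℂ) * P.pt (P.th i u) ∈ P.Sct (P.mid j)) : i = j ∧ u ∈ Ioo (0 : ℝ) 1 := by
  obtain ⟨h1, h2⟩ := P.side_polar h
  obtain ⟨h3, h4⟩ := P.th_inj h1 hu (P.polar_inj hρ (norm_pos_iff.2 h.1) h2).2.symm
  exact ⟨h3.symm, h4 ▸ h1⟩

theorem exists_side (z : ℂ) : ∃ j, ∃ u ∈ Icc (0 : ℝ) 1, z = ‖z‖ * P.pt (P.th j u) := by
  have h1 := toIcoMod_mem_Ico P.n_pos 0 (P.ph 0 z)
  have h2 : P.pt (toIcoMod P.n_pos 0 (P.ph 0 z)) = P.pt (0 + P.ph 0 z) :=
    P.pt_eq_iff.2 ⟨toIcoDiv P.n_pos 0 (P.ph 0 z), by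
      rw [zero_add, ← zsmul_eq_mul, toIcoMod_add_toIcoDiv_zsmul]⟩
  have h3 := P.polar 0 z
  rw [← h2] at h3
  generalize toIcoMod P.n_pos 0 (P.ph 0 z) = θ at h1 h3
  rw [zero_add] at h1
  have h4 : ⌊θ⌋₊ < P.n := (Nat.floor_lt h1.1).2 h1.2
  have h5 := Nat.floor_le h1.1
  have h6 := Nat.lt_floor_add_one θ
  refine ⟨P.pos.symm ⟨_, h4⟩, if P.sg (P.pos.symm ⟨_, h4⟩) then θ - ⌊θ⌋₊ else 1 - (θ - ⌊θ⌋₊),
    by split_ifs <;> constructor <;> linarith, h3.trans ?_⟩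
  congr 2
  unfold th
  rw [Equiv.apply_symm_apply]
  split_ifs <;> ring

theorem vtx_not_mem (a : J × Bool) (j : J) {ρ : ℝ} (hρ : 0 ≤ ρ) :
    (ρ : ℂ) * P.vtx a ∉ P.Sct (P.mid j) := by
  intro h
  rcases hρ.eq_or_lt with rfl | h0
  · exact h.1 (by simp)
  · have h1 := (P.side_of_mem (i := a.1) (u := if a.2 then 1 else 0) h0
      (by split_ifs <;> simp) h).2
    split_ifs at h1 <;> simp at h1

/-- A point of a side near a corner. -/
theorem near {a : J × Bool} {j : J} {ρ u : ℝ} (hρ : 0 < ρ) (hu : u ∈ Icc (0 : ℝ) 1)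
    (h : (ρ : ℂ) * P.pt (P.th j u) ∈ P.Sct (P.an a)) : ∃ e : Bool, P.vtx (j, e) = P.vtx a ∧
      P.ph (P.an a) (ρ * P.pt (P.th j u)) = P.th j u - P.an (j, e) ∧
      |u - if e then 1 else 0| < 1 / 2 := by
  obtain ⟨k, t, h1, h2, h3⟩ := P.Poly2_sct hρ h
  obtain ⟨m, hm⟩ := P.Poly2_an_int a
  have h4 := P.Poly2_th_Icc (j := j) hu
  have h5 := abs_lt.1 h1
  have h6 : ∃ e : Bool, P.an a = P.an (j, e) + k * P.n := by
    rcases le_total (P.th j u - t) ((P.pos j : ℕ) + 1 / 2) with h6 | h6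
    · have h7 : m - k * P.n - (P.pos j : ℕ) = 0 := by
        refine Poly2_int ?_
        push_cast
        rw [abs_lt]
        constructor <;> linarith [h4.1, h4.2]
      have h8 : (m : ℝ) - k * P.n - (P.pos j : ℕ) = 0 := by exact_mod_cast h7
      refine ⟨!P.sg j, ?_⟩
      rw [P.Poly2_an (j, !P.sg j), if_neg (by simp)]
      linarith
    · have h7 : m - k * P.n - (P.pos j : ℕ) - 1 = 0 := by
        refine Poly2_int ?_
        push_cast
        rw [abs_lt]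
        constructor <;> linarith [h4.1, h4.2]
      have h8 : (m : ℝ) - k * P.n - (P.pos j : ℕ) - 1 = 0 := by exact_mod_cast h7
      refine ⟨P.sg j, ?_⟩
      rw [P.Poly2_an (j, P.sg j), if_pos rfl]
      linarith
  obtain ⟨e, he⟩ := h6
  have h7 : t = P.th j u - P.an (j, e) := by linarith
  exact ⟨e, P.pt_eq_iff.2 ⟨k, he⟩, h3.trans h7, by rwa [← P.Poly2_abs j, ← h7]⟩

theorem near' {j : J} {e : Bool} {ρ u : ℝ} (hρ : 0 < ρ) (h : |u - if e then 1 else 0| < 1 / 2) :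
    (ρ : ℂ) * P.pt (P.th j u) ∈ P.Sct (P.an (j, e)) ∧
      P.ph (P.an (j, e)) (ρ * P.pt (P.th j u)) = P.th j u - P.an (j, e) ∧
      |P.th j u - P.an (j, e)| = |u - if e then 1 else 0| := by
  have h1 := P.Poly2_sct' (θ := P.an (j, e)) (φ := P.th j u) hρ (by rwa [Poly2_abs])
  exact ⟨h1.1, h1.2, P.Poly2_abs j e u⟩

theorem corner_unique {a a' : J × Bool} {z : ℂ} (hz : z ∈ P.Sct (P.an a))
    (hz' : z ∈ P.Sct (P.an a')) : P.vtx a = P.vtx a' := by
  obtain ⟨ρ, t, h1, h2, rfl⟩ := P.mem_Sct_iff.1 hz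
  obtain ⟨k, t', h3, h4, -⟩ := P.Poly2_sct h1 hz'
  obtain ⟨m, hm⟩ := P.Poly2_an_int a
  obtain ⟨m', hm'⟩ := P.Poly2_an_int a'
  have h5 := abs_lt.1 h2
  have h6 := abs_lt.1 h3
  have h7 : m' - m - k * P.n = 0 := by
    refine Poly2_int ?_
    push_cast
    rw [abs_lt]
    constructor <;> linarith
  have h8 : (m' : ℝ) - m - k * P.n = 0 := by exact_mod_cast h7
  exact P.pt_eq_iff.2 ⟨k, by linarith⟩

theorem vtx_mem (a : J × Bool) : P.vtx a ∈ P.Sct (P.an a) := by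
  exact P.mem_Sct_iff.2 ⟨1, 0, one_pos, by norm_num, by simp [vtx]⟩

theorem Poly2_rot {n : ℕ} (i : Fin n) :
    (finRotate n i : ℕ) = i + 1 ∨ (finRotate n i : ℕ) = 0 ∧ (i : ℕ) + 1 = n := by
  cases n with
  | zero => exact i.elim0
  | succ n =>
    rw [coe_finRotate]
    split_ifs with h
    · exact Or.inr ⟨rfl, by rw [h, Fin.val_last]⟩
    · exact Or.inl rfl

/-- The corner of an end, and whether the side arrives there. -/
def Poly2_cor : J × Bool ≃ Fin P.n × Bool where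
  toFun a := if P.sg a.1 = a.2 then (finRotate _ (P.pos a.1), true) else (P.pos a.1, false)
  invFun b := if b.2 then (P.pos.symm ((finRotate _).symm b.1),
    P.sg (P.pos.symm ((finRotate _).symm b.1))) else (P.pos.symm b.1, !P.sg (P.pos.symm b.1))
  left_inv := by
    rintro ⟨j, e⟩
    by_cases h : P.sg j = e
    · simp only [h, if_true, Equiv.symm_apply_apply]
    · simp only [h, if_false, Equiv.symm_apply_apply, Bool.false_eq_true]
      rw [Bool.eq_not_iff.2 (Ne.symm h)]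
  right_inv := by
    rintro ⟨i, b⟩
    cases b
    · simp only [Bool.false_eq_true, if_false, Bool.eq_not_self, Equiv.apply_symm_apply]
    · simp only [if_true, Equiv.apply_symm_apply]

theorem Poly2_cor_snd (a : J × Bool) : (P.Poly2_cor a).2 = true ↔ P.sg a.1 = a.2 := by
  simp only [Poly2_cor, Equiv.coe_fn_mk]
  split_ifs with h <;> simp [h]

theorem Poly2_vtx (a : J × Bool) : P.vtx a = P.pt ((P.Poly2_cor a).1 : ℕ) := by
  rw [vtx, Poly2_an]
  simp only [Poly2_cor, Equiv.coe_fn_mk]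
  split_ifs with h
  · rcases Poly2_rot (P.pos a.1) with h1 | ⟨h1, h2⟩
    · rw [h1]
      push_cast
      rfl
    · have h3 : ((P.pos a.1 : ℕ) : ℝ) + 1 = 0 + P.n := by
        rw [zero_add]
        exact_mod_cast h2
      rw [h1, h3, pt_add_n, Nat.cast_zero]
  · rw [add_zero]

theorem Poly2_vtx_iff (a a' : J × Bool) :
    P.vtx a = P.vtx a' ↔ (P.Poly2_cor a).1 = (P.Poly2_cor a').1 := by
  rw [Poly2_vtx, Poly2_vtx]
  refine ⟨fun h => Fin.ext ?_, fun h => by rw [h]⟩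
  have h1 : ∀ i : Fin P.n, ((i : ℕ) : ℝ) ∈ Ico (0 : ℝ) P.n := fun i =>
    ⟨Nat.cast_nonneg _, by exact_mod_cast i.2⟩
  exact_mod_cast P.pt_injOn (h1 _) (h1 _) h

/-- The other end at the same corner. -/
theorem exists_turn : ∃ ι : Equiv.Perm (J × Bool), (∀ a, ι (ι a) = a) ∧ (∀ a, ι a ≠ a) ∧
    (∀ a a', P.vtx a = P.vtx a' ↔ a' = a ∨ a' = ι a) ∧
    ∀ a, (P.sg (ι a).1 = (ι a).2 ↔ ¬ P.sg a.1 = a.2) := by
  have hi : Function.Involutive fun a =>
      P.Poly2_cor.symm ((P.Poly2_cor a).1, !(P.Poly2_cor a).2) := fun a => by simp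
  refine ⟨hi.toPerm, hi, fun a h => ?_, fun a a' => ?_, fun a => ?_⟩
  · have h1 := congrArg (fun b => (P.Poly2_cor b).2) h
    simp at h1
  · rw [Poly2_vtx_iff, Function.Involutive.coe_toPerm, Equiv.eq_symm_apply,
      ← P.Poly2_cor.apply_eq_iff_eq]
    generalize P.Poly2_cor a = b
    generalize P.Poly2_cor a' = b'
    obtain ⟨i, e⟩ := b
    obtain ⟨i', e'⟩ := b'
    cases e <;> cases e' <;> simp [eq_comm]
  · rw [← Poly2_cor_snd, ← Poly2_cor_snd]
    simp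

theorem Poly2_ch {X : Type} (m : ℕ) (f : Fin (m + 1) → X × X) (x y : X) :
    Ch x (List.ofFn f) y ↔
      x = (f 0).1 ∧ (∀ i : Fin m, (f i.castSucc).2 = (f i.succ).1) ∧ (f (Fin.last m)).2 = y := by
  induction m generalizing x with
  | zero => simp [Ch]
  | succ m ih =>
    rw [List.ofFn_succ, Ch, ih, Fin.forall_fin_succ]
    simp only [Fin.castSucc_zero, Fin.succ_last, Fin.succ_castSucc, and_assoc]

theorem Poly2_cyc {X : Type} {n : ℕ} (hn : 2 ≤ n) (f : Fin n → X × X) :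
    (∃ x, Ch x (List.ofFn f) x) ↔ ∀ i, (f i).2 = (f (finRotate n i)).1 := by
  obtain ⟨m, rfl⟩ : ∃ m, n = m + 1 := ⟨n - 1, by omega⟩
  simp only [Poly2_ch, Fin.forall_fin_succ', finRotate_apply, Fin.last_add_one,
    Fin.coeSucc_eq_succ, exists_eq_left]

/-- Closed chains are the sections that depend only on the corner. -/
theorem ok_iff {G X : Type} [Group G] [MulAction G X] (κ : J → X × X) :
    (chSys G X).OK ((chSys G X).wd κ P.W) ↔ ∀ a a', P.vtx a = P.vtx a' → vt κ a = vt κ a' := by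
  have h1 : (chSys G X).wd κ P.W = List.ofFn fun i : Fin P.n =>
      (vt κ (P.Poly2_cor.symm (i, false)), vt κ (P.Poly2_cor.symm (finRotate _ i, true))) := by
    rw [Sys.wd, W, List.map_ofFn]
    congr 1
    funext i
    simp only [Poly2_cor, Equiv.coe_fn_symm_mk, Function.comp_apply, Sys.ev, vt, if_true,
      Equiv.symm_apply_apply, Bool.false_eq_true, if_false]
    cases P.sg (P.pos.symm i) <;> rfl
  rw [h1]
  refine (Poly2_cyc P.two _).trans ⟨fun h a a' => ?_, fun h i => h _ _ ?_⟩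
  · rw [Poly2_vtx_iff]
    obtain ⟨⟨i, e⟩, rfl⟩ := P.Poly2_cor.symm.surjective a
    obtain ⟨⟨i', e'⟩, rfl⟩ := P.Poly2_cor.symm.surjective a'
    rw [Equiv.apply_symm_apply, Equiv.apply_symm_apply]
    rintro (rfl : i = i')
    obtain ⟨i, rfl⟩ := (finRotate _).surjective i
    cases e <;> cases e'
    exacts [rfl, (h i).symm, h i, rfl]
  · rw [Poly2_vtx_iff, Equiv.apply_symm_apply, Equiv.apply_symm_apply]

end Poly

/-- Every pattern is the pattern of a polygon. -/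
theorem exists_poly {J : Type} (p : Pr J) {W : List (J × Bool)} (h : Pat W) (h2 : 2 ≤ W.length) :
    ∃ P : Poly J, P.toPr = p ∧ P.W = W ∧ P.n = W.length ∧
      ∀ i : Fin W.length, (P.pos (W.get i).1 : ℕ) = i ∧ P.sg (W.get i).1 = (W.get i).2 := by
  have h1 : W.map Prod.fst = List.ofFn fun i => (W.get i).1 := by
    conv_lhs => rw [← List.ofFn_get W, List.map_ofFn]
    rfl
  have h3 : Function.Bijective fun i => (W.get i).1 :=
    ⟨List.nodup_ofFn.1 (h1 ▸ h.nodup), fun j => List.mem_ofFn.1 (h1 ▸ h.all j)⟩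
  have h4 : ∀ i, (Equiv.ofBijective _ h3).symm (W.get i).1 = i := fun i =>
    (Equiv.ofBijective _ h3).symm_apply_apply i
  refine ⟨⟨p, W.length, (Equiv.ofBijective _ h3).symm,
    fun j => (W.get ((Equiv.ofBijective _ h3).symm j)).2, h2⟩, rfl, ?_, rfl, fun i => ?_⟩
  · refine Eq.trans ?_ (List.ofFn_get W)
    simp only [Poly.W, Equiv.symm_symm, Equiv.ofBijective_apply, h4]
  · simp only [h4, and_self]

end

end Pool.Agent.P.MP_038aca_al.Top
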