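import Pool.Agent.P.MP_038aca_al.Top.Chart

/-! The successive crossings of a line. -/

namespace Pool.Agent.P.MP_038aca_al.Top

open Set Topology

variable {J : Type} {G : Type} [Group G] {E : Type} [TopologicalSpace E] [MulAction G E]

/-- The crossings of a line during one period: in `[a i, b i]` the line crosses the band of the
side `j i` from the tile `g i` to the tile `g (i + 1)`, and in `[a i, b (i + 1)]` it stays in the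
enlarged tile `g (i + 1)`. -/
structure Crs (P : Poly J) (τ : J → G) (U : Set E) (dev : E → ℂ) (x : G) (c : ℝ → E) (δ : ℝ)
    (N : ℕ) (a b : ℕ → ℝ) (j : ℕ → J) (g : ℕ → G) : Prop where
  pos : 0 < N
  lt : ∀ i, a i < b i
  lt' : ∀ i, b i < a (i + 1)
  g_succ : ∀ i, g (i + 1) = g i * τ (j i)
  aN : a N = a 0 + 1
  bN : b N = b 0 + 1
  jN : j N = j 0
  gN : g N = x * g 0
  band : ∀ i, ∀ t ∈ Icc (a i) (b i), (g i)⁻¹ • c t ∈ U ∧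
    dev ((g i)⁻¹ • c t) ∈ P.Sct (P.mid (j i)) ∧ ‖dev ((g i)⁻¹ • c t)‖ ∈ Icc (1 - δ) (1 + δ)
  start : ∀ i, ‖dev ((g i)⁻¹ • c (a i))‖ = 1 - δ
  stop : ∀ i, ‖dev ((g i)⁻¹ • c (b i))‖ = 1 + δ
  tile : ∀ i, ∀ t ∈ Icc (a i) (b (i + 1)), (g (i + 1))⁻¹ • c t ∈ U ∧
    ‖dev ((g (i + 1))⁻¹ • c t)‖ ≤ 1 + δ

variable [ContinuousConstSMul G E] {P : Poly J} {τ : J → G} {U : Set E} {dev : E → ℂ} {x : G}
  {c : ℝ → E} {δ : ℝ}

/-- The point is in the closed enlarged tile `g`. -/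
def InO (U : Set E) (dev : E → ℂ) (δ : ℝ) (g : G) (e : E) : Prop :=
  g⁻¹ • e ∈ U ∧ ‖dev (g⁻¹ • e)‖ ≤ 1 + δ

/-- The point is in the open shrunk tile `g`. -/
def InI (U : Set E) (dev : E → ℂ) (δ : ℝ) (g : G) (e : E) : Prop :=
  g⁻¹ • e ∈ U ∧ ‖dev (g⁻¹ • e)‖ < 1 - δ

omit [ContinuousConstSMul G E] in
theorem Step_cross (h : Chart P τ U dev) {g : G} {e : E} {j : J} (h1 : g⁻¹ • e ∈ U)
    (h2 : dev (g⁻¹ • e) ∈ P.Sct (P.mid j)) :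
    (g * τ j)⁻¹ • e ∈ U ∧ ‖dev ((g * τ j)⁻¹ • e)‖ = 2 - ‖dev (g⁻¹ • e)‖ ∧
      dev ((g * τ j)⁻¹ • e) ∈ P.Sct (P.mid (P.σ j)) := by
  obtain ⟨h3, h4⟩ := h.cross _ h1 j h2
  have h5 := h.lt_two _ h1
  rw [mul_inv_rev, mul_smul, h4]
  exact ⟨h3, P.norm_polar (by linarith) _, (P.side_mem (by linarith) (P.side_polar h2).1).1⟩

omit [ContinuousConstSMul G E] in
theorem Step_two (h : Chart P τ U dev) {g g' : G} {e : E} (h1 : g⁻¹ • e ∈ U)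
    (h2 : g'⁻¹ • e ∈ U) : g' = g ∨ ∃ j, dev (g⁻¹ • e) ∈ P.Sct (P.mid j) ∧ g' = g * τ j := by
  rcases h.adj _ h1 (g'⁻¹ * g) (by rwa [mul_smul, smul_inv_smul]) with h3 | ⟨j, h3, h4⟩
  · exact Or.inl (inv_mul_eq_one.1 h3)
  · refine Or.inr ⟨j, h3, ?_⟩
    rw [← inv_inv (τ j), ← h4]
    group

theorem Step_open (h : Chart P τ U dev) (hc : Continuous c) (g : G) {O : Set ℂ} (hO : IsOpen O) :
    IsOpen {t | g⁻¹ • c t ∈ U ∧ dev (g⁻¹ • c t) ∈ O} :=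
  (h.cont.isOpen_inter_preimage h.isOpen hO).preimage (hc.const_smul g⁻¹)

theorem Step_open_lt (h : Chart P τ U dev) (hc : Continuous c) (g : G) (r : ℝ) :
    IsOpen {t | g⁻¹ • c t ∈ U ∧ ‖dev (g⁻¹ • c t)‖ < r} :=
  Step_open h hc g (O := {z | ‖z‖ < r}) (isOpen_lt continuous_norm continuous_const)

theorem Step_open_gt (h : Chart P τ U dev) (hc : Continuous c) (g : G) (r : ℝ) :
    IsOpen {t | g⁻¹ • c t ∈ U ∧ r < ‖dev (g⁻¹ • c t)‖} :=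
  Step_open h hc g (O := {z | r < ‖z‖}) (isOpen_lt continuous_const continuous_norm)

theorem Step_closed (h : Chart P τ U dev) (hc : Continuous c) (hf : Far P G U dev c δ) (g : G) :
    IsClosed {t | InO U dev δ g (c t)} := by
  refine isClosed_of_closure_subset fun b hb => ?_
  have hδ := hf.pos
  obtain ⟨k, hk, hk1⟩ := hf.cov b
  obtain ⟨k, rfl⟩ : ∃ k', k = k'⁻¹ := ⟨k⁻¹, (inv_inv k).symm⟩
  by_cases hg : g = k
  · subst hg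
    exact ⟨hk, by linarith⟩
  have key : ∀ t, InO U dev δ g (c t) → k⁻¹ • c t ∈ U →
      ∃ j, dev (k⁻¹ • c t) ∈ P.Sct (P.mid j) ∧ g = k * τ j ∧ 1 - δ ≤ ‖dev (k⁻¹ • c t)‖ := by
    intro t ht hkt
    obtain ⟨j, h1, h2⟩ := (Step_two h hkt ht.1).resolve_left hg
    refine ⟨j, h1, h2, ?_⟩
    have h3 := (Step_cross h hkt h1).2.1
    have h4 := ht.2
    rw [h2, h3] at h4
    linarith
  have h1 : 1 - δ ≤ ‖dev (k⁻¹ • c b)‖ := by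
    by_contra hlt
    obtain ⟨t, ht, ht'⟩ := mem_closure_iff.1 hb _ (Step_open_lt h hc k (1 - δ))
      ⟨hk, not_le.1 hlt⟩
    obtain ⟨j, -, -, h3⟩ := key t ht' ht.1
    exact absurd ht.2 (not_lt.2 h3)
  obtain ⟨j, hj⟩ := hf.far b _ hk h1
  obtain ⟨t, ht, ht'⟩ := mem_closure_iff.1 hb _ (Step_open h hc k (P.isOpen_Sct (P.mid j)))
    ⟨hk, hj⟩
  obtain ⟨j', h2, h3, -⟩ := key t ht' ht.1
  obtain rfl : j = j' := P.side_unique ht.2 h2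
  obtain ⟨h4, h5, -⟩ := Step_cross h hk hj
  rw [h3]
  exact ⟨h4, by rw [h5]; linarith⟩

theorem InI.eq (h : Chart P τ U dev) (hδ : 0 < δ) {g g' : G} {e : E} (h1 : InI U dev δ g e)
    (h2 : InO U dev δ g' e) : g = g' := by
  rcases Step_two h h1.1 h2.1 with h3 | ⟨j, h3, rfl⟩
  · exact h3.symm
  · have h4 := (Step_cross h h1.1 h3).2.1
    have h5 := h1.2
    have h6 := h2.2
    linarith

/-- One step: if the line visits the shrunk tile `g` at time `s` and leaves the enlarged tile for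
the first time at `b`, then it crosses a band. -/
theorem step (h : Chart P τ U dev) (hτ : IsLab P.toPr τ) (hc : Continuous c)
    (hf : Far P G U dev c δ) {g : G} {s b : ℝ} (hs : InI U dev δ g (c s))
    (hb : IsGLB {t | s ≤ t ∧ ¬ InO U dev δ g (c t)} b)
    (hne : {t | s ≤ t ∧ ¬ InO U dev δ g (c t)}.Nonempty) {a : ℝ}
    (ha : IsLUB {t | t ≤ b ∧ InI U dev δ g (c t)} a) :
    s < a ∧ a < b ∧ (∀ t ∈ Icc s b, InO U dev δ g (c t)) ∧ ‖dev (g⁻¹ • c a)‖ = 1 - δ ∧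
      ‖dev (g⁻¹ • c b)‖ = 1 + δ ∧ ∃ j, (∀ t ∈ Icc a b, dev (g⁻¹ • c t) ∈ P.Sct (P.mid j) ∧
        1 - δ ≤ ‖dev (g⁻¹ • c t)‖) ∧
        ∃ s', b < s' ∧ InI U dev δ (g * τ j) (c s') ∧
          ∀ t ∈ Icc a s', InO U dev δ (g * τ j) (c t) := by
  have hδ := hf.pos
  have hbc := hb.mem_closure hne
  have hsb : s ≤ b := hb.2 fun t ht => ht.1
  have hsb' : s < b := by
    refine hsb.lt_of_ne fun e => ?_
    subst e
    obtain ⟨t, ht, ht'⟩ := mem_closure_iff.1 hbc _ (Step_open_lt h hc g (1 - δ)) hs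
    exact ht'.2 ⟨ht.1, by linarith [ht.2]⟩
  have hO : ∀ t ∈ Icc s b, InO U dev δ g (c t) := by
    have h1 : Ico s b ⊆ {t | InO U dev δ g (c t)} := fun t ht => by
      by_contra h2
      exact absurd (hb.1 ⟨ht.1, h2⟩) (not_le.2 ht.2)
    have h2 := (Step_closed h hc hf g).closure_subset_iff.2 h1
    rwa [closure_Ico hsb'.ne] at h2
  have hbO := hO b ⟨hsb, le_rfl⟩
  have hbn : ‖dev (g⁻¹ • c b)‖ = 1 + δ := by
    refine hbO.2.eq_of_not_lt fun hlt => ?_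
    obtain ⟨t, ht, ht'⟩ := mem_closure_iff.1 hbc _ (Step_open_lt h hc g (1 + δ)) ⟨hbO.1, hlt⟩
    exact ht'.2 ⟨ht.1, ht.2.le⟩
  have hsa : s ≤ a := ha.1 ⟨hsb, hs⟩
  have hab : a ≤ b := ha.2 fun t ht => ht.1
  have haO := hO a ⟨hsa, hab⟩
  have ha1 : ‖dev (g⁻¹ • c a)‖ ≤ 1 - δ := by
    by_contra hlt
    obtain ⟨t, ht, ht'⟩ := mem_closure_iff.1 (ha.mem_closure ⟨s, hsb, hs⟩) _
      (Step_open_gt h hc g (1 - δ)) ⟨haO.1, not_le.1 hlt⟩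
    exact absurd ht.2 (not_lt.2 ht'.2.2.le)
  have hab' : a < b := by
    refine hab.lt_of_ne fun e => ?_
    subst e
    linarith
  have hI : ∀ t ∈ Ioc a b, 1 - δ ≤ ‖dev (g⁻¹ • c t)‖ := fun t ht => by
    by_contra hlt
    exact absurd (ha.1 ⟨ht.2, (hO t ⟨hsa.trans ht.1.le, ht.2⟩).1, not_le.1 hlt⟩) (not_le.2 ht.1)
  have han : ‖dev (g⁻¹ • c a)‖ = 1 - δ := by
    refine ha1.eq_of_not_lt fun hlt => ?_
    have h1 : a ∈ closure (Ioc a b) := by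
      rw [closure_Ioc hab'.ne]
      exact ⟨le_rfl, hab⟩
    obtain ⟨t, ht, ht'⟩ := mem_closure_iff.1 h1 _ (Step_open_lt h hc g (1 - δ)) ⟨haO.1, hlt⟩
    exact absurd ht.2 (not_lt.2 (hI t ht'))
  have hI' : ∀ t ∈ Icc a b, 1 - δ ≤ ‖dev (g⁻¹ • c t)‖ := fun t ht => by
    rcases ht.1.eq_or_lt with rfl | h1
    · exact han.ge
    · exact hI t ⟨h1, ht.2⟩
  have hU : ∀ t ∈ Icc a b, g⁻¹ • c t ∈ U := fun t ht => (hO t ⟨hsa.trans ht.1, ht.2⟩).1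
  obtain ⟨j, hj⟩ := hf.far a _ haO.1 han.ge
  have hS : Icc a b ⊆ {t | g⁻¹ • c t ∈ U ∧ dev (g⁻¹ • c t) ∈ P.Sct (P.mid j)} := by
    refine isPreconnected_Icc.subset_left_of_subset_union
      (v := {t | g⁻¹ • c t ∈ U ∧ dev (g⁻¹ • c t) ∈ ⋃ i ∈ {i | i ≠ j}, P.Sct (P.mid i)})
      (Step_open h hc g (P.isOpen_Sct _))
      (Step_open h hc g (isOpen_biUnion fun i _ => P.isOpen_Sct _)) ?_ ?_
      ⟨a, ⟨le_rfl, hab⟩, haO.1, hj⟩
    · refine Set.disjoint_left.2 fun t ht ht' => ?_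
      obtain ⟨i, hi, hi'⟩ := mem_iUnion₂.1 ht'.2
      exact hi (P.side_unique hi' ht.2)
    · intro t ht
      obtain ⟨i, hi⟩ := hf.far t _ (hU t ht) (hI' t ht)
      by_cases e : i = j
      · exact Or.inl ⟨hU t ht, e ▸ hi⟩
      · exact Or.inr ⟨hU t ht, mem_iUnion₂.2 ⟨i, e, hi⟩⟩
  refine ⟨hsa.lt_of_ne fun e => ?_, hab', hO, han, hbn, j,
    fun t ht => ⟨(hS ht).2, hI' t ht⟩, ?_⟩
  · subst e
    exact absurd hs.2 (not_lt.2 han.ge)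
  have hN := ((Step_open h hc g (P.isOpen_Sct (P.mid j))).inter
    (Step_open_gt h hc g (1 - δ))).mem_nhds ⟨hS ⟨hab, le_rfl⟩, hbO.1, by rw [hbn]; linarith⟩
  obtain ⟨l, u, hlu, hsub⟩ := mem_nhds_iff_exists_Ioo_subset.1 hN
  obtain ⟨s', hs1, hs2⟩ := mem_closure_iff.1 hbc _ isOpen_Ioo hlu
  have hbs : b < s' := (hb.1 hs2).lt_of_ne fun e => hs2.2 (e ▸ hbO)
  obtain ⟨h1, h2, -⟩ := Step_cross h (hsub hs1).1.1 (hsub hs1).1.2
  refine ⟨s', hbs, ⟨h1, ?_⟩, fun t ht => ?_⟩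
  · have h3 : 1 + δ < ‖dev (g⁻¹ • c s')‖ := not_le.1 fun h3 => hs2.2 ⟨(hsub hs1).1.1, h3⟩
    rw [h2]
    linarith
  · have h3 : (g⁻¹ • c t ∈ U ∧ dev (g⁻¹ • c t) ∈ P.Sct (P.mid j)) ∧
        1 - δ ≤ ‖dev (g⁻¹ • c t)‖ := by
      rcases le_or_gt t b with h3 | h3
      · exact ⟨hS ⟨ht.1, h3⟩, hI' t ⟨ht.1, h3⟩⟩
      · have h4 := hsub (show t ∈ Ioo l u from ⟨hlu.1.trans h3, ht.2.trans_lt hs1.2⟩)
        exact ⟨h4.1, h4.2.2.le⟩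
    obtain ⟨h4, h5, -⟩ := Step_cross h h3.1.1 h3.1.2
    exact ⟨h4, by rw [h5]; linarith [h3.2]⟩

/-- A line that never enters a shrunk tile has trivial class. -/
theorem exists_inI (h : Chart P τ U dev) (hτ : IsLab P.toPr τ) (hc : LineT 1 x c)
    (hf : Far P G U dev c δ) (hx : x ≠ 1) : ∃ s, ∃ g : G, InI U dev δ g (c s) := by
  by_contra hno
  have hge : ∀ t (g : G), g⁻¹ • c t ∈ U → 1 - δ ≤ ‖dev (g⁻¹ • c t)‖ := fun t g hg =>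
    not_lt.1 fun hlt => hno ⟨t, g, hg, hlt⟩
  obtain ⟨k, hk, -⟩ := hf.cov 0
  obtain ⟨k, rfl⟩ : ∃ k', k = k'⁻¹ := ⟨k⁻¹, (inv_inv k).symm⟩
  obtain ⟨j, hj⟩ := hf.far 0 _ hk (hge 0 k hk)
  have hcl : IsClosed {t | k⁻¹ • c t ∈ U ∧ dev (k⁻¹ • c t) ∈ P.Sct (P.mid j)} := by
    refine isClosed_of_closure_subset fun b hb => ?_
    have h1 : InO U dev δ k (c b) := by
      refine (Step_closed h hc.cont hf k).closure_subset_iff.2 (fun t ht => ?_) hb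
      obtain ⟨h1, h2, -⟩ := Step_cross h ht.1 ht.2
      have h3 := hge t _ h1
      exact ⟨ht.1, by linarith⟩
    obtain ⟨i, hi⟩ := hf.far b _ h1.1 (hge b k h1.1)
    obtain ⟨t, ht, ht'⟩ := mem_closure_iff.1 hb _
      (Step_open h hc.cont k (P.isOpen_Sct (P.mid i))) ⟨h1.1, hi⟩
    exact ⟨h1.1, P.side_unique ht.2 ht'.2 ▸ hi⟩
  have huniv := IsClopen.eq_univ ⟨hcl, Step_open h hc.cont k (P.isOpen_Sct (P.mid j))⟩
    ⟨0, hk, hj⟩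
  have h1 : k⁻¹ • c (0 + 1) ∈ U ∧ dev (k⁻¹ • c (0 + 1)) ∈ P.Sct (P.mid j) :=
    (huniv.symm ▸ mem_univ (0 + 1 : ℝ) :
      (0 + 1 : ℝ) ∈ {t | k⁻¹ • c t ∈ U ∧ dev (k⁻¹ • c t) ∈ P.Sct (P.mid j)})
  have e : k⁻¹ • c (0 + 1) = (x⁻¹ * k)⁻¹ • c 0 := by
    rw [hc.per, mul_inv_rev, inv_inv, mul_smul]
  rw [e] at h1
  rcases Step_two h hk h1.1 with h2 | ⟨i, h2, h3⟩
  · exact hx (inv_eq_one.1 (mul_eq_right.1 h2))
  · obtain rfl : j = i := P.side_unique hj h2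
    have h4 := (Step_cross h hk hj).2.2
    rw [← h3] at h4
    exact P.ne j (P.side_unique h4 h1.2)

end Pool.Agent.P.MP_038aca_al.Top
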