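import Pool.Agent.P.MP_038aca_al.Top.Bal

/-! Polygon patterns, edge data and the cut and paste move. -/

namespace Pool.Agent.P.MP_038aca_al.Top

/-- A pairing of the sides. -/
structure Pr (J : Type) where
  /-- the partner -/
  σ : J → J
  σσ : ∀ j, σ (σ j) = j
  ne : ∀ j, σ j ≠ j

/-- Every side occurs exactly once. -/
structure Pat {J : Type} (W : List (J × Bool)) : Prop where
  nodup : (W.map Prod.fst).Nodup
  all : ∀ j, j ∈ W.map Prod.fst

/-- The reversed list of sides. -/
def inv {J : Type} (L : List (J × Bool)) : List (J × Bool) :=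
  (L.map fun s => (s.1, !s.2)).reverse

/-- Labels of the neighbouring tiles. -/
def IsLab {J G : Type} [Group G] (p : Pr J) (τ : J → G) : Prop := ∀ j, τ (p.σ j) = (τ j)⁻¹

/-- A system of edge data that can be cut and glued. -/
structure Sys (G Ed : Type) [Group G] where
  /-- the action -/
  act : G → Ed → Ed
  /-- reversal -/
  rev : Ed → Ed
  /-- closed boundaries -/
  OK : List Ed → Prop
  act_one : ∀ c, act 1 c = c
  act_mul : ∀ g h c, act (g * h) c = act g (act h c)
  rev_rev : ∀ c, rev (rev c) = c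
  rev_act : ∀ g c, rev (act g c) = act g (rev c)
  rot : ∀ A B, OK (A ++ B) → OK (B ++ A)
  flip : ∀ A, OK A → OK (A.map rev).reverse
  smul : ∀ g A, OK A → OK (A.map (act g))
  glue : ∀ A B c, OK (A ++ [c]) → OK (rev c :: B) → OK (A ++ B)
  cut : ∀ A B, A ≠ [] → OK (A ++ B) → ∃ c, OK (A ++ [rev c]) ∧ OK (c :: B)

variable {J G Ed : Type} [Group G]

/-- The datum of a directed side. -/
def Sys.ev (S : Sys G Ed) (φ : J → Ed) (s : J × Bool) : Ed :=
  if s.2 then φ s.1 else S.rev (φ s.1)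

/-- The boundary of a list of sides. -/
def Sys.wd (S : Sys G Ed) (φ : J → Ed) (W : List (J × Bool)) : List Ed := W.map (S.ev φ)

/-- The data on the side `j` and on its partner match. -/
def Sys.Eqv (S : Sys G Ed) (p : Pr J) (τ : J → G) (φ : J → Ed) (j : J) : Prop :=
  φ j = S.act (τ j) (φ (p.σ j))

theorem Sys_inv_inv (L : List (J × Bool)) : inv (inv L) = L := by
  simp [inv, List.map_reverse, Function.comp_def]

theorem Sys_inv_fst (L : List (J × Bool)) : (inv L).map Prod.fst = (L.map Prod.fst).reverse := by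
  simp [inv, List.map_reverse, Function.comp_def]

theorem Sys_ev_not (S : Sys G Ed) (φ : J → Ed) (j : J) (e : Bool) :
    S.ev φ (j, !e) = S.rev (S.ev φ (j, e)) := by
  cases e <;> simp [Sys.ev, S.rev_rev]

theorem Sys_wd_inv (S : Sys G Ed) (φ : J → Ed) (L : List (J × Bool)) :
    S.wd φ (inv L) = ((S.wd φ L).map S.rev).reverse := by
  simp only [Sys.wd, inv, List.map_reverse, List.map_map]
  congr 1
  exact List.map_congr_left fun s _ => Sys_ev_not S φ s.1 s.2

theorem Sys_wd_append (S : Sys G Ed) (φ : J → Ed) (A B : List (J × Bool)) :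
    S.wd φ (A ++ B) = S.wd φ A ++ S.wd φ B := List.map_append

theorem Sys_wd_cons (S : Sys G Ed) (φ : J → Ed) (s : J × Bool) (B : List (J × Bool)) :
    S.wd φ (s :: B) = S.ev φ s :: S.wd φ B := rfl

theorem Sys_ev_act (S : Sys G Ed) {φ ψ : J → Ed} {i j : J} {g : G} (h : ψ j = S.act g (φ i))
    (e : Bool) : S.ev ψ (j, e) = S.act g (S.ev φ (i, e)) := by
  cases e <;> simp [Sys.ev, h, S.rev_act]

theorem Sys_wd_act (S : Sys G Ed) {φ ψ : J → Ed} {g : G} {L : List (J × Bool)}
    (h : ∀ s ∈ L, ψ s.1 = S.act g (φ s.1)) : S.wd ψ L = (S.wd φ L).map (S.act g) := by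
  simp only [Sys.wd, List.map_map]
  exact List.map_congr_left fun s hs => Sys_ev_act S (h s hs) s.2

theorem Sys_act_inv (S : Sys G Ed) {g : G} {c d : Ed} (h : c = S.act g d) :
    d = S.act g⁻¹ c := by
  rw [h, ← S.act_mul, inv_mul_cancel, S.act_one]

theorem Sys.Eqv.symm {S : Sys G Ed} {p : Pr J} {τ : J → G} {φ : J → Ed} {j : J} (hτ : IsLab p τ)
    (h : S.Eqv p τ φ j) : S.Eqv p τ φ (p.σ j) := by
  unfold Sys.Eqv
  rw [p.σσ, hτ]
  exact Sys_act_inv S h

theorem Pat.perm {W W' : List (J × Bool)} (h : Pat W)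
    (hp : (W.map Prod.fst).Perm (W'.map Prod.fst)) : Pat W' := by
  exact ⟨hp.nodup_iff.1 h.nodup, fun j => hp.mem_iff.1 (h.all j)⟩

theorem Pat.rot {W W' : List (J × Bool)} (h : Pat W) (hr : W ~r W') : Pat W' := by
  exact h.perm (hr.perm.map _)

theorem Sys.ok_rot (S : Sys G Ed) (φ : J → Ed) {W W' : List (J × Bool)} (hr : W ~r W')
    (h : S.OK (S.wd φ W)) : S.OK (S.wd φ W') := by
  obtain ⟨n, rfl⟩ := hr
  rw [List.rotate_eq_drop_append_take_mod, Sys_wd_append]
  refine S.rot _ _ ?_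
  rwa [← Sys_wd_append, List.take_append_drop]

/-- Cut the polygon `L₁ b L₂ · R₁ b' R₂` between the two halves and glue along `b`. -/
structure Mv (J : Type) where
  /-- sides before `b` -/
  L1 : List (J × Bool)
  /-- sides after `b` -/
  L2 : List (J × Bool)
  /-- sides before the partner -/
  R1 : List (J × Bool)
  /-- sides after the partner -/
  R2 : List (J × Bool)
  /-- the side -/
  b : J
  /-- its direction -/
  e : Bool
  /-- direction of the partner -/
  f : Bool

namespace Mv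

variable (p : Pr J) (M : Mv J)

/-- The first half. -/
def L : List (J × Bool) := M.L1 ++ (M.b, M.e) :: M.L2

/-- The second half. -/
def R : List (J × Bool) := M.R1 ++ (p.σ M.b, M.f) :: M.R2

/-- The old pattern. -/
def src : List (J × Bool) := M.L ++ M.R p

/-- The first half after the move. -/
def mid : List (J × Bool) :=
  if M.f = M.e then inv M.L1 ++ (p.σ M.b, M.f) :: inv M.L2 else M.L2 ++ (p.σ M.b, M.f) :: M.L1

/-- The new pattern. -/
def tgt : List (J × Bool) := (M.b, M.e) :: (M.R1 ++ (M.mid p ++ M.R2))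

open Classical in
/-- The translation applied to a side. -/
noncomputable def u (τ : J → G) (j : J) : G :=
  if j ∈ (M.L1 ++ M.L2).map Prod.fst then τ (p.σ M.b) else 1

/-- The new labels. -/
noncomputable def lab (τ : J → G) (j : J) : G := M.u p τ j * τ j * (M.u p τ (p.σ j))⁻¹

/-- The inverse move. -/
def back : Mv J :=
  if M.f = M.e then ⟨inv M.L1, inv M.L2, M.R2, M.R1, p.σ M.b, M.f, M.e⟩
  else ⟨M.L2, M.L1, M.R2, M.R1, p.σ M.b, M.f, M.e⟩

/-- Edge data before and after the move. -/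
structure Rel (S : Sys G Ed) (τ : J → G) (φ φ' : J → Ed) : Prop where
  other : ∀ j, j ≠ M.b → j ≠ p.σ M.b → φ' j = S.act (M.u p τ j) (φ j)
  old : φ (p.σ M.b) = S.act (τ (p.σ M.b)) (φ M.b)
  new : φ' (p.σ M.b) = S.act (τ (p.σ M.b)) (φ' M.b)
  left : S.OK (S.wd φ M.L ++ [S.rev (S.ev φ' (M.b, M.e))])
  right : S.OK (S.ev φ' (M.b, M.e) :: S.wd φ (M.R p))

theorem Sys_back_L : (M.back p).L = M.mid p := by
  unfold back mid L
  split_ifs <;> rfl

theorem Sys_back_R : (M.back p).R p = M.R2 ++ (M.b, M.e) :: M.R1 := by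
  unfold back R
  split_ifs <;> simp only [p.σσ]

theorem Sys_back_e : (M.back p).e = M.f := by
  unfold back
  split_ifs <;> rfl

theorem Sys_back_back : (M.back p).back p = M := by
  obtain ⟨L1, L2, R1, R2, b, e, f⟩ := M
  by_cases h : f = e
  · simp [back, h, Sys_inv_inv, p.σσ]
  · simp [back, h, Ne.symm h, p.σσ]

theorem Sys_back_mem (j : J) : j ∈ ((M.back p).L1 ++ (M.back p).L2).map Prod.fst ↔
    j ∈ (M.L1 ++ M.L2).map Prod.fst := by
  unfold back
  split_ifs
  · simp only [List.map_append, Sys_inv_fst, List.mem_append, List.mem_reverse]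
  · simp only [List.map_append, List.mem_append, or_comm]

theorem back_b : (M.back p).b = p.σ M.b := by
  unfold back
  split_ifs <;> rfl

theorem back_src : (M.back p).src p ~r M.tgt p := by
  unfold src tgt
  rw [Sys_back_L, Sys_back_R, ← List.append_assoc, ← List.cons_append]
  exact List.isRotated_append

theorem back_tgt : (M.back p).tgt p ~r M.src p := by
  have h := back_src p (M.back p)
  rw [Sys_back_back] at h
  exact h.symm

variable {p M} {S : Sys G Ed} {τ : J → G} {φ φ' : J → Ed}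

theorem pat_tgt (h : Pat (M.src p)) : Pat (M.tgt p) := by
  refine Pat.rot (W := (M.back p).src p) (h.perm ?_) (back_src p M)
  unfold src
  rw [Sys_back_L, Sys_back_R]
  unfold mid L R
  classical
  rw [List.perm_iff_count]
  intro j
  split_ifs <;>
    simp only [List.map_append, List.map_cons, Sys_inv_fst, List.count_append, List.count_cons,
      List.count_reverse] <;> omega

theorem Sys_L_not (h : Pat (M.src p)) {j : J} (hj : j ∈ (M.L1 ++ M.L2).map Prod.fst) :
    j ≠ M.b ∧ j ∉ (M.R p).map Prod.fst := by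
  have hn := h.nodup
  unfold src at hn
  rw [List.map_append, List.nodup_append] at hn
  obtain ⟨h1, -, h3⟩ := hn
  unfold L at h1 h3
  rw [List.map_append, List.map_cons, List.nodup_middle, List.nodup_cons, ← List.map_append] at h1
  refine ⟨fun e => h1.1 (e ▸ hj), fun k => h3 j ?_ j k rfl⟩
  simp only [List.map_append, List.map_cons, List.mem_append, List.mem_cons] at hj ⊢
  tauto

theorem Sys_R_ne (h : Pat (M.src p)) {s : J × Bool} (hs : s ∈ M.R1 ∨ s ∈ M.R2) :
    s.1 ≠ M.b ∧ s.1 ≠ p.σ M.b := by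
  have hn := h.nodup
  unfold src at hn
  rw [List.map_append, List.nodup_append] at hn
  obtain ⟨-, h2, h3⟩ := hn
  unfold R at h2 h3
  rw [List.map_append, List.map_cons, List.nodup_middle, List.nodup_cons, ← List.map_append] at h2
  have hs' : s.1 ∈ (M.R1 ++ M.R2).map Prod.fst := List.mem_map_of_mem (List.mem_append.2 hs)
  refine ⟨fun e => h3 M.b (by simp [L]) s.1 (List.mem_map_of_mem ?_) e.symm,
    fun e => h2.1 (e ▸ hs')⟩
  simp only [List.mem_append, List.mem_cons]
  tauto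

theorem Sys_b_mem : p.σ M.b ∈ (M.R p).map Prod.fst := by
  simp [R]

theorem u_b (h : Pat (M.src p)) (τ : J → G) : M.u p τ M.b = 1 ∧ M.u p τ (p.σ M.b) = 1 := by
  exact ⟨if_neg fun k => (Sys_L_not h k).1 rfl, if_neg fun k => (Sys_L_not h k).2 Sys_b_mem⟩

theorem u_R (h : Pat (M.src p)) (τ : J → G) {s : J × Bool} (hs : s ∈ M.R p) :
    M.u p τ s.1 = 1 := by
  exact if_neg fun k => (Sys_L_not h k).2 (List.mem_map_of_mem hs)

theorem u_L (τ : J → G) {s : J × Bool} (hs : s ∈ M.L1 ∨ s ∈ M.L2) :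
    M.u p τ s.1 = τ (p.σ M.b) := by
  exact if_pos (List.mem_map_of_mem (List.mem_append.2 hs))

theorem isLab_lab (hτ : IsLab p τ) : IsLab p (M.lab p τ) := by
  intro j
  unfold lab
  rw [p.σσ, hτ]
  group

theorem lab_b (h : Pat (M.src p)) (τ : J → G) :
    M.lab p τ M.b = τ M.b ∧ M.lab p τ (p.σ M.b) = τ (p.σ M.b) := by
  unfold lab
  rw [p.σσ, (u_b h τ).1, (u_b h τ).2]
  simp

theorem u_back (h : Pat (M.src p)) (hτ : IsLab p τ) (j : J) :
    (M.back p).u p (M.lab p τ) j = (M.u p τ j)⁻¹ := by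
  unfold u
  rw [back_b, p.σσ, (lab_b h τ).1, hτ]
  by_cases k : j ∈ (M.L1 ++ M.L2).map Prod.fst
  · rw [if_pos k, if_pos ((Sys_back_mem p M j).2 k), inv_inv]
  · rw [if_neg k, if_neg (mt (Sys_back_mem p M j).1 k), inv_one]

theorem back_lab (h : Pat (M.src p)) (hτ : IsLab p τ) : (M.back p).lab p (M.lab p τ) = τ := by
  funext j
  rw [lab, u_back h hτ, u_back h hτ, lab]
  group

theorem Sys_pat_back (h : Pat (M.src p)) : Pat ((M.back p).src p) :=
  (pat_tgt h).rot (back_src p M).symm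

theorem lab_back (h : Pat (M.src p)) (hτ : IsLab p τ) : M.lab p ((M.back p).lab p τ) = τ := by
  have k := back_lab (Sys_pat_back h) hτ
  rwa [Sys_back_back] at k

theorem map_lab {H : Type} [Group H] (F : G →* H) (τ : J → G) (j : J) :
    F (M.lab p τ j) = M.lab p (fun i => F (τ i)) j := by
  have k : ∀ i, F (M.u p τ i) = M.u p (fun i => F (τ i)) i := fun i => by
    unfold u
    split_ifs
    · rfl
    · exact map_one F
  unfold lab
  rw [map_mul, map_mul, map_inv, k, k]

/-- The move with a prescribed datum on the cut. -/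
theorem exists_rel_of_cut (hold : φ (p.σ M.b) = S.act (τ (p.σ M.b)) (φ M.b)) {c : Ed}
    (h1 : S.OK (S.wd φ M.L ++ [S.rev c])) (h2 : S.OK (c :: S.wd φ (M.R p))) :
    ∃ φ', M.Rel p S τ φ φ' ∧ S.ev φ' (M.b, M.e) = c := by
  classical
  have key : S.ev (fun j => if j = M.b then (if M.e then c else S.rev c) else if j = p.σ M.b then
      S.act (τ (p.σ M.b)) (if M.e then c else S.rev c) else S.act (M.u p τ j) (φ j))
      (M.b, M.e) = c := by
    cases M.e <;> simp [Sys.ev, S.rev_rev]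
  refine ⟨_, ⟨fun j a b => ?_, hold, ?_, ?_, ?_⟩, key⟩
  · simp only [if_neg a, if_neg b]
  · simp only [if_neg (p.ne M.b), if_true]
  · rwa [key]
  · rwa [key]

theorem exists_rel (hold : φ (p.σ M.b) = S.act (τ (p.σ M.b)) (φ M.b))
    (h : S.OK (S.wd φ (M.src p))) : ∃ φ', M.Rel p S τ φ φ' := by
  unfold src at h
  rw [Sys_wd_append] at h
  obtain ⟨c, h1, h2⟩ := S.cut _ _ (by simp [Sys.wd, L]) h
  obtain ⟨φ', k, -⟩ := exists_rel_of_cut hold h1 h2
  exact ⟨φ', k⟩

theorem Rel.ok_src (h : M.Rel p S τ φ φ') : S.OK (S.wd φ (M.src p)) := by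
  unfold src
  rw [Sys_wd_append]
  refine S.glue _ _ _ h.left ?_
  rw [S.rev_rev]
  exact h.right

theorem Rel.symm (hp : Pat (M.src p)) (hτ : IsLab p τ) (h : M.Rel p S τ φ φ') :
    (M.back p).Rel p S (M.lab p τ) φ' φ := by
  have hL : ∀ s : J × Bool, s ∈ M.L1 ∨ s ∈ M.L2 → φ' s.1 = S.act (τ (p.σ M.b)) (φ s.1) := by
    intro s hs
    have k := Sys_L_not hp (List.mem_map_of_mem (f := Prod.fst) (List.mem_append.2 hs))
    rw [h.other s.1 k.1 fun e => k.2 (e ▸ Sys_b_mem), u_L τ hs]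
  have hR : ∀ s : J × Bool, s ∈ M.R1 ∨ s ∈ M.R2 → S.ev φ' s = S.ev φ s := by
    intro s hs
    have k := Sys_R_ne hp hs
    have hs' : s ∈ M.R p := by
      simp only [R, List.mem_append, List.mem_cons]
      tauto
    have e := h.other s.1 k.1 k.2
    rw [u_R hp τ hs', S.act_one] at e
    unfold Sys.ev
    rw [e]
  have hb : τ M.b = (τ (p.σ M.b))⁻¹ := by rw [hτ, inv_inv]
  refine ⟨fun j a b => ?_, ?_, ?_, ?_, ?_⟩
  · rw [back_b] at a b
    rw [p.σσ] at b
    rw [u_back hp hτ]
    exact Sys_act_inv S (h.other j b a)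
  · rw [back_b, p.σσ, (lab_b hp τ).1, hb]
    exact Sys_act_inv S h.new
  · rw [back_b, p.σσ, (lab_b hp τ).1, hb]
    exact Sys_act_inv S h.old
  · have k := S.smul (τ (p.σ M.b)) _ h.left
    rw [L, Sys_wd_append, Sys_wd_cons, List.map_append, List.map_append, List.map_cons,
      List.map_cons, List.map_nil, ← Sys_wd_act S fun s hs => hL s (Or.inl hs),
      ← Sys_wd_act S fun s hs => hL s (Or.inr hs), ← S.rev_act, ← Sys_ev_act S h.old,
      ← Sys_ev_act S h.new] at k
    rw [Sys_back_L, back_b, Sys_back_e, mid]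
    split_ifs with hf
    · have k1 := S.flip _ k
      rw [hf, Sys_wd_append, Sys_wd_cons, Sys_wd_inv, Sys_wd_inv, List.append_assoc]
      refine S.rot _ _ ?_
      simpa [S.rev_rev] using k1
    · have hf' : M.f = !M.e := by
        revert hf
        cases M.f <;> cases M.e <;> simp
      rw [hf', Sys_wd_append, Sys_wd_cons, Sys_ev_not, Sys_ev_not, S.rev_rev]
      have k1 := S.rot (S.wd φ' M.L1 ++ [S.ev φ (p.σ M.b, M.e)])
        (S.wd φ' M.L2 ++ [S.rev (S.ev φ' (p.σ M.b, M.e))]) (by simpa using k)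
      simpa using k1
  · have k := h.right
    have e1 : S.wd φ' M.R1 = S.wd φ M.R1 := List.map_congr_left fun s hs => hR s (Or.inl hs)
    have e2 : S.wd φ' M.R2 = S.wd φ M.R2 := List.map_congr_left fun s hs => hR s (Or.inr hs)
    rw [R, Sys_wd_append, Sys_wd_cons, ← List.cons_append] at k
    rw [Sys_back_R, back_b, Sys_back_e, Sys_wd_append, Sys_wd_cons, e1, e2, ← List.cons_append]
    exact S.rot _ _ k

theorem Rel.ok_tgt (hp : Pat (M.src p)) (hτ : IsLab p τ) (h : M.Rel p S τ φ φ') :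
    S.OK (S.wd φ' (M.tgt p)) := by
  exact S.ok_rot φ' (back_src p M) (h.symm hp hτ).ok_src

theorem Rel.eqv (hp : Pat (M.src p)) (hτ : IsLab p τ) (h : M.Rel p S τ φ φ') {j : J}
    (hj : j ≠ M.b → j ≠ p.σ M.b → S.Eqv p τ φ j) : S.Eqv p (M.lab p τ) φ' j := by
  by_cases a : j = M.b
  · have k : S.Eqv p (M.lab p τ) φ' (p.σ M.b) := by
      unfold Sys.Eqv
      rw [p.σσ, (lab_b hp τ).2]
      exact h.new
    have k' := k.symm (isLab_lab hτ)
    rwa [p.σσ, ← a] at k'
  by_cases b : j = p.σ M.b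
  · unfold Sys.Eqv
    rw [b, p.σσ, (lab_b hp τ).2]
    exact h.new
  have a' : p.σ j ≠ M.b := fun e => b (by rw [← e, p.σσ])
  have b' : p.σ j ≠ p.σ M.b := fun e => a (by rw [← p.σσ j, e, p.σσ])
  have k : φ j = S.act (τ j) (φ (p.σ j)) := hj a b
  unfold Sys.Eqv lab
  rw [h.other j a b, h.other _ a' b', ← S.act_mul, inv_mul_cancel_right, S.act_mul, ← k]

/-- Data on the new pattern come from data on the old one. -/
theorem exists_rel_back (hp : Pat (M.src p)) (hτ : IsLab p τ)
    (hnew : φ' (p.σ M.b) = S.act (τ (p.σ M.b)) (φ' M.b)) (h : S.OK (S.wd φ' (M.tgt p))) :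
    ∃ φ, M.Rel p S τ φ φ' := by
  have h1 : φ' (p.σ (M.back p).b) = S.act (M.lab p τ (p.σ (M.back p).b)) (φ' (M.back p).b) := by
    rw [back_b, p.σσ, (lab_b hp τ).1, ← inv_inv (τ M.b), ← hτ]
    exact Sys_act_inv S hnew
  obtain ⟨φ, k⟩ := exists_rel h1 (S.ok_rot φ' (back_src p M).symm h)
  have k' := k.symm (Sys_pat_back hp) (isLab_lab hτ)
  rw [Sys_back_back, back_lab hp hτ] at k'
  exact ⟨φ, k'⟩

theorem Rel.eqv_back (hp : Pat (M.src p)) (hτ : IsLab p τ) (h : M.Rel p S τ φ φ') {j : J}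
    (hj : j ≠ M.b → j ≠ p.σ M.b → S.Eqv p (M.lab p τ) φ' j) : S.Eqv p τ φ j := by
  have k := (h.symm hp hτ).eqv (Sys_pat_back hp) (isLab_lab hτ) (j := j) fun a b => by
    rw [back_b] at a b
    rw [p.σσ] at b
    exact hj b a
  rwa [back_lab hp hτ] at k

end Mv

/-- The pairing after subdividing one pair of sides. -/
def Pr.ext (p : Pr J) : Pr (J ⊕ Bool) where
  σ := Sum.map p.σ (!·)
  σσ := by rintro (j | b) <;> simp [p.σσ]
  ne := by rintro (j | b) <;> simp [p.ne]

open Classical in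
/-- The subdivision of a directed side: `m` and its partner are cut into two pieces, the first
piece keeps the name. -/
noncomputable def sub1 (p : Pr J) (m : J) (s : J × Bool) : List ((J ⊕ Bool) × Bool) :=
  if s.1 = m then
    (if s.2 then [(.inl s.1, true), (.inr false, true)] else [(.inr false, false), (.inl s.1, false)])
  else if s.1 = p.σ m then
    (if s.2 then [(.inl s.1, true), (.inr true, true)] else [(.inr true, false), (.inl s.1, false)])
  else [(.inl s.1, s.2)]

/-- The subdivided pattern. -/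
noncomputable def sub (p : Pr J) (m : J) (W : List (J × Bool)) : List ((J ⊕ Bool) × Bool) :=
  W.flatMap (sub1 p m)

/-- The labels of the subdivided pattern. -/
def subLab (p : Pr J) (m : J) (τ : J → G) : J ⊕ Bool → G :=
  Sum.elim τ fun b => if b then τ (p.σ m) else τ m

theorem Sys_mem_sub1 (p : Pr J) (m : J) (s : J × Bool) (x : J ⊕ Bool) :
    x ∈ (sub1 p m s).map Prod.fst ↔
      x = .inl s.1 ∨ (s.1 = m ∧ x = .inr false) ∨ (s.1 = p.σ m ∧ x = .inr true) := by
  unfold sub1
  have hm : m ≠ p.σ m := (p.ne m).symm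
  split_ifs with h1 h2 h3 h4
  · simp [h1, hm]
  · simp [h1, hm, or_comm]
  · simp [h3, p.ne m]
  · simp [h3, p.ne m, or_comm]
  · simp [h1, h3]

theorem Sys_nodup_sub1 (p : Pr J) (m : J) (s : J × Bool) :
    ((sub1 p m s).map Prod.fst).Nodup := by
  unfold sub1
  split_ifs <;> simp

theorem Pat.sub {W : List (J × Bool)} (h : Pat W) (p : Pr J) (m : J) : Pat (sub p m W) := by
  have hall : ∀ j, ∃ s ∈ W, s.1 = j := fun j => List.mem_map.1 (h.all j)
  constructor
  · unfold Top.sub
    rw [List.map_flatMap, List.nodup_flatMap]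
    refine ⟨fun s _ => Sys_nodup_sub1 p m s, ?_⟩
    refine (List.pairwise_map.1 h.nodup).imp fun {s s'} hne => ?_
    intro x hx hx'
    rw [Sys_mem_sub1] at hx hx'
    rcases hx with rfl | ⟨a, rfl⟩ | ⟨a, rfl⟩ <;> rcases hx' with e | ⟨b, e⟩ | ⟨b, e⟩ <;>
      first
        | exact hne (Sum.inl.inj e)
        | exact hne (a.trans b.symm)
        | simp at e
  · intro x
    unfold Top.sub
    rw [List.map_flatMap, List.mem_flatMap]
    rcases x with j | b
    · obtain ⟨s, hs, rfl⟩ := hall j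
      exact ⟨s, hs, (Sys_mem_sub1 p m s _).2 (Or.inl rfl)⟩
    · cases b
      · obtain ⟨s, hs, e⟩ := hall m
        exact ⟨s, hs, (Sys_mem_sub1 p m s _).2 (Or.inr (Or.inl ⟨e, rfl⟩))⟩
      · obtain ⟨s, hs, e⟩ := hall (p.σ m)
        exact ⟨s, hs, (Sys_mem_sub1 p m s _).2 (Or.inr (Or.inr ⟨e, rfl⟩))⟩

theorem IsLab.sub {p : Pr J} {τ : J → G} (h : IsLab p τ) (m : J) :
    IsLab p.ext (subLab p m τ) := by
  rintro (j | b)
  · exact h j
  · cases b
    · exact h m
    · change τ m = (τ (p.σ m))⁻¹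
      rw [h, inv_inv]

end Pool.Agent.P.MP_038aca_al.Top
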