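import Pool.Agent.P.MP_038aca_al.Top.Til

/-! Stars of the corners and distances to corners. -/

namespace Pool.Agent.P.MP_038aca_al.Top.PolyV

open Set Topology

variable {J : Type} {P : PolyV J} {G : Type} [Group G] {τ : J → G}

theorem Til2_norm {j : J} {z z' : P.D} (h : P.Gj j z z') : ‖(z : ℂ)‖ = 1 := by
  obtain ⟨u, -, h1, -⟩ := h
  rw [h1, P.norm_pt]

/-- Glued points near a corner. -/
theorem Til2_near {j : J} {z z' : P.D} (h : P.Gj j z z') {a : J × Bool}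
    (hz : (z : ℂ) ∈ P.Sct (P.an a)) : ∃ e : Bool, P.vtx (j, e) = P.vtx a ∧
      (z' : ℂ) ∈ P.Sct (P.an (P.σ j, e)) ∧ P.NN (P.σ j, e) z' = P.NN a z := by
  have n1 := Til2_norm h
  have n2 := Til2_norm h.symm
  obtain ⟨u, hu, h1, h2⟩ := h
  have e1 : (z : ℂ) = (1 : ℝ) * P.pt (P.th j u) := by rw [h1, Complex.ofReal_one, one_mul]
  have e2 : (z' : ℂ) = (1 : ℝ) * P.pt (P.th (P.σ j) u) := by rw [h2, Complex.ofReal_one, one_mul]
  rw [e1] at hz
  obtain ⟨e, a1, a2, a3⟩ := P.near one_pos hu hz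
  obtain ⟨-, -, b3⟩ := P.near' (j := j) one_pos a3
  obtain ⟨c1, c2, c3⟩ := P.near' (j := P.σ j) one_pos a3
  rw [← e1] at a2
  rw [← e2] at c1 c2
  exact ⟨e, a1, c1, by rw [Poly.NN, Poly.NN, n1, n2, a2, c2, b3, c3]⟩

theorem Til2_cont (a : J × Bool) : Continuous fun z : ℂ => min (1 / 2) (P.NN a z) := by
  refine continuous_iff_continuousAt.2 fun z => ?_
  by_cases hz : z = 0
  · refine (continuousAt_const (y := (1 / 2 : ℝ))).congr ?_
    have h : ∀ᶠ w : ℂ in 𝓝 z, ‖w‖ < 1 / 2 :=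
      continuous_norm.continuousAt.eventually_lt continuousAt_const (by rw [hz]; norm_num)
    filter_upwards [h] with w hw
    refine (min_eq_left ?_).symm
    rw [Poly.NN]
    linarith [abs_nonneg (P.ph (P.an a) w)]
  · exact continuousAt_const.min ((continuousAt_const.sub continuous_norm.continuousAt).add
      (P.continuousAt_abs_ph _ hz))

/-- The stars of the corners and the label function on them. -/
theorem exists_star {k : J × Bool → G} (hk : P.Lab τ k) :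
    ∃ (O : Set (P.E τ)) (f : P.E τ → G),
      (∀ g z, P.tp τ g z ∈ O ↔ ∃ a ∈ P.V, (z : ℂ) ∈ P.Sct (P.an a)) ∧
      (∀ g (z : P.D), ∀ a ∈ P.V, (z : ℂ) ∈ P.Sct (P.an a) → f (P.tp τ g z) = g * k a) ∧
      ∀ h, IsOpen {e | e ∈ O ∧ f e = h} := by
  classical
  obtain ⟨φ, h1, h2⟩ : ∃ φ : G → P.D → Option G,
      (∀ g (z : P.D), ∀ a ∈ P.V, (z : ℂ) ∈ P.Sct (P.an a) → φ g z = some (g * k a)) ∧
      ∀ g (z : P.D), (¬ ∃ a ∈ P.V, (z : ℂ) ∈ P.Sct (P.an a)) → φ g z = none := by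
    refine ⟨fun g z => if h : ∃ a ∈ P.V, (z : ℂ) ∈ P.Sct (P.an a) then some (g * k h.choose)
      else none, fun g z a ha hz => ?_, fun g z h => dif_neg h⟩
    have h : ∃ a ∈ P.V, (z : ℂ) ∈ P.Sct (P.an a) := ⟨a, ha, hz⟩
    exact (dif_pos h).trans (by rw [hk.k_vtx a _ (P.corner_unique hz h.choose_spec.2) ha])
  obtain ⟨F, hF⟩ := exists_lift (τ := τ) φ fun g j z z' h => by
    by_cases hz : ∃ a ∈ P.V, (z : ℂ) ∈ P.Sct (P.an a)
    · obtain ⟨a, ha, hz⟩ := hz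
      obtain ⟨e, a1, a2, -⟩ := Til2_near h hz
      have hj : (j, e) ∈ P.V := P.V_vtx _ _ a1.symm ha
      rw [h1 g z a ha hz, h1 _ z' _ (P.V_σ j e hj) a2, mul_assoc, ← hk.k_σ j e hj,
        hk.k_vtx _ _ a1 hj]
    · rw [h2 g z hz, h2 _ z' fun ⟨a, ha, hz'⟩ => ?_]
      obtain ⟨e, a1, a2, -⟩ := Til2_near h.symm hz'
      exact hz ⟨_, P.V_σ _ e (P.V_vtx _ _ a1.symm ha), a2⟩
  have hO : ∀ g z, P.tp τ g z ∈ {e | F e ≠ none} ↔ ∃ a ∈ P.V, (z : ℂ) ∈ P.Sct (P.an a) :=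
    fun g z => by
      rw [mem_ofPred_eq, hF]
      refine ⟨fun h => by_contra fun h' => h (h2 g z h'), fun ⟨a, ha, hz⟩ => ?_⟩
      rw [h1 g z a ha hz]
      exact Option.some_ne_none _
  have hf : ∀ g (z : P.D), ∀ a ∈ P.V, (z : ℂ) ∈ P.Sct (P.an a) →
      (F (P.tp τ g z)).getD 1 = g * k a := fun g z a ha hz => by
    rw [hF, h1 g z a ha hz, Option.getD_some]
  refine ⟨{e | F e ≠ none}, fun e => (F e).getD 1, hO, hf, fun h => (P.isOpen_E τ).2 fun g => ?_⟩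
  refine isOpen_iff_forall_mem_open.2 fun z hz => ?_
  obtain ⟨a, ha, hz'⟩ := (hO g z).1 hz.1
  exact ⟨Subtype.val ⁻¹' P.Sct (P.an a), fun w hw => ⟨(hO g w).2 ⟨a, ha, hw⟩,
    (hf g w a ha hw).trans ((hf g z a ha hz').symm.trans hz.2)⟩,
    (P.isOpen_Sct _).preimage continuous_subtype_val, hz'⟩

/-- A truncated distance to a set of corners. -/
theorem exists_dist (A : Set (J × Bool)) (hA : ∀ j e, (j, e) ∈ A → (P.σ j, e) ∈ A)
    (hA' : ∀ a a', P.vtx a = P.vtx a' → a ∈ A → a' ∈ A) :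
    ∃ d : P.E τ → ℝ, Continuous d ∧ (∀ (h : G) e, d (h • e) = d e) ∧
      (∀ g (z : P.D), ∀ a ∈ A, d (P.tp τ g z) ≤ P.NN a z) ∧
      ∀ g (z : P.D), d (P.tp τ g z) < 1 / 2 → ∃ a ∈ A, d (P.tp τ g z) = P.NN a z := by
  classical
  have := P.finite
  obtain ⟨φ, h0, h1, h2, h3⟩ : ∃ φ : ℂ → ℝ, Continuous φ ∧ (∀ z, φ z ≤ 1 / 2) ∧
      (∀ z, ∀ a ∈ A, φ z ≤ P.NN a z) ∧ ∀ z, φ z < 1 / 2 → ∃ a ∈ A, φ z = P.NN a z := by
    have k2 : ∀ z, ∀ a ∈ A, A.toFinite.toFinset.fold min (1 / 2)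
        (fun a => min (1 / 2) (P.NN a z)) ≤ P.NN a z := fun z a ha =>
      (Finset.fold_min_le _).2 (Or.inr ⟨a, A.toFinite.mem_toFinset.2 ha, min_le_right _ _⟩)
    refine ⟨fun z => A.toFinite.toFinset.fold min (1 / 2) fun a => min (1 / 2) (P.NN a z), ?_,
      fun z => (Finset.fold_min_le _).2 (Or.inl le_rfl), k2, fun z hz => ?_⟩
    · induction A.toFinite.toFinset using Finset.induction_on with
      | empty => exact continuous_const
      | insert a s ha ih =>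
        simp only [Finset.fold_insert ha]
        exact (Til2_cont a).min ih
    · rcases (Finset.fold_min_le _).1 (le_refl (A.toFinite.toFinset.fold min (1 / 2)
        fun a => min (1 / 2) (P.NN a z))) with h | ⟨a, ha, h⟩
      · exact absurd hz (not_lt.2 h)
      · have ha' := A.toFinite.mem_toFinset.1 ha
        exact ⟨a, ha', le_antisymm (k2 z a ha')
          ((min_le_iff.1 h).resolve_left fun h' => absurd hz (not_lt.2 h'))⟩
  have key : ∀ j (z z' : P.D), P.Gj j z z' → φ z' ≤ φ z := fun j z z' h => by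
    by_cases hz : φ z < 1 / 2
    · obtain ⟨a, ha, e1⟩ := h3 z hz
      have n1 := Til2_norm h
      have hs : (z : ℂ) ∈ P.Sct (P.an a) := by
        refine ⟨norm_ne_zero_iff.1 (by rw [n1]; exact one_ne_zero), ?_⟩
        rwa [e1, Poly.NN, n1, sub_self, zero_add] at hz
      obtain ⟨e, a1, -, a3⟩ := Til2_near h hs
      rw [e1, ← a3]
      exact h2 _ _ (hA j e (hA' _ _ a1.symm ha))
    · exact (h1 _).trans (not_lt.1 hz)
  obtain ⟨d, hd⟩ := exists_lift (τ := τ) (fun _ (z : P.D) => φ z) fun g j z z' h =>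
    le_antisymm (key _ _ _ h.symm) (key _ _ _ h)
  refine ⟨d, (P.continuous_E τ).2 fun g => ?_, fun h e => ?_, fun g z a ha => ?_, fun g z hz => ?_⟩
  · simp only [hd]
    exact h0.comp continuous_subtype_val
  · obtain ⟨g, z, rfl⟩ := P.exists_tp τ e
    rw [smul_tp, hd, hd]
  · rw [hd]
    exact h2 z a ha
  · rw [hd] at hz ⊢
    exact h3 z hz

end Pool.Agent.P.MP_038aca_al.Top.PolyV
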