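import Pool.Agent.P.MP_038aca_al.Top.Sys

/-! Vertex sections and valid labelled patterns. -/

namespace Pool.Agent.P.MP_038aca_al.Top

open scoped Pointwise

/-- A chain of edges from `x` to `y`. -/
def Ch {X : Type} : X → List (X × X) → X → Prop
  | x, [], y => x = y
  | x, c :: l, y => x = c.1 ∧ Ch c.2 l y

theorem ch_append {X : Type} {x y : X} {A B : List (X × X)} :
    Ch x (A ++ B) y ↔ ∃ z, Ch x A z ∧ Ch z B y := by
  induction A generalizing x with
  | nil => simp [Ch]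
  | cons c A ih =>
    simp only [List.cons_append, Ch, ih]
    exact ⟨fun ⟨h, z, h1, h2⟩ => ⟨z, ⟨h, h1⟩, h2⟩, fun ⟨z, ⟨h, h1⟩, h2⟩ => ⟨h, z, h1, h2⟩⟩

theorem Ch.map {X Y : Type} (f : X → Y) {x y : X} {A : List (X × X)} (h : Ch x A y) :
    Ch (f x) (A.map (Prod.map f f)) (f y) := by
  induction A generalizing x with
  | nil => exact congrArg f h
  | cons c A ih => exact ⟨congrArg f h.1, ih h.2⟩

theorem Ch.reverse {X : Type} {x y : X} {A : List (X × X)} (h : Ch x A y) :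
    Ch y (A.map Prod.swap).reverse x := by
  induction A generalizing x with
  | nil => exact Eq.symm h
  | cons c A ih =>
    rw [List.map_cons, List.reverse_cons]
    exact ch_append.2 ⟨c.2, ih h.2, rfl, h.1.symm⟩

/-- Chains as a system of edge data. -/
def chSys (G X : Type) [Group G] [MulAction G X] : Sys G (X × X) where
  act g c := (g • c.1, g • c.2)
  rev := Prod.swap
  OK A := ∃ x, Ch x A x
  act_one c := by simp
  act_mul g h c := by simp [mul_smul]
  rev_rev _ := rfl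
  rev_act _ _ := rfl
  rot A B := fun ⟨x, h⟩ => by
    obtain ⟨z, h1, h2⟩ := ch_append.1 h
    exact ⟨z, ch_append.2 ⟨x, h2, h1⟩⟩
  flip A := fun ⟨x, h⟩ => ⟨x, h.reverse⟩
  smul g A := fun ⟨x, h⟩ => ⟨g • x, h.map (g • ·)⟩
  glue A B c := fun ⟨x, h⟩ ⟨y, h'⟩ => by
    obtain ⟨z, h1, h2, h3⟩ := ch_append.1 h
    obtain ⟨h4, h5⟩ := h'
    obtain rfl : y = x := h4.trans h3
    exact ⟨y, ch_append.2 ⟨z, h1, h2 ▸ h5⟩⟩
  cut A B _ := fun ⟨x, h⟩ => by
    obtain ⟨z, h1, h2⟩ := ch_append.1 h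
    exact ⟨(x, z), ⟨x, ch_append.2 ⟨z, h1, rfl, rfl⟩⟩, x, rfl, h2⟩

/-- The vertex at an end of a side. -/
def vt {J X : Type} (κ : J → X × X) (a : J × Bool) : X := if a.2 then (κ a.1).2 else (κ a.1).1

variable {J G : Type} [Group G]

/-- Equivariant vertex sections. -/
structure Sec {X : Type} [MulAction G X] (p : Pr J) (W : List (J × Bool)) (τ : J → G)
    (κ : J → X × X) : Prop where
  lab : IsLab p τ
  eqv : ∀ j, (chSys G X).Eqv p τ κ j
  ok : (chSys G X).OK ((chSys G X).wd κ W)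

theorem Sec.vt_eq {X : Type} [MulAction G X] {p : Pr J} {W : List (J × Bool)} {τ : J → G}
    {κ : J → X × X} (h : Sec p W τ κ) (j : J) (e : Bool) :
    vt κ (j, e) = τ j • vt κ (p.σ j, e) := by
  cases e
  · exact congrArg Prod.fst (h.eqv j)
  · exact congrArg Prod.snd (h.eqv j)

theorem Valid_act {X : Type} [MulAction G X] {κ κ' : J → X × X} {i j : J} {g : G}
    (h : κ' j = (chSys G X).act g (κ i)) (e : Bool) : vt κ' (j, e) = g • vt κ (i, e) := by
  cases e
  · exact congrArg Prod.fst h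
  · exact congrArg Prod.snd h

theorem Valid_ev {X : Type} [MulAction G X] (κ : J → X × X) (s : J × Bool) :
    (chSys G X).ev κ s = (vt κ (s.1, !s.2), vt κ s) := by
  obtain ⟨j, e⟩ := s
  cases e <;> rfl

theorem Valid_last (X : Type) [MulAction G X] (R : List (J × Bool)) (s : J × Bool) :
    ∃ a : J × Bool, ∀ (κ : J → X × X) (y : X), Ch (vt κ s) ((chSys G X).wd κ R) y → y = vt κ a := by
  induction R generalizing s with
  | nil => exact ⟨s, fun κ y h => Eq.symm h⟩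
  | cons t R ih =>
    obtain ⟨a, ha⟩ := ih t
    refine ⟨a, fun κ y h => ha κ y ?_⟩
    have h2 := h.2
    rwa [Valid_ev] at h2

theorem Valid_ends (X : Type) [MulAction G X] {R : List (J × Bool)} (hR : R ≠ []) :
    ∃ a₁ a₂ : J × Bool, ∀ (κ : J → X × X) (x y : X), Ch x ((chSys G X).wd κ R) y →
      x = vt κ a₁ ∧ y = vt κ a₂ := by
  obtain ⟨t, R, rfl⟩ := List.exists_cons_of_ne_nil hR
  obtain ⟨a, ha⟩ := Valid_last (G := G) X R t
  refine ⟨(t.1, !t.2), a, fun κ x y h => ?_⟩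
  obtain ⟨h1, h2⟩ := h
  rw [Valid_ev] at h1 h2
  exact ⟨h1, ha κ y h2⟩

theorem Valid_cut (p : Pr J) (M : Mv J) (X : Type) [MulAction G X] (e : Bool) :
    ∃ a : J × Bool, ∀ (τ : J → G) (κ κ' : J → X × X), M.Rel p (chSys G X) τ κ κ' →
      vt κ' (M.b, e) = vt κ a := by
  obtain ⟨a₁, a₂, ha⟩ := Valid_ends (G := G) X (R := M.R p) (by simp [Mv.R])
  have key : ∀ (τ : J → G) (κ κ' : J → X × X), M.Rel p (chSys G X) τ κ κ' →
      vt κ' (M.b, M.e) = vt κ a₁ ∧ vt κ' (M.b, !M.e) = vt κ a₂ := fun τ κ κ' h => by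
    obtain ⟨x, h1, h2⟩ := h.right
    rw [Valid_ev] at h1 h2
    subst h1
    exact ha κ _ _ h2
  by_cases he : e = M.e
  · exact ⟨a₁, fun τ κ κ' h => he ▸ (key τ κ κ' h).1⟩
  · exact ⟨a₂, fun τ κ κ' h => (Bool.eq_not_iff.2 he) ▸ (key τ κ κ' h).2⟩

/-- The new vertices are translates of old vertices, uniformly in the section. -/
theorem Mv.exists_vt (p : Pr J) (M : Mv J) (X : Type) [MulAction G X] (a' : J × Bool) :
    ∃ (a : J × Bool) (w : Bool), ∀ (τ : J → G) (κ κ' : J → X × X), M.Rel p (chSys G X) τ κ κ' →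
      vt κ' a' = (if w then τ (p.σ M.b) else 1) • vt κ a := by
  classical
  obtain ⟨j, e⟩ := a'
  obtain ⟨a, ha⟩ := Valid_cut (G := G) p M X e
  by_cases h1 : j = M.b
  · refine ⟨a, false, fun τ κ κ' h => ?_⟩
    rw [h1, ha τ κ κ' h]
    simp
  by_cases h2 : j = p.σ M.b
  · refine ⟨a, true, fun τ κ κ' h => ?_⟩
    rw [h2, Valid_act h.new, ha τ κ κ' h]
    simp
  · refine ⟨(j, e), decide (j ∈ (M.L1 ++ M.L2).map Prod.fst), fun τ κ κ' h => ?_⟩
    rw [Valid_act (h.other j h1 h2), Mv.u]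
    simp only [decide_eq_true_eq]

/-- The ends that carry a single element. -/
def sing (κ : J → Set G × Set G) : Set (J × Bool) := {a | ∃ g, vt κ a = {g}}

/-- Labelled patterns that present the group `G` with peripheral elements `c l`. -/
structure Valid {ι : Type} (c : ι → G) (p : Pr J) (W : List (J × Bool)) (τ : J → G)
    (κ : J → Set G × Set G) : Prop where
  pat : Pat W
  sec : Sec p W τ κ
  gen : Subgroup.closure (Set.range τ) = ⊤
  typ : ∀ a, a ∈ sing κ ∨ ∃ l, ∃ g : G, vt κ a = g • (Subgroup.zpowers (c l) : Set G)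
  occ : ∀ l, ∃ a, ∃ g : G, vt κ a = g • (Subgroup.zpowers (c l) : Set G)
  univ : ∀ (τ' : J → G) (κ' : J → Set G × Set G), Sec p W τ' κ' → sing κ ⊆ sing κ' →
    ∃ F : G →* G, (∀ j, F (τ j) = τ' j) ∧
      ∀ a (s : G), s • vt κ a = vt κ a → F s • vt κ' a = vt κ' a

variable {ι : Type} {c : ι → G} {p : Pr J} {W W' : List (J × Bool)} {τ τ' : J → G}
  {κ κ' : J → Set G × Set G}

theorem Valid_sec_rot {X : Type} [MulAction G X] {κ : J → X × X} (h : Sec p W τ κ)
    (hr : W ~r W') : Sec p W' τ κ :=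
  ⟨h.lab, h.eqv, (chSys G X).ok_rot κ hr h.ok⟩

theorem Valid_old {X : Type} [MulAction G X] {κ : J → X × X} (h : Sec p W τ κ) (j : J) :
    κ (p.σ j) = (chSys G X).act (τ (p.σ j)) (κ j) := by
  have := h.eqv (p.σ j)
  rwa [Sys.Eqv, p.σσ] at this

theorem Valid_sing {a a' : J × Bool} {t : G} (h : vt κ' a' = t • vt κ a) :
    a' ∈ sing κ' ↔ a ∈ sing κ := by
  constructor
  · rintro ⟨g, hg⟩
    exact ⟨t⁻¹ • g, by rw [← Set.smul_set_singleton, ← hg, h, inv_smul_smul]⟩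
  · rintro ⟨g, hg⟩
    exact ⟨t • g, by rw [h, hg, Set.smul_set_singleton]⟩

theorem Valid.rot (h : Valid c p W τ κ) (hr : W ~r W') : Valid c p W' τ κ :=
  ⟨h.pat.rot hr, Valid_sec_rot h.sec hr, h.gen, h.typ, h.occ,
    fun τ' κ' hs => h.univ τ' κ' (Valid_sec_rot hs hr.symm)⟩

theorem Valid.move {M : Mv J} (h : Valid c p (M.src p) τ κ) :
    ∃ κ', Valid c p (M.tgt p) (M.lab p τ) κ' := by
  have hp := h.pat
  have hτ := h.sec.lab
  obtain ⟨κ', hr⟩ := Mv.exists_rel (Valid_old h.sec M.b) h.sec.ok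
  refine ⟨κ', Mv.pat_tgt hp, ⟨Mv.isLab_lab hτ, fun j => hr.eqv hp hτ fun _ _ => h.sec.eqv j,
    hr.ok_tgt hp hτ⟩, ?_, fun a' => ?_, fun l => ?_, fun τ'' κ'' hs hsub => ?_⟩
  · rw [eq_top_iff, ← h.gen, Subgroup.closure_le]
    rintro _ ⟨j, rfl⟩
    have m : ∀ i, M.lab p τ i ∈ Subgroup.closure (Set.range (M.lab p τ)) :=
      fun i => Subgroup.subset_closure ⟨i, rfl⟩
    have u : ∀ i, M.u p τ i ∈ Subgroup.closure (Set.range (M.lab p τ)) := fun i => by
      rw [Mv.u]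
      split_ifs
      · rw [← (Mv.lab_b hp τ).2]
        exact m _
      · exact one_mem _
    have e : τ j = (M.u p τ j)⁻¹ * M.lab p τ j * M.u p τ (p.σ j) := by
      rw [Mv.lab]
      group
    rw [e]
    exact mul_mem (mul_mem (inv_mem (u j)) (m j)) (u _)
  · obtain ⟨a, w, ha⟩ := M.exists_vt (G := G) p (Set G) a'
    have e := ha τ κ κ' hr
    rcases h.typ a with h1 | ⟨l, g, hg⟩
    · exact Or.inl ((Valid_sing e).2 h1)
    · exact Or.inr ⟨l, _, by rw [e, hg, smul_smul]⟩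
  · obtain ⟨a, g, hg⟩ := h.occ l
    obtain ⟨a', w, ha⟩ := (M.back p).exists_vt (G := G) p (Set G) a
    have e := ha _ κ' κ (hr.symm hp hτ)
    rw [hg, ← inv_smul_eq_iff, smul_smul] at e
    exact ⟨a', _, e.symm⟩
  · obtain ⟨tb, htb⟩ : ∃ tb, tb = (M.back p).lab p τ'' := ⟨_, rfl⟩
    have l1 : IsLab p tb := htb ▸ Mv.isLab_lab hs.lab
    have l2 : M.lab p tb = τ'' := htb ▸ Mv.lab_back hp hs.lab
    obtain ⟨kb, hb⟩ := Mv.exists_rel_back (S := chSys G (Set G)) (φ' := κ'') hp l1 (by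
      rw [← (Mv.lab_b hp tb).2, l2]
      exact Valid_old hs M.b) hs.ok
    obtain ⟨F, hF, hst⟩ := h.univ tb kb ⟨l1, fun j => hb.eqv_back hp l1 fun _ _ => by
      rw [l2]
      exact hs.eqv j, hb.ok_src⟩ fun a ha => by
        obtain ⟨a', w, e⟩ := (M.back p).exists_vt (G := G) p (Set G) a
        exact (Valid_sing (e _ _ _ (hb.symm hp l1))).2
          (hsub ((Valid_sing (e _ _ _ (hr.symm hp hτ))).1 ha))
    refine ⟨F, fun j => ?_, fun a' s hs' => ?_⟩
    · rw [Mv.map_lab, funext hF, l2]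
    · obtain ⟨a, w, e⟩ := M.exists_vt (G := G) p (Set G) a'
      have e1 := e _ _ _ hr
      have e2 := e _ _ _ hb
      have ft : (if w then tb (p.σ M.b) else 1) = F (if w then τ (p.σ M.b) else 1) := by
        split_ifs
        · exact (hF _).symm
        · exact (map_one F).symm
      rw [ft] at e2
      generalize (if w then τ (p.σ M.b) else 1) = t at e1 e2
      rw [e1, ← inv_smul_eq_iff, smul_smul, smul_smul] at hs'
      have := hst a _ hs'
      rw [map_mul, map_mul, map_inv, ← smul_smul, ← smul_smul, inv_smul_eq_iff] at this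
      rw [e2, this]

end Pool.Agent.P.MP_038aca_al.Top
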