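import Pool.Agent.P.MP_038aca_al.Top.Valid

/-! Isomorphisms, subdivision and finiteness for valid patterns. -/

namespace Pool.Agent.P.MP_038aca_al.Top

open scoped Pointwise

variable {J G : Type} [Group G] {ι : Type} {c : ι → G} {p : Pr J} {W W' : List (J × Bool)}
  {τ τ' : J → G} {κ κ' : J → Set G × Set G}

/-- Automorphisms that permute the conjugacy classes of the `c l` up to inversion. -/
def Peri (c : ι → G) (F : G ≃* G) : Prop :=
  (∀ l, ∃ l', IsConj (F (c l)) (c l') ∨ IsConj (F (c l)) (c l')⁻¹) ∧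
    ∀ l, ∃ l', IsConj (F.symm (c l)) (c l') ∨ IsConj (F.symm (c l)) (c l')⁻¹

theorem Valid2_stab (g x s : G) :
    s • g • (Subgroup.zpowers x : Set G) = g • (Subgroup.zpowers x : Set G) ↔
      s ∈ Subgroup.zpowers (g * x * g⁻¹) := by
  have h1 : s ∈ Subgroup.zpowers (g * x * g⁻¹) ↔ g⁻¹ * s * g ∈ Subgroup.zpowers x := by
    constructor
    · rintro ⟨n, rfl⟩
      exact ⟨n, by simp only [conj_zpow]; group⟩
    · rintro ⟨n, hn⟩
      exact ⟨n, by simp only [conj_zpow] at hn ⊢; rw [hn]; group⟩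
  rw [h1, ← mul_smul, leftCoset_eq_iff, ← Subgroup.inv_mem_iff,
    show ((s * g)⁻¹ * g)⁻¹ = g⁻¹ * s * g by group]

theorem Valid2_half (hc : ∀ l, ¬ IsOfFinOrder (c l)) (h : Valid c p W τ κ)
    (h' : Valid c p W τ' κ') (hs : sing κ = sing κ') {F F' : G →* G} (hF : ∀ y, F (F' y) = y)
    (h1 : ∀ a (s : G), s • vt κ a = vt κ a → F s • vt κ' a = vt κ' a)
    (h2 : ∀ a (s : G), s • vt κ' a = vt κ' a → F' s • vt κ a = vt κ a) (l : ι) :
    ∃ l', IsConj (F (c l)) (c l') ∨ IsConj (F (c l)) (c l')⁻¹ := by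
  obtain ⟨a, g, ha⟩ := h.occ l
  have hn : a ∉ sing κ := by
    rintro ⟨u, hu⟩
    have e1 : g • (1 : G) ∈ ({u} : Set G) :=
      hu ▸ ha ▸ Set.smul_mem_smul_set (Subgroup.zpowers (c l)).one_mem
    have e2 : g • c l ∈ ({u} : Set G) :=
      hu ▸ ha ▸ Set.smul_mem_smul_set (Subgroup.mem_zpowers (c l))
    exact hc l (mul_left_cancel (e2.trans e1.symm) ▸ IsOfFinOrder.one)
  obtain ⟨l', g', ha'⟩ := (h'.typ a).resolve_left (hs ▸ hn)
  have k1 := h1 a (g * c l * g⁻¹)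
  have k2 := h2 a (g' * c l' * g'⁻¹)
  rw [ha, ha', Valid2_stab, Valid2_stab] at k1 k2
  obtain ⟨m, hm⟩ := k1 (Subgroup.mem_zpowers _)
  obtain ⟨n, hn⟩ := k2 (Subgroup.mem_zpowers _)
  have hy : ¬ IsOfFinOrder (g' * c l' * g'⁻¹) := fun e =>
    hc l' ((MulAut.conj g').injective.isOfFinOrder_iff (f := (MulAut.conj g').toMonoidHom).1 e)
  have e1 : Subgroup.zpowers (g' * c l' * g'⁻¹) = Subgroup.zpowers (F (g * c l * g⁻¹)) :=
    le_antisymm (Subgroup.zpowers_le_of_mem ⟨n, by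
      simp only at hn ⊢
      rw [← map_zpow, hn, hF]⟩) (Subgroup.zpowers_le_of_mem ⟨m, hm⟩)
  have e2 : IsConj (F (c l)) (F (g * c l * g⁻¹)) := F.map_isConj (isConj_iff.2 ⟨g, rfl⟩)
  refine ⟨l', ?_⟩
  rcases (Subgroup.zpowers_eq_zpowers_iff hy).1 e1 with e | e
  · exact .inl (e2.trans (isConj_iff.2 ⟨g'⁻¹, by rw [← e]; group⟩))
  · exact .inr (e2.trans (isConj_iff.2 ⟨g'⁻¹, by rw [← e]; group⟩))

theorem Valid.iso (hc : ∀ l, ¬ IsOfFinOrder (c l)) (h : Valid c p W τ κ) (h' : Valid c p W τ' κ')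
    (hs : sing κ = sing κ') : ∃ F : G ≃* G, Peri c F ∧ ∀ j, F (τ j) = τ' j := by
  obtain ⟨F, f1, f2⟩ := h.univ τ' κ' h'.sec hs.le
  obtain ⟨F', g1, g2⟩ := h'.univ τ κ h.sec hs.ge
  have e1 : F'.comp F = MonoidHom.id G := MonoidHom.eq_of_eqOn_dense h.gen (by
    rintro _ ⟨j, rfl⟩
    simp [f1, g1])
  have e2 : F.comp F' = MonoidHom.id G := MonoidHom.eq_of_eqOn_dense h'.gen (by
    rintro _ ⟨j, rfl⟩
    simp [f1, g1])
  exact ⟨MonoidHom.toMulEquiv F F' e1 e2,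
    ⟨Valid2_half hc h h' hs (DFunLike.congr_fun e2) f2 g2,
      Valid2_half hc h' h hs.symm (DFunLike.congr_fun e1) g2 f2⟩, f1⟩

/-- The data on the subdivided pattern restrict to the given data. -/
structure Valid2_R {X : Type} (p : Pr J) (m : J) (φ : J → X × X) (ψ : J ⊕ Bool → X × X) :
    Prop where
  other : ∀ j, j ≠ m → j ≠ p.σ m → φ j = ψ (.inl j)
  one : φ m = ((ψ (.inl m)).1, (ψ (.inr false)).2)
  two : φ (p.σ m) = ((ψ (.inl (p.σ m))).1, (ψ (.inr true)).2)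

section
variable {X : Type} [MulAction G X] {m : J} {φ : J → X × X} {ψ : J ⊕ Bool → X × X}

theorem Valid2_ch1 (h : Valid2_R p m φ ψ) (s : J × Bool) (x y : X) :
    Ch x ((chSys G X).wd ψ (sub1 p m s)) y ↔ Ch x [(chSys G X).ev φ s] y ∧
      (s.1 = m → (ψ (.inl m)).2 = (ψ (.inr false)).1) ∧
      (s.1 = p.σ m → (ψ (.inl (p.σ m))).2 = (ψ (.inr true)).1) := by
  obtain ⟨j, e⟩ := s
  have hr : (chSys G X).rev = Prod.swap := rfl
  by_cases h1 : j = m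
  · subst h1
    cases e <;> simp [sub1, Sys.wd, Sys.ev, hr, Ch, h.one, (p.ne j).symm] <;> tauto
  · by_cases h2 : j = p.σ m
    · subst h2
      cases e <;> simp [sub1, Sys.wd, Sys.ev, hr, Ch, h.two, h1] <;> tauto
    · simp [sub1, Sys.wd, Sys.ev, h1, h2, h.other j h1 h2]

theorem Valid2_ch (h : Valid2_R p m φ ψ) (W : List (J × Bool)) (x y : X) :
    Ch x ((chSys G X).wd ψ (sub p m W)) y ↔ Ch x ((chSys G X).wd φ W) y ∧ ∀ s ∈ W,
      (s.1 = m → (ψ (.inl m)).2 = (ψ (.inr false)).1) ∧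
      (s.1 = p.σ m → (ψ (.inl (p.σ m))).2 = (ψ (.inr true)).1) := by
  induction W generalizing x with
  | nil => simp [sub, Sys.wd]
  | cons s W ih =>
    have e1 : (chSys G X).wd ψ (sub p m (s :: W)) =
        (chSys G X).wd ψ (sub1 p m s) ++ (chSys G X).wd ψ (sub p m W) := by
      simp [sub, Sys.wd]
    have e2 : (chSys G X).wd φ (s :: W) = [(chSys G X).ev φ s] ++ (chSys G X).wd φ W := rfl
    rw [e1, e2, ch_append, ch_append, List.forall_mem_cons]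
    simp only [Valid2_ch1 h, ih]
    exact ⟨fun ⟨z, ⟨a, b⟩, c, d⟩ => ⟨⟨z, a, c⟩, b, d⟩, fun ⟨⟨z, a, c⟩, b, d⟩ => ⟨z, ⟨a, b⟩, c, d⟩⟩

end

theorem Valid2_up (p : Pr J) (m : J) (X : Type) (a : J × Bool) : ∃ a' : (J ⊕ Bool) × Bool,
    ∀ (φ : J → X × X) (ψ : J ⊕ Bool → X × X), Valid2_R p m φ ψ → vt ψ a' = vt φ a := by
  obtain ⟨j, e⟩ := a
  by_cases h1 : j = m
  · subst h1
    cases e
    · exact ⟨(.inl j, false), fun φ ψ h => by simp [vt, h.one]⟩
    · exact ⟨(.inr false, true), fun φ ψ h => by simp [vt, h.one]⟩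
  · by_cases h2 : j = p.σ m
    · subst h2
      cases e
      · exact ⟨(.inl (p.σ m), false), fun φ ψ h => by simp [vt, h.two]⟩
      · exact ⟨(.inr true, true), fun φ ψ h => by simp [vt, h.two]⟩
    · exact ⟨(.inl j, e), fun φ ψ h => by simp [vt, h.other j h1 h2]⟩

theorem Valid2_down (p : Pr J) (m : J) (X : Type) (a' : (J ⊕ Bool) × Bool) :
    (a' = (.inl m, true) ∨ a' = (.inl (p.σ m), true) ∨ ∃ b, a' = (.inr b, false)) ∨ ∃ a : J × Bool,
    ∀ (φ : J → X × X) (ψ : J ⊕ Bool → X × X), Valid2_R p m φ ψ → vt ψ a' = vt φ a := by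
  obtain ⟨j | b, e⟩ := a'
  · by_cases h1 : j = m
    · subst h1
      cases e
      · exact .inr ⟨(j, false), fun φ ψ h => by simp [vt, h.one]⟩
      · exact .inl (.inl rfl)
    · by_cases h2 : j = p.σ m
      · subst h2
        cases e
        · exact .inr ⟨(p.σ m, false), fun φ ψ h => by simp [vt, h.two]⟩
        · exact .inl (.inr (.inl rfl))
      · exact .inr ⟨(j, e), fun φ ψ h => by simp [vt, h.other j h1 h2]⟩
  · cases e
    · exact .inl (.inr (.inr ⟨b, rfl⟩))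
    · cases b
      · exact .inr ⟨(m, true), fun φ ψ h => by simp [vt, h.one]⟩
      · exact .inr ⟨(p.σ m, true), fun φ ψ h => by simp [vt, h.two]⟩

theorem Valid2_eqv {X J : Type} [MulAction G X] {p : Pr J} {τ : J → G} {φ : J → X × X} {j : J} :
    (chSys G X).Eqv p τ φ j ↔
      (φ j).1 = τ j • (φ (p.σ j)).1 ∧ (φ j).2 = τ j • (φ (p.σ j)).2 := Prod.ext_iff

theorem Valid2_ne {j m : J} (h1 : j ≠ m) (h2 : j ≠ p.σ m) : p.σ j ≠ m ∧ p.σ j ≠ p.σ m :=
  ⟨fun e => h2 (by rw [← e, p.σσ]), fun e => h1 (by rw [← p.σσ j, e, p.σσ])⟩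

/-- A section on the subdivided pattern with single elements at the new vertices restricts. -/
theorem Valid2_res {m : J} (hW : Pat W) {t : J ⊕ Bool → G} {ψ : J ⊕ Bool → Set G × Set G}
    (h : Sec p.ext (sub p m W) t ψ) (hs : (Sum.inl (p.σ m), true) ∈ sing ψ) :
    ∃ φ, Valid2_R p m φ ψ ∧ Sec p W (fun j => t (.inl j)) φ ∧ t (.inr false) = t (.inl m) ∧
      t (.inr true) = t (.inl (p.σ m)) := by
  classical
  obtain ⟨φ, hR⟩ : ∃ φ, Valid2_R p m φ ψ :=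
    ⟨fun j => if j = m then ((ψ (.inl m)).1, (ψ (.inr false)).2) else
      if j = p.σ m then ((ψ (.inl (p.σ m))).1, (ψ (.inr true)).2) else ψ (.inl j),
      fun j h1 h2 => by simp [h1, h2], by simp, by simp [p.ne m]⟩
  obtain ⟨x, hx⟩ := h.ok
  obtain ⟨h1, h2⟩ := (Valid2_ch hR W x x).1 hx
  obtain ⟨s1, a1, b1⟩ := List.mem_map.1 (hW.all m)
  obtain ⟨s2, a2, b2⟩ := List.mem_map.1 (hW.all (p.σ m))
  have m1 := (h2 s1 a1).1 b1
  have m2 := (h2 s2 a2).2 b2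
  obtain ⟨g, hg⟩ := hs
  have hg' : (ψ (.inl (p.σ m))).2 = {g} := hg
  have q1 : _ = _ • (ψ (.inl (p.σ m))).1 ∧ _ = _ • (ψ (.inl (p.σ m))).2 :=
    Valid2_eqv.1 (h.eqv (.inl m))
  have q2 : _ = _ • (ψ (.inr true)).1 ∧ _ = _ • (ψ (.inr true)).2 :=
    Valid2_eqv.1 (h.eqv (.inr false))
  have e1 : t (.inr false) = t (.inl m) := by
    have := q2.1.symm.trans (m1.symm.trans q1.2)
    rw [← m2, hg', Set.smul_set_singleton, Set.smul_set_singleton, Set.singleton_eq_singleton_iff]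
      at this
    exact mul_right_cancel this
  have hl : IsLab p fun j => t (.inl j) := fun j => h.lab (.inl j)
  have em : (chSys G (Set G)).Eqv p (fun j => t (.inl j)) φ m := by
    rw [Valid2_eqv, hR.one, hR.two]
    exact ⟨q1.1, e1 ▸ q2.2⟩
  refine ⟨φ, hR, ⟨hl, fun j => ?_, x, h1⟩, e1, ?_⟩
  · by_cases j1 : j = m
    · exact j1 ▸ em
    · by_cases j2 : j = p.σ m
      · exact j2 ▸ em.symm hl
      · rw [Valid2_eqv, hR.other j j1 j2, hR.other _ (Valid2_ne j1 j2).1 (Valid2_ne j1 j2).2]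
        exact Valid2_eqv.1 (h.eqv (.inl j))
  · exact (h.lab (.inr false)).trans (by rw [e1]; exact (h.lab (.inl m)).symm)

/-- The section on the subdivided pattern. -/
theorem Valid2_ext (h : Sec p W τ κ) (m : J) : ∃ ψ, Valid2_R p m κ ψ ∧
    Sec p.ext (sub p m W) (subLab p m τ) ψ ∧ (Sum.inl m, true) ∈ sing ψ ∧
      (Sum.inl (p.σ m), true) ∈ sing ψ ∧ ∀ b, (Sum.inr b, false) ∈ sing ψ := by
  classical
  obtain ⟨ψ, hR, e1, e2, e3, e4⟩ : ∃ ψ, Valid2_R p m κ ψ ∧ (ψ (.inl m)).2 = {1} ∧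
      (ψ (.inr false)).1 = {1} ∧ (ψ (.inl (p.σ m))).2 = {τ (p.σ m)} ∧
      (ψ (.inr true)).1 = {τ (p.σ m)} :=
    ⟨Sum.elim (fun j => if j = m then ((κ m).1, {1}) else
      if j = p.σ m then ((κ (p.σ m)).1, {τ (p.σ m)}) else κ j)
      fun b => if b then ({τ (p.σ m)}, (κ (p.σ m)).2) else ({1}, (κ m).2),
      ⟨fun j h1 h2 => by simp [h1, h2], by simp, by simp [p.ne m]⟩, by simp, by simp,
      by simp [p.ne m], by simp⟩
  have hl := h.lab.sub m
  have q := Valid2_eqv.1 (h.eqv m)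
  rw [hR.one, hR.two] at q
  have e5 : ({1} : Set G) = τ m • {τ (p.σ m)} := by simp [h.lab m]
  have k1 : (chSys G (Set G)).Eqv p.ext (subLab p m τ) ψ (.inl m) :=
    Valid2_eqv.2 ⟨q.1, e1.trans (e5.trans (congrArg _ e3.symm))⟩
  have k2 : (chSys G (Set G)).Eqv p.ext (subLab p m τ) ψ (.inr false) :=
    Valid2_eqv.2 ⟨e2.trans (e5.trans (congrArg _ e4.symm)), q.2⟩
  obtain ⟨x, hx⟩ := h.ok
  refine ⟨ψ, hR, ⟨hl, ?_, x, (Valid2_ch hR W x x).2 ⟨hx, fun s _ =>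
    ⟨fun _ => e1.trans e2.symm, fun _ => e3.trans e4.symm⟩⟩⟩, ⟨_, e1⟩, ⟨_, e3⟩, ?_⟩
  · rintro (j | b)
    · by_cases j1 : j = m
      · exact j1 ▸ k1
      · by_cases j2 : j = p.σ m
        · exact j2 ▸ k1.symm hl
        · have := Valid2_eqv.1 (h.eqv j)
          rw [hR.other j j1 j2, hR.other _ (Valid2_ne j1 j2).1 (Valid2_ne j1 j2).2] at this
          exact Valid2_eqv.2 this
    · cases b
      · exact k2
      · exact k2.symm hl
  · rintro (_ | _)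
    · exact ⟨_, e2⟩
    · exact ⟨_, e4⟩

theorem Valid.sub (h : Valid c p W τ κ) (m : J) :
    ∃ κ', Valid c p.ext (sub p m W) (subLab p m τ) κ' := by
  obtain ⟨ψ, hR, hS, s1, s2, s3⟩ := Valid2_ext h.sec m
  have hsing : ∀ a', (a' = (.inl m, true) ∨ a' = (.inl (p.σ m), true) ∨
      ∃ b, a' = (.inr b, false)) → a' ∈ sing ψ := by
    rintro _ (rfl | rfl | ⟨b, rfl⟩)
    exacts [s1, s2, s3 b]
  refine ⟨ψ, h.pat.sub p m, hS, ?_, fun a' => ?_, fun l => ?_, fun t ψ' hS' hs => ?_⟩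
  · exact top_unique (h.gen ▸ Subgroup.closure_mono (by
      rintro _ ⟨j, rfl⟩
      exact ⟨.inl j, rfl⟩))
  · rcases Valid2_down p m (Set G) a' with h1 | ⟨a, ha⟩
    · exact .inl (hsing _ h1)
    · have := h.typ a
      rw [sing, Set.mem_ofPred_eq, ← ha κ ψ hR] at this
      exact this
  · obtain ⟨a, g, ha⟩ := h.occ l
    obtain ⟨a', ha'⟩ := Valid2_up p m (Set G) a
    exact ⟨a', g, (ha' κ ψ hR).trans ha⟩
  · obtain ⟨φ, hR', hS'', e1, e2⟩ := Valid2_res h.pat hS' (hs s2)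
    obtain ⟨F, f1, f2⟩ := h.univ _ φ hS'' fun a ⟨g, hg⟩ => by
      obtain ⟨a', ha'⟩ := Valid2_up p m (Set G) a
      obtain ⟨g', hg'⟩ := hs (a := a') ⟨g, (ha' κ ψ hR).trans hg⟩
      exact ⟨g', (ha' φ ψ' hR').symm.trans hg'⟩
    refine ⟨F, ?_, fun a' s hs' => ?_⟩
    · rintro (j | _ | _)
      exacts [f1 j, (f1 m).trans e1.symm, (f1 _).trans e2.symm]
    · rcases Valid2_down p m (Set G) a' with h1 | ⟨a, ha⟩
      · obtain ⟨g, hg⟩ := hsing _ h1
        rw [hg, Set.smul_set_singleton, Set.singleton_eq_singleton_iff, smul_eq_mul,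
          mul_eq_right] at hs'
        rw [hs', map_one, one_smul]
      · rw [ha κ ψ hR] at hs'
        rw [ha φ ψ' hR']
        exact f2 a s hs'

/-- The labels of valid patterns lie in finitely many orbits. -/
theorem finite_labels [Finite J] (hc : ∀ l, ¬ IsOfFinOrder (c l)) (p : Pr J) :
    ∃ C : Set G, C.Finite ∧ ∀ W τ κ, Valid c p W τ κ → ∀ m,
      ∃ F : G ≃* G, Peri c F ∧ ∃ y ∈ C, F y = τ m := by
  have := Fintype.ofFinite J
  let K : Set (List (J × Bool) × Set (J × Bool)) :=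
    {k | ∃ τ κ, Valid c p k.1 τ κ ∧ sing κ = k.2}
  have hK : K.Finite := ((List.finite_length_le (J × Bool) (Fintype.card J)).prod
    Set.finite_univ).subset fun k ⟨τ, κ, h, _⟩ =>
      ⟨by simpa using h.pat.nodup.length_le_card, trivial⟩
  have := hK.to_subtype
  choose τ₀ κ₀ h₀ hs using fun k : K => k.2
  refine ⟨Set.range fun x : K × J => τ₀ x.1 x.2, Set.finite_range _, fun W τ κ h m => ?_⟩
  obtain ⟨F, f1, f2⟩ := (h₀ ⟨(W, sing κ), τ, κ, h, rfl⟩).iso hc h (hs _)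
  exact ⟨F, f1, _, ⟨(_, m), rfl⟩, f2 m⟩

end Pool.Agent.P.MP_038aca_al.Top
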